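import Pool.Agent.PRC.StE

/-!
# BEL: lower bounds for the functionals of `UU K` on `K` and on `W`
-/

set_option autoImplicit false

open MeasureTheory Set Filter Topology
open Pool.Agent.H30.Sccp

namespace Pool.Agent.PRC

namespace BELaux

variable {E : Type} [NormedAddCommGroup E] [NormedSpace ℝ E] [FiniteDimensional ℝ E]

/-- A functional on a finite-dimensional space is bounded. -/
theorem bound (η : E →ₗ[ℝ] ℝ) : ∃ M : ℝ, 0 < M ∧ ∀ x : E, |η x| ≤ M * ‖x‖ := by
  refine ⟨‖LinearMap.toContinuousLinearMap η‖ + 1, by positivity, fun x => ?_⟩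
  have h := (LinearMap.toContinuousLinearMap η).le_opNorm x
  simp only [LinearMap.coe_toContinuousLinearMap', Real.norm_eq_abs] at h
  refine h.trans ?_
  have := norm_nonneg x
  nlinarith

/-- The lower bound on the cone. -/
theorem lowK {K : Set E} (hK : IsCone K) {ξ : E →ₗ[ℝ] ℝ} (hξ : ξ ∈ UU K) :
    ∃ c : ℝ, 0 < c ∧ ∀ d ∈ K, c * ‖d‖ ≤ ξ d := by
  have hcont : Continuous ξ := ξ.continuous_of_finiteDimensional
  have hcomp : IsCompact (K ∩ Metric.sphere (0 : E) 1) :=
    (isCompact_sphere (0 : E) 1).inter_left hK.closed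
  -- normalisation
  have hmem : ∀ d ∈ K, d ≠ 0 → (‖d‖)⁻¹ • d ∈ K ∩ Metric.sphere (0 : E) 1 := by
    intro d hd h0
    refine ⟨hK.smul _ (by positivity) d hd, ?_⟩
    rw [mem_sphere_zero_iff_norm, norm_smul, norm_inv, norm_norm]
    exact inv_mul_cancel₀ (norm_ne_zero_iff.mpr h0)
  by_cases hne : (K ∩ Metric.sphere (0 : E) 1).Nonempty
  · obtain ⟨u, hu, hmin⟩ := hcomp.exists_isMinOn hne hcont.continuousOn
    have hu0 : u ≠ 0 := by
      intro h
      have := hu.2
      rw [h] at this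
      simp at this
    refine ⟨ξ u, hξ u hu.1 hu0, ?_⟩
    intro d hd
    by_cases h0 : d = 0
    · simp [h0]
    · have h1 : ξ u ≤ ξ ((‖d‖)⁻¹ • d) := hmin (hmem d hd h0)
      rw [map_smul, smul_eq_mul] at h1
      have hpos : 0 < ‖d‖ := norm_pos_iff.mpr h0
      calc ξ u * ‖d‖ ≤ (‖d‖)⁻¹ * ξ d * ‖d‖ := mul_le_mul_of_nonneg_right h1 hpos.le
        _ = ξ d := by field_simp
  · refine ⟨1, one_pos, ?_⟩
    intro d hd
    by_cases h0 : d = 0
    · simp [h0]
    · exact absurd ⟨_, hmem d hd h0⟩ hne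

omit [FiniteDimensional ℝ E] in
/-- Limits of directions are recession directions. -/
theorem recession_limit {W : Set E} (hc : IsClosed W) (hconv : Convex ℝ W)
    {x : ℕ → E} (hx : ∀ k, x k ∈ W) (hnorm : Tendsto (fun k => ‖x k‖) atTop atTop)
    {u : E} {φ : ℕ → ℕ} (hφ : StrictMono φ)
    (hu : Tendsto (fun k => (‖x (φ k)‖)⁻¹ • x (φ k)) atTop (𝓝 u)) :
    u ∈ recCone W := by
  intro y hy s hs
  have hn' : Tendsto (fun k => ‖x (φ k)‖) atTop atTop := hnorm.comp hφ.tendsto_atTop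
  have h1 : Tendsto (fun k => (1 - s * (‖x (φ k)‖)⁻¹) • y + s • ((‖x (φ k)‖)⁻¹ • x (φ k))) atTop
      (𝓝 ((1 - s * 0) • y + s • u)) := by
    apply Tendsto.add
    · apply Tendsto.smul_const
      apply tendsto_const_nhds.sub
      exact (tendsto_inv_atTop_zero.comp hn').const_mul s
    · exact hu.const_smul s
  rw [mul_zero, sub_zero, one_smul] at h1
  apply hc.mem_of_tendsto h1
  filter_upwards [hn'.eventually_gt_atTop (s + 1)] with k hk
  have hpos : 0 < ‖x (φ k)‖ := by linarith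
  rw [smul_smul]
  apply hconv hy (hx (φ k))
  · have : s * (‖x (φ k)‖)⁻¹ ≤ 1 := by
      rw [← div_eq_mul_inv, div_le_one hpos]; linarith
    linarith
  · positivity
  · ring

/-- The lower bound on the set. -/
theorem lowW {K W : Set E} (hK : IsCone K) (hW : IsW K W) {ξ : E →ₗ[ℝ] ℝ} (hξ : ξ ∈ UU K) :
    ∃ c C : ℝ, 0 < c ∧ ∀ x ∈ W, c * ‖x‖ - C ≤ ξ x := by
  have hcont : Continuous ξ := ξ.continuous_of_finiteDimensional
  obtain ⟨c, hc, hcK⟩ := lowK hK hξ
  obtain ⟨M, hM, hMx⟩ := bound ξ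
  by_contra hcon
  push Not at hcon
  have hseq : ∀ k : ℕ, ∃ x ∈ W, ξ x < c / 2 * ‖x‖ - (k : ℝ) := fun k =>
    hcon (c / 2) k (by linarith)
  choose x hxW hx using hseq
  have hlow : ∀ k : ℕ, (M + c / 2)⁻¹ * (k : ℝ) ≤ ‖x k‖ := by
    intro k
    have h1 := (abs_le.mp (hMx (x k))).1
    have h2 := hx k
    rw [inv_mul_le_iff₀ (by positivity)]
    linarith
  have hnorm : Tendsto (fun k => ‖x k‖) atTop atTop := by
    apply tendsto_atTop_mono hlow
    exact tendsto_natCast_atTop_atTop.const_mul_atTop (by positivity)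
  have hpos : ∀ k, x (k + 1) ≠ 0 := by
    intro k h
    have h1 := hx (k + 1)
    rw [h] at h1
    simp only [map_zero, norm_zero, mul_zero] at h1
    push_cast at h1
    have : (0 : ℝ) ≤ k := by positivity
    linarith
  have hmem : ∀ k, (‖x (k + 1)‖)⁻¹ • x (k + 1) ∈ Metric.sphere (0 : E) 1 := by
    intro k
    rw [mem_sphere_zero_iff_norm, norm_smul, norm_inv, norm_norm]
    exact inv_mul_cancel₀ (norm_ne_zero_iff.mpr (hpos k))
  obtain ⟨u, hu, φ, hφ, hlim⟩ := (isCompact_sphere (0 : E) 1).tendsto_subseq hmem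
  have hrec : u ∈ recCone W := recession_limit (x := fun k => x (k + 1)) hW.closed hW.convex
    (fun k => hxW _) (hnorm.comp (tendsto_add_atTop_nat 1)) hφ hlim
  rw [hW.reco] at hrec
  have h1 := hcK u hrec
  rw [mem_sphere_zero_iff_norm.mp hu, mul_one] at h1
  have h2 : ξ u ≤ c / 2 := by
    have ht : Tendsto (fun k => ξ ((‖x (φ k + 1)‖)⁻¹ • x (φ k + 1))) atTop (𝓝 (ξ u)) :=
      (hcont.tendsto u).comp hlim
    apply le_of_tendsto ht
    filter_upwards with k
    rw [map_smul, smul_eq_mul]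
    have hp : 0 < ‖x (φ k + 1)‖ := norm_pos_iff.mpr (hpos _)
    rw [inv_mul_le_iff₀ hp]
    have := hx (φ k + 1)
    have h0 : (0 : ℝ) ≤ ((φ k + 1 : ℕ) : ℝ) := by positivity
    linarith
  linarith

end BELaux

open BELaux in
theorem t_BEL : S_BEL := by
  intro E _ _ _ K W hK hW
  refine ⟨fun ξ hξ => lowK hK hξ, fun ξ hξ => lowW hK hW hξ, ?_, ?_, ?_, ?_⟩
  · intro ξ hξ e he d hd h0
    have h1 := hξ d hd h0
    have h2 := he d hd
    simp only [LinearMap.add_apply]
    linarith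
  · intro ξ hξ t ht d hd h0
    simp only [LinearMap.smul_apply, smul_eq_mul]
    exact mul_pos ht (hξ d hd h0)
  · intro ξ hξ η
    obtain ⟨c, hc, hcK⟩ := lowK hK hξ
    obtain ⟨M, hM, hMx⟩ := bound η
    refine ⟨c / (2 * M), by positivity, ?_⟩
    intro s hs d hd h0
    simp only [LinearMap.add_apply, LinearMap.smul_apply, smul_eq_mul]
    have hp : 0 < ‖d‖ := norm_pos_iff.mpr h0
    have h1 := hcK d hd
    have h2 : |s * η d| ≤ c / (2 * M) * (M * ‖d‖) := by
      rw [abs_mul]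
      exact mul_le_mul hs (hMx d) (abs_nonneg _) (by positivity)
    have h3 : c / (2 * M) * (M * ‖d‖) = c / 2 * ‖d‖ := by
      field_simp
    rw [h3] at h2
    have h4 := (abs_le.mp h2).1
    have h5 : 0 < c * ‖d‖ := mul_pos hc hp
    linarith
  · intro ξ₁ h₁ ξ₂ h₂ a b ha hb hab d hd h0
    simp only [LinearMap.add_apply, LinearMap.smul_apply, smul_eq_mul]
    have h3 := h₁ d hd h0
    have h4 := h₂ d hd h0
    rcases ha.eq_or_lt with h | h
    · have hb1 : b = 1 := by linarith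
      rw [← h, hb1]
      linarith
    · have h5 : 0 < a * ξ₁ d := mul_pos h h3
      have h6 : 0 ≤ b * ξ₂ d := mul_nonneg hb h4.le
      linarith

end Pool.Agent.PRC
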