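import Pool.Agent.PRC.StF

/-!
# SCCP sets with polyhedral recession cone (MP_5f8b0b_gt): the boundary function at the apex
-/

set_option autoImplicit false

open MeasureTheory Set Filter Topology
open Pool.Agent.H30.Sccp

namespace Pool.Agent.PRC

theorem t_BLW : M_BLW := by
  intro hGGB hCON n C ι _ _ l W A hn hC hW hstr hlow hex y hy
  obtain ⟨hg1, hg2, hg3, hg4, hgc, B, hB0, hB⟩ := hGGB n ι l
  obtain ⟨hc1, hc2, hc3, hc4, hc5, hc6, hc7⟩ := hCON n C hC
  have hg0 : gg l 0 = 0 := by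
    have := hg3 0 0 le_rfl
    simpa using this
  -- `W` is closed under addition of `(t, 0)`
  have hup : ∀ x ∈ W, ∀ t : ℝ, 0 ≤ t → (x.1 + t, x.2) ∈ W := by
    intro x hx t ht
    have hd : ((t, 0) : ℝ × (Fin n → ℝ)) ∈ recCone W := by
      rw [hW.reco]
      exact ⟨hC.zero, by simpa [hg0] using ht⟩
    have := hd x hx 1 zero_le_one
    have h2 : x + (1 : ℝ) • ((t, 0) : ℝ × (Fin n → ℝ)) = (x.1 + t, x.2) := by
      ext <;> simp
    rwa [h2] at this
  rw [tendsto_atTop]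
  intro M
  by_contra hM
  -- `(M, τ y) ∈ W` for arbitrarily small `τ`
  have hfreq : ∃ᶠ τ : ℝ in 𝓝[>] 0, ((M, τ • y) : ℝ × (Fin n → ℝ)) ∈ W := by
    rw [Filter.not_eventually] at hM
    refine (hM.and_eventually self_mem_nhdsWithin).mono ?_
    rintro τ ⟨h1, h2⟩
    have hτ : τ • y ∈ interior C := hc1 y hy τ h2
    obtain ⟨s, hs⟩ := hex _ hτ
    have h3 : fW W (τ • y) < M := not_le.1 h1
    have hne : {s : ℝ | (s, τ • y) ∈ W}.Nonempty := ⟨s, hs⟩
    obtain ⟨s', hs', hlt⟩ := (csInf_lt_iff ⟨gg l (τ • y) - A, fun t ht => (hlow _ ht).2⟩ hne).1 h3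
    have := hup _ hs' (M - s') (by linarith)
    simpa using this
  have hlim : ((M, 0) : ℝ × (Fin n → ℝ)) ∈ W := by
    have hcont : Tendsto (fun τ : ℝ => ((M, τ • y) : ℝ × (Fin n → ℝ))) (𝓝[>] 0) (𝓝 (M, 0)) := by
      have h1 : Tendsto (fun τ : ℝ => ((M, τ • y) : ℝ × (Fin n → ℝ))) (𝓝 0) (𝓝 (M, (0 : ℝ) • y)) :=
        Continuous.tendsto (by fun_prop) 0
      rw [zero_smul] at h1
      exact h1.mono_left nhdsWithin_le_nhds
    by_contra hnot
    have hopen : Wᶜ ∈ 𝓝 ((M, 0) : ℝ × (Fin n → ℝ)) := hW.closed.isOpen_compl.mem_nhds hnot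
    have h5 : ∀ᶠ τ : ℝ in 𝓝[>] 0, ¬ ((M, τ • y) : ℝ × (Fin n → ℝ)) ∈ W := hcont hopen
    exact hfreq h5
  have hlim2 : ((M + 2, 0) : ℝ × (Fin n → ℝ)) ∈ W := hup _ hlim 2 (by norm_num)
  have hmid : ((M + 1, 0) : ℝ × (Fin n → ℝ)) ∈ interior W := by
    have hne : ((M, 0) : ℝ × (Fin n → ℝ)) ≠ (M + 2, 0) := by
      intro h
      have := congrArg Prod.fst h
      simp at this
    have := hstr hlim hlim2 hne (a := 1 / 2) (b := 1 / 2) (by norm_num) (by norm_num) (by norm_num)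
    convert this using 1
    ext
    · simp
      ring
    · simp
  apply hc7 hn
  have hsub : Prod.snd '' (interior W) ⊆ interior C := by
    apply interior_maximal
    · rintro _ ⟨x, hx, rfl⟩
      exact (hlow x (interior_subset hx)).1
    · exact isOpenMap_snd _ isOpen_interior
  exact hsub ⟨_, hmid, rfl⟩

end Pool.Agent.PRC
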