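import Pool.Agent.PRC.StF
import Pool.Agent.PCN.Stmts

/-!
# SCCP sets with polyhedral recession cone (MP_5f8b0b_gt): from graphs to the ray theorem

The ray theorem `Pool.Agent.PCN.RAYT` (helper87) implies: for a graph with the standing assumptions, whose boundary
function tends to infinity at the apex, one functional is the largest on `C`.
-/

set_option autoImplicit false

open MeasureTheory Set Filter Topology
open Pool.Agent.H30.Sccp

namespace Pool.Agent.PRC

namespace BRIaux

open Pool.Agent.PCN (OCone Ud gL hg Dom IsMaxOf Ray)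

variable {n : ℕ}

/-- coordinates of a functional -/
noncomputable def cf (η : (Fin n → ℝ) →ₗ[ℝ] ℝ) : Fin n → ℝ := fun i => η (Pi.single i 1)

theorem dot_cf (η : (Fin n → ℝ) →ₗ[ℝ] ℝ) (y : Fin n → ℝ) : dotProduct (cf η) y = η y := by
  have h : y = ∑ i, y i • (Pi.single i (1 : ℝ) : Fin n → ℝ) := by
    ext j
    simp [Finset.sum_apply, Pi.single_apply]
  conv_rhs => rw [h]
  rw [map_sum]
  unfold dotProduct cf
  refine Finset.sum_congr rfl fun i _ => ?_
  rw [map_smul, smul_eq_mul, mul_comm]

/-- the functional with given coordinates -/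
noncomputable def fc (v : Fin n → ℝ) : (Fin n → ℝ) →ₗ[ℝ] ℝ where
  toFun y := dotProduct v y
  map_add' x y := dotProduct_add v x y
  map_smul' t x := by simp [dotProduct_smul]

@[simp] theorem fc_apply (v y : Fin n → ℝ) : fc v y = dotProduct v y := rfl

end BRIaux

open BRIaux
open Pool.Agent.PCN (OCone Ud gL hg Dom IsMaxOf Ray)

/-- the core theorem from the ray theorem -/
theorem bridge (hRAYT : Pool.Agent.PCN.RAYT) (hGGB : S_GGB) (hCON : S_CON) (hPOS : S_POS)
    (hUGC : S_UGC) (n : ℕ) (C : Set (Fin n → ℝ)) (ι : Type) [Finite ι] [Nonempty ι]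
    (l : ι → ((Fin n → ℝ) →ₗ[ℝ] ℝ)) (f : (Fin n → ℝ) → ℝ) (hC : IsCone C) (hGr : Gr C (gg l) f)
    (hblow : ∀ y ∈ interior C, Tendsto (fun τ : ℝ => f (τ • y)) (𝓝[>] 0) atTop) :
    ∃ i₀, ∀ i, ∀ y ∈ C, l i y ≤ l i₀ y := by
  classical
  obtain ⟨hg1, hg2, hg3, hg4, hgc, B, hB0, hB⟩ := hGGB n ι l
  obtain ⟨hc1, hc2, hc3, hc4, hc5, hc6, hc7⟩ := hCON n C hC
  obtain ⟨y0, hy0⟩ := hC.int
  obtain ⟨i1, hi1⟩ := hg2 y0
  have hadd : ∀ x ∈ interior C, ∀ y ∈ interior C, x + y ∈ interior C :=
    fun x hx y hy => hc2 x hx y (interior_subset hy)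
  obtain ⟨A, hA⟩ := hGr.low
  set k : (Fin n → ℝ) → ℝ := fun y => gg l y - l i1 y with hk
  set g' : (Fin n → ℝ) → ℝ := fun y => f y - l i1 y with hg'
  set P : Finset (Fin n → ℝ) := (Set.finite_range (fun i => cf (l i - l i1))).toFinset with hP
  -- positivity passes to the closure
  have hclos : ∀ (a : ℝ) (η : Fin n → ℝ) (ε : ℝ),
      (∀ y ∈ interior C, ε * ‖y‖ ≤ dotProduct η y + a * k y) →
      ∀ y ∈ C, ε * ‖y‖ ≤ dotProduct η y + a * k y := by
    intro a η ε h y hy
    have hcl : IsClosed {y : Fin n → ℝ | ε * ‖y‖ ≤ dotProduct η y + a * k y} := by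
      apply isClosed_le
      · fun_prop
      · have h1 : Continuous (fun y : Fin n → ℝ => dotProduct η y) := by
          unfold dotProduct
          fun_prop
        have h2 : Continuous k := hgc.sub (LinearMap.continuous_of_finiteDimensional _)
        exact h1.add (continuous_const.mul h2)
    have : closure (interior C) ⊆ {y : Fin n → ℝ | ε * ‖y‖ ≤ dotProduct η y + a * k y} :=
      closure_minimal (fun y hy => h y hy) hcl
    rw [hc5] at this
    exact this hy
  have hdom : ∀ (a : ℝ) (η : Fin n → ℝ), (a, η) ∈ Dom (interior C) k →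
      UG C (gg l) a (fc η - a • l i1) := by
    rintro a η ⟨ha, ε, hε, h⟩
    refine ⟨ha, fun y hy hy0 => ?_⟩
    have h1 := hclos a η ε h y hy
    have h2 : 0 < ε * ‖y‖ := mul_pos hε (norm_pos_iff.2 hy0)
    have h3 : (fc η - a • l i1) y + a * gg l y = dotProduct η y + a * k y := by
      simp only [LinearMap.sub_apply, LinearMap.smul_apply, fc_apply, smul_eq_mul, hk]
      ring
    rw [h3]
    linarith
  have hgLk : ∀ (a : ℝ) (η : Fin n → ℝ),
      gL (interior C) k a η = LG C (gg l) a (fc η - a • l i1) := by
    intro a η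
    unfold gL LG JJ
    congr 1
    refine integral_congr_ae (Eventually.of_forall fun y => ?_)
    simp only [LinearMap.sub_apply, LinearMap.smul_apply, fc_apply, smul_eq_mul, hk]
    congr 1
    ring
  have hgLg : ∀ (a : ℝ) (η : Fin n → ℝ),
      gL (interior C) g' a η = LG C f a (fc η - a • l i1) := by
    intro a η
    unfold gL LG JJ
    congr 1
    refine integral_congr_ae (Eventually.of_forall fun y => ?_)
    simp only [LinearMap.sub_apply, LinearMap.smul_apply, fc_apply, smul_eq_mul, hg']
    congr 1
    ring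
  have hhg : ∀ (a : ℝ) (η : Fin n → ℝ),
      hg (interior C) g' a η = hG C f a (fc η - a • l i1) := by
    intro a η
    unfold hg hG
    congr 1
    refine image_congr fun y _ => ?_
    simp only [LinearMap.sub_apply, LinearMap.smul_apply, fc_apply, smul_eq_mul, hg']
    ring
  have hray : Ray (interior C) P k g' A := by
    refine ⟨⟨isOpen_interior, hC.int, hadd, fun x hx s hs => hc1 x hx s hs⟩, ?_, ?_, ?_, ?_, ?_,
      ?_, ?_, ⟨y0, hy0, by simp [hk, hi1]⟩, ?_⟩
    · -- dual
      obtain ⟨η, hη⟩ := hPOS (Fin n → ℝ) C hC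
      obtain ⟨c, hc, h⟩ := (hUGC n C ι l hC).2 η hη
      refine ⟨cf η, c, hc, fun y hy => ?_⟩
      rw [dot_cf]
      exact h y (interior_subset hy)
    · -- zero
      rw [hP, Set.Finite.mem_toFinset]
      refine ⟨i1, ?_⟩
      ext i
      simp [cf]
    · -- maximum
      intro y
      constructor
      · intro p hp
        rw [hP, Set.Finite.mem_toFinset] at hp
        obtain ⟨i, rfl⟩ := hp
        rw [dot_cf]
        simp only [LinearMap.sub_apply, hk]
        linarith [hg1 i y]
      · obtain ⟨i, hi⟩ := hg2 y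
        refine ⟨cf (l i - l i1), ?_, ?_⟩
        · rw [hP, Set.Finite.mem_toFinset]
          exact ⟨i, rfl⟩
        · rw [dot_cf]
          simp only [LinearMap.sub_apply, hk, hi]
    · -- convex
      refine ⟨hGr.conv.1, fun x hx y hy a b ha hb hab => ?_⟩
      have := hGr.conv.2 hx hy ha hb hab
      simp only [smul_eq_mul, hg', map_add, map_smul] at this ⊢
      linarith
    · -- recession
      intro y hy x hx
      have := hGr.add y hy x (interior_subset hx)
      simp only [hg', hk, map_add]
      linarith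
    · -- lower bound
      intro y hy
      have := hA y hy
      simp only [hg', hk]
      linarith
    · -- blow up
      intro y hy
      have h1 := hblow y hy
      have h2 : Tendsto (fun τ : ℝ => -(l i1 (τ • y))) (𝓝[>] 0) (𝓝 0) := by
        have h3 : Tendsto (fun τ : ℝ => -(l i1 (τ • y))) (𝓝 0) (𝓝 (-(l i1 ((0 : ℝ) • y)))) := by
          apply Continuous.tendsto
          have := LinearMap.continuous_of_finiteDimensional (l i1)
          fun_prop
        simp only [zero_smul, map_zero, neg_zero] at h3
        exact h3.mono_left nhdsWithin_le_nhds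
      have h4 := h1.atTop_add h2
      refine h4.congr fun τ => ?_
      simp only [hg']
      ring
    · -- identity
      intro a a' η η' h h' heq s hs
      have h1 := hdom a η h
      have h2 := hdom a' η' h'
      rw [hgLk, hgLk] at heq
      have h3 := hGr.ident a a' _ _ h1 h2 heq s hs
      have e1 : ∀ (a : ℝ) (η : Fin n → ℝ), fc (s • η) - (s * a) • l i1 =
          s • (fc η - a • l i1) := by
        intro a η
        ext y
        simp only [LinearMap.coe_comp, Function.comp_apply, LinearMap.sub_apply,
          LinearMap.smul_apply, fc_apply, smul_eq_mul, smul_dotProduct]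
        ring
      rw [hhg, hhg, hgLg, hgLg, e1, e1]
      exact h3.symm
  have hfin := hRAYT n (interior C) P k g' A hray
  refine ⟨i1, fun i y hy => ?_⟩
  have hle : ∀ y ∈ interior C, l i y ≤ l i1 y := by
    intro y hy
    have h1 := hfin y hy
    have h2 := hg1 i y
    simp only [hk] at h1
    linarith
  have hcl : IsClosed {y : Fin n → ℝ | l i y ≤ l i1 y} :=
    isClosed_le (LinearMap.continuous_of_finiteDimensional _)
      (LinearMap.continuous_of_finiteDimensional _)
  have : closure (interior C) ⊆ {y : Fin n → ℝ | l i y ≤ l i1 y} :=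
    closure_minimal (fun y hy => hle y hy) hcl
  rw [hc5] at this
  exact this hy

end Pool.Agent.PRC
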