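import Pool.Agent.PRC.StF

/-!
# Coordinates with a given vector as the first coordinate vector
-/

set_option autoImplicit false

open MeasureTheory Set Filter Topology

namespace Pool.Agent.PRC

theorem t_CHT : S_CHT := by
  intro E _ _ _ n v hn hv
  obtain ⟨q, hq⟩ := Submodule.exists_isCompl (Submodule.span ℝ {v})
  have h1 : Module.finrank ℝ (Submodule.span ℝ {v}) = 1 := finrank_span_singleton hv
  have h2 := Submodule.finrank_add_eq_of_isCompl hq
  have h3 : Module.finrank ℝ q = Module.finrank ℝ (Fin n → ℝ) := by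
    rw [Module.finrank_fin_fun]
    omega
  let e : q ≃ₗ[ℝ] (Fin n → ℝ) := LinearEquiv.ofFinrankEq q (Fin n → ℝ) h3
  let S : (ℝ × (Fin n → ℝ)) ≃ₗ[ℝ] E :=
    (LinearEquiv.prodCongr (LinearEquiv.toSpanNonzeroSingleton ℝ E v hv) e.symm).trans
      (Submodule.prodEquivOfIsCompl _ q hq)
  refine ⟨S.symm, ?_⟩
  rw [LinearEquiv.symm_apply_eq]
  show v = ((LinearEquiv.toSpanNonzeroSingleton ℝ E v hv 1 : Submodule.span ℝ {v}) : E) +
    ((e.symm 0 : q) : E)
  rw [map_zero, LinearEquiv.toSpanNonzeroSingleton_one]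
  simp

end Pool.Agent.PRC
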