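import Pool.Agent.PRC.StG

/-!
# Basic properties of a closed convex cone and its interior
-/

set_option autoImplicit false

open MeasureTheory Set Filter Topology

namespace Pool.Agent.PRC

namespace CONaux

variable {n : ℕ} {C : Set (Fin n → ℝ)}

theorem add_mem (h : IsCone C) {x y : Fin n → ℝ} (hx : x ∈ C) (hy : y ∈ C) : x + y ∈ C := by
  have h1 : (1 / 2 : ℝ) • x + (1 / 2 : ℝ) • y ∈ C :=
    h.convex hx hy (by norm_num) (by norm_num) (by norm_num)
  have h2 := h.smul 2 (by norm_num) _ h1
  rwa [smul_add, smul_smul, smul_smul, show (2 : ℝ) * (1 / 2) = 1 by norm_num, one_smul,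
    one_smul] at h2

theorem smul_mem (h : IsCone C) {y : Fin n → ℝ} (hy : y ∈ interior C) {t : ℝ} (ht : 0 < t) :
    t • y ∈ interior C := by
  have hO : IsOpen ((fun x : Fin n → ℝ => t⁻¹ • x) ⁻¹' interior C) :=
    isOpen_interior.preimage (continuous_const_smul t⁻¹)
  refine interior_maximal ?_ hO ?_
  · intro x hx
    have h1 := h.smul t ht.le _ (interior_subset hx)
    rwa [smul_smul, mul_inv_cancel₀ ht.ne', one_smul] at h1
  · show t⁻¹ • (t • y) ∈ interior C
    rwa [smul_smul, inv_mul_cancel₀ ht.ne', one_smul]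

theorem far (h : IsCone C) {y : Fin n → ℝ} (hy : y ∈ interior C) (z : Fin n → ℝ) :
    ∃ T : ℝ, ∀ t : ℝ, T ≤ t → t • y - z ∈ interior C := by
  have h1 : Tendsto (fun t : ℝ => y - t⁻¹ • z) atTop (𝓝 (y - (0 : ℝ) • z)) :=
    tendsto_const_nhds.sub (tendsto_inv_atTop_zero.smul_const z)
  rw [zero_smul, sub_zero] at h1
  have h2 : ∀ᶠ t : ℝ in atTop, y - t⁻¹ • z ∈ interior C :=
    h1.eventually (isOpen_interior.mem_nhds hy)
  obtain ⟨T, hT⟩ := eventually_atTop.1 h2
  refine ⟨max T 1, fun t ht => ?_⟩
  have ht0 : 0 < t := lt_of_lt_of_le one_pos ((le_max_right _ _).trans ht)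
  have h3 := smul_mem h (hT t ((le_max_left _ _).trans ht)) ht0
  rwa [smul_sub, smul_smul, mul_inv_cancel₀ ht0.ne', one_smul] at h3

end CONaux

open CONaux in
theorem t_CON : S_CON := by
  intro n C h
  refine ⟨fun y hy t ht => smul_mem h hy ht, fun y hy d hd => ?_, fun y hy z => far h hy z, ?_, ?_,
    h.convex.interior, fun hn h0 => ?_⟩
  · have hO : IsOpen ((fun x : Fin n → ℝ => x - d) ⁻¹' interior C) :=
      isOpen_interior.preimage (continuous_id.sub continuous_const)
    refine interior_maximal ?_ hO ?_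
    · intro x hx
      have h1 := add_mem h (interior_subset hx) hd
      simpa using h1
    · show y + d - d ∈ interior C
      rwa [add_sub_cancel_right]
  · exact Measure.restrict_congr_set
      (interior_ae_eq_of_null_frontier (h.convex.addHaar_frontier volume))
  · rw [h.convex.closure_interior_eq_closure_of_nonempty_interior h.int, h.closed.closure_eq]
  · have key : ∀ z : Fin n → ℝ, -z ∈ C := by
      intro z
      obtain ⟨T, hT⟩ := far h h0 z
      have h1 := interior_subset (hT T le_rfl)
      rwa [smul_zero, zero_sub] at h1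
    have h1 : (fun _ : Fin n => (1 : ℝ)) = 0 :=
      h.pointed _ (by simpa using key (-(fun _ : Fin n => (1 : ℝ)))) (key _)
    have h2 := congrFun h1 ⟨0, hn⟩
    norm_num at h2

end Pool.Agent.PRC
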