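import Pool.Agent.PRC.StI

/-!
# COO: a basis of vectors of the cone
-/

set_option autoImplicit false

open MeasureTheory Set Filter Topology
open Pool.Agent.H30.Sccp

namespace Pool.Agent.PRC

namespace COOaux

lemma of_basis {n : ℕ} {K : Set (Eu n)} {ι : Type} (b : Module.Basis ι ℝ (Eu n))
    (hb : ∀ i, b i ∈ K) :
    ∃ L : (Eu n) ≃ₗ[ℝ] (Fin (n + 1) → ℝ), ∀ i, L.symm (Pi.single i 1) ∈ K := by
  classical
  have hf : Finite ι := Module.Finite.finite_basis b
  have : Fintype ι := Fintype.ofFinite ι
  have hc : Fintype.card ι = n + 1 := by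
    rw [← Module.finrank_eq_card_basis b]
    simp
  let e : ι ≃ Fin (n + 1) := Fintype.equivFinOfCardEq hc
  refine ⟨(b.reindex e).equivFun, fun i => ?_⟩
  have h : (b.reindex e).equivFun.symm (Pi.single i 1) = b (e.symm i) := by
    rw [Module.Basis.equivFun_symm_apply, Finset.sum_eq_single i]
    · simp
    · intro j _ hj
      simp [Pi.single_apply, hj]
    · intro hi
      exact absurd (Finset.mem_univ i) hi
  rw [h]
  exact hb _

end COOaux

open COOaux

theorem t_COO : S_COO := by
  intro n K hK
  have hspan : (⊤ : Submodule ℝ (Eu n)) ≤ Submodule.span ℝ K := by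
    have h := Submodule.eq_top_of_nonempty_interior' (Submodule.span ℝ K)
      (hK.int.mono (interior_mono Submodule.subset_span))
    rw [h]
  exact of_basis (Module.Basis.ofSpan hspan)
    fun i => Module.Basis.ofSpan_subset hspan ⟨i, rfl⟩

end Pool.Agent.PRC
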