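import Pool.Agent.PRC.StF

/-!
# Assembly of the core theorem (helper88)
-/

set_option autoImplicit false

open MeasureTheory Set Filter Topology

namespace Pool.Agent.PRC

namespace CORaux

/-- shift of `δ` -/
theorem del_shift {n : ℕ} {C : Set (Fin n → ℝ)} {g f δ : (Fin n → ℝ) → ℝ} (h : Del C g f δ)
    (c : ℝ) : Del C g (fun y => f y - c) (fun y => δ y + c) where
  lim y hy := by
    have := (h.lim y hy).add_const c
    refine this.congr fun t => ?_
    ring
  hom y hy t ht := by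
    show δ (t • y) + c = δ y + c
    rw [h.hom y hy t ht]
  bdd := by
    obtain ⟨B, hB⟩ := h.bdd
    refine ⟨B + |c|, fun y hy => (abs_add_le _ _).trans ?_⟩
    linarith [hB y hy]
  meas := h.meas.add_const c
  fin := by
    classical
    obtain ⟨S, hS⟩ := h.fin
    refine ⟨S.image fun x => x + c, ?_⟩
    filter_upwards [hS] with y hy
    exact Finset.mem_image_of_mem _ hy

end CORaux

open CORaux in
theorem t_COR : S_GGB → S_CON → S_UGC → S_INT → S_SCL → S_RSC → S_DEL → S_HWR → S_SML → S_LIM →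
    S_ORD → S_MON → S_UNQ → S_DCO → S_TIE → S_ONE → S_SHF → S_POS → S_COR := by
  intro hGGB hCON hUGC hINT hSCL hRSC hDEL hHWR hSML hLIM hORD hMON hUNQ hDCO hTIE hONE hSHF hPOS
  intro n C ι _ _ l f hn hC hGr
  obtain ⟨η₀, hη₀⟩ := hPOS _ C hC
  obtain ⟨c, hc, hcη⟩ := (hUGC n C ι l hC).2 η₀ hη₀
  obtain ⟨-, -, -, -, -, B, hB0, hB⟩ := hGGB n ι l
  -- the shear
  set l₀ : (Fin n → ℝ) →ₗ[ℝ] ℝ := (B / c) • η₀ with hl₀
  have hGr1 := hSHF n C ι l f l₀ 0 hC hGr
  set l' : ι → ((Fin n → ℝ) →ₗ[ℝ] ℝ) := fun i => l i - l₀ with hl'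
  have hneg : ∀ y ∈ C, gg l' y ≤ 0 := by
    intro y hy
    obtain ⟨i, hi⟩ := (hGGB n ι l').2.1 y
    rw [hi]
    show l i y - (B / c) * η₀ y ≤ 0
    have h1 := (hGGB n ι l).1 i y
    have h2 := hB y
    have h3 := hcη y hy
    have h4 : B * ‖y‖ ≤ B / c * η₀ y := by
      rw [div_mul_eq_mul_div, le_div_iff₀ hc]
      nlinarith
    have := le_abs_self (gg l y)
    linarith
  suffices hmain : ∃ i₀, ∀ i, ∀ y ∈ C, l' i y ≤ l' i₀ y by
    obtain ⟨i₀, hi₀⟩ := hmain
    refine ⟨i₀, fun i y hy => ?_⟩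
    have := hi₀ i y hy
    simp only [hl', LinearMap.sub_apply] at this
    linarith
  -- the shift
  obtain ⟨δ₁, hδ₁⟩ := hDEL n C ι l' _ hC hGr1
  obtain ⟨D₁, hD₁⟩ := hδ₁.bdd
  set s : ℝ := 3 * |D₁| + 1 with hs
  have hGr2 := hSHF n C ι l' _ 0 (-s) hC hGr1
  have hl0 : (fun i => l' i - (0 : (Fin n → ℝ) →ₗ[ℝ] ℝ)) = l' := by
    funext i; simp
  rw [hl0] at hGr2
  set F : (Fin n → ℝ) → ℝ := fun y => (f y - l₀ y + 0) - s with hF
  have hGr' : Gr C (gg l') F := by
    convert hGr2 using 2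
    rename_i y
    simp [hF, sub_eq_add_neg]
  have hδ : Del C (gg l') F (fun y => δ₁ y + s) := del_shift hδ₁ s
  set δ : (Fin n → ℝ) → ℝ := fun y => δ₁ y + s with hδdef
  have habs : 0 ≤ |D₁| := abs_nonneg D₁
  have hbd : ∀ y ∈ interior C, s - |D₁| ≤ δ y ∧ δ y ≤ s + |D₁| := by
    intro y hy
    have h1 := hD₁ y hy
    have h2 := abs_le.1 h1
    have h3 := le_abs_self D₁
    simp only [hδdef]
    constructor <;> linarith
  have h2n : (2 : ℝ) ≤ 2 ^ n := by
    calc (2 : ℝ) = 2 ^ 1 := (pow_one _).symm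
      _ ≤ 2 ^ n := pow_le_pow_right₀ one_le_two hn
  obtain ⟨γ, hγ⟩ := (hHWR n C ι l' F δ hC hGr' hδ).1
  obtain ⟨hγ0, hord⟩ := hORD n C ι l' F δ γ (s - |D₁|) (s + |D₁|) hn hC hGr' hδ hneg hγ
    (by rw [hs]; linarith) (by rw [hs]; nlinarith) hbd
  obtain ⟨A, hA⟩ := hGr'.low
  have hcF : ContinuousOn F (interior C) := hGr'.conv.continuousOn isOpen_interior
  have hcR : ContinuousOn (rsc F) (interior C) :=
    (hRSC n C ι l' hC hneg).2.2.2.2.2 F hcF
  have hlim := hLIM n C ι l' F δ hC hGr' hδ hneg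
  have hmon := hMON n C ι l' F (rsc F) A _ hC hcF hcR hA hord hlim
  set κ : ℝ := 1 - (1 / 2) ^ (n + 1) with hκ
  set lam : ℝ := 1 - (1 / 2) ^ n with hlam
  have hlam0 : 0 < lam := by
    have : ((1 : ℝ) / 2) ^ n < 1 := pow_lt_one₀ (by norm_num) (by norm_num) (by omega)
    rw [hlam]; linarith
  -- integrability of `e^{-η y} g` and `e^{-η y} δ`
  obtain ⟨-, -, -, -, hgcont, B', hB0', hB'⟩ := hGGB n ι l'
  have hint := hINT n C ι l' F A hC hcF hA
  have hig : ∀ η ∈ UU C, IntegrableOn (fun y => Real.exp (-(η y)) * gg l' y) (interior C) := by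
    intro η hη
    refine (hint.1 (gg l') B' 1 hgcont.aestronglyMeasurable fun y _ => ?_).2 η hη
    have := hB' y
    have h0 := norm_nonneg y
    rw [pow_one]
    nlinarith
  have hid : ∀ η ∈ UU C, IntegrableOn (fun y => Real.exp (-(η y)) * δ y) (interior C) := by
    intro η hη
    refine (hint.1 δ (s + |D₁|) 0 hδ.meas fun y hy => ?_).2 η hη
    have := hbd y hy
    rw [pow_zero, mul_one, abs_le]
    constructor <;> [(rw [hs] at *; linarith [this.1]); exact this.2]
  have hunq := hUNQ n C (fun y => (rsc F y - F y) + (κ * gg l' y - lam * δ y)) hC ⟨η₀, hη₀⟩ (by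
    intro η hη
    have h1 := (hmon η hη).1
    have h2 := (hig η hη).const_mul κ
    have h3 := (hid η hη).const_mul lam
    have hsum : (fun y => Real.exp (-(η y)) * ((rsc F y - F y) + (κ * gg l' y - lam * δ y))) =
        fun y => Real.exp (-(η y)) * (rsc F y - F y) +
          (κ * (Real.exp (-(η y)) * gg l' y) - lam * (Real.exp (-(η y)) * δ y)) := by
      funext y; ring
    refine ⟨?_, ?_⟩
    · rw [hsum]
      exact h1.add (h2.sub h3)
    · unfold EU
      have e1 : ∫ y in interior C, (Real.exp (-(η y)) * (rsc F y - F y) +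
          (κ * (Real.exp (-(η y)) * gg l' y) - lam * (Real.exp (-(η y)) * δ y))) =
          (∫ y in interior C, Real.exp (-(η y)) * (rsc F y - F y)) +
          ∫ y in interior C, (κ * (Real.exp (-(η y)) * gg l' y) - lam * (Real.exp (-(η y)) * δ y)) :=
        integral_add h1 (h2.sub h3)
      have e2 : ∫ y in interior C, (κ * (Real.exp (-(η y)) * gg l' y) -
          lam * (Real.exp (-(η y)) * δ y)) = κ * (∫ y in interior C, Real.exp (-(η y)) * gg l' y) -
          lam * ∫ y in interior C, Real.exp (-(η y)) * δ y := by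
        rw [← integral_const_mul, ← integral_const_mul]
        exact integral_sub h2 h3
      rw [hsum, e1, e2]
      have h4 := (hmon η hη).2
      unfold EU at h4
      rw [h4]
      ring)
  obtain ⟨S, hS⟩ := hδ.fin
  obtain ⟨c₀, hc₀, hδc⟩ := hDCO n C ι l' F (rsc F) δ κ lam S hC hcF hcR hlam0 hS (by
    filter_upwards [hunq] with y hy
    linarith)
  have hTIE' := hTIE n C ι l' F γ (-(-(lam * c₀))) (-c₀) hn hC hGr'
  refine hONE n C ι l' hC (hTIE' hγ0 ?_ ?_)
  · intro y hy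
    have := hc₀ y hy
    linarith
  · intro η hη
    rw [hγ 1 η hη]
    congr 1
    unfold wG LG
    have hJ := (hINT n C ι l' (gg l') 0 hC hgcont.continuousOn (fun y _ => by simp)).2.1 1 η hη
    have hQ : QG C (gg l') δ 1 η = c₀ * JJ C (gg l') 1 η := by
      unfold QG JJ
      rw [← integral_const_mul]
      refine integral_congr_ae ?_
      filter_upwards [hδc] with y hy
      rw [hy, mul_comm]
    rw [hQ]
    have := hJ.2.ne'
    field_simp

end Pool.Agent.PRC
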