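import Pool.Agent.H30.Sccp.Defs

/-!
# SCCP sets with polyhedral recession cone (MP_5f8b0b_gt): definitions

Architect: helper88. The geometric definitions (`SCCP`, `recCone`, `slice`, `centroid`) are those of
`Pool.Agent.H30.Sccp.Defs`.
-/

set_option autoImplicit false

open MeasureTheory Set Filter Topology
open Pool.Agent.H30.Sccp (recCone SCCP slice centroid)

namespace Pool.Agent.PRC

/-! ### General sets -/

section general

variable {E : Type*} [NormedAddCommGroup E] [NormedSpace ℝ E]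

/-- Laplace transform of the indicator function of `S`. -/
noncomputable def lap [MeasurableSpace E] (μ : Measure E) (S : Set E) (ξ : E →ₗ[ℝ] ℝ) : ℝ :=
  ∫ x in S, Real.exp (-(ξ x)) ∂μ

/-- The infimum of a functional. -/
noncomputable def hinf (W : Set E) (ξ : E →ₗ[ℝ] ℝ) : ℝ := sInf (ξ '' W)

/-- The functionals which are positive on `K` except at `0`. -/
def UU (K : Set E) : Set (E →ₗ[ℝ] ℝ) := {ξ | ∀ d ∈ K, d ≠ 0 → 0 < ξ d}

/-- Closed convex cones with interior points and without lines. -/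
structure IsCone (K : Set E) : Prop where
  closed : IsClosed K
  convex : Convex ℝ K
  zero : (0 : E) ∈ K
  smul : ∀ t : ℝ, 0 ≤ t → ∀ x ∈ K, t • x ∈ K
  pointed : ∀ x ∈ K, -x ∈ K → x = 0
  int : (interior K).Nonempty

/-- Closed convex sets with the recession cone `K`. -/
structure IsW (K W : Set E) : Prop where
  closed : IsClosed W
  convex : Convex ℝ W
  ne : W.Nonempty
  reco : recCone W = K

/-- The analytic form of SCCP: if `L_K ξ₁ = L_K ξ₂` then `e^(t h(ξ₂)) L_W(t ξ₂) = e^(t h(ξ₁)) L_W(t ξ₁)` for all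
`t > 0`. -/
def Ident [MeasurableSpace E] (μ : Measure E) (K W : Set E) : Prop :=
  ∀ ξ₁ ∈ UU K, ∀ ξ₂ ∈ UU K, lap μ K ξ₁ = lap μ K ξ₂ → ∀ t : ℝ, 0 < t →
    Real.exp (t * hinf W ξ₂) * lap μ W (t • ξ₂) = Real.exp (t * hinf W ξ₁) * lap μ W (t • ξ₁)

/-- The polyhedral cone given by finitely many functionals. -/
def poly {ι : Type*} (φ : ι → (E →ₗ[ℝ] ℝ)) : Set E := {x | ∀ i, 0 ≤ φ i x}

/-- No functional can be omitted: for every `j` there is a point where `φ j` is `0` and the others are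
positive. -/
def Irred {ι : Type*} (φ : ι → (E →ₗ[ℝ] ℝ)) : Prop :=
  ∀ j, ∃ p, φ j p = 0 ∧ ∀ i, i ≠ j → 0 < φ i p

end general

/-! ### Graphs over a cone

`C ⊆ ℝ^n` is a closed convex cone, `g = max_i l i`, the cone in `ℝ × ℝ^n` is `{(s, y) | y ∈ C, g y ≤ s}`, the
set is the closure of `{(s, y) | y ∈ interior C, f y ≤ s}`. A functional `(s, y) ↦ a s + η y` is the pair
`(a, η)`. -/

section graphs

variable {n : ℕ}

/-- the maximum of the functionals `l i` -/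
noncomputable def gg {ι : Type*} (l : ι → ((Fin n → ℝ) →ₗ[ℝ] ℝ)) (y : Fin n → ℝ) : ℝ := ⨆ i, l i y

/-- `(a, η)` is positive on the cone over `C` except at `0` -/
def UG (C : Set (Fin n → ℝ)) (g : (Fin n → ℝ) → ℝ) (a : ℝ) (η : (Fin n → ℝ) →ₗ[ℝ] ℝ) : Prop :=
  0 < a ∧ ∀ y ∈ C, y ≠ 0 → 0 < η y + a * g y

/-- `∫_C e^{-η y - a f y} dy` -/
noncomputable def JJ (C : Set (Fin n → ℝ)) (f : (Fin n → ℝ) → ℝ) (a : ℝ)
    (η : (Fin n → ℝ) →ₗ[ℝ] ℝ) : ℝ := ∫ y in interior C, Real.exp (-(η y) - a * f y)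

/-- the Laplace transform of the set over the graph of `f` -/
noncomputable def LG (C : Set (Fin n → ℝ)) (f : (Fin n → ℝ) → ℝ) (a : ℝ)
    (η : (Fin n → ℝ) →ₗ[ℝ] ℝ) : ℝ := a⁻¹ * JJ C f a η

/-- the infimum of the functional `(a, η)` on the set over the graph of `f` -/
noncomputable def hG (C : Set (Fin n → ℝ)) (f : (Fin n → ℝ) → ℝ) (a : ℝ)
    (η : (Fin n → ℝ) →ₗ[ℝ] ℝ) : ℝ := sInf ((fun y => η y + a * f y) '' interior C)

/-- the analytic form of SCCP for graphs -/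
def IdentG (C : Set (Fin n → ℝ)) (g f : (Fin n → ℝ) → ℝ) : Prop :=
  ∀ (a₁ a₂ : ℝ) (η₁ η₂ : (Fin n → ℝ) →ₗ[ℝ] ℝ), UG C g a₁ η₁ → UG C g a₂ η₂ →
    LG C g a₁ η₁ = LG C g a₂ η₂ → ∀ t : ℝ, 0 < t →
    Real.exp (t * hG C f a₂ η₂) * LG C f (t * a₂) (t • η₂) =
      Real.exp (t * hG C f a₁ η₁) * LG C f (t * a₁) (t • η₁)

/-- `p` is a subgradient of `f` at `y` -/
def SubG (C : Set (Fin n → ℝ)) (f : (Fin n → ℝ) → ℝ) (y : Fin n → ℝ)
    (p : (Fin n → ℝ) →ₗ[ℝ] ℝ) : Prop := ∀ z ∈ interior C, f y + p (z - y) ≤ f z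

/-- The standing assumptions on the graph. -/
structure Gr (C : Set (Fin n → ℝ)) (g f : (Fin n → ℝ) → ℝ) : Prop where
  conv : ConvexOn ℝ (interior C) f
  add : ∀ y ∈ interior C, ∀ d ∈ C, f (y + d) ≤ f y + g d
  low : ∃ A : ℝ, ∀ y ∈ interior C, g y - A ≤ f y
  ident : IdentG C g f
  /-- the supporting functionals are in the interior of the dual cone -/
  strict : ∀ y ∈ interior C, ∀ p : (Fin n → ℝ) →ₗ[ℝ] ℝ, SubG C f y p → UG C g 1 (-p)

/-- `δ y` is the limit of `g (t y) - f (t y)` for `t → ∞`. -/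
structure Del (C : Set (Fin n → ℝ)) (g f δ : (Fin n → ℝ) → ℝ) : Prop where
  lim : ∀ y ∈ interior C, Tendsto (fun t : ℝ => g (t • y) - f (t • y)) atTop (𝓝 (δ y))
  hom : ∀ y ∈ interior C, ∀ t : ℝ, 0 < t → δ (t • y) = δ y
  bdd : ∃ B : ℝ, ∀ y ∈ interior C, |δ y| ≤ B
  meas : AEStronglyMeasurable δ (volume.restrict (interior C))
  fin : ∃ S : Finset ℝ, ∀ᵐ y ∂(volume.restrict (interior C)), δ y ∈ S

/-- `∫_C δ(y) e^{-η y - a g y} dy` -/
noncomputable def QG (C : Set (Fin n → ℝ)) (g δ : (Fin n → ℝ) → ℝ) (a : ℝ)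
    (η : (Fin n → ℝ) →ₗ[ℝ] ℝ) : ℝ := ∫ y in interior C, Real.exp (-(η y) - a * g y) * δ y

/-- `w = - Q / L_K` -/
noncomputable def wG (C : Set (Fin n → ℝ)) (g δ : (Fin n → ℝ) → ℝ) (a : ℝ)
    (η : (Fin n → ℝ) →ₗ[ℝ] ℝ) : ℝ := -(QG C g δ a η / LG C g a η)

/-- `ψ = L_K ^ (-1 / (n + 1))` -/
noncomputable def psi (C : Set (Fin n → ℝ)) (g : (Fin n → ℝ) → ℝ) (a : ℝ)
    (η : (Fin n → ℝ) →ₗ[ℝ] ℝ) : ℝ := (LG C g a η) ^ (-(1 / ((n : ℝ) + 1)))

/-- `h = γ ψ + w` -/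
def HW (C : Set (Fin n → ℝ)) (g f δ : (Fin n → ℝ) → ℝ) (γ : ℝ) : Prop :=
  ∀ (a : ℝ) (η : (Fin n → ℝ) →ₗ[ℝ] ℝ), UG C g a η → hG C f a η = γ * psi C g a η + wG C g δ a η

/-- the function of the set `D W`, `D (s, y) = (s / 2 ^ n, 2 y)` -/
noncomputable def rsc (f : (Fin n → ℝ) → ℝ) (y : Fin n → ℝ) : ℝ :=
  (1 / 2 : ℝ) ^ n * f ((1 / 2 : ℝ) • y)

/-- `∫_C e^{-η y} u(y) dy` -/
noncomputable def EU (C : Set (Fin n → ℝ)) (u : (Fin n → ℝ) → ℝ) (η : (Fin n → ℝ) →ₗ[ℝ] ℝ) : ℝ :=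
  ∫ y in interior C, Real.exp (-(η y)) * u y

/-- the cone in `ℝ × ℝ^n` over `C` and above the graph of `g` -/
def KC (C : Set (Fin n → ℝ)) (g : (Fin n → ℝ) → ℝ) : Set (ℝ × (Fin n → ℝ)) :=
  {x | x.2 ∈ C ∧ g x.2 ≤ x.1}

end graphs

end Pool.Agent.PRC
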