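import Pool.Agent.PRC.StG

/-!
# EXN: integrability of `(1 + ‖y‖)^k e^{-c ‖y‖}` on `ℝ^n`
-/

set_option autoImplicit false

open MeasureTheory Set Filter Topology

namespace Pool.Agent.PRC

namespace EXNaux

theorem bound (m : ℕ) (c : ℝ) (hc : 0 < c) (u : ℝ) (hu : 0 ≤ u) :
    (1 + u) ^ m * Real.exp (-(c * u)) ≤ (m.factorial : ℝ) * Real.exp c / c ^ m := by
  have h1 : (c * (1 + u)) ^ m / m.factorial ≤ Real.exp (c * (1 + u)) :=
    Real.pow_div_factorial_le_exp _ (by positivity) m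
  have hf : (0 : ℝ) < m.factorial := by exact_mod_cast m.factorial_pos
  rw [div_le_iff₀ hf, mul_pow] at h1
  rw [le_div_iff₀ (by positivity)]
  calc (1 + u) ^ m * Real.exp (-(c * u)) * c ^ m
      = (c ^ m * (1 + u) ^ m) * Real.exp (-(c * u)) := by ring
    _ ≤ (Real.exp (c * (1 + u)) * m.factorial) * Real.exp (-(c * u)) := by gcongr
    _ = m.factorial * (Real.exp (c * (1 + u)) * Real.exp (-(c * u))) := by ring
    _ = m.factorial * Real.exp c := by
        rw [← Real.exp_add]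
        congr 2
        ring

end EXNaux

open EXNaux in
theorem t_EXN : S_EXN := by
  intro n k c hc
  have hint : Integrable (fun y : Fin n → ℝ => (1 + ‖y‖) ^ (-((n : ℝ) + 1))) := by
    apply integrable_one_add_norm
    simp
  refine (hint.const_mul (((k + (n + 1)).factorial : ℝ) * Real.exp c / c ^ (k + (n + 1)))).mono'
    ?_ (Eventually.of_forall ?_)
  · apply Continuous.aestronglyMeasurable
    fun_prop
  · intro y
    have hy : 0 ≤ ‖y‖ := norm_nonneg y
    have h1 : 0 < 1 + ‖y‖ := by linarith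
    rw [Real.norm_of_nonneg (by positivity)]
    have hb := bound (k + (n + 1)) c hc ‖y‖ hy
    have hp : (1 + ‖y‖) ^ (-((n : ℝ) + 1)) = ((1 + ‖y‖) ^ (n + 1))⁻¹ := by
      rw [Real.rpow_neg h1.le]
      congr 1
      exact_mod_cast Real.rpow_natCast (1 + ‖y‖) (n + 1)
    rw [hp]
    rw [← div_eq_mul_inv, le_div_iff₀ (by positivity)]
    calc (1 + ‖y‖) ^ k * Real.exp (-(c * ‖y‖)) * (1 + ‖y‖) ^ (n + 1)
        = (1 + ‖y‖) ^ (k + (n + 1)) * Real.exp (-(c * ‖y‖)) := by ring
      _ ≤ _ := hb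

end Pool.Agent.PRC
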