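import Pool.Agent.PRC.StF

/-!
# EXT: an extreme ray on which a given functional is positive
-/

set_option autoImplicit false

open MeasureTheory Set Filter Topology

namespace Pool.Agent.PRC

namespace EXTaux

variable {E : Type} [NormedAddCommGroup E] [NormedSpace ℝ E]

/-- There is a point of the cone on which a nonzero functional is positive. -/
theorem exists_pos {ι : Type} (φ : ι → (E →ₗ[ℝ] ℝ)) (j : ι) (hK : IsCone (poly φ))
    (hj : φ j ≠ 0) : ∃ v ∈ poly φ, 0 < φ j v := by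
  obtain ⟨x0, hx0⟩ := hK.int
  obtain ⟨u, hu⟩ : ∃ u, 0 < φ j u := by
    by_contra hcon
    push Not at hcon
    apply hj
    ext u
    have h1 := hcon u
    have h2 := hcon (-u)
    rw [map_neg] at h2
    rw [LinearMap.zero_apply]
    linarith
  have hc : ContinuousAt (fun t : ℝ => x0 + t • u) 0 := by fun_prop
  have hn : poly φ ∈ 𝓝 ((fun t : ℝ => x0 + t • u) 0) := by
    simp only [zero_smul, add_zero]
    exact mem_interior_iff_mem_nhds.1 hx0
  have h3 : ∀ᶠ t : ℝ in 𝓝[>] 0, x0 + t • u ∈ poly φ := nhdsWithin_le_nhds (hc hn)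
  obtain ⟨t, ht, ht0⟩ := (h3.and self_mem_nhdsWithin).exists
  refine ⟨x0 + t • u, ht, ?_⟩
  have h4 : 0 ≤ φ j x0 := interior_subset hx0 j
  have h5 : (0 : ℝ) < t := ht0
  rw [map_add, map_smul, smul_eq_mul]
  have := mul_pos h5 hu
  linarith

end EXTaux

open EXTaux in
/-- **EXT**. -/
theorem t_EXT : S_EXT := by
  classical
  intro E _ _ _ ι _ φ j hK hj
  have hex : ∃ m : ℕ, ∃ v ∈ poly φ, 0 < φ j v ∧
      (Finset.univ.filter fun i => φ i v ≠ 0).card = m := by
    obtain ⟨v, h1, h2⟩ := exists_pos φ j hK hj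
    exact ⟨_, v, h1, h2, rfl⟩
  obtain ⟨v, hv, hvj, hm⟩ := Nat.find_spec hex
  have hmin : ∀ v' ∈ poly φ, 0 < φ j v' →
      (Finset.univ.filter fun i => φ i v ≠ 0).card ≤
        (Finset.univ.filter fun i => φ i v' ≠ 0).card := by
    intro v' h1 h2
    rw [hm]
    exact Nat.find_min' hex ⟨v', h1, h2, rfl⟩
  refine ⟨v, hv, hvj, fun y hy => ?_⟩
  by_contra hcon
  push Not at hcon
  obtain ⟨y', hy'⟩ : ∃ y', y' = y - (φ j y / φ j v) • v := ⟨_, rfl⟩
  have h1 : y' ≠ 0 := by
    rw [hy']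
    intro h
    exact hcon _ (sub_eq_zero.1 h)
  have h2 : φ j y' = 0 := by
    rw [hy', map_sub, map_smul, smul_eq_mul, div_mul_cancel₀ _ hvj.ne', sub_self]
  have h3 : ∀ i, φ i v = 0 → φ i y' = 0 := by
    intro i hi
    rw [hy', map_sub, map_smul, smul_eq_mul, hi, hy i hi, mul_zero, sub_zero]
  obtain ⟨z, hzj, hz, i1, hi1⟩ : ∃ z, φ j z = 0 ∧ (∀ i, φ i v = 0 → φ i z = 0) ∧
      ∃ i, φ i z < 0 := by
    by_cases hyK : y' ∈ poly φ
    · have hyK' : -y' ∉ poly φ := fun h => h1 (hK.pointed y' hyK h)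
      unfold poly at hyK'
      rw [Set.mem_ofPred_eq] at hyK'
      push Not at hyK'
      exact ⟨-y', by rw [map_neg, h2, neg_zero], fun i hi => by rw [map_neg, h3 i hi, neg_zero],
        hyK'⟩
    · unfold poly at hyK
      rw [Set.mem_ofPred_eq] at hyK
      push Not at hyK
      exact ⟨y', h2, h3, hyK⟩
  obtain ⟨i0, hi0, hle⟩ := Finset.exists_min_image (Finset.univ.filter fun i => φ i z < 0)
    (fun i => φ i v / (-φ i z)) ⟨i1, Finset.mem_filter.2 ⟨Finset.mem_univ _, hi1⟩⟩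
  rw [Finset.mem_filter] at hi0
  have hz0 := hi0.2
  obtain ⟨t, ht⟩ : ∃ t, t = φ i0 v / (-φ i0 z) := ⟨_, rfl⟩
  have ht0 : 0 ≤ t := by
    rw [ht]
    exact div_nonneg (hv i0) (by linarith)
  have hmem : v + t • z ∈ poly φ := by
    intro i
    rw [map_add, map_smul, smul_eq_mul]
    have hvi := hv i
    rcases lt_or_ge (φ i z) 0 with h | h
    · have h4 := hle i (Finset.mem_filter.2 ⟨Finset.mem_univ _, h⟩)
      rw [← ht, le_div_iff₀ (by linarith)] at h4
      linarith
    · have := mul_nonneg ht0 h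
      linarith
  have hpos : 0 < φ j (v + t • z) := by
    rw [map_add, map_smul, smul_eq_mul, hzj, mul_zero, add_zero]
    exact hvj
  have hlt : (Finset.univ.filter fun i => φ i (v + t • z) ≠ 0).card <
      (Finset.univ.filter fun i => φ i v ≠ 0).card := by
    apply Finset.card_lt_card
    rw [Finset.ssubset_iff_of_subset]
    · refine ⟨i0, Finset.mem_filter.2 ⟨Finset.mem_univ _, fun h => ?_⟩, fun h => ?_⟩
      · rw [hz i0 h] at hz0
        exact lt_irrefl _ hz0
      · refine (Finset.mem_filter.1 h).2 ?_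
        rw [map_add, map_smul, smul_eq_mul, ht]
        have h6 : φ i0 z ≠ 0 := hz0.ne
        rw [div_neg, neg_mul, div_mul_cancel₀ _ h6, add_neg_cancel]
    · intro i hi
      rw [Finset.mem_filter] at hi ⊢
      refine ⟨hi.1, fun h => hi.2 ?_⟩
      rw [map_add, map_smul, smul_eq_mul, h, hz i h, mul_zero, add_zero]
  exact absurd (hmin _ hmem hpos) (not_le.2 hlt)

end Pool.Agent.PRC
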