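import Pool.Agent.PRC.StF

/-!
# FA2: limits of `a L_W(a, η)` for `a → 0+`
-/

set_option autoImplicit false

open MeasureTheory Set Filter Topology
open Pool.Agent.H30.Sccp

namespace Pool.Agent.PRC

namespace FA2aux

variable {n : ℕ}

/-- The set `{y : m j y ≥ -A for all j}`, `A ≥ 0`, is a closed convex set with recession cone `poly m`. -/
theorem isW_P {κ : Type} (m : κ → ((Fin n → ℝ) →ₗ[ℝ] ℝ)) (A : ℝ) (hA : 0 ≤ A) :
    IsW (poly m) {y | ∀ j, -A ≤ m j y} where
  closed := by
    have : {y : Fin n → ℝ | ∀ j, -A ≤ m j y} = ⋂ j, {y | -A ≤ m j y} := by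
      ext y; simp
    rw [this]
    apply isClosed_iInter
    intro j
    exact isClosed_le continuous_const (m j).continuous_of_finiteDimensional
  convex := by
    intro x hx y hy a b ha hb hab j
    rw [map_add, map_smul, map_smul, smul_eq_mul, smul_eq_mul]
    have h1 := mul_le_mul_of_nonneg_left (hx j) ha
    have h2 := mul_le_mul_of_nonneg_left (hy j) hb
    have h3 : -A = a * -A + b * -A := by rw [← add_mul, hab, one_mul]
    linarith
  ne := ⟨0, fun j => by simpa using hA⟩
  reco := by
    ext d
    constructor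
    · intro hd j
      by_contra hneg
      push Not at hneg
      have h0 : (0 : Fin n → ℝ) ∈ {y | ∀ j, -A ≤ m j y} := fun j => by simpa using hA
      have h1 := hd 0 h0 ((A + 1) / (-(m j d))) (by
        apply div_nonneg (by linarith) (by linarith)) j
      rw [zero_add, map_smul, smul_eq_mul] at h1
      have h2 : (A + 1) / (-(m j d)) * (m j d) = -(A + 1) := by
        have : m j d ≠ 0 := hneg.ne
        field_simp
      linarith
    · intro hd x hx s hs j
      rw [map_add, map_smul, smul_eq_mul]
      have h1 := hx j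
      have h2 := mul_nonneg hs (hd j)
      linarith

end FA2aux

open FA2aux in
theorem t_FA2 : M_FA2 := by
  intro hGGB hCON hUGC hEXN hBEL hINT hSML hFIB n κ _ m ι _ _ l W A hC hW hA η hη
  obtain ⟨hg1, hg2, hg3, hg4, hgc, B, hB0, hB⟩ := hGGB n ι l
  obtain ⟨hF1, hF2, hF3, hF4, hF5, hF6, hF7, hF8⟩ := hFIB n (poly m) ι l W A hC hW
    (fun x hx => (hA x hx).2)
  -- (1)
  obtain ⟨c, C', hc, hcC⟩ := (hBEL (Fin n → ℝ) (poly m) {y | ∀ j, -|A| ≤ m j y} hC
    (isW_P m |A| (abs_nonneg A))).2.1 η hη
  have h1 : ∀ y ∈ Prod.snd '' W, c * ‖y‖ - C' ≤ η y := by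
    rintro y ⟨x, hx, rfl⟩
    apply hcC
    intro j
    have := (hA x hx).1 j
    have := le_abs_self A
    linarith
  have hηc : Continuous η := η.continuous_of_finiteDimensional
  have hO : IsOpen (interior (Prod.snd '' W)) := isOpen_interior
  have hOm : MeasurableSet (interior (Prod.snd '' W)) := hO.measurableSet
  have hsub : interior (Prod.snd '' W) ⊆ Prod.snd '' W := interior_subset
  have hexn : ∀ c : ℝ, 0 < c → Integrable (fun y : Fin n → ℝ => Real.exp (-(c * ‖y‖))) := by
    intro c hc
    have := hEXN n 0 c hc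
    simpa using this
  -- (2)
  have h2 : IntegrableOn (fun y => Real.exp (-(η y))) (interior (Prod.snd '' W)) := by
    have hdom : IntegrableOn (fun y : Fin n → ℝ => Real.exp C' * Real.exp (-(c * ‖y‖)))
        (interior (Prod.snd '' W)) := ((hexn c hc).const_mul _).integrableOn
    refine hdom.mono' ?_ ?_
    · exact (Real.continuous_exp.comp hηc.neg).aestronglyMeasurable
    · filter_upwards [ae_restrict_mem hOm] with y hy
      rw [Real.norm_eq_abs, abs_of_pos (Real.exp_pos _), ← Real.exp_add]
      apply Real.exp_le_exp.mpr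
      have := h1 y (hsub hy)
      linarith
  refine ⟨⟨c, C', hc, h1⟩, h2, ?_, ?_, ?_⟩
  · -- positivity
    rw [setIntegral_pos_iff_support_of_nonneg_ae]
    · have hs : Function.support (fun y => Real.exp (-(η y))) = univ := by
        ext y
        simp [(Real.exp_pos _).ne']
      rw [hs, univ_inter]
      exact hO.measure_pos volume hF5
    · filter_upwards with y
      exact (Real.exp_pos _).le
    · exact h2
  · -- the limit for `W`
    have hev : ∀ᶠ a : ℝ in 𝓝[>] 0, UG (poly m) (gg l) a η := (hSML n (poly m) ι l hC η hη).1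
    have heq : (fun a : ℝ => a * lap volume W (fn a η)) =ᶠ[𝓝[>] 0]
        fun a => ∫ y in interior (Prod.snd '' W), Real.exp (-(η y) - a * fW W y) := by
      filter_upwards [hev] with a ha
      rw [(hF7 a η ha).1, ← mul_assoc, mul_inv_cancel₀ ha.1.ne', one_mul]
    refine Tendsto.congr' heq.symm ?_
    have hfc : ContinuousOn (fW W) (interior (Prod.snd '' W)) := hF8.continuousOn hO
    apply tendsto_integral_filter_of_dominated_convergence
      (fun y : Fin n → ℝ => Real.exp (|C'| + |A|) * Real.exp (-(c / 2 * ‖y‖)))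
    · filter_upwards with a
      apply ContinuousOn.aestronglyMeasurable _ hOm
      apply Real.continuous_exp.comp_continuousOn
      exact (hηc.neg.continuousOn).sub (continuousOn_const.mul hfc)
    · have hsm : ∀ᶠ a : ℝ in 𝓝[>] 0, a ≤ 1 ∧ a * B ≤ c / 2 := by
        have t1 : Tendsto (fun a : ℝ => a) (𝓝[>] (0 : ℝ)) (𝓝 0) :=
          tendsto_id.mono_left nhdsWithin_le_nhds
        have t2 : Tendsto (fun a : ℝ => a * B) (𝓝[>] (0 : ℝ)) (𝓝 0) := by
          simpa using t1.mul_const B
        filter_upwards [t1.eventually_le_const (show (0 : ℝ) < 1 by norm_num),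
          t2.eventually_le_const (show (0 : ℝ) < c / 2 by positivity)] with a ha1 ha2
        exact ⟨ha1, ha2⟩
      filter_upwards [hsm, self_mem_nhdsWithin] with a ha ha0
      filter_upwards [ae_restrict_mem hOm] with y hy
      have ha0' : (0 : ℝ) < a := ha0
      rw [Real.norm_eq_abs, abs_of_pos (Real.exp_pos _), ← Real.exp_add]
      apply Real.exp_le_exp.mpr
      have e1 := h1 y (hsub hy)
      have e2 := hF2 y (hsub hy)
      have e3 := (abs_le.mp (hB y)).1
      have e4 : -(|A| + B * ‖y‖) ≤ fW W y := by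
        have := le_abs_self A
        linarith
      have e5 : a * -(|A| + B * ‖y‖) ≤ a * fW W y := mul_le_mul_of_nonneg_left e4 ha0'.le
      have e6 : a * |A| ≤ |A| := by
        have := mul_le_mul_of_nonneg_right ha.1 (abs_nonneg A)
        linarith
      have e7 : a * B * ‖y‖ ≤ c / 2 * ‖y‖ := mul_le_mul_of_nonneg_right ha.2 (norm_nonneg y)
      have e8 := le_abs_self C'
      nlinarith
    · exact ((hexn (c / 2) (by positivity)).const_mul _).integrableOn
    · filter_upwards with y
      have t1 : Tendsto (fun a : ℝ => a) (𝓝[>] (0 : ℝ)) (𝓝 0) :=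
        tendsto_id.mono_left nhdsWithin_le_nhds
      have t2 : Tendsto (fun a : ℝ => -(η y) - a * fW W y) (𝓝[>] (0 : ℝ))
          (𝓝 (-(η y) - 0 * fW W y)) := tendsto_const_nhds.sub (t1.mul_const _)
      rw [zero_mul, sub_zero] at t2
      exact (Real.continuous_exp.tendsto _).comp t2
  · -- the limit for the cone
    have hev : ∀ᶠ a : ℝ in 𝓝[>] 0, UG (poly m) (gg l) a η := (hSML n (poly m) ι l hC η hη).1
    have hlim := (hSML n (poly m) ι l hC η hη).2.1 (gg l) 0 hgc.continuousOn
      (fun y _ => by rw [sub_zero])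
    refine Tendsto.congr' ?_ hlim
    filter_upwards [hev] with a ha
    rw [(hF7 a η ha).2, LG, ← mul_assoc, mul_inv_cancel₀ ha.1.ne', one_mul]

end Pool.Agent.PRC
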