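import Pool.Agent.PRC.StF

set_option autoImplicit false

open MeasureTheory Set Filter Topology
open Pool.Agent.H30.Sccp

namespace Pool.Agent.PRC

namespace FA3aux

lemma UU_smul {E : Type*} [NormedAddCommGroup E] [NormedSpace ℝ E] {K : Set E}
    {ξ : E →ₗ[ℝ] ℝ} (h : ξ ∈ UU K) {t : ℝ} (ht : 0 < t) : t • ξ ∈ UU K := by
  intro d hd hd0
  rw [LinearMap.smul_apply, smul_eq_mul]
  exact mul_pos ht (h d hd hd0)

lemma fr (n : ℕ) : Module.finrank ℝ (ℝ × (Fin n → ℝ)) = n + 1 := by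
  rw [Module.finrank_prod, Module.finrank_self, Module.finrank_fin_fun, add_comm]

lemma haar (n : ℕ) : (volume : Measure (ℝ × (Fin n → ℝ))).IsAddHaarMeasure :=
  Measure.prod.instIsAddHaarMeasure (volume : Measure ℝ) (volume : Measure (Fin n → ℝ))

end FA3aux

open FA3aux in
theorem t_FA3 : M_FA3 := by
  intro hGGB _ hINT hSML hLAP hSCA hKCU hFA2
  intro n κ _ m ι _ _ l W A hC hW hId hlow η hη
  have := haar n
  obtain ⟨-, -, hlW, hTW, hTK⟩ := hFA2 n κ m ι l W A hC hW hlow η hη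
  obtain ⟨-, -, -, -, hcont, -⟩ := hGGB n ι l
  obtain ⟨-, -, hI⟩ := hINT n (poly m) ι l (gg l) 0 hC hcont.continuousOn
    (fun y _ => by rw [sub_zero])
  have hl : 0 < EU (poly m) (fun _ => 1) η := (hI η hη).2
  obtain ⟨hUG, -⟩ := hSML n (poly m) ι l hC η hη
  obtain ⟨hK, hUUi, -⟩ := hKCU n (poly m) ι l hC
  have hUUe : ∀ᶠ a : ℝ in 𝓝[>] 0, fn a η ∈ UU (KC (poly m) (gg l)) :=
    hUG.mono (fun a ha => (hUUi a η).mpr ha)
  obtain ⟨a0, ha0⟩ := hUUe.exists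
  have hL := hLAP (ℝ × (Fin n → ℝ)) volume (KC (poly m) (gg l)) W hK hW
  obtain ⟨-, hpos, hsc, -, hhs, -, -⟩ := hL
  have hS := hSCA (ℝ × (Fin n → ℝ)) volume (KC (poly m) (gg l)) W hK hW (fn a0 η) ha0
  rw [fr] at hS
  rw [fr] at hsc
  set K : Set (ℝ × (Fin n → ℝ)) := KC (poly m) (gg l) with hKdef
  set ξ0 : (ℝ × (Fin n → ℝ)) →ₗ[ℝ] ℝ := fn a0 η with hξ0
  have hP0 : 0 < lap volume K ξ0 := (hpos ξ0 ha0).1
  -- the dilation factor
  set q : ℝ → ℝ := fun a => (lap volume K ξ0 / lap volume K (fn a η)) ^ (((n + 1 : ℕ) : ℝ)⁻¹)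
    with hq
  have hqpos : ∀ a : ℝ, fn a η ∈ UU K → 0 < q a := by
    intro a ha
    exact Real.rpow_pos_of_pos (div_pos hP0 (hpos _ ha).1) _
  have hqpow : ∀ a : ℝ, fn a η ∈ UU K → q a ^ (n + 1) = lap volume K ξ0 / lap volume K (fn a η) := by
    intro a ha
    exact Real.rpow_inv_natCast_pow (div_pos hP0 (hpos _ ha).1).le (Nat.succ_ne_zero n)
  -- L_K tends to infinity
  have hinv : Tendsto (fun a : ℝ => a⁻¹) (𝓝[>] 0) atTop := tendsto_inv_nhdsGT_zero
  have hLKinf : Tendsto (fun a : ℝ => lap volume K (fn a η)) (𝓝[>] 0) atTop := by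
    have h1 : Tendsto (fun a : ℝ => a⁻¹ * (a * lap volume K (fn a η))) (𝓝[>] 0) atTop :=
      hinv.atTop_mul_pos hl hTK
    refine h1.congr' ?_
    filter_upwards [self_mem_nhdsWithin] with a ha
    have ha' : (a : ℝ) ≠ 0 := (ne_of_gt ha)
    rw [← mul_assoc, inv_mul_cancel₀ ha', one_mul]
  have hratio : Tendsto (fun a : ℝ => lap volume K ξ0 / lap volume K (fn a η)) (𝓝[>] 0) (𝓝 0) :=
    hLKinf.const_div_atTop _
  have hq0 : Tendsto q (𝓝[>] 0) (𝓝 0) := by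
    have h2 : Tendsto (fun x : ℝ => x ^ (((n + 1 : ℕ) : ℝ)⁻¹)) (𝓝 0) (𝓝 0) := by
      have h3 := (Real.continuousAt_rpow_const 0 (((n + 1 : ℕ) : ℝ)⁻¹)
        (Or.inr (by positivity))).tendsto
      rwa [Real.zero_rpow (by positivity)] at h3
    exact h2.comp hratio
  have hq0' : Tendsto q (𝓝[>] 0) (𝓝[>] 0) := by
    rw [tendsto_nhdsWithin_iff]
    exact ⟨hq0, hUUe.mono (fun a ha => hqpos a ha)⟩
  have hSq : Tendsto (fun a : ℝ => q a ^ (n + 1) * lap volume W (q a • ξ0)) (𝓝[>] 0)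
      (𝓝 (lap volume K ξ0)) := hS.comp hq0'
  have hexp : Tendsto (fun a : ℝ => Real.exp (q a * hinf W ξ0)) (𝓝[>] 0) (𝓝 1) := by
    have h4 : Tendsto (fun a : ℝ => q a * hinf W ξ0) (𝓝[>] 0) (𝓝 (0 * hinf W ξ0)) :=
      hq0.mul_const _
    rw [zero_mul] at h4
    have h5 := (Real.continuous_exp.tendsto 0).comp h4
    rwa [Real.exp_zero] at h5
  have hmain : Tendsto (fun a : ℝ => Real.exp (q a * hinf W ξ0) *
      ((q a ^ (n + 1) * lap volume W (q a • ξ0)) / lap volume K ξ0) *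
      ((a * lap volume K (fn a η)) / (a * lap volume W (fn a η)))) (𝓝[>] 0)
      (𝓝 (1 * (lap volume K ξ0 / lap volume K ξ0) *
        (EU (poly m) (fun _ => 1) η / ∫ y in interior (Prod.snd '' W), Real.exp (-(η y))))) :=
    (hexp.mul (hSq.div_const _)).mul (hTK.div hTW hlW.ne')
  rw [div_self hP0.ne', one_mul, one_mul] at hmain
  refine hmain.congr' ?_
  filter_upwards [self_mem_nhdsWithin, hUUe] with a ha hUa
  have ha' : (0 : ℝ) < a := ha
  have hqa := hqpos a hUa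
  have hKa := (hpos _ hUa).1
  have hWa := (hpos _ hUa).2
  have hEq : lap volume K (fn a η) = lap volume K (q a • ξ0) := by
    rw [hsc ξ0 ha0 (q a) hqa, hqpow a hUa]
    field_simp
  have hid := hId (fn a η) hUa (q a • ξ0) (UU_smul ha0 hqa) hEq 1 one_pos
  rw [one_mul, one_mul, one_smul, one_smul, hhs ξ0 ha0 (q a) hqa] at hid
  rw [hqpow a hUa]
  have e1 : Real.exp (q a * hinf W ξ0) *
      (lap volume K ξ0 / lap volume K (fn a η) * lap volume W (q a • ξ0) / lap volume K ξ0) *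
      (a * lap volume K (fn a η) / (a * lap volume W (fn a η))) =
      (Real.exp (q a * hinf W ξ0) * lap volume W (q a • ξ0)) / lap volume W (fn a η) := by
    field_simp
  rw [e1, hid]
  field_simp

end Pool.Agent.PRC
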