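import Pool.Agent.PRC.StF

/-!
# SCCP sets with polyhedral recession cone (MP_5f8b0b_gt): module FAC
-/

set_option autoImplicit false

open MeasureTheory Set Filter Topology
open Pool.Agent.H30.Sccp

namespace Pool.Agent.PRC

namespace FACaux

variable {n : ℕ}

theorem add_mem {K : Set (Fin n → ℝ)} (hK : IsCone K) {x y : Fin n → ℝ} (hx : x ∈ K)
    (hy : y ∈ K) : x + y ∈ K := by
  have h1 := hK.convex hx hy (by norm_num : (0 : ℝ) ≤ 1 / 2) (by norm_num : (0 : ℝ) ≤ 1 / 2)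
    (by norm_num)
  have h2 := hK.smul 2 (by norm_num) _ h1
  have e : (2 : ℝ) • ((1 / 2 : ℝ) • x + (1 / 2 : ℝ) • y) = x + y := by
    rw [smul_add, smul_smul, smul_smul]
    norm_num
  rwa [e] at h2

theorem isW_self {K : Set (Fin n → ℝ)} (hK : IsCone K) : IsW K K := by
  refine ⟨hK.closed, hK.convex, ⟨0, hK.zero⟩, ?_⟩
  ext d
  constructor
  · intro hd
    have h := hd 0 hK.zero 1 zero_le_one
    rwa [zero_add, one_smul] at h
  · intro hd x hx s hs
    exact add_mem hK hx (hK.smul s hs d hd)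

/-- translation of the integral -/
theorem trans_int (S : Set (Fin n → ℝ)) (hS : MeasurableSet S) (y₀ : Fin n → ℝ)
    (η : (Fin n → ℝ) →ₗ[ℝ] ℝ) :
    ∫ y in {y | y - y₀ ∈ S}, Real.exp (-(η y)) =
      Real.exp (-(η y₀)) * ∫ y in S, Real.exp (-(η y)) := by
  have hS' : MeasurableSet {y : Fin n → ℝ | y - y₀ ∈ S} := by
    have : {y : Fin n → ℝ | y - y₀ ∈ S} = (fun y => y - y₀) ⁻¹' S := rfl
    rw [this]
    exact (measurable_id.sub_const y₀) hS
  rw [← integral_indicator hS', ← integral_const_mul, ← integral_indicator hS]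
  rw [← integral_add_right_eq_self _ y₀]
  refine integral_congr_ae (Filter.Eventually.of_forall fun y => ?_)
  beta_reduce
  by_cases hy : y ∈ S
  · have h1 : y + y₀ ∈ {y : Fin n → ℝ | y - y₀ ∈ S} := by
      change y + y₀ - y₀ ∈ S
      rwa [add_sub_cancel_right]
    rw [indicator_of_mem h1, indicator_of_mem hy, ← Real.exp_add, map_add]
    congr 1
    ring
  · have h1 : y + y₀ ∉ {y : Fin n → ℝ | y - y₀ ∈ S} := by
      intro h
      change y + y₀ - y₀ ∈ S at h
      rw [add_sub_cancel_right] at h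
      exact hy h
    rw [indicator_of_notMem h1, indicator_of_notMem hy]

/-- the end of the proof: `y₀` with `ℓ_W ≤ e^{-η y₀} ℓ` and `y₀ + C ⊆ closure P` -/
theorem finish {C P : Set (Fin n → ℝ)} (hC : IsCone C) (hP : Convex ℝ P)
    (hPi : (interior P).Nonempty) (η : (Fin n → ℝ) →ₗ[ℝ] ℝ) (y₀ : Fin n → ℝ)
    (hint : IntegrableOn (fun y => Real.exp (-(η y))) (interior P))
    (hle : ∫ y in interior P, Real.exp (-(η y)) ≤
      Real.exp (-(η y₀)) * ∫ y in interior C, Real.exp (-(η y)))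
    (hcl : ∀ d ∈ C, y₀ + d ∈ closure P) :
    (∀ y ∈ P, y - y₀ ∈ C) ∧ ∀ y, y - y₀ ∈ interior C → y ∈ P := by
  have hUo : IsOpen {y : Fin n → ℝ | y - y₀ ∈ interior C} :=
    isOpen_interior.preimage (continuous_id.sub continuous_const)
  have hUcl : {y : Fin n → ℝ | y - y₀ ∈ interior C} ⊆ closure P := by
    intro y hy
    have h := hcl (y - y₀) (interior_subset hy)
    rwa [add_sub_cancel] at h
  have hUP : {y : Fin n → ℝ | y - y₀ ∈ interior C} ⊆ interior P := by
    have h := interior_maximal hUcl hUo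
    rwa [hP.interior_closure_eq_interior_of_nonempty_interior hPi] at h
  refine ⟨?_, fun y hy => interior_subset (hUP hy)⟩
  -- the difference is a null set
  have hdiff : ∫ y in interior P \ {y : Fin n → ℝ | y - y₀ ∈ interior C}, Real.exp (-(η y)) ≤ 0 := by
    rw [setIntegral_sdiff hUo.measurableSet hint hUP,
      trans_int (interior C) isOpen_interior.measurableSet y₀ η]
    linarith
  by_contra hcon
  push Not at hcon
  obtain ⟨p, hp, hpC⟩ := hcon
  have hVo : IsOpen {y : Fin n → ℝ | y - y₀ ∉ C} :=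
    hC.closed.isOpen_compl.preimage (continuous_id.sub continuous_const)
  have hpcl : p ∈ closure (interior P) := by
    rw [hP.closure_interior_eq_closure_of_nonempty_interior hPi]
    exact subset_closure hp
  have hne : ({y : Fin n → ℝ | y - y₀ ∉ C} ∩ interior P).Nonempty :=
    mem_closure_iff.1 hpcl _ hVo hpC
  have hsub : {y : Fin n → ℝ | y - y₀ ∉ C} ∩ interior P ⊆
      interior P \ {y : Fin n → ℝ | y - y₀ ∈ interior C} := by
    rintro y ⟨h1, h2⟩
    exact ⟨h2, fun h3 => h1 (interior_subset h3)⟩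
  have hpos : 0 < ∫ y in interior P \ {y : Fin n → ℝ | y - y₀ ∈ interior C},
      Real.exp (-(η y)) := by
    rw [setIntegral_pos_iff_support_of_nonneg_ae
      (Filter.Eventually.of_forall fun x => (Real.exp_pos _).le) (hint.mono_set sdiff_subset)]
    have h1 : Function.support (fun y : Fin n → ℝ => Real.exp (-(η y))) = univ := by
      ext x
      simp [Real.exp_ne_zero]
    rw [h1, univ_inter]
    exact lt_of_lt_of_le ((hVo.inter isOpen_interior).measure_pos volume hne)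
      (measure_mono hsub)
  linarith

end FACaux

theorem t_FAC : M_FAC := by
  intro hGGB hCON hPOS hLAP hKCU hSML hFIB hFA2 hFA3 n κ _ m ι _ _ l W A hC hW hId hA
  obtain ⟨η, hη⟩ := hPOS (Fin n → ℝ) (poly m) hC
  obtain ⟨g1, g2, g3, g4, g5, B, hB0, hB⟩ := hGGB n ι l
  obtain ⟨c1, c2, c3, c4, c5, c6, c7⟩ := hCON n (poly m) hC
  obtain ⟨k1, k2, k3⟩ := hKCU n (poly m) ι l hC
  obtain ⟨s1, -⟩ := hSML n (poly m) ι l hC η hη
  obtain ⟨f1, f2, f3, f4, f5, f6, f7, f8⟩ :=
    hFIB n (poly m) ι l W A hC hW (fun x hx => (hA x hx).2)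
  obtain ⟨⟨c, C', hc, hcC⟩, a2, a3, a4, a5⟩ := hFA2 n κ m ι l W A hC hW hA η hη
  have h3 := hFA3 n κ m ι l W A hC hW hId hA η hη
  obtain ⟨p1, p2, -⟩ := hLAP (Fin n → ℝ) volume (poly m) (poly m) hC (FACaux.isW_self hC)
  have hHaar : (((volume : Measure ℝ).prod (volume : Measure (Fin n → ℝ)))).IsAddHaarMeasure :=
    inferInstance
  have hHaar' : (volume : Measure (ℝ × (Fin n → ℝ))).IsAddHaarMeasure := hHaar
  obtain ⟨-, -, -, q4, -⟩ := hLAP (ℝ × (Fin n → ℝ)) volume (KC (poly m) (gg l)) W k1 hW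
  -- the constants
  have hEU : EU (poly m) (fun _ => 1) η = ∫ y in interior (poly m), Real.exp (-(η y)) := by
    unfold EU
    simp only [mul_one]
  have hℓ : 0 < ∫ y in interior (poly m), Real.exp (-(η y)) := by
    have h := (p2 η hη).1
    unfold lap at h
    rwa [← c4] at h
  rw [hEU] at h3
  set ℓ : ℝ := ∫ y in interior (poly m), Real.exp (-(η y)) with hℓdef
  set ℓW : ℝ := ∫ y in interior (Prod.snd '' W), Real.exp (-(η y)) with hℓWdef
  -- the sequence
  have hseq : Tendsto (fun k : ℕ => 1 / ((k : ℝ) + 1)) atTop (𝓝[>] 0) := by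
    refine tendsto_nhdsWithin_iff.2 ⟨tendsto_one_div_add_atTop_nhds_zero_nat, ?_⟩
    exact Filter.Eventually.of_forall fun k => by
      change (0 : ℝ) < 1 / ((k : ℝ) + 1)
      positivity
  have hch : ∀ k : ℕ, ∃ x ∈ W, (fn (1 / ((k : ℝ) + 1)) η ∈ UU (KC (poly m) (gg l)) →
      fn (1 / ((k : ℝ) + 1)) η x < hinf W (fn (1 / ((k : ℝ) + 1)) η) + 1 / ((k : ℝ) + 1)) := by
    intro k
    by_cases h : fn (1 / ((k : ℝ) + 1)) η ∈ UU (KC (poly m) (gg l))
    · obtain ⟨x, hx, hx'⟩ := (q4 _ h).2 (1 / ((k : ℝ) + 1)) (by positivity)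
      exact ⟨x, hx, fun _ => hx'⟩
    · obtain ⟨x, hx⟩ := hW.ne
      exact ⟨x, hx, fun h' => absurd h' h⟩
  choose x hxW hx using hch
  have e1 : ∀ᶠ k : ℕ in atTop, fn (1 / ((k : ℝ) + 1)) η ∈ UU (KC (poly m) (gg l)) := by
    filter_upwards [hseq.eventually s1] with k hk
    exact (k2 _ _).2 hk
  have e2 : ∀ᶠ k : ℕ in atTop, Real.exp (hinf W (fn (1 / ((k : ℝ) + 1)) η)) < ℓ / ℓW + 1 :=
    (h3.comp hseq).eventually (gt_mem_nhds (lt_add_one _))
  have e3 : ∀ᶠ k : ℕ in atTop, B * (1 / ((k : ℝ) + 1)) < c / 2 := by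
    have h : Tendsto (fun k : ℕ => B * (1 / ((k : ℝ) + 1))) atTop (𝓝 (B * 0)) :=
      tendsto_one_div_add_atTop_nhds_zero_nat.const_mul B
    rw [mul_zero] at h
    exact h.eventually (gt_mem_nhds (half_pos hc))
  have hfn : ∀ (a : ℝ) (z : ℝ × (Fin n → ℝ)), fn a η z = a * z.1 + η z.2 := fun a z => rfl
  -- the basic inequality
  have e4 : ∀ᶠ k : ℕ in atTop, η (x k).2 ≤ hinf W (fn (1 / ((k : ℝ) + 1)) η) +
      1 / ((k : ℝ) + 1) * (1 + |A| + B * ‖(x k).2‖) := by
    filter_upwards [e1] with k hk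
    have h1 := hx k hk
    rw [hfn] at h1
    have h2 := (hA (x k) (hxW k)).2
    have h4 := hB (x k).2
    have h5 := (abs_le.1 h4).1
    have h6 : -(|A| + B * ‖(x k).2‖) ≤ (x k).1 := by
      have := le_abs_self A
      linarith
    have h7 : (0 : ℝ) ≤ 1 / ((k : ℝ) + 1) := by positivity
    have h8 := mul_le_mul_of_nonneg_left h6 h7
    nlinarith
  have hL : 0 < ℓ / ℓW + 1 := by positivity
  set R : ℝ := (Real.log (ℓ / ℓW + 1) + 1 + |A| + C') / (c / 2) with hR
  have e5 : ∀ᶠ k : ℕ in atTop, (x k).2 ∈ Metric.closedBall (0 : Fin n → ℝ) R := by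
    filter_upwards [e2, e3, e4] with k h1 h2 h4
    rw [mem_closedBall_zero_iff, hR, le_div_iff₀ (half_pos hc)]
    have h5 := hcC (x k).2 ⟨x k, hxW k, rfl⟩
    have h6 : hinf W (fn (1 / ((k : ℝ) + 1)) η) < Real.log (ℓ / ℓW + 1) :=
      (Real.lt_log_iff_exp_lt hL).2 h1
    have h7 : 1 / ((k : ℝ) + 1) ≤ 1 := by
      rw [div_le_one (by positivity)]
      have : (0 : ℝ) ≤ (k : ℝ) := Nat.cast_nonneg k
      linarith
    have h8 : (1 / ((k : ℝ) + 1)) * (1 + |A|) ≤ 1 + |A| := by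
      have : 0 ≤ 1 + |A| := by positivity
      nlinarith
    have h9 : (1 / ((k : ℝ) + 1)) * (B * ‖(x k).2‖) ≤ c / 2 * ‖(x k).2‖ := by
      have := mul_le_mul_of_nonneg_right h2.le (norm_nonneg (x k).2)
      linarith
    have h10 : 1 / ((k : ℝ) + 1) * (1 + |A| + B * ‖(x k).2‖) =
      (1 / ((k : ℝ) + 1)) * (1 + |A|) + (1 / ((k : ℝ) + 1)) * (B * ‖(x k).2‖) := by ring
    rw [h10] at h4
    linarith
  obtain ⟨y₀, hy₀, φ, hφ, hlim⟩ :=
    (isCompact_closedBall (0 : Fin n → ℝ) R).tendsto_subseq' e5.frequently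
  have hηc : Continuous η := η.continuous_of_finiteDimensional
  have hφt : Tendsto φ atTop atTop := hφ.tendsto_atTop
  have l1 : Tendsto (fun k => Real.exp (η ((fun j => (x j).2) (φ k)))) atTop
      (𝓝 (Real.exp (η y₀))) :=
    (Real.continuous_exp.tendsto _).comp ((hηc.tendsto y₀).comp hlim)
  have l2 : Tendsto (fun k => Real.exp (hinf W (fn (1 / ((φ k : ℝ) + 1)) η)) *
      Real.exp (1 / ((φ k : ℝ) + 1) * (1 + |A| + B * ‖(x (φ k)).2‖))) atTop
      (𝓝 (ℓ / ℓW * Real.exp (0 * (1 + |A| + B * ‖y₀‖)))) := by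
    refine ((h3.comp hseq).comp hφt).mul ?_
    refine (Real.continuous_exp.tendsto _).comp ?_
    refine Tendsto.mul (tendsto_one_div_add_atTop_nhds_zero_nat.comp hφt) ?_
    exact tendsto_const_nhds.add ((hlim.norm).const_mul B)
  rw [zero_mul, Real.exp_zero, mul_one] at l2
  have l3 : Real.exp (η y₀) ≤ ℓ / ℓW := by
    refine le_of_tendsto_of_tendsto l1 l2 ?_
    filter_upwards [hφt.eventually e4] with k hk
    rw [← Real.exp_add]
    exact Real.exp_le_exp.2 hk
  have hle : ℓW ≤ Real.exp (-(η y₀)) * ℓ := by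
    rw [le_div_iff₀ a3] at l3
    rw [Real.exp_neg, inv_mul_eq_div, le_div_iff₀ (Real.exp_pos _)]
    linarith
  have hcl : ∀ d ∈ poly m, y₀ + d ∈ closure (Prod.snd '' W) := by
    intro d hd
    refine mem_closure_of_tendsto (hlim.add_const d) (Filter.Eventually.of_forall fun k => ?_)
    exact (f4 _ ⟨x (φ k), hxW (φ k), rfl⟩ d hd).1
  obtain ⟨r1, r2⟩ := FACaux.finish hC f3 f5 η y₀ a2 hle hcl
  refine ⟨y₀, fun z hz => r1 _ ⟨z, hz, rfl⟩, fun y hy => ?_⟩
  obtain ⟨z, hz, rfl⟩ := r2 y hy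
  exact ⟨z.1, hz⟩

end Pool.Agent.PRC
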