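import Pool.Agent.PRC.StF

/-!
# FIB: fibres of `W` over its projection
-/

set_option autoImplicit false

open MeasureTheory Set Filter Topology
open Pool.Agent.H30.Sccp

namespace Pool.Agent.PRC

namespace FIBaux

/-- A convex set is almost everywhere equal to its interior. -/
lemma ae_int {n : ℕ} {S : Set (Fin n → ℝ)} (hS : Convex ℝ S) :
    ∀ᵐ y : Fin n → ℝ, y ∉ interior S → y ∉ S := by
  have h : (interior S : Set (Fin n → ℝ)) =ᵐ[volume] S :=
    interior_ae_eq_of_null_frontier (hS.addHaar_frontier volume)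
  filter_upwards [h] with y hy hny hyS
  apply hny
  have : (interior S) y = S y := hy
  exact this.mpr hyS

end FIBaux

open FIBaux in
theorem t_FIB : M_FIB := by
  intro hGGB _ hLAP hKCU hFUB n C ι _ _ l W A hC hW hA
  obtain ⟨-, -, ghom, gsub, gcont, -⟩ := hGGB n ι l
  obtain ⟨kcone, kuu, -⟩ := hKCU n C ι l hC
  have g0 : gg l 0 = 0 := by
    have := ghom 0 0 le_rfl
    simpa using this
  -- adding recession directions
  have hadd : ∀ x ∈ W, ∀ d ∈ KC C (gg l), x + d ∈ W := by
    intro x hx d hd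
    rw [← hW.reco] at hd
    have := hd x hx 1 zero_le_one
    simpa using this
  have hup : ∀ t : ℝ, 0 ≤ t → ((t, 0) : ℝ × (Fin n → ℝ)) ∈ KC C (gg l) := by
    intro t ht
    exact ⟨hC.zero, by rw [g0]; exact ht⟩
  have hgd : ∀ d ∈ C, ((gg l d, d) : ℝ × (Fin n → ℝ)) ∈ KC C (gg l) := fun d hd => ⟨hd, le_rfl⟩
  -- the fibres
  have hbdd : ∀ y, BddBelow {s : ℝ | (s, y) ∈ W} := fun y => ⟨gg l y - A, fun s hs => hA _ hs⟩
  have hcl : ∀ y, IsClosed {s : ℝ | (s, y) ∈ W} := fun y =>
    hW.closed.preimage (by fun_prop : Continuous fun s : ℝ => ((s, y) : ℝ × (Fin n → ℝ)))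
  have hne : ∀ y ∈ Prod.snd '' W, {s : ℝ | (s, y) ∈ W}.Nonempty := by
    rintro y ⟨⟨s, y'⟩, hx, rfl⟩
    exact ⟨s, hx⟩
  have h1 : ∀ y ∈ Prod.snd '' W, ∀ s, (s, y) ∈ W ↔ fW W y ≤ s := by
    intro y hy s
    constructor
    · intro hs
      exact csInf_le (hbdd y) hs
    · intro hs
      have hmem : sInf {s : ℝ | (s, y) ∈ W} ∈ {s : ℝ | (s, y) ∈ W} :=
        (hcl y).csInf_mem (hne y hy) (hbdd y)
      have h2 : ((fW W y, y) : ℝ × (Fin n → ℝ)) ∈ W := hmem
      have h3 := hadd _ h2 _ (hup (s - fW W y) (by linarith))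
      simpa using h3
  have hfm : ∀ y ∈ Prod.snd '' W, ((fW W y, y) : ℝ × (Fin n → ℝ)) ∈ W := fun y hy =>
    (h1 y hy _).mpr le_rfl
  have h2 : ∀ y ∈ Prod.snd '' W, gg l y - A ≤ fW W y := fun y hy => hA _ (hfm y hy)
  have h3 : Convex ℝ (Prod.snd '' W) := by
    have := hW.convex.linear_image (LinearMap.snd ℝ ℝ (Fin n → ℝ))
    simpa using this
  have h4 : ∀ y ∈ Prod.snd '' W, ∀ d ∈ C, y + d ∈ Prod.snd '' W ∧
      fW W (y + d) ≤ fW W y + gg l d := by
    intro y hy d hd
    have e1 := hadd _ (hfm y hy) _ (hgd d hd)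
    have e2 : ((fW W y + gg l d, y + d) : ℝ × (Fin n → ℝ)) ∈ W := by simpa using e1
    have e3 : y + d ∈ Prod.snd '' W := ⟨_, e2, rfl⟩
    exact ⟨e3, (h1 _ e3 _).mp e2⟩
  have h5 : (interior (Prod.snd '' W)).Nonempty := by
    obtain ⟨x0, hx0⟩ := hW.ne
    obtain ⟨c, hc⟩ := hC.int
    refine ⟨x0.2 + c, mem_interior.mpr ⟨(fun z => z - x0.2) ⁻¹' interior C, ?_, ?_, ?_⟩⟩
    · intro z hz
      have hz' : z - x0.2 ∈ C := interior_subset hz
      have := (h4 x0.2 ⟨x0, hx0, rfl⟩ _ hz').1
      simpa using this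
    · exact isOpen_interior.preimage (by fun_prop)
    · show x0.2 + c - x0.2 ∈ interior C
      simpa using hc
  have h6 : volume.restrict (interior (Prod.snd '' W)) = volume.restrict (Prod.snd '' W) :=
    Measure.restrict_congr_set
      (interior_ae_eq_of_null_frontier (h3.addHaar_frontier volume))
  haveI : (volume : Measure (ℝ × (Fin n → ℝ))).IsAddHaarMeasure := by
    rw [Measure.volume_eq_prod]
    infer_instance
  obtain ⟨lint, -, -, -, -, lKK, -⟩ := hLAP (ℝ × (Fin n → ℝ)) volume (KC C (gg l)) W kcone hW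
  obtain ⟨lintK, -⟩ := hLAP (ℝ × (Fin n → ℝ)) volume (KC C (gg l)) (KC C (gg l)) kcone lKK
  refine ⟨h1, h2, h3, h4, h5, h6, ?_, ?_⟩
  · intro a η hη
    have huu := (kuu a η).mpr hη
    constructor
    · refine hFUB n W (interior (Prod.snd '' W)) (fW W) a η hη.1 hW.closed.measurableSet
        isOpen_interior.measurableSet ?_ (lint _ huu).1
      filter_upwards [ae_int h3] with y hy
      constructor
      · intro hyO
        have hyP : y ∈ Prod.snd '' W := interior_subset hyO
        have : {s : ℝ | (s, y) ∈ W} = Ici (fW W y) := by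
          ext s
          exact h1 y hyP s
        rw [this]
      · intro hyO
        have hyP := hy hyO
        rw [Set.eq_empty_iff_forall_notMem]
        intro s hs
        exact hyP ⟨(s, y), hs, rfl⟩
    · unfold LG JJ
      refine hFUB n (KC C (gg l)) (interior C) (gg l) a η hη.1 kcone.closed.measurableSet
        isOpen_interior.measurableSet ?_ (lintK _ huu).1
      filter_upwards [ae_int hC.convex] with y hy
      constructor
      · intro hyO
        have hyP : y ∈ C := interior_subset hyO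
        have : {s : ℝ | (s, y) ∈ KC C (gg l)} = Ici (gg l y) := by
          ext s
          exact ⟨fun h => h.2, fun h => ⟨hyP, h⟩⟩
        rw [this]
      · intro hyO
        have hyP := hy hyO
        rw [Set.eq_empty_iff_forall_notMem]
        intro s hs
        exact hyP hs.1
  · refine ⟨h3.interior, ?_⟩
    intro x hx y hy a b ha hb hab
    have hx' : x ∈ Prod.snd '' W := interior_subset hx
    have hy' : y ∈ Prod.snd '' W := interior_subset hy
    have e1 := hW.convex (hfm x hx') (hfm y hy') ha hb hab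
    have e2 : ((a * fW W x + b * fW W y, a • x + b • y) : ℝ × (Fin n → ℝ)) ∈ W := by
      simpa using e1
    have e3 : a • x + b • y ∈ Prod.snd '' W := ⟨_, e2, rfl⟩
    have e4 := (h1 _ e3 _).mp e2
    simpa using e4

end Pool.Agent.PRC
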