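import Pool.Agent.PRC.StF

set_option autoImplicit false

open MeasureTheory Set Filter Topology
open Pool.Agent.H30.Sccp

namespace Pool.Agent.PRC

theorem t_FUB : S_FUB := by
  intro n S O f a η ha hS hO hfib hint
  unfold lap
  rw [← integral_indicator hS]
  have hI : Integrable (S.indicator fun x => Real.exp (-(fn a η x)))
      ((volume : Measure ℝ).prod (volume : Measure (Fin n → ℝ))) := by
    rw [← Measure.volume_eq_prod]
    exact (integrable_indicator_iff hS).2 hint
  rw [Measure.volume_eq_prod, integral_prod_symm _ hI, ← integral_const_mul,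
    ← integral_indicator hO]
  refine integral_congr_ae ?_
  filter_upwards [hfib] with y hy
  have hmeas : MeasurableSet {s : ℝ | (s, y) ∈ S} :=
    (measurable_id.prodMk measurable_const) hS
  have h1 : ∀ s : ℝ, S.indicator (fun x => Real.exp (-(fn a η x))) (s, y) =
      {s : ℝ | (s, y) ∈ S}.indicator (fun s => Real.exp (-(η y)) * Real.exp (-a * s)) s := by
    intro s
    by_cases hs : (s, y) ∈ S
    · rw [indicator_of_mem hs, indicator_of_mem (show s ∈ {s : ℝ | (s, y) ∈ S} from hs),
        ← Real.exp_add]
      congr 1
      simp [fn]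
    · rw [indicator_of_notMem hs, indicator_of_notMem (show s ∉ {s : ℝ | (s, y) ∈ S} from hs)]
  simp only [h1]
  rw [integral_indicator hmeas]
  by_cases hyO : y ∈ O
  · rw [indicator_of_mem hyO, setIntegral_congr_set (hy.1 hyO), integral_const_mul,
      integral_Ici_eq_integral_Ioi, integral_exp_mul_Ioi (by linarith : -a < 0)]
    have : Real.exp (-(η y) - a * f y) = Real.exp (-(η y)) * Real.exp (-a * f y) := by
      rw [← Real.exp_add]; congr 1; ring
    rw [this]
    field_simp
  · rw [indicator_of_notMem hyO, hy.2 hyO, Measure.restrict_empty, integral_zero_measure]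

end Pool.Agent.PRC
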