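import Pool.Agent.PRC.StI

/-!
# Module GDU: the structure `GoodU`
-/

set_option autoImplicit false

open MeasureTheory Set Filter Topology
open Pool.Agent.H30.Sccp

namespace Pool.Agent.PRC

namespace GDUaux

variable {n : ℕ}

theorem func_eq (L : (Eu n) ≃ₗ[ℝ] (Fin (n + 1) → ℝ)) (ξ : (Eu n) →ₗ[ℝ] ℝ) :
    func L (fun i => ξ (L.symm (Pi.single i 1))) = ξ := by
  classical
  refine LinearMap.ext fun x => ?_
  rw [func_apply]
  have h1 : x = ∑ i, (L x i) • L.symm (Pi.single i 1) := by
    apply L.injective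
    rw [map_sum]
    simp only [map_smul, LinearEquiv.apply_symm_apply]
    funext j
    simp [Finset.sum_apply, Pi.single_apply]
  conv_rhs => rw [h1]
  rw [map_sum]
  refine Finset.sum_congr rfl fun i _ => ?_
  rw [map_smul, smul_eq_mul, mul_comm]

theorem func_symm (L : (Eu n) ≃ₗ[ℝ] (Fin (n + 1) → ℝ)) (α x : Fin (n + 1) → ℝ) :
    func L α (L.symm x) = ∑ i, α i * x i := by
  rw [func_apply, LinearEquiv.apply_symm_apply]

theorem func_add (L : (Eu n) ≃ₗ[ℝ] (Fin (n + 1) → ℝ)) (α β : Fin (n + 1) → ℝ) (a b : ℝ) :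
    func L (a • α + b • β) = a • func L α + b • func L β := by
  refine LinearMap.ext fun x => ?_
  simp only [func_apply, LinearMap.add_apply, LinearMap.smul_apply, smul_eq_mul, Pi.add_apply,
    Pi.smul_apply, Finset.mul_sum, ← Finset.sum_add_distrib]
  exact Finset.sum_congr rfl fun i _ => by ring

theorem cone_add {K : Set (Eu n)} (hK : IsCone K) {x y : Eu n} (hx : x ∈ K) (hy : y ∈ K) :
    x + y ∈ K := by
  have h1 := hK.convex hx hy (show (0 : ℝ) ≤ 1 / 2 by norm_num) (show (0 : ℝ) ≤ 1 / 2 by norm_num)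
    (by norm_num)
  have h2 := hK.smul 2 (by norm_num) _ h1
  rw [smul_add, smul_smul, smul_smul] at h2
  norm_num at h2
  exact h2

theorem cone_sum {K : Set (Eu n)} (hK : IsCone K) {ι : Type*} (s : Finset ι) (f : ι → Eu n)
    (hf : ∀ i ∈ s, f i ∈ K) : ∑ i ∈ s, f i ∈ K := by
  classical
  induction s using Finset.induction_on with
  | empty => rw [Finset.sum_empty]; exact hK.zero
  | insert a s ha ih =>
    rw [Finset.sum_insert ha]
    exact cone_add hK (hf a (Finset.mem_insert_self _ _))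
      (ih fun i hi => hf i (Finset.mem_insert_of_mem hi))

theorem symm_mem {K : Set (Eu n)} (hK : IsCone K) (L : (Eu n) ≃ₗ[ℝ] (Fin (n + 1) → ℝ))
    (hL : ∀ i, L.symm (Pi.single i 1) ∈ K) (k : Fin (n + 1) → ℝ) (hk : ∀ i, 0 ≤ k i) :
    L.symm k ∈ K := by
  classical
  have h1 : L.symm k = ∑ i, k i • L.symm (Pi.single i 1) := by
    apply L.injective
    rw [map_sum, LinearEquiv.apply_symm_apply]
    simp only [map_smul, LinearEquiv.apply_symm_apply]
    funext j
    simp [Finset.sum_apply, Pi.single_apply]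
  rw [h1]
  exact cone_sum hK _ _ fun i _ => hK.smul _ (hk i) _ (hL i)

end GDUaux

open GDUaux in
theorem t_GDU : M_GDU := by
  classical
  intro hPOS hBEL n K Ω L hK hW hL
  obtain ⟨-, hb2, -, hb4, hb5, hb6⟩ := hBEL (Eu n) K Ω hK hW
  refine ⟨coordSet_closed L hW.closed, coordSet_convex L hW.convex, ?_, ?_, ?_, ?_, ?_, ?_, ?_, ?_⟩
  · obtain ⟨x, hx⟩ := hW.ne
    exact ⟨L x, (mem_coordSet_apply L Ω x).2 hx⟩
  · obtain ⟨ξ, hξ⟩ := hPOS (Eu n) K hK
    refine ⟨fun i => ξ (L.symm (Pi.single i 1)), ?_⟩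
    show func L _ ∈ UU K
    rw [func_eq]
    exact hξ
  · intro x hx k hk
    show L.symm (x + k) ∈ Ω
    have h1 : L.symm k ∈ recCone Ω := by
      rw [hW.reco]
      exact symm_mem hK L hL k hk
    have h2 := h1 (L.symm x) hx 1 zero_le_one
    rw [one_smul] at h2
    rw [map_add]
    exact h2
  · intro γ hγ
    obtain ⟨c, C, hc, h1⟩ := hb2 _ hγ
    refine ⟨-C, fun x hx => ?_⟩
    have h2 := h1 (L.symm x) hx
    rw [func_symm] at h2
    have h3 : 0 ≤ c * ‖L.symm x‖ := mul_nonneg hc.le (norm_nonneg _)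
    linarith
  · intro γ hγ i
    have h1 : 0 < func L γ (L.symm (Pi.single i 1)) := hγ _ (hL i) fun h0 => by
      rw [LinearEquiv.map_eq_zero_iff] at h0
      have h2 := congrFun h0 i
      rw [Pi.single_eq_same] at h2
      exact one_ne_zero h2
    rw [func_symm] at h1
    simpa [Pi.single_apply] using h1
  · intro α hα β hβ a b ha hb hab
    show func L (a • α + b • β) ∈ UU K
    rw [func_add]
    exact hb6 hα hβ ha hb hab
  · intro γ hγ t ht
    show func L (fun i => t * γ i) ∈ UU K
    have h1 : func L (fun i => t * γ i) = t • func L γ := by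
      refine LinearMap.ext fun x => ?_
      simp only [func_apply, LinearMap.smul_apply, smul_eq_mul, Finset.mul_sum]
      exact Finset.sum_congr rfl fun i _ => by ring
    rw [h1]
    exact hb4 _ hγ t ht
  · intro γ hγ j
    obtain ⟨ε, hε, h1⟩ := hb5 _ hγ ((LinearMap.proj j).comp L.toLinearMap)
    refine ⟨ε, hε, ?_⟩
    show func L (Function.update γ j (γ j + ε)) ∈ UU K
    have h2 : func L (Function.update γ j (γ j + ε)) =
        func L γ + ε • ((LinearMap.proj j).comp L.toLinearMap) := by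
      refine LinearMap.ext fun x => ?_
      rw [func_apply, sum_update_add']
      rfl
    rw [h2]
    exact h1 ε (abs_of_pos hε).le

end Pool.Agent.PRC
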