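import Pool.Agent.PRC.StG

/-!
# GGB: the maximum of finitely many functionals
-/

set_option autoImplicit false

open MeasureTheory Set Filter Topology

namespace Pool.Agent.PRC

theorem t_GGB : S_GGB := by
  intro n ι _ _ l
  haveI := Fintype.ofFinite ι
  have h1 : ∀ i y, l i y ≤ gg l y := fun i y =>
    le_ciSup (f := fun i => l i y) (Set.finite_range _).bddAbove i
  have h2 : ∀ y, ∃ i, gg l y = l i y := fun y => by
    obtain ⟨i, hi⟩ := exists_eq_ciSup_of_finite (f := fun i => l i y)
    exact ⟨i, hi.symm⟩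
  obtain ⟨B, hB⟩ : ∃ B : ℝ, B = ∑ i, ‖(l i).toContinuousLinearMap‖ := ⟨_, rfl⟩
  have hB0 : 0 ≤ B := by rw [hB]; exact Finset.sum_nonneg fun i _ => norm_nonneg _
  have hl : ∀ i y, |l i y| ≤ B * ‖y‖ := by
    intro i y
    have e : ‖(l i).toContinuousLinearMap y‖ ≤ ‖(l i).toContinuousLinearMap‖ * ‖y‖ :=
      (l i).toContinuousLinearMap.le_opNorm y
    have e2 : ‖(l i).toContinuousLinearMap‖ ≤ B := by
      rw [hB]
      exact Finset.single_le_sum (f := fun i => ‖(l i).toContinuousLinearMap‖)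
        (fun i _ => norm_nonneg _) (Finset.mem_univ i)
    have e3 : ‖(l i).toContinuousLinearMap y‖ = |l i y| := rfl
    rw [e3] at e
    exact e.trans (mul_le_mul_of_nonneg_right e2 (norm_nonneg y))
  have hb : ∀ y, |gg l y| ≤ B * ‖y‖ := fun y => by
    obtain ⟨i, hi⟩ := h2 y
    rw [hi]
    exact hl i y
  have hadd : ∀ x y, gg l (x + y) ≤ gg l x + gg l y := fun x y => by
    obtain ⟨i, hi⟩ := h2 (x + y)
    rw [hi, map_add]
    exact add_le_add (h1 i x) (h1 i y)
  refine ⟨h1, h2, ?_, hadd, ?_, B, hB0, hb⟩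
  · intro y t ht
    apply le_antisymm
    · obtain ⟨i, hi⟩ := h2 (t • y)
      rw [hi, map_smul, smul_eq_mul]
      exact mul_le_mul_of_nonneg_left (h1 i y) ht
    · obtain ⟨i, hi⟩ := h2 y
      rw [hi]
      have := h1 i (t • y)
      rwa [map_smul, smul_eq_mul] at this
  · have hlip : LipschitzWith ⟨B, hB0⟩ (gg l) := by
      refine LipschitzWith.of_dist_le_mul fun x y => ?_
      rw [Real.dist_eq, dist_eq_norm]
      show |gg l x - gg l y| ≤ B * ‖x - y‖
      have e1 := hadd y (x - y)
      have e2 := hadd x (y - x)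
      rw [add_sub_cancel] at e1 e2
      have e3 := (abs_le.1 (hb (x - y))).2
      have e4 := (abs_le.1 (hb (y - x))).2
      rw [norm_sub_rev] at e4
      rw [abs_le]
      constructor <;> linarith
    exact hlip.continuous

end Pool.Agent.PRC
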