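import Pool.Agent.PRC.StI
import Pool.Agent.H30.Sccp.Haus

/-!
Module PRC_IDA (MP_5f8b0b_gt): SCCP implies the relation of the Laplace transforms.
-/

set_option autoImplicit false

open MeasureTheory Set Filter Topology
open Pool.Agent.H30.Sccp

namespace Pool.Agent.PRC

namespace IDAaux

variable {n : ℕ}

/-- the coefficients of a functional -/
noncomputable def coef (L : (Eu n) ≃ₗ[ℝ] (Fin (n + 1) → ℝ)) (ξ : (Eu n) →ₗ[ℝ] ℝ) (i : Fin (n + 1)) : ℝ :=
  ξ (L.symm (Pi.single i 1))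

theorem coef_apply (L : (Eu n) ≃ₗ[ℝ] (Fin (n + 1) → ℝ)) (ξ : (Eu n) →ₗ[ℝ] ℝ) (x : Eu n) :
    ξ x = ∑ i, coef L ξ i * L x i := by
  have h : x = ∑ i, L x i • L.symm (Pi.single i 1) := by
    have h1 : L x = ∑ i, L x i • (Pi.single i 1 : Fin (n + 1) → ℝ) := by
      exact pi_eq_sum_univ' (L x)
    have h2 := congrArg L.symm h1
    rw [LinearEquiv.symm_apply_apply, map_sum] at h2
    simp only [map_smul] at h2
    exact h2
  conv_lhs => rw [h]
  rw [map_sum]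
  refine Finset.sum_congr rfl fun i _ => ?_
  rw [map_smul, smul_eq_mul, mul_comm]
  rfl

theorem func_coef (L : (Eu n) ≃ₗ[ℝ] (Fin (n + 1) → ℝ)) (ξ : (Eu n) →ₗ[ℝ] ℝ) :
    func L (coef L ξ) = ξ :=
  LinearMap.ext fun x => (coef_apply L ξ x).symm

/-- the coordinates as a measurable equivalence -/
noncomputable def me (L : (Eu n) ≃ₗ[ℝ] (Fin (n + 1) → ℝ)) : Eu n ≃ᵐ (Fin (n + 1) → ℝ) :=
  L.toContinuousLinearEquiv.toHomeomorph.toMeasurableEquiv

theorem me_apply (L : (Eu n) ≃ₗ[ℝ] (Fin (n + 1) → ℝ)) (x : Eu n) : me L x = L x := rfl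

theorem exists_const (L : (Eu n) ≃ₗ[ℝ] (Fin (n + 1) → ℝ)) (Ω : Set (Eu n)) :
    ∃ κ : ℝ, ∀ f : (Fin (n + 1) → ℝ) → ℝ, ∫ x in Ω, f (L x) = κ * ∫ y in coordSet L Ω, f y := by
  have h1 : (Measure.map L.toContinuousLinearEquiv (volume : Measure (Eu n))).IsAddHaarMeasure :=
    L.toContinuousLinearEquiv.isAddHaarMeasure_map volume
  have hc := Measure.isAddLeftInvariant_eq_smul
    (Measure.map L.toContinuousLinearEquiv (volume : Measure (Eu n)))
    (volume : Measure (Fin (n + 1) → ℝ))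
  generalize Measure.addHaarScalarFactor
    (Measure.map L.toContinuousLinearEquiv (volume : Measure (Eu n)))
    (volume : Measure (Fin (n + 1) → ℝ)) = c at hc
  refine ⟨c, fun f => ?_⟩
  have h2 : Measure.map (me L) (volume : Measure (Eu n)) = c • volume := hc
  have h3 := setIntegral_map_equiv (μ := (volume : Measure (Eu n))) (me L) f (coordSet L Ω)
  have h4 : (me L) ⁻¹' (coordSet L Ω) = Ω := by
    ext x
    exact mem_coordSet_apply L Ω x
  rw [h2, h4, Measure.restrict_smul, integral_smul_nnreal_measure] at h3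
  exact h3.symm

theorem inf_eq (L : (Eu n) ≃ₗ[ℝ] (Fin (n + 1) → ℝ)) (Ω : Set (Eu n)) (ξ : (Eu n) →ₗ[ℝ] ℝ) :
    hinf Ω ξ = sInf ((fun x => ∑ i, coef L ξ i * x i) '' coordSet L Ω) := by
  unfold hinf
  congr 1
  ext y
  constructor
  · rintro ⟨x, hx, rfl⟩
    exact ⟨L x, (mem_coordSet_apply L Ω x).2 hx, (coef_apply L ξ x).symm⟩
  · rintro ⟨x, hx, rfl⟩
    refine ⟨L.symm x, hx, ?_⟩
    rw [coef_apply L ξ, LinearEquiv.apply_symm_apply]

end IDAaux

open IDAaux in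
/-- **PRC_IDA.** -/
theorem t_IDA : M_IDA := by
  intro hCOO hGDU hVRE hLRE n K Ω hK hΩ hS ξ₁ h₁ ξ₂ h₂
  obtain ⟨L, hL⟩ := hCOO n K hK
  have hW := hGDU n K Ω L hK hΩ hL
  have hC := collinearU_of_sccp haus L hW hS
  have m₁ : coef L ξ₁ ∈ UC L K := by
    show func L (coef L ξ₁) ∈ UU K
    rw [func_coef]; exact h₁
  have m₂ : coef L ξ₂ ∈ UC L K := by
    show func L (coef L ξ₂) ∈ UU K
    rw [func_coef]; exact h₂
  obtain ⟨E, F, hE, hV⟩ := hVRE n _ _ hW hC _ m₁ _ m₂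
  obtain ⟨hI, hinf⟩ := hLRE n _ _ hW _ m₁ _ m₂ E F hE hV
  obtain ⟨κ, hκ⟩ := exists_const L Ω
  refine ⟨E, F, hE, ?_, fun t ht => ?_⟩
  · rw [inf_eq L, inf_eq L, hinf]
  · have e₂ : lap volume Ω (t • ξ₂) =
        κ * ∫ x in coordSet L Ω, Real.exp (-(t * ∑ i, coef L ξ₂ i * x i)) := by
      rw [← hκ]
      unfold lap
      refine integral_congr_ae (ae_of_all _ fun x => ?_)
      show Real.exp (-((t • ξ₂) x)) = _
      rw [LinearMap.smul_apply, smul_eq_mul, coef_apply L ξ₂ x]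
    have e₁ : lap volume Ω ((t * E) • ξ₁) =
        κ * ∫ x in coordSet L Ω, Real.exp (-(t * E * ∑ i, coef L ξ₁ i * x i)) := by
      rw [← hκ]
      unfold lap
      refine integral_congr_ae (ae_of_all _ fun x => ?_)
      show Real.exp (-(((t * E) • ξ₁) x)) = _
      rw [LinearMap.smul_apply, smul_eq_mul, coef_apply L ξ₁ x]
    rw [e₂, e₁, hI t ht]
    ring

end Pool.Agent.PRC
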