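import Pool.Agent.PRC.StI

/-!
# SCCP implies the identity `Ident` (project PRC, module IDE)
-/

set_option autoImplicit false

open MeasureTheory Set Filter Topology
open Pool.Agent.H30.Sccp

namespace Pool.Agent.PRC

theorem t_IDE : M_IDE := by
  intro hBEL hLAP hSCA hIDA n K Ω hK hΩ hS ξ₁ h1 ξ₂ h2 hL t ht
  obtain ⟨c, F, hc, hh, hl⟩ := hIDA n K Ω hK hΩ hS ξ₁ h1 ξ₂ h2
  obtain ⟨-, -, -, hsm, -, -⟩ := hBEL (Eu n) K Ω hK hΩ
  obtain ⟨-, hpos, hhom, -, -, -, -⟩ := hLAP (Eu n) volume K Ω hK hΩ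
  have hN : Module.finrank ℝ (Eu n) = n + 1 := by
    simp [Eu]
  have hc1 : c • ξ₁ ∈ UU K := hsm ξ₁ h1 c hc
  have l1 := hSCA (Eu n) volume K Ω hK hΩ ξ₂ h2
  have l2 := hSCA (Eu n) volume K Ω hK hΩ (c • ξ₁) hc1
  have l3 : Tendsto (fun t : ℝ => Real.exp (-(t * F))) (𝓝[>] 0) (𝓝 1) := by
    have h : Continuous (fun t : ℝ => Real.exp (-(t * F))) := by fun_prop
    have h' := h.tendsto 0
    simp only [zero_mul, neg_zero, Real.exp_zero] at h'
    exact h'.mono_left nhdsWithin_le_nhds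
  have l4 := l3.mul l2
  have l5 : Tendsto (fun t : ℝ => t ^ Module.finrank ℝ (Eu n) * lap volume Ω (t • ξ₂)) (𝓝[>] 0)
      (𝓝 (1 * lap volume K (c • ξ₁))) := by
    refine l4.congr' ?_
    filter_upwards [self_mem_nhdsWithin] with s hs
    rw [hl s hs, smul_smul]
    ring
  have e1 : lap volume K ξ₂ = 1 * lap volume K (c • ξ₁) := tendsto_nhds_unique l1 l5
  rw [one_mul, hhom ξ₁ h1 c hc, hN, ← hL] at e1
  have p1 := (hpos ξ₁ h1).1
  have e2 : (c ^ (n + 1))⁻¹ = 1 := by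
    have : (c ^ (n + 1))⁻¹ * lap volume K ξ₁ = 1 * lap volume K ξ₁ := by rw [one_mul]; exact e1.symm
    exact mul_right_cancel₀ p1.ne' this
  have e3 : c ^ (n + 1) = 1 := by
    rw [← inv_inv (c ^ (n + 1)), e2, inv_one]
  have e4 : c = 1 := (pow_eq_one_iff_of_nonneg hc.le (Nat.succ_ne_zero n)).1 e3
  subst e4
  rw [hl t ht, hh, mul_one, one_mul, ← mul_assoc, ← Real.exp_add]
  congr 2
  ring

end Pool.Agent.PRC
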