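import Pool.Agent.PRC.StG

/-!
# PRC: integrability and positivity of the integrals over the cone
-/

set_option autoImplicit false

open MeasureTheory Set Filter Topology

namespace Pool.Agent.PRC

namespace INTaux

variable {n : ℕ}

theorem cont_lin (η : (Fin n → ℝ) →ₗ[ℝ] ℝ) : Continuous fun y => η y :=
  LinearMap.continuous_of_finiteDimensional η

/-- domination by the exponential of the norm -/
theorem dom (hE : S_EXN) {S : Set (Fin n → ℝ)} (hS : MeasurableSet S) {φ u : (Fin n → ℝ) → ℝ}
    {B c D : ℝ} {k : ℕ} (hc : 0 < c) (hφ : ContinuousOn φ S) (hφ' : ∀ y ∈ S, c * ‖y‖ - D ≤ φ y)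
    (hu : AEStronglyMeasurable u (volume.restrict S)) (hu' : ∀ y ∈ S, |u y| ≤ B * (1 + ‖y‖) ^ k) :
    IntegrableOn (fun y => Real.exp (-φ y) * u y) S := by
  have h1 : Integrable (fun y : Fin n → ℝ =>
      Real.exp D * B * ((1 + ‖y‖) ^ k * Real.exp (-(c * ‖y‖)))) := (hE n k c hc).const_mul _
  refine Integrable.mono' h1.integrableOn ?_ ?_
  · refine AEStronglyMeasurable.mul ?_ hu
    exact (Real.continuous_exp.comp_continuousOn hφ.neg).aestronglyMeasurable hS
  · refine (ae_restrict_iff' hS).2 (Eventually.of_forall fun y hy => ?_)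
    rw [Real.norm_eq_abs, abs_mul, abs_of_pos (Real.exp_pos _)]
    have h2 := hu' y hy
    have h3 : Real.exp (-φ y) ≤ Real.exp D * Real.exp (-(c * ‖y‖)) := by
      rw [← Real.exp_add]
      refine Real.exp_le_exp.2 ?_
      have := hφ' y hy
      linarith
    calc Real.exp (-φ y) * |u y| ≤ (Real.exp D * Real.exp (-(c * ‖y‖))) * (B * (1 + ‖y‖) ^ k) :=
          mul_le_mul h3 h2 (abs_nonneg _) (by positivity)
      _ = Real.exp D * B * ((1 + ‖y‖) ^ k * Real.exp (-(c * ‖y‖))) := by ring

theorem pos {S : Set (Fin n → ℝ)} (hS : IsOpen S) (hne : S.Nonempty) {φ : (Fin n → ℝ) → ℝ}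
    (hi : IntegrableOn (fun y => Real.exp (φ y)) S) : 0 < ∫ y in S, Real.exp (φ y) := by
  rw [integral_pos_iff_support_of_nonneg (fun y => (Real.exp_pos _).le) hi]
  have h1 : Function.support (fun y => Real.exp (φ y)) = Set.univ :=
    Set.eq_univ_of_forall fun y => (Real.exp_pos _).ne'
  rw [h1, Measure.restrict_apply_univ]
  exact hS.measure_pos volume hne

end INTaux

open INTaux

theorem t_INT : M_INT := by
  intro hU hE n C ι _ _ l f A hC hf hlow
  have hm : MeasurableSet (interior C) := isOpen_interior.measurableSet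
  have hsub : ∀ y ∈ interior C, y ∈ C := fun y hy => interior_subset hy
  have key1 : ∀ (u : (Fin n → ℝ) → ℝ) (B : ℝ) (k : ℕ),
      AEStronglyMeasurable u (volume.restrict (interior C)) →
      (∀ y ∈ interior C, |u y| ≤ B * (1 + ‖y‖) ^ k) →
      ∀ (a : ℝ) (η : (Fin n → ℝ) →ₗ[ℝ] ℝ), UG C (gg l) a η →
      IntegrableOn (fun y => Real.exp (-(η y) - a * f y) * u y) (interior C) := by
    intro u B k hu hu' a η hη
    obtain ⟨c, hc, hc'⟩ := (hU n C ι l hC).1 a η hη
    have h1 := dom hE hm (φ := fun y => η y + a * f y) (D := a * A) hc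
      ((cont_lin η).continuousOn.add (hf.const_mul a)) (fun y hy => by
        have h2 := hc' y (hsub y hy)
        have h3 := mul_le_mul_of_nonneg_left (hlow y hy) hη.1.le
        change c * ‖y‖ - a * A ≤ η y + a * f y
        linarith) hu hu'
    refine h1.congr_fun (fun y _ => ?_) hm
    change Real.exp (-(η y + a * f y)) * u y = Real.exp (-(η y) - a * f y) * u y
    rw [neg_add, sub_eq_add_neg]
  have key2 : ∀ (u : (Fin n → ℝ) → ℝ) (B : ℝ) (k : ℕ),
      AEStronglyMeasurable u (volume.restrict (interior C)) →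
      (∀ y ∈ interior C, |u y| ≤ B * (1 + ‖y‖) ^ k) →
      ∀ η ∈ UU C, IntegrableOn (fun y => Real.exp (-(η y)) * u y) (interior C) := by
    intro u B k hu hu' η hη
    obtain ⟨c, hc, hc'⟩ := (hU n C ι l hC).2 η hη
    exact dom hE hm (φ := fun y => η y) (D := 0) hc (cont_lin η).continuousOn
      (fun y hy => by
        have h2 := hc' y (hsub y hy)
        change c * ‖y‖ - 0 ≤ η y
        linarith) hu hu'
  have hone : ∀ y ∈ interior C, |(fun _ : Fin n → ℝ => (1 : ℝ)) y| ≤ 1 * (1 + ‖y‖) ^ 0 := by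
    intro y _
    rw [pow_zero, mul_one, abs_one]
  refine ⟨fun u B k hu hu' => ⟨key1 u B k hu hu', key2 u B k hu hu'⟩, fun a η hη => ?_,
    fun η hη => ?_⟩
  · have h1 := key1 (fun _ => 1) 1 0 aestronglyMeasurable_const hone a η hη
    have h2 : IntegrableOn (fun y => Real.exp (-(η y) - a * f y)) (interior C) := by
      refine h1.congr_fun (fun y _ => ?_) hm
      exact mul_one _
    exact ⟨h2, pos isOpen_interior hC.int h2⟩
  · have h1 := key2 (fun _ => 1) 1 0 aestronglyMeasurable_const hone η hη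
    have h2 : IntegrableOn (fun y => Real.exp (-(η y))) (interior C) := by
      refine h1.congr_fun (fun y _ => ?_) hm
      exact mul_one _
    refine ⟨h2, ?_⟩
    have h3 := pos isOpen_interior hC.int h2
    unfold EU
    simpa only [mul_one] using h3

end Pool.Agent.PRC
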