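import Pool.Agent.PRC.StF

/-!
# Module IRR (MP_5f8b0b_gt): an irredundant subfamily
-/

set_option autoImplicit false

open MeasureTheory Set Filter Topology
open Pool.Agent.H30.Sccp

namespace Pool.Agent.PRC

namespace IRRaux

/-- a nonzero functional of the family is positive at interior points -/
lemma pos_of_interior {E : Type} [NormedAddCommGroup E] [NormedSpace ℝ E] {ι : Type}
    (φ : ι → (E →ₗ[ℝ] ℝ)) {x : E} (hx : x ∈ interior (poly φ)) {i : ι} (hi : φ i ≠ 0) :
    0 < φ i x := by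
  have h0 : 0 ≤ φ i x := interior_subset hx i
  rcases h0.lt_or_eq with h | h
  · exact h
  exfalso
  obtain ⟨v, hv⟩ : ∃ v, φ i v ≠ 0 := by
    by_contra hcon
    push Not at hcon
    exact hi (LinearMap.ext fun v => by simp [hcon v])
  obtain ⟨w, hw⟩ : ∃ w, φ i w < 0 := by
    rcases lt_or_gt_of_ne hv with h | h
    · exact ⟨v, h⟩
    · exact ⟨-v, by rw [map_neg]; linarith⟩
  have hcont : Tendsto (fun s : ℝ => x + s • w) (𝓝[>] 0) (𝓝 x) := by
    have : Tendsto (fun s : ℝ => x + s • w) (𝓝 0) (𝓝 (x + (0 : ℝ) • w)) := by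
      apply Continuous.tendsto
      fun_prop
    rw [zero_smul, add_zero] at this
    exact this.mono_left nhdsWithin_le_nhds
  have hev := hcont.eventually (mem_interior_iff_mem_nhds.1 hx)
  obtain ⟨s, hs, hs0⟩ := (hev.and self_mem_nhdsWithin).exists
  have hs0' : (0 : ℝ) < s := hs0
  have h1 : 0 ≤ φ i (x + s • w) := hs i
  rw [map_add, map_smul, smul_eq_mul, ← h, zero_add] at h1
  have := mul_neg_of_pos_of_neg hs0' hw
  linarith

lemma poly_subset {E : Type} [NormedAddCommGroup E] [NormedSpace ℝ E] {ι : Type}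
    (φ : ι → (E →ₗ[ℝ] ℝ)) (J : Finset ι) : poly φ ⊆ poly (fun j : J => φ j) :=
  fun _ hx j => hx j

end IRRaux

open IRRaux in
theorem t_IRR : S_IRR := by
  intro E _ _ _ ι _ φ hK
  classical
  -- a subfamily with the smallest number of elements
  have hex : ∃ N : ℕ, ∃ J : Finset ι, poly (fun j : J => φ j) = poly φ ∧ J.card = N := by
    refine ⟨_, Finset.univ, ?_, rfl⟩
    apply Subset.antisymm
    · intro x hx i
      exact hx ⟨i, Finset.mem_univ i⟩
    · exact poly_subset φ _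
  obtain ⟨J, hJ, hcard⟩ := Nat.find_spec hex
  have hmin : ∀ J' : Finset ι, poly (fun j : J' => φ j) = poly φ → J.card ≤ J'.card := by
    intro J' hJ'
    rw [hcard]
    exact Nat.find_min' hex ⟨J', hJ', rfl⟩
  have hne : ∀ j ∈ J, ∃ q, (∀ i ∈ J, i ≠ j → 0 ≤ φ i q) ∧ φ j q < 0 := by
    intro j hj
    have h1 : poly (fun i : (J.erase j : Finset ι) => φ i) ≠ poly φ := by
      intro h
      have h2 := hmin _ h
      have h3 := Finset.card_erase_lt_of_mem hj
      omega
    have h2 : ¬ poly (fun i : (J.erase j : Finset ι) => φ i) ⊆ poly φ :=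
      fun h => h1 (Subset.antisymm h (poly_subset φ _))
    obtain ⟨q, hq, hq'⟩ := not_subset.1 h2
    have hq1 : ∀ i ∈ J, i ≠ j → 0 ≤ φ i q := fun i hi hij =>
      hq ⟨i, Finset.mem_erase.2 ⟨hij, hi⟩⟩
    refine ⟨q, hq1, ?_⟩
    by_contra hcon
    push Not at hcon
    apply hq'
    rw [← hJ]
    rintro ⟨i, hi⟩
    by_cases hij : i = j
    · subst hij; exact hcon
    · exact hq1 i hi hij
  have hnz : ∀ j ∈ J, φ j ≠ 0 := by
    intro j hj h0
    obtain ⟨q, -, hq⟩ := hne j hj
    rw [h0] at hq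
    simp at hq
  refine ⟨J, hJ, ?_, hnz⟩
  rintro ⟨j, hj⟩
  obtain ⟨q, hq1, hq2⟩ := hne j hj
  obtain ⟨k, hk⟩ := hK.int
  have hkj := pos_of_interior φ hk (hnz j hj)
  refine ⟨φ j k • q + (-(φ j q)) • k, ?_, ?_⟩
  · simp only [map_add, map_smul, smul_eq_mul]
    ring
  · rintro ⟨i, hi⟩ hij
    have hij' : i ≠ j := fun h => hij (Subtype.ext h)
    have h1 := hq1 i hi hij'
    have h2 := pos_of_interior φ hk (hnz i hi)
    simp only [map_add, map_smul, smul_eq_mul]
    have h3 : 0 ≤ φ j k * φ i q := mul_nonneg hkj.le h1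
    have h4 : 0 < -(φ j q) * φ i k := mul_pos (by linarith) h2
    linarith

end Pool.Agent.PRC
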