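import Pool.Agent.PRC.StE

/-!
# PRC, module IVT: an intermediate value for the Laplace transform of the cone
-/

set_option autoImplicit false

open MeasureTheory Set Filter Topology
open Pool.Agent.H30.Sccp

namespace Pool.Agent.PRC

namespace IVTaux

variable {E : Type} [NormedAddCommGroup E] [NormedSpace ℝ E]

theorem add_mem {K : Set E} (hK : IsCone K) {x y : E} (hx : x ∈ K) (hy : y ∈ K) : x + y ∈ K := by
  have h1 : (1 / 2 : ℝ) • x + (1 / 2 : ℝ) • y ∈ K :=
    hK.convex hx hy (by norm_num) (by norm_num) (by norm_num)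
  have h2 := hK.smul 2 (by norm_num) _ h1
  rw [smul_add, smul_smul, smul_smul] at h2
  norm_num at h2
  exact h2

theorem isW_self {K : Set E} (hK : IsCone K) : IsW K K := by
  refine ⟨hK.closed, hK.convex, ⟨0, hK.zero⟩, ?_⟩
  ext d
  constructor
  · intro hd
    have := hd 0 hK.zero 1 (by norm_num)
    simpa using this
  · intro hd x hx t ht
    exact add_mem hK hx (hK.smul t ht d hd)

end IVTaux

open IVTaux in
theorem t_IVT : M_IVT := by
  intro hBEL hLAP E _ _ _ _ _ μ _ K hK ξ hξ ε e hε hε1 he hex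
  have hW : IsW K K := isW_self hK
  obtain ⟨-, -, hadd, hsm, -, -⟩ := hBEL E K K hK hW
  obtain ⟨hint, hpos, hscal, -, -, -⟩ := hLAP E μ K K hK hW
  have hεξ : ε • ξ ∈ UU K := hsm ξ hξ ε hε
  have hmem : ∀ m : ℝ, 0 ≤ m → ε • ξ + m • e ∈ UU K := fun m hm =>
    hadd _ hεξ (m • e) (fun d hd => by
      rw [LinearMap.smul_apply, smul_eq_mul]
      exact mul_nonneg hm (he d hd))
  have hKm : MeasurableSet K := hK.closed.measurableSet
  have hb : Integrable (fun x => Real.exp (-((ε • ξ) x))) (μ.restrict K) := (hint _ hεξ).1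
  have hcont : ∀ η : E →ₗ[ℝ] ℝ, Continuous fun x => Real.exp (-(η x)) := fun η =>
    Real.continuous_exp.comp (LinearMap.continuous_of_finiteDimensional η).neg
  have hmeas : ∀ η : E →ₗ[ℝ] ℝ, AEStronglyMeasurable (fun x => Real.exp (-(η x)))
      (μ.restrict K) := fun η => (hcont η).aestronglyMeasurable
  have hbound : ∀ m : ℝ, 0 ≤ m → ∀ᵐ x ∂(μ.restrict K),
      ‖Real.exp (-((ε • ξ + m • e) x))‖ ≤ Real.exp (-((ε • ξ) x)) := by
    intro m hm
    filter_upwards [ae_restrict_mem hKm] with x hx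
    rw [Real.norm_eq_abs, abs_of_pos (Real.exp_pos _), Real.exp_le_exp, LinearMap.add_apply]
    have h1 : 0 ≤ (m • e) x := by
      rw [LinearMap.smul_apply, smul_eq_mul]
      exact mul_nonneg hm (he x hx)
    linarith
  -- continuity
  have hc : ContinuousOn (fun m : ℝ => lap μ K (ε • ξ + m • e)) (Ici 0) := by
    unfold lap
    refine continuousOn_of_dominated (fun m _ => hmeas _) (fun m hm => hbound m hm) hb ?_
    refine Eventually.of_forall fun x => Continuous.continuousOn ?_
    refine Real.continuous_exp.comp ?_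
    simp only [LinearMap.add_apply, LinearMap.smul_apply, smul_eq_mul]
    fun_prop
  -- the limit
  have hne : LinearMap.ker e ≠ ⊤ := by
    intro h
    obtain ⟨d, -, hd⟩ := hex
    have : d ∈ LinearMap.ker e := by
      rw [h]
      exact Submodule.mem_top
    rw [LinearMap.mem_ker] at this
    linarith
  have hnull : μ (LinearMap.ker e : Set E) = 0 := Measure.addHaar_submodule μ _ hne
  have hae : ∀ᵐ x ∂(μ.restrict K), 0 < e x := by
    have h1 : ∀ᵐ x ∂μ, x ∉ (LinearMap.ker e : Set E) := measure_eq_zero_iff_ae_notMem.1 hnull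
    filter_upwards [ae_restrict_mem hKm, ae_restrict_of_ae h1] with x hx hx1
    exact lt_of_le_of_ne (he x hx) (fun h => hx1 (LinearMap.mem_ker.2 h.symm))
  have hlim : Tendsto (fun m : ℝ => lap μ K (ε • ξ + m • e)) atTop (𝓝 0) := by
    have h0 : (0 : ℝ) = ∫ _ in K, (0 : ℝ) ∂μ := by simp
    rw [h0]
    unfold lap
    refine tendsto_integral_filter_of_dominated_convergence
      (fun x => Real.exp (-((ε • ξ) x))) (Eventually.of_forall fun m => hmeas _) ?_ hb ?_
    · filter_upwards [eventually_ge_atTop (0 : ℝ)] with m hm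
      exact hbound m hm
    · filter_upwards [hae] with x hx
      refine Real.tendsto_exp_atBot.comp ?_
      simp only [LinearMap.add_apply, LinearMap.smul_apply, smul_eq_mul]
      refine tendsto_neg_atTop_atBot.comp ?_
      exact tendsto_atTop_add_const_left _ _ (tendsto_id.atTop_mul_const hx)
  have hL : 0 < lap μ K ξ := (hpos ξ hξ).1
  obtain ⟨m1, hm1, hm0⟩ : ∃ m1 : ℝ, lap μ K (ε • ξ + m1 • e) < lap μ K ξ ∧ 0 ≤ m1 :=
    ((hlim.eventually (gt_mem_nhds hL)).and (eventually_ge_atTop (0 : ℝ))).exists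
  have hz : lap μ K ξ ≤ lap μ K (ε • ξ + (0 : ℝ) • e) := by
    rw [zero_smul, add_zero, hscal ξ hξ ε hε]
    refine le_mul_of_one_le_left hL.le ?_
    rw [one_le_inv₀ (pow_pos hε _)]
    exact pow_le_one₀ hε.le hε1.le
  obtain ⟨m, hm, hmm⟩ := intermediate_value_Icc' hm0 (hc.mono Icc_subset_Ici_self)
    (show lap μ K ξ ∈ Icc (lap μ K (ε • ξ + m1 • e)) (lap μ K (ε • ξ + (0 : ℝ) • e)) from
      ⟨hm1.le, hz⟩)
  exact ⟨m, hm.1, hmem m hm.1, hmm⟩

end Pool.Agent.PRC
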