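import Pool.Agent.PRC.StF

/-!
# KCU: the cone over `C` and above the graph of `g`
-/

set_option autoImplicit false

open MeasureTheory Set Filter Topology
open Pool.Agent.H30.Sccp

namespace Pool.Agent.PRC

namespace KCUaux

theorem fn_apply {n : ℕ} (a : ℝ) (η : (Fin n → ℝ) →ₗ[ℝ] ℝ) (x : ℝ × (Fin n → ℝ)) :
    fn a η x = a * x.1 + η x.2 := rfl

end KCUaux

open KCUaux

theorem t_KCU : M_KCU := by
  intro hG n C ι _ _ l hC
  obtain ⟨-, -, hsm, hadd, hcont, -⟩ := hG n ι l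
  have h0 : gg l 0 = 0 := by
    have h := hsm 0 0 le_rfl
    rwa [zero_smul, zero_mul] at h
  refine ⟨⟨?_, ?_, ⟨hC.zero, h0.le⟩, ?_, ?_, ?_⟩, fun a η => ⟨fun h => ⟨?_, fun y hy hy0 => ?_⟩,
    fun h => ?_⟩, fun ξ => ?_⟩
  · exact (hC.closed.preimage continuous_snd).inter
      (isClosed_le (hcont.comp continuous_snd) continuous_fst)
  · intro x hx y hy a b ha hb hab
    refine ⟨hC.convex hx.1 hy.1 ha hb hab, ?_⟩
    have h1 := hadd (a • x.2) (b • y.2)
    rw [hsm _ _ ha, hsm _ _ hb] at h1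
    have h2 := mul_le_mul_of_nonneg_left hx.2 ha
    have h3 := mul_le_mul_of_nonneg_left hy.2 hb
    exact h1.trans (add_le_add h2 h3)
  · intro t ht x hx
    refine ⟨hC.smul t ht _ hx.1, ?_⟩
    show gg l (t • x.2) ≤ t * x.1
    rw [hsm _ _ ht]
    exact mul_le_mul_of_nonneg_left hx.2 ht
  · intro x hx hx'
    have h1 : x.2 = 0 := hC.pointed _ hx.1 hx'.1
    have h2 : gg l x.2 ≤ x.1 := hx.2
    have h3 : gg l (-x.2) ≤ -x.1 := hx'.2
    rw [h1, neg_zero, h0] at h3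
    rw [h1, h0] at h2
    exact Prod.ext (by show x.1 = 0; linarith) h1
  · obtain ⟨y, hy⟩ := hC.int
    have hop : IsOpen {x : ℝ × (Fin n → ℝ) | x.2 ∈ interior C ∧ gg l x.2 < x.1} :=
      (isOpen_interior.preimage continuous_snd).inter
        (isOpen_lt (hcont.comp continuous_snd) continuous_fst)
    refine ⟨(gg l y + 1, y), interior_maximal (fun x hx => ?_) hop ⟨hy, by
      show gg l y < gg l y + 1
      linarith⟩⟩
    exact ⟨interior_subset hx.1, hx.2.le⟩
  · have h1 := h ((1 : ℝ), (0 : Fin n → ℝ)) ⟨hC.zero, by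
      show gg l 0 ≤ 1
      rw [h0]
      exact zero_le_one⟩ (by
        intro h2
        have h3 := congrArg Prod.fst h2
        exact one_ne_zero h3)
    rw [fn_apply] at h1
    simpa using h1
  · have h1 := h (gg l y, y) ⟨hy, le_rfl⟩ (fun h2 => hy0 (congrArg Prod.snd h2))
    rw [fn_apply] at h1
    show 0 < η y + a * gg l y
    have h2 : 0 < a * gg l y + η y := h1
    linarith
  · intro d hd hd0
    rw [fn_apply]
    have h1 : gg l d.2 ≤ d.1 := hd.2
    by_cases h2 : d.2 = 0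
    · rw [h2, h0] at h1
      have h3 : d.1 ≠ 0 := fun h4 => hd0 (Prod.ext h4 h2)
      have h4 : 0 < d.1 := lt_of_le_of_ne h1 (Ne.symm h3)
      rw [h2, map_zero, add_zero]
      exact mul_pos h.1 h4
    · have h3 := h.2 d.2 hd.1 h2
      have h4 := mul_le_mul_of_nonneg_left h1 h.1.le
      linarith
  · refine ⟨ξ (1, 0), ξ ∘ₗ LinearMap.inr ℝ ℝ (Fin n → ℝ), LinearMap.ext fun x => ?_⟩
    rw [fn_apply]
    show ξ x = ξ (1, 0) * x.1 + ξ (0, x.2)
    have h1 : x = x.1 • ((1 : ℝ), (0 : Fin n → ℝ)) + ((0 : ℝ), x.2) :=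
      Prod.ext (by simp) (by simp)
    conv_lhs => rw [h1]
    rw [map_add, map_smul, smul_eq_mul]
    ring

end Pool.Agent.PRC
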