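import Pool.Agent.PRC.StE

/-!
# SCCP sets with polyhedral recession cone (MP_5f8b0b_gt): module LAP
-/

set_option autoImplicit false

open MeasureTheory Set Filter Topology
open Pool.Agent.H30.Sccp
open scoped Pointwise

namespace Pool.Agent.PRC

namespace LAPaux

variable {E : Type} [NormedAddCommGroup E] [NormedSpace ℝ E]

theorem add_mem {K : Set E} (hK : IsCone K) {x y : E} (hx : x ∈ K) (hy : y ∈ K) : x + y ∈ K := by
  have h1 := hK.convex hx hy (by norm_num : (0 : ℝ) ≤ 1 / 2) (by norm_num : (0 : ℝ) ≤ 1 / 2)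
    (by norm_num)
  have h2 := hK.smul 2 (by norm_num) _ h1
  have e : (2 : ℝ) • ((1 / 2 : ℝ) • x + (1 / 2 : ℝ) • y) = x + y := by
    rw [smul_add, smul_smul, smul_smul]
    norm_num
  rwa [e] at h2

theorem isW_self {K : Set E} (hK : IsCone K) : IsW K K := by
  refine ⟨hK.closed, hK.convex, ⟨0, hK.zero⟩, ?_⟩
  ext d
  constructor
  · intro hd
    have h := hd 0 hK.zero 1 zero_le_one
    rwa [zero_add, one_smul] at h
  · intro hd x hx s hs
    exact add_mem hK hx (hK.smul s hs d hd)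

theorem add_W {K W : Set E} (hW : IsW K W) {x d : E} (hx : x ∈ W) (hd : d ∈ K) : x + d ∈ W := by
  rw [← hW.reco] at hd
  have h := hd x hx 1 zero_le_one
  rwa [one_smul] at h

theorem interior_ne {K W : Set E} (hK : IsCone K) (hW : IsW K W) : (interior W).Nonempty := by
  obtain ⟨x, hx⟩ := hW.ne
  obtain ⟨d, hd⟩ := hK.int
  have hopen : IsOpen ((Homeomorph.addLeft x) '' interior K) :=
    (Homeomorph.addLeft x).isOpenMap _ isOpen_interior
  have hsub : (Homeomorph.addLeft x) '' interior K ⊆ W := by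
    rintro _ ⟨e, he, rfl⟩
    exact add_W hW hx (interior_subset he)
  exact ⟨x + d, interior_maximal hsub hopen ⟨d, hd, rfl⟩⟩

theorem one_add_le (δ r : ℝ) (h0 : 0 < δ) (h1 : δ ≤ 1) (hr : 0 ≤ r) :
    1 + r ≤ δ⁻¹ * Real.exp (δ * r) := by
  have h2 : δ * r + 1 ≤ Real.exp (δ * r) := Real.add_one_le_exp _
  rw [inv_mul_eq_div, le_div_iff₀ h0]
  nlinarith

/-- a polynomial bound for the exponential function -/
theorem bound (N : ℕ) (c : ℝ) (hc : 0 < c) : ∃ M : ℝ, 0 < M ∧ ∀ r : ℝ, 0 ≤ r →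
    (1 + r) * Real.exp (-(c * r)) ≤ M * ((1 + r) ^ (N + 1))⁻¹ := by
  set δ : ℝ := min 1 (c / (N + 2)) with hδ
  have hN : (0 : ℝ) < (N : ℝ) + 2 := by positivity
  have h0 : 0 < δ := lt_min one_pos (div_pos hc hN)
  have h1 : δ ≤ 1 := min_le_left _ _
  have h2 : δ * ((N : ℝ) + 2) ≤ c := by
    have : δ ≤ c / (N + 2) := min_le_right _ _
    rwa [le_div_iff₀ hN] at this
  refine ⟨(δ⁻¹) ^ (N + 2), by positivity, fun r hr => ?_⟩
  have h3 := one_add_le δ r h0 h1 hr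
  have h4 : 0 < 1 + r := by linarith
  have h5 : (1 + r) ^ (N + 2) ≤ (δ⁻¹) ^ (N + 2) * Real.exp (c * r) := by
    calc (1 + r) ^ (N + 2) ≤ (δ⁻¹ * Real.exp (δ * r)) ^ (N + 2) :=
          pow_le_pow_left₀ h4.le h3 _
      _ = (δ⁻¹) ^ (N + 2) * Real.exp (δ * ((N : ℝ) + 2) * r) := by
          rw [mul_pow, ← Real.exp_nat_mul]
          congr 2
          push_cast
          ring
      _ ≤ (δ⁻¹) ^ (N + 2) * Real.exp (c * r) := by
          refine mul_le_mul_of_nonneg_left (Real.exp_le_exp.2 ?_) (by positivity)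
          exact mul_le_mul_of_nonneg_right h2 hr
  rw [le_mul_inv_iff₀ (by positivity), Real.exp_neg]
  have h6 : (1 + r) * (Real.exp (c * r))⁻¹ * (1 + r) ^ (N + 1) =
      (1 + r) ^ (N + 2) * (Real.exp (c * r))⁻¹ := by ring
  rw [h6, mul_inv_le_iff₀ (Real.exp_pos _)]
  exact h5

variable [FiniteDimensional ℝ E] [MeasurableSpace E] [BorelSpace E]

theorem integrable_exp (μ : Measure E) [μ.IsAddHaarMeasure] (c : ℝ) (hc : 0 < c) :
    Integrable (fun x : E => (1 + ‖x‖) * Real.exp (-(c * ‖x‖))) μ := by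
  obtain ⟨M, hM, hb⟩ := bound (Module.finrank ℝ E) c hc
  have h1 : Integrable (fun x : E => (1 + ‖x‖) ^ (-(((Module.finrank ℝ E : ℕ) : ℝ) + 1))) μ :=
    integrable_one_add_norm (by linarith)
  refine (h1.const_mul M).mono' ?_ (Filter.Eventually.of_forall fun x => ?_)
  · exact (Continuous.aestronglyMeasurable (by fun_prop))
  · rw [Real.norm_of_nonneg (by positivity)]
    have h2 := hb ‖x‖ (norm_nonneg x)
    have h3 : (1 + ‖x‖) ^ (-(((Module.finrank ℝ E : ℕ) : ℝ) + 1)) =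
        ((1 + ‖x‖) ^ (Module.finrank ℝ E + 1))⁻¹ := by
      rw [Real.rpow_neg (by positivity)]
      congr 1
      rw [← Real.rpow_natCast]
      push_cast
      rfl
    rw [h3]
    exact h2

theorem integrableOn_W (μ : Measure E) [μ.IsAddHaarMeasure] {W : Set E} (hWc : IsClosed W)
    (ξ : E →ₗ[ℝ] ℝ) (c C : ℝ) (hc : 0 < c) (h : ∀ x ∈ W, c * ‖x‖ - C ≤ ξ x) :
    IntegrableOn (fun x => (1 + ‖x‖) * Real.exp (-(ξ x))) W μ := by
  have hξ : Continuous ξ := ξ.continuous_of_finiteDimensional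
  have h1 : IntegrableOn (fun x : E => Real.exp C * ((1 + ‖x‖) * Real.exp (-(c * ‖x‖)))) W μ :=
    ((integrable_exp μ c hc).const_mul _).integrableOn
  refine h1.mono' ?_ ?_
  · exact (Continuous.aestronglyMeasurable (by fun_prop))
  · refine (ae_restrict_iff' hWc.measurableSet).2 (Filter.Eventually.of_forall fun x hx => ?_)
    rw [Real.norm_of_nonneg (by positivity)]
    have h2 := h x hx
    have h3 : Real.exp (-(ξ x)) ≤ Real.exp C * Real.exp (-(c * ‖x‖)) := by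
      rw [← Real.exp_add, Real.exp_le_exp]
      linarith
    calc (1 + ‖x‖) * Real.exp (-(ξ x)) ≤ (1 + ‖x‖) * (Real.exp C * Real.exp (-(c * ‖x‖))) :=
          mul_le_mul_of_nonneg_left h3 (by positivity)
      _ = Real.exp C * ((1 + ‖x‖) * Real.exp (-(c * ‖x‖))) := by ring

theorem integrableOn_W' (μ : Measure E) [μ.IsAddHaarMeasure] {W : Set E} (hWc : IsClosed W)
    (ξ : E →ₗ[ℝ] ℝ) (c C : ℝ) (hc : 0 < c) (h : ∀ x ∈ W, c * ‖x‖ - C ≤ ξ x) :
    IntegrableOn (fun x => Real.exp (-(ξ x))) W μ := by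
  have hξ : Continuous ξ := ξ.continuous_of_finiteDimensional
  refine (integrableOn_W μ hWc ξ c C hc h).mono' ?_ (Filter.Eventually.of_forall fun x => ?_)
  · exact (Continuous.aestronglyMeasurable (by fun_prop))
  · rw [Real.norm_of_nonneg (Real.exp_pos _).le]
    have h1 := Real.exp_pos (-(ξ x))
    have h2 := norm_nonneg x
    nlinarith

theorem lap_pos (μ : Measure E) [μ.IsAddHaarMeasure] {K W : Set E} (hK : IsCone K)
    (hW : IsW K W) (ξ : E →ₗ[ℝ] ℝ) (hi : IntegrableOn (fun x => Real.exp (-(ξ x))) W μ) :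
    0 < lap μ W ξ := by
  unfold lap
  rw [setIntegral_pos_iff_support_of_nonneg_ae
    (Filter.Eventually.of_forall fun x => (Real.exp_pos _).le) hi]
  have h1 : Function.support (fun x : E => Real.exp (-(ξ x))) = univ := by
    ext x
    simp [Real.exp_ne_zero]
  rw [h1, univ_inter]
  exact lt_of_lt_of_le (isOpen_interior.measure_pos μ (interior_ne hK hW))
    (measure_mono interior_subset)

theorem smul_cone {K : Set E} (hK : IsCone K) (t : ℝ) (ht : 0 < t) : t • K = K := by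
  ext x
  constructor
  · rintro ⟨y, hy, rfl⟩
    exact hK.smul t ht.le y hy
  · intro hx
    refine ⟨t⁻¹ • x, hK.smul _ (inv_nonneg.2 ht.le) x hx, ?_⟩
    change t • t⁻¹ • x = x
    rw [smul_smul, mul_inv_cancel₀ ht.ne', one_smul]

end LAPaux

theorem t_LAP : M_LAP := by
  intro hBEL E _ _ _ _ _ μ _ K W hK hW
  obtain ⟨b1, b2, b3, b4, b5, b6⟩ := hBEL E K W hK hW
  obtain ⟨k1, k2, -⟩ := hBEL E K K hK (LAPaux.isW_self hK)
  have hint : ∀ ξ ∈ UU K, IntegrableOn (fun x => Real.exp (-(ξ x))) W μ ∧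
      IntegrableOn (fun x => (1 + ‖x‖) * Real.exp (-(ξ x))) W μ := by
    intro ξ hξ
    obtain ⟨c, C, hc, h⟩ := b2 ξ hξ
    exact ⟨LAPaux.integrableOn_W' μ hW.closed ξ c C hc h,
      LAPaux.integrableOn_W μ hW.closed ξ c C hc h⟩
  refine ⟨hint, fun ξ hξ => ⟨?_, LAPaux.lap_pos μ hK hW ξ (hint ξ hξ).1⟩, fun ξ hξ t ht => ?_,
    fun ξ hξ => ⟨fun x hx => ?_, fun ε hε => ?_⟩, fun ξ hξ t ht => ?_, LAPaux.isW_self hK,
    fun x hx d hd => LAPaux.add_W hW hx hd⟩
  · obtain ⟨c, C, hc, h⟩ := k2 ξ hξ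
    exact LAPaux.lap_pos μ hK (LAPaux.isW_self hK) ξ
      (LAPaux.integrableOn_W' μ hK.closed ξ c C hc h)
  · unfold lap
    have h1 := Measure.setIntegral_comp_smul_of_pos μ (fun x : E => Real.exp (-(ξ x))) K ht
    rw [LAPaux.smul_cone hK t ht, smul_eq_mul] at h1
    rw [← h1]
    refine integral_congr_ae (Filter.Eventually.of_forall fun x => ?_)
    change Real.exp (-((t • ξ) x)) = Real.exp (-(ξ (t • x)))
    rw [LinearMap.smul_apply, map_smul]
  · obtain ⟨c, C, hc, h⟩ := b2 ξ hξ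
    refine csInf_le ⟨-C, ?_⟩ ⟨x, hx, rfl⟩
    rintro _ ⟨y, hy, rfl⟩
    have h1 := h y hy
    have h2 : 0 ≤ c * ‖y‖ := by positivity
    linarith
  · have h1 : hinf W ξ < hinf W ξ + ε := by linarith
    obtain ⟨_, ⟨x, hx, rfl⟩, h2⟩ := exists_lt_of_csInf_lt (hW.ne.image ξ) h1
    exact ⟨x, hx, h2⟩
  · unfold hinf
    have h1 : (⇑(t • ξ)) '' W = t • ((⇑ξ) '' W) := by
      ext r
      constructor
      · rintro ⟨x, hx, rfl⟩
        exact ⟨ξ x, ⟨x, hx, rfl⟩, rfl⟩
      · rintro ⟨_, ⟨x, hx, rfl⟩, rfl⟩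
        exact ⟨x, hx, rfl⟩
    rw [h1, Real.sInf_smul_of_nonneg ht.le, smul_eq_mul]

end Pool.Agent.PRC
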