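import Pool.Agent.PRC.StE

/-!
# SCCP sets with polyhedral recession cone: linear isomorphisms (module LIN)
-/

set_option autoImplicit false

open MeasureTheory Set Filter Topology
open Pool.Agent.H30.Sccp

namespace Pool.Agent.PRC

namespace LINaux

variable {E F : Type} [NormedAddCommGroup E] [NormedSpace ℝ E] [FiniteDimensional ℝ E]
  [MeasurableSpace E] [BorelSpace E] [NormedAddCommGroup F] [NormedSpace ℝ F]
  [FiniteDimensional ℝ F] [MeasurableSpace F] [BorelSpace F]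

theorem lap_eq (μ : Measure E) [μ.IsAddHaarMeasure] (ν : Measure F) [ν.IsAddHaarMeasure]
    (T : E ≃ₗ[ℝ] F) : ∃ c : ℝ, 0 < c ∧ ∀ (S : Set E) (ξ : F →ₗ[ℝ] ℝ),
      lap ν {y | T.symm y ∈ S} ξ = c * lap μ S (ξ ∘ₗ (T : E →ₗ[ℝ] F)) := by
  let L : E ≃L[ℝ] F := T.toContinuousLinearEquiv
  have hL : ∀ x, L x = T x := fun x => rfl
  have hν : ν = ν.addHaarScalarFactor (μ.map L) • μ.map L :=
    Measure.isAddLeftInvariant_eq_smul _ _
  refine ⟨ν.addHaarScalarFactor (μ.map L), ?_, ?_⟩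
  · exact_mod_cast Measure.addHaarScalarFactor_pos_of_isAddHaarMeasure ν (μ.map L)
  · intro S ξ
    unfold lap
    conv_lhs => rw [hν]
    rw [Measure.restrict_smul, integral_smul_nnreal_measure]
    have h1 : ∫ x in {y | T.symm y ∈ S}, Real.exp (-(ξ x)) ∂(μ.map L) =
        ∫ x in L ⁻¹' {y | T.symm y ∈ S}, Real.exp (-(ξ (L x))) ∂μ :=
      L.toHomeomorph.measurableEmbedding.setIntegral_map _ _
    have h2 : L ⁻¹' {y | T.symm y ∈ S} = S := by
      ext x
      show T.symm (T x) ∈ S ↔ x ∈ S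
      rw [LinearEquiv.symm_apply_apply]
    rw [h1, h2]
    rfl

theorem hinf_eq (T : E ≃ₗ[ℝ] F) (W : Set E) (ξ : F →ₗ[ℝ] ℝ) :
    hinf {y | T.symm y ∈ W} ξ = hinf W (ξ ∘ₗ (T : E →ₗ[ℝ] F)) := by
  unfold hinf
  congr 1
  ext r
  constructor
  · rintro ⟨y, hy, rfl⟩
    refine ⟨T.symm y, hy, ?_⟩
    show ξ (T (T.symm y)) = ξ y
    rw [LinearEquiv.apply_symm_apply]
  · rintro ⟨x, hx, rfl⟩
    refine ⟨T x, ?_, rfl⟩
    show T.symm (T x) ∈ W
    rwa [LinearEquiv.symm_apply_apply]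

theorem UU_iff (T : E ≃ₗ[ℝ] F) (K : Set E) (ξ : F →ₗ[ℝ] ℝ) :
    ξ ∈ UU {y | T.symm y ∈ K} ↔ ξ ∘ₗ (T : E →ₗ[ℝ] F) ∈ UU K := by
  constructor
  · intro h d hd hd0
    refine h (T d) ?_ ?_
    · show T.symm (T d) ∈ K
      rwa [LinearEquiv.symm_apply_apply]
    · intro h0
      exact hd0 ((LinearEquiv.map_eq_zero_iff T).1 h0)
  · intro h d hd hd0
    have h1 := h (T.symm d) hd (fun h0 => hd0 ((LinearEquiv.map_eq_zero_iff T.symm).1 h0))
    have h2 : (ξ ∘ₗ (T : E →ₗ[ℝ] F)) (T.symm d) = ξ d := by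
      show ξ (T (T.symm d)) = ξ d
      rw [LinearEquiv.apply_symm_apply]
    rwa [h2] at h1

theorem ident_of {μ : Measure E} [μ.IsAddHaarMeasure] {ν : Measure F} [ν.IsAddHaarMeasure]
    (T : E ≃ₗ[ℝ] F) {K W : Set E} (h : Ident μ K W) :
    Ident ν {y | T.symm y ∈ K} {y | T.symm y ∈ W} := by
  obtain ⟨c, hc, hlap⟩ := lap_eq μ ν T
  intro ξ₁ h₁ ξ₂ h₂ heq t ht
  rw [UU_iff] at h₁ h₂
  rw [hlap, hlap] at heq
  have h3 := h _ h₁ _ h₂ (mul_left_cancel₀ hc.ne' heq) t ht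
  rw [hlap, hlap, hinf_eq, hinf_eq]
  have e1 : ∀ ξ : F →ₗ[ℝ] ℝ, (t • ξ) ∘ₗ (T : E →ₗ[ℝ] F) = t • (ξ ∘ₗ (T : E →ₗ[ℝ] F)) :=
    fun ξ => rfl
  rw [e1, e1, mul_left_comm, h3, mul_left_comm]

theorem isCone (T : E ≃ₗ[ℝ] F) {K : Set E} (hK : IsCone K) : IsCone {y | T.symm y ∈ K} := by
  have hc : Continuous T.symm := T.symm.toContinuousLinearEquiv.continuous
  refine ⟨hK.closed.preimage hc, hK.convex.linear_preimage (T.symm : F →ₗ[ℝ] E), ?_, ?_, ?_, ?_⟩
  · show T.symm 0 ∈ K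
    rw [map_zero]
    exact hK.zero
  · intro t ht x hx
    show T.symm (t • x) ∈ K
    rw [map_smul]
    exact hK.smul t ht _ hx
  · intro x hx hx'
    have hx2 : T.symm (-x) ∈ K := hx'
    rw [map_neg] at hx2
    exact (LinearEquiv.map_eq_zero_iff T.symm).1 (hK.pointed _ hx hx2)
  · obtain ⟨x, hx⟩ := hK.int
    refine ⟨T x, ?_⟩
    have h1 : T.symm ⁻¹' (interior K) ⊆ interior {y | T.symm y ∈ K} :=
      interior_maximal (preimage_mono interior_subset) (isOpen_interior.preimage hc)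
    apply h1
    show T.symm (T x) ∈ interior K
    rwa [LinearEquiv.symm_apply_apply]

theorem isW (T : E ≃ₗ[ℝ] F) {K W : Set E} (hW : IsW K W) :
    IsW {y | T.symm y ∈ K} {y | T.symm y ∈ W} := by
  have hc : Continuous T.symm := T.symm.toContinuousLinearEquiv.continuous
  refine ⟨hW.closed.preimage hc, hW.convex.linear_preimage (T.symm : F →ₗ[ℝ] E), ?_, ?_⟩
  · obtain ⟨x, hx⟩ := hW.ne
    refine ⟨T x, ?_⟩
    show T.symm (T x) ∈ W
    rwa [LinearEquiv.symm_apply_apply]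
  · ext d
    have hr : T.symm d ∈ K ↔ T.symm d ∈ recCone W := by rw [hW.reco]
    show d ∈ recCone {y | T.symm y ∈ W} ↔ T.symm d ∈ K
    rw [hr]
    constructor
    · intro h x hx s hs
      have h1 := h (T x) (by
        show T.symm (T x) ∈ W
        rwa [LinearEquiv.symm_apply_apply]) s hs
      have h2 : T.symm (T x + s • d) = x + s • T.symm d := by
        rw [map_add, map_smul, LinearEquiv.symm_apply_apply]
      have h3 : T.symm (T x + s • d) ∈ W := h1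
      rwa [h2] at h3
    · intro h y hy s hs
      have h1 := h (T.symm y) hy s hs
      show T.symm (y + s • d) ∈ W
      rw [map_add, map_smul]
      exact h1

end LINaux

open LINaux in
theorem t_LIN : S_LIN := by
  intro E F _ _ _ _ _ _ _ _ _ _ μ _ ν _ T K W hK hW
  refine ⟨isCone T hK, isW T hW, ⟨ident_of T, fun h => ?_⟩, ?_⟩
  · have h1 := ident_of (μ := ν) (ν := μ) T.symm h
    have e : ∀ S : Set E, {y | T.symm.symm y ∈ {y | T.symm y ∈ S}} = S := by
      intro S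
      ext x
      show T.symm (T x) ∈ S ↔ x ∈ S
      rw [LinearEquiv.symm_apply_apply]
    rw [e, e] at h1
    exact h1
  · intro hs
    exact hs.linear_preimage (T.symm : F →ₗ[ℝ] E) T.symm.toContinuousLinearEquiv.continuous
      T.symm.injective

end Pool.Agent.PRC
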