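import Pool.Agent.PRC.StI

/-! # PRC: LRE, from volumes of sublevel sets to Laplace transforms and infima -/

set_option autoImplicit false

open MeasureTheory Set Filter Topology
open Pool.Agent.H30.Sccp

namespace Pool.Agent.PRC

namespace LREaux

theorem exp_lint (t y : ℝ) (ht : 0 < t) :
    ENNReal.ofReal (Real.exp (-(t * y))) =
      ∫⁻ r in Ici y, ENNReal.ofReal (t * Real.exp (-t * r)) := by
  rw [← setLIntegral_congr (Ioi_ae_eq_Ici (a := y))]
  have hint : IntegrableOn (fun r : ℝ => t * Real.exp (-t * r)) (Ioi y) :=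
    (integrableOn_exp_mul_Ioi (by linarith : -t < 0) y).const_mul t
  rw [← ofReal_integral_eq_lintegral_ofReal hint]
  · congr 1
    rw [integral_const_mul, integral_exp_mul_Ioi (by linarith : -t < 0) y]
    field_simp
  · exact Eventually.of_forall fun r => by positivity

/-- Tonelli -/
theorem ton {m : ℕ} (W : Set (Fin m → ℝ)) (u : (Fin m → ℝ) → ℝ)
    (hu : Continuous u) (t : ℝ) (ht : 0 < t) :
    ∫⁻ x in W, ENNReal.ofReal (Real.exp (-(t * u x))) =
      ∫⁻ r, ENNReal.ofReal (t * Real.exp (-t * r)) * volume {x | x ∈ W ∧ u x ≤ r} := by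
  have h1 : ∀ x, ENNReal.ofReal (Real.exp (-(t * u x))) =
      ∫⁻ r, (Ici (u x)).indicator (fun r => ENNReal.ofReal (t * Real.exp (-t * r))) r := by
    intro x
    rw [lintegral_indicator measurableSet_Ici]
    exact exp_lint t (u x) ht
  simp_rw [h1]
  rw [lintegral_lintegral_swap]
  · apply lintegral_congr
    intro r
    have h2 : ∀ x, (Ici (u x)).indicator (fun r => ENNReal.ofReal (t * Real.exp (-t * r))) r =
        {x | u x ≤ r}.indicator (fun _ => ENNReal.ofReal (t * Real.exp (-t * r))) x := by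
      intro x
      simp only [indicator, mem_Ici, mem_ofPred_eq]
    simp_rw [h2]
    have hm : MeasurableSet {x | u x ≤ r} := measurableSet_le hu.measurable measurable_const
    rw [lintegral_indicator hm, lintegral_const, Measure.restrict_restrict hm,
      Measure.restrict_apply MeasurableSet.univ, univ_inter]
    congr 2
    ext x
    simp [and_comm]
  · apply Measurable.aemeasurable
    have h3 : (Function.uncurry fun (x : Fin m → ℝ) (r : ℝ) =>
        (Ici (u x)).indicator (fun r => ENNReal.ofReal (t * Real.exp (-t * r))) r) =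
        {p : (Fin m → ℝ) × ℝ | u p.1 ≤ p.2}.indicator
          (fun p => ENNReal.ofReal (t * Real.exp (-t * p.2))) := by
      ext p
      simp only [Function.uncurry, indicator, mem_Ici, mem_ofPred_eq]
    rw [h3]
    apply Measurable.indicator
    · fun_prop
    · exact measurableSet_le (hu.measurable.comp measurable_fst) measurable_snd

theorem subst (f : ℝ → ENNReal) (hf : Measurable f) (E F : ℝ) (hE : 0 < E) :
    ∫⁻ r, f r = ENNReal.ofReal E * ∫⁻ r, f (E * r + F) := by
  have h1 : ∫⁻ r, f r = ∫⁻ r, f (r + F) := (lintegral_add_right_eq_self f F).symm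
  rw [h1]
  have hf' : Measurable (fun r => f (r + F)) := hf.comp (measurable_id.add_const F)
  conv_lhs => rw [← Real.smul_map_volume_mul_left hE.ne']
  rw [lintegral_smul_measure, lintegral_map hf' (measurable_const_mul E), abs_of_pos hE]
  rfl

theorem cont {m : ℕ} (α : Fin m → ℝ) : Continuous (fun x : Fin m → ℝ => ∑ i, α i * x i) := by
  fun_prop

theorem ltrans {n : ℕ} {U W : Set (Fin (n + 1) → ℝ)} (hG : GoodU U W) {α β : Fin (n + 1) → ℝ}
    (hα : α ∈ U) (hβ : β ∈ U) (E F : ℝ) (hE : 0 < E)
    (hV : ∀ t, V W β (E * t + F) = V W α t) (t : ℝ) (ht : 0 < t) :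
    ∫⁻ x in W, ENNReal.ofReal (Real.exp (-(t * ∑ i, β i * x i))) =
      ENNReal.ofReal (Real.exp (-(t * F))) *
        ∫⁻ x in W, ENNReal.ofReal (Real.exp (-(t * E * ∑ i, α i * x i))) := by
  rw [ton W (fun x => ∑ i, β i * x i) (cont β) t ht,
    ton W (fun x => ∑ i, α i * x i) (cont α) (t * E) (mul_pos ht hE)]
  have hvol : ∀ r, volume {x | x ∈ W ∧ ∑ i, β i * x i ≤ E * r + F} =
      volume {x | x ∈ W ∧ ∑ i, α i * x i ≤ r} := by
    intro r
    have h1 := hV r
    unfold V at h1
    rw [measureReal_def, measureReal_def] at h1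
    exact (ENNReal.toReal_eq_toReal_iff' (hG.cap_lt_top hβ _).ne (hG.cap_lt_top hα _).ne).1 h1
  have hmeas : Measurable (fun r => ENNReal.ofReal (t * Real.exp (-t * r)) *
      volume {x | x ∈ W ∧ ∑ i, β i * x i ≤ r}) := by
    apply Measurable.mul
    · fun_prop
    · apply Monotone.measurable
      intro r r' hr
      exact measure_mono fun x hx => ⟨hx.1, hx.2.trans hr⟩
  rw [subst _ hmeas E F hE, ← lintegral_const_mul', ← lintegral_const_mul']
  · apply lintegral_congr
    intro r
    rw [hvol r, ← mul_assoc, ← mul_assoc, ← ENNReal.ofReal_mul hE.le,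
      ← ENNReal.ofReal_mul (Real.exp_pos _).le]
    congr 2
    have e : -t * (E * r + F) = -(t * F) + -(t * E) * r := by ring
    rw [e, Real.exp_add]
    ring
  · exact ENNReal.ofReal_ne_top
  · exact ENNReal.ofReal_ne_top

end LREaux

open LREaux in
theorem t_LRE : S_LRE := by
  intro n U W hG α hα β hβ E F hE hV
  refine ⟨fun t ht => ?_, ?_⟩
  · have h1 := ltrans hG hα hβ E F hE hV t ht
    rw [integral_eq_lintegral_of_nonneg_ae (Eventually.of_forall fun x => (Real.exp_pos _).le),
      integral_eq_lintegral_of_nonneg_ae (Eventually.of_forall fun x => (Real.exp_pos _).le), h1,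
      ENNReal.toReal_mul, ENNReal.toReal_ofReal (Real.exp_pos _).le]
    · exact (Continuous.aestronglyMeasurable (by fun_prop))
    · exact (Continuous.aestronglyMeasurable (by fun_prop))
  · have key : ∀ t, (∃ x ∈ W, ∑ i, α i * x i < t) ↔ ∃ x ∈ W, ∑ i, β i * x i < E * t + F := by
      intro t
      constructor
      · rintro ⟨x, hx, hxt⟩
        have h1 := hG.V_pos_of_mem hα hx hxt
        rw [← hV t] at h1
        exact Good.exists_mem_lt_of_V_pos (hG.pos β hβ) h1
      · rintro ⟨x, hx, hxt⟩
        have h1 := hG.V_pos_of_mem hβ hx hxt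
        rw [hV t] at h1
        exact Good.exists_mem_lt_of_V_pos (hG.pos α hα) h1
    have hne : ∀ γ : Fin (n + 1) → ℝ, ((fun x : Fin (n + 1) → ℝ => ∑ i, γ i * x i) '' W).Nonempty :=
      fun γ => hG.nonempty.image _
    have hbd : ∀ γ ∈ U, BddBelow ((fun x : Fin (n + 1) → ℝ => ∑ i, γ i * x i) '' W) := by
      intro γ hγ
      obtain ⟨m, hm⟩ := hG.bdd γ hγ
      exact ⟨m, by rintro _ ⟨x, hx, rfl⟩; exact hm x hx⟩
    apply le_antisymm
    · apply le_of_forall_pos_le_add
      intro ε hε
      obtain ⟨_, ⟨x, hx, rfl⟩, hxt⟩ := exists_lt_of_csInf_lt (hne α)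
        (lt_add_of_pos_right (sInf ((fun x : Fin (n + 1) → ℝ => ∑ i, α i * x i) '' W))
          (div_pos hε hE))
      obtain ⟨y, hy, hyt⟩ := (key _).1 ⟨x, hx, hxt⟩
      have h2 := csInf_le (hbd β hβ) ⟨y, hy, rfl⟩
      have h3 : E * (ε / E) = ε := by field_simp
      have h4 := mul_add E (sInf ((fun x : Fin (n + 1) → ℝ => ∑ i, α i * x i) '' W)) (ε / E)
      dsimp only at h2
      linarith
    · apply le_csInf (hne β)
      rintro _ ⟨x, hx, rfl⟩
      apply le_of_forall_pos_le_add
      intro ε hε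
      have h5 : E * ((∑ i, β i * x i + ε - F) / E) + F = ∑ i, β i * x i + ε := by
        field_simp
        ring
      obtain ⟨y, hy, hyt⟩ := (key ((∑ i, β i * x i + ε - F) / E)).2 ⟨x, hx, by rw [h5]; linarith⟩
      have h2 := csInf_le (hbd α hα) ⟨y, hy, rfl⟩
      dsimp only at h2 ⊢
      have h6 : sInf ((fun x : Fin (n + 1) → ℝ => ∑ i, α i * x i) '' W) ≤
          (∑ i, β i * x i + ε - F) / E := h2.trans hyt.le
      have h7 := mul_le_mul_of_nonneg_left h6 hE.le
      linarith

end Pool.Agent.PRC
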