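import Pool.Agent.PRC.StF

/-!
# Module PAK (MP_5f8b0b_gt): the lower boundary function of `W` satisfies the structure `Gr`
-/

set_option autoImplicit false

open MeasureTheory Set Filter Topology
open Pool.Agent.H30.Sccp

namespace Pool.Agent.PRC

namespace PAKaux

lemma fn_apply {n : ℕ} (a : ℝ) (η : (Fin n → ℝ) →ₗ[ℝ] ℝ) (x : ℝ × (Fin n → ℝ)) :
    fn a η x = a * x.1 + η x.2 := by
  simp [fn]

/-- values over the interior control all values -/
lemma approx {n : ℕ} {C : Set (Fin n → ℝ)} {W : Set (ℝ × (Fin n → ℝ))} (hC : IsCone C)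
    (hadd : ∀ y ∈ interior C, ∀ d ∈ C, y + d ∈ interior C)
    (hsm : ∀ y ∈ interior C, ∀ t : ℝ, 0 < t → t • y ∈ interior C)
    (hW : Convex ℝ W) (hWC : ∀ x ∈ W, x.2 ∈ C) (hint : ∀ y ∈ interior C, ∃ s, (s, y) ∈ W)
    (ξ : (ℝ × (Fin n → ℝ)) →ₗ[ℝ] ℝ) (m : ℝ) (hm : ∀ z ∈ W, z.2 ∈ interior C → m ≤ ξ z) :
    ∀ x ∈ W, m ≤ ξ x := by
  intro x hx
  by_contra hlt
  push Not at hlt
  obtain ⟨y₁, hy₁⟩ := hC.int
  obtain ⟨s₁, hs₁⟩ := hint y₁ hy₁
  have h1 : m ≤ ξ (s₁, y₁) := hm _ hs₁ hy₁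
  have hpos : 0 < ξ (s₁, y₁) - ξ x := by linarith
  set ε : ℝ := (m - ξ x) / (2 * (ξ (s₁, y₁) - ξ x)) with hε
  have hε0 : 0 < ε := div_pos (by linarith) (by linarith)
  have hε1 : ε ≤ 1 := by
    rw [hε, div_le_one (by linarith)]
    linarith
  have hmem : (1 - ε) • x + ε • ((s₁, y₁) : ℝ × (Fin n → ℝ)) ∈ W :=
    hW hx hs₁ (by linarith) hε0.le (by ring)
  have hsnd : ((1 - ε) • x + ε • ((s₁, y₁) : ℝ × (Fin n → ℝ))).2 ∈ interior C := by
    have : ((1 - ε) • x + ε • ((s₁, y₁) : ℝ × (Fin n → ℝ))).2 = ε • y₁ + (1 - ε) • x.2 := by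
      simp [add_comm]
    rw [this]
    exact hadd _ (hsm _ hy₁ _ hε0) _ (hC.smul _ (by linarith) _ (hWC x hx))
  have h2 := hm _ hmem hsnd
  rw [map_add, map_smul, map_smul, smul_eq_mul, smul_eq_mul] at h2
  have h3 : (1 - ε) * ξ x + ε * ξ (s₁, y₁) = ξ x + (m - ξ x) / 2 := by
    have : ε * (ξ (s₁, y₁) - ξ x) = (m - ξ x) / 2 := by
      rw [hε]; field_simp
    linarith
  linarith

end PAKaux

open PAKaux in
theorem t_PAK : M_PAK := by
  intro hGGB hCON hLAP hKCU hFIB n C ι _ _ l W A hC hW hId hSC hA hint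
  obtain ⟨hK, hUU, hfn⟩ := hKCU n C ι l hC
  obtain ⟨gle, gatt, ghom, gsub, gcont, B, hB0, hB⟩ := hGGB n ι l
  obtain ⟨c1, c2, c3, c4, c5, c6, c7⟩ := hCON n C hC
  obtain ⟨f1, f2, f3, f4, f5, f6, f7, f8⟩ := hFIB n C ι l W A hC hW (fun x hx => (hA x hx).2)
  have hHaar : (volume : Measure (ℝ × (Fin n → ℝ))).IsAddHaarMeasure := by
    rw [Measure.volume_eq_prod]
    infer_instance
  obtain ⟨l1, l2, l3, l4, l5, l6, l7⟩ :=
    hLAP (ℝ × (Fin n → ℝ)) volume (KC C (gg l)) W hK hW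
  have hWC : ∀ x ∈ W, x.2 ∈ C := fun x hx => (hA x hx).1
  have hsub : interior C ⊆ Prod.snd '' W := by
    intro y hy
    obtain ⟨s, hs⟩ := hint y hy
    exact ⟨(s, y), hs, rfl⟩
  have hPint : interior (Prod.snd '' W) = interior C := by
    apply Subset.antisymm
    · apply interior_mono
      rintro _ ⟨x, hx, rfl⟩
      exact hWC x hx
    · exact interior_maximal hsub isOpen_interior
  rw [hPint] at f5 f6 f8
  simp only [hPint] at f7
  have hmemf : ∀ y ∈ interior C, (fW W y, y) ∈ W := fun y hy => (f1 y (hsub hy) _).2 le_rfl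
  have happ := fun (ξ : (ℝ × (Fin n → ℝ)) →ₗ[ℝ] ℝ) (m : ℝ) =>
    approx hC c2 c1 hW.convex hWC hint ξ m
  have hlap : ∀ (a : ℝ) (η : (Fin n → ℝ) →ₗ[ℝ] ℝ), UG C (gg l) a η →
      LG C (fW W) a η = lap volume W (fn a η) := by
    intro a η h
    rw [(f7 a η h).1]
    rfl
  have hinfe : ∀ (a : ℝ) (η : (Fin n → ℝ) →ₗ[ℝ] ℝ), UG C (gg l) a η →
      hG C (fW W) a η = hinf W (fn a η) := by
    intro a η h
    have hU := (hUU a η).2 h
    have hlow : ∀ y ∈ interior C, hinf W (fn a η) ≤ η y + a * fW W y := by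
      intro y hy
      have := (l4 _ hU).1 _ (hmemf y hy)
      rw [fn_apply] at this
      simp only at this
      linarith
    apply le_antisymm
    · unfold hinf
      apply le_csInf (hW.ne.image _)
      rintro _ ⟨x, hx, rfl⟩
      apply happ (fn a η) (hG C (fW W) a η) _ x hx
      intro z hz hz2
      have h1 : hG C (fW W) a η ≤ η z.2 + a * fW W z.2 := by
        apply csInf_le
        · refine ⟨hinf W (fn a η), ?_⟩
          rintro _ ⟨y, hy, rfl⟩
          exact hlow y hy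
        · exact ⟨z.2, hz2, rfl⟩
      have h2 : fW W z.2 ≤ z.1 := (f1 z.2 (hsub hz2) z.1).1 hz
      rw [fn_apply]
      have := mul_le_mul_of_nonneg_left h2 h.1.le
      linarith
    · unfold hG
      apply le_csInf (hC.int.image _)
      rintro _ ⟨y, hy, rfl⟩
      exact hlow y hy
  refine ⟨f8, fun y hy d hd => (f4 y (hsub hy) d hd).2, ⟨A, fun y hy => f2 y (hsub hy)⟩, ?_, ?_⟩
  · intro a₁ a₂ η₁ η₂ h₁ h₂ heq t ht
    have hs : ∀ (a : ℝ) (η : (Fin n → ℝ) →ₗ[ℝ] ℝ), t • fn a η = fn (t * a) (t • η) := by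
      intro a η
      apply LinearMap.ext
      intro x
      rw [LinearMap.smul_apply, fn_apply, fn_apply, smul_eq_mul, LinearMap.smul_apply, smul_eq_mul]
      ring
    have hU : ∀ (a : ℝ) (η : (Fin n → ℝ) →ₗ[ℝ] ℝ), UG C (gg l) a η →
        UG C (gg l) (t * a) (t • η) := by
      intro a η h
      refine ⟨mul_pos ht h.1, fun y hy hy0 => ?_⟩
      have := mul_pos ht (h.2 y hy hy0)
      rw [LinearMap.smul_apply, smul_eq_mul]
      nlinarith [this]
    have hE := hId (fn a₁ η₁) ((hUU _ _).2 h₁) (fn a₂ η₂) ((hUU _ _).2 h₂)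
      (by rw [(f7 _ _ h₁).2, (f7 _ _ h₂).2, heq]) t ht
    rw [hs, hs, ← hlap _ _ (hU _ _ h₁), ← hlap _ _ (hU _ _ h₂), ← hinfe _ _ h₁,
      ← hinfe _ _ h₂] at hE
    exact hE
  · intro y hy p hp
    refine ⟨one_pos, fun d hd hd0 => ?_⟩
    have hmin : ∀ x ∈ W, fn 1 (-p) (fW W y, y) ≤ fn 1 (-p) x := by
      apply happ (fn 1 (-p)) (fn 1 (-p) (fW W y, y))
      intro z hz hz2
      have h1 := hp z.2 hz2
      have h2 : fW W z.2 ≤ z.1 := (f1 z.2 (hsub hz2) z.1).1 hz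
      rw [fn_apply, fn_apply]
      simp only [LinearMap.neg_apply]
      rw [map_sub] at h1
      linarith
    have hD : ((gg l d, d) : ℝ × (Fin n → ℝ)) ∈ KC C (gg l) := ⟨hd, le_rfl⟩
    have hxD := l7 _ (hmemf y hy) _ hD
    have hge := hmin _ hxD
    rw [map_add] at hge
    have hval : fn 1 (-p) ((gg l d, d) : ℝ × (Fin n → ℝ)) = (-p) d + 1 * gg l d := by
      rw [fn_apply]; simp only; ring
    have hge' : 0 ≤ fn 1 (-p) ((gg l d, d) : ℝ × (Fin n → ℝ)) := by linarith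
    rcases hge'.lt_or_eq with hlt | heq
    · rw [hval] at hlt; exact hlt
    exfalso
    set x₀ : ℝ × (Fin n → ℝ) := (fW W y, y) with hx₀
    set D : ℝ × (Fin n → ℝ) := (gg l d, d) with hDdef
    have hne : x₀ ≠ x₀ + D := by
      intro h
      have : D = 0 := by
        have := h.symm
        rwa [add_eq_left] at this
      apply hd0
      have := congrArg Prod.snd this
      simpa [hDdef] using this
    have hin := hSC (hmemf y hy) hxD hne (by norm_num : (0 : ℝ) < 1 / 2)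
      (by norm_num : (0 : ℝ) < 1 / 2) (by norm_num)
    set q : ℝ × (Fin n → ℝ) := (1 / 2 : ℝ) • x₀ + (1 / 2 : ℝ) • (x₀ + D) with hq
    have hfq : fn 1 (-p) q = fn 1 (-p) x₀ := by
      rw [hq, map_add, map_smul, map_smul, map_add, ← heq, smul_eq_mul, smul_eq_mul]
      ring
    have hcont : Tendsto (fun s : ℝ => q - s • ((1, 0) : ℝ × (Fin n → ℝ))) (𝓝[>] 0) (𝓝 q) := by
      have : Tendsto (fun s : ℝ => q - s • ((1, 0) : ℝ × (Fin n → ℝ))) (𝓝 0)
          (𝓝 (q - (0 : ℝ) • ((1, 0) : ℝ × (Fin n → ℝ)))) := by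
        apply Continuous.tendsto
        fun_prop
      rw [zero_smul, sub_zero] at this
      exact this.mono_left nhdsWithin_le_nhds
    have hev := hcont.eventually (mem_interior_iff_mem_nhds.1 hin)
    obtain ⟨s, hs, hs0⟩ := (hev.and self_mem_nhdsWithin).exists
    have hs0' : (0 : ℝ) < s := hs0
    have h5 := hmin _ hs
    rw [map_sub, map_smul, hfq, smul_eq_mul] at h5
    have h6 : fn 1 (-p) ((1, 0) : ℝ × (Fin n → ℝ)) = 1 := by
      rw [fn_apply]; simp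
    rw [h6] at h5
    linarith

end Pool.Agent.PRC
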