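import Pool.Agent.PRC.StE

/-!
# POS: a functional which is positive on a pointed cone except at `0`
-/

set_option autoImplicit false

open MeasureTheory Set Filter Topology
open Pool.Agent.H30.Sccp

namespace Pool.Agent.PRC

namespace POSaux

variable {E : Type} [NormedAddCommGroup E] [NormedSpace ℝ E]

/-- A functional that is nonnegative on the cone and positive at a given point. -/
theorem one {K : Set E} (hK : IsCone K) {d : E} (hd : d ∈ K) (h0 : d ≠ 0) :
    ∃ f : StrongDual ℝ E, (∀ x ∈ K, 0 ≤ f x) ∧ 0 < f d := by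
  have hn : -d ∉ K := fun h => h0 (hK.pointed d hd h)
  obtain ⟨f, u, hu, hf⟩ := geometric_hahn_banach_point_closed hK.convex hK.closed hn
  have hu0 : u < 0 := by
    have := hf 0 hK.zero
    rwa [map_zero] at this
  refine ⟨f, fun x hx => ?_, ?_⟩
  · by_contra h
    push Not at h
    have h1 : 0 ≤ u / f x := (div_pos_of_neg_of_neg hu0 h).le
    have h2 := hf _ (hK.smul _ h1 x hx)
    rw [map_smul, smul_eq_mul, div_mul_cancel₀ _ h.ne] at h2
    exact lt_irrefl _ h2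
  · rw [map_neg] at hu
    linarith

end POSaux

open POSaux in
theorem t_POS : S_POS := by
  classical
  intro E _ _ _ K hK
  have hc : IsCompact (K ∩ Metric.sphere (0 : E) 1) := (isCompact_sphere 0 1).inter_left hK.closed
  have h1 : ∀ d : E, ∃ f : StrongDual ℝ E, (∀ x ∈ K, 0 ≤ f x) ∧ (d ∈ K → d ≠ 0 → 0 < f d) := by
    intro d
    by_cases h : d ∈ K ∧ d ≠ 0
    · obtain ⟨f, hf1, hf2⟩ := one hK h.1 h.2
      exact ⟨f, hf1, fun _ _ => hf2⟩
    · exact ⟨0, fun _ _ => le_rfl, fun h2 h3 => absurd ⟨h2, h3⟩ h⟩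
  choose F hF1 hF2 using h1
  have hne : ∀ x ∈ K ∩ Metric.sphere (0 : E) 1, x ≠ 0 := by
    rintro x ⟨-, hx⟩ rfl
    simp at hx
  obtain ⟨t, -, ht⟩ := hc.elim_nhds_subcover (fun d => {x | 0 < F d x}) (fun x hx =>
    (isOpen_lt continuous_const (F x).continuous).mem_nhds (hF2 x hx.1 (hne x hx)))
  refine ⟨((∑ d ∈ t, F d : StrongDual ℝ E) : E →ₗ[ℝ] ℝ), fun x hx hx0 => ?_⟩
  have hxn : 0 < ‖x‖ := norm_pos_iff.2 hx0
  set y : E := ‖x‖⁻¹ • x with hy
  have hyK : y ∈ K ∩ Metric.sphere (0 : E) 1 := by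
    refine ⟨hK.smul _ (by positivity) x hx, ?_⟩
    rw [mem_sphere_zero_iff_norm, hy, norm_smul, norm_inv, norm_norm, inv_mul_cancel₀ hxn.ne']
  have hxy : x = ‖x‖ • y := by
    rw [hy, smul_smul, mul_inv_cancel₀ hxn.ne', one_smul]
  have hpos : 0 < (∑ d ∈ t, F d : StrongDual ℝ E) y := by
    rw [ContinuousLinearMap.sum_apply]
    obtain ⟨d, hd, hdy⟩ := mem_iUnion₂.1 (ht hyK)
    exact Finset.sum_pos' (fun i _ => hF1 i y hyK.1) ⟨d, hd, hdy⟩
  show 0 < (∑ d ∈ t, F d : StrongDual ℝ E) x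
  rw [hxy, map_smul, smul_eq_mul]
  positivity

end Pool.Agent.PRC
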