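import Pool.Agent.PRC.StF

/-!
# The recession cone of a strictly convex set has no lines
-/

set_option autoImplicit false

open MeasureTheory Set Filter Topology
open Pool.Agent.H30.Sccp

namespace Pool.Agent.PRC

theorem t_PTD : S_PTD := by
  intro n Ω hcl hst hne hun hint
  refine ⟨?_, ?_, ?_, ?_, ?_, hint⟩
  · have h : recCone Ω = ⋂ x ∈ Ω, ⋂ s ∈ {s : ℝ | 0 ≤ s},
        {d : EuclideanSpace ℝ (Fin (n + 1)) | x + s • d ∈ Ω} := by
      ext d
      simp [recCone]
    rw [h]
    refine isClosed_biInter fun x _ => isClosed_biInter fun s _ => ?_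
    exact hcl.preimage (by fun_prop : Continuous fun d : EuclideanSpace ℝ (Fin (n + 1)) => x + s • d)
  · intro d₁ h₁ d₂ h₂ a b ha hb hab x hx s hs
    have h3 : x + s • (a • d₁ + b • d₂) = a • (x + s • d₁) + b • (x + s • d₂) := by
      have h4 : x = a • x + b • x := by rw [← add_smul, hab, one_smul]
      calc x + s • (a • d₁ + b • d₂) = (a • x + b • x) + s • (a • d₁ + b • d₂) := by rw [← h4]
        _ = a • (x + s • d₁) + b • (x + s • d₂) := by module
    rw [h3]
    exact hst.convex (h₁ x hx s hs) (h₂ x hx s hs) ha hb hab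
  · intro x hx s _
    rw [smul_zero, add_zero]
    exact hx
  · intro t ht d hd x hx s hs
    rw [smul_smul]
    exact hd x hx (s * t) (mul_nonneg hs ht)
  · intro d hd hd'
    by_contra hd0
    obtain ⟨x, hx⟩ := nonempty_frontier_iff.2 ⟨hne, hun⟩
    have hxΩ : x ∈ Ω := hcl.frontier_subset hx
    have h1 := hd x hxΩ 1 zero_le_one
    have h2 := hd' x hxΩ 1 zero_le_one
    rw [one_smul] at h1 h2
    have h3 : x + d ≠ x + -d := by
      intro h
      apply hd0
      have h4 : d = -d := add_left_cancel h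
      have h5 : (2 : ℝ) • d = 0 := by
        rw [two_smul]
        nth_rewrite 2 [h4]
        exact add_neg_cancel d
      exact (smul_eq_zero.1 h5).resolve_left two_ne_zero
    have h5 := hst h1 h2 h3 (by norm_num : (0 : ℝ) < 1 / 2) (by norm_num : (0 : ℝ) < 1 / 2)
      (by norm_num)
    have h6 : (1 / 2 : ℝ) • (x + d) + (1 / 2 : ℝ) • (x + -d) = x := by module
    rw [h6] at h5
    exact hx.2 h5

end Pool.Agent.PRC
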