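import Pool.Agent.PRC.StE

/-!
# The recursion for the excess of the Laplace transform
-/

set_option autoImplicit false

open MeasureTheory Set Filter Topology
open Pool.Agent.H30.Sccp

namespace Pool.Agent.PRC

namespace RECaux

/-- A functional which vanishes on a cone with interior is zero. -/
theorem zero_of_cone {E : Type} [NormedAddCommGroup E] [NormedSpace ℝ E] {K : Set E}
    (hK : (interior K).Nonempty) (e : E →ₗ[ℝ] ℝ) (h : ∀ d ∈ K, e d = 0) : ∀ v, e v = 0 := by
  intro v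
  obtain ⟨p, hp⟩ := hK
  have ht : Tendsto (fun s : ℝ => p + s • v) (𝓝[>] 0) (𝓝 p) := by
    have : Continuous (fun s : ℝ => p + s • v) := by fun_prop
    have h2 := this.tendsto 0
    simp only [zero_smul, add_zero] at h2
    exact h2.mono_left nhdsWithin_le_nhds
  have hev : ∀ᶠ s in 𝓝[>] (0 : ℝ), p + s • v ∈ K :=
    ht.eventually (mem_interior_iff_mem_nhds.mp hp)
  obtain ⟨s, hs, hs0⟩ := (hev.and self_mem_nhdsWithin).exists
  have hs0' : 0 < s := hs0
  have h1 := h _ hs
  have h2 := h _ (interior_subset hp)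
  rw [map_add, map_smul, h2, zero_add, smul_eq_mul] at h1
  exact (mul_eq_zero.mp h1).resolve_left hs0'.ne'

/-- The integral over a set covered by finitely many sets. -/
theorem cover {E : Type} [MeasurableSpace E] (μ : Measure E) {ι : Type} [Fintype ι]
    (f : E → ℝ) (W T : Set E) (S : ι → Set E) (hf : IntegrableOn f W μ) (h0 : ∀ x, 0 ≤ f x)
    (hT : MeasurableSet T) (hS : ∀ j, MeasurableSet (S j)) (hSW : ∀ j, S j ⊆ W)
    (hTS : T ⊆ ⋃ j, S j) : ∫ x in T, f x ∂μ ≤ ∑ j, ∫ x in S j, f x ∂μ := by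
  have hTW : T ⊆ W := hTS.trans (iUnion_subset hSW)
  have h1 : ∫ x in T, f x ∂μ = ∫ x, T.indicator f x ∂μ := (integral_indicator hT).symm
  have h2 : ∀ j, ∫ x in S j, f x ∂μ = ∫ x, (S j).indicator f x ∂μ := fun j =>
    (integral_indicator (hS j)).symm
  have hi : ∀ j, Integrable (fun x => (S j).indicator f x) μ := fun j =>
    (integrable_indicator_iff (hS j)).mpr (hf.mono_set (hSW j))
  rw [h1]
  simp_rw [h2]
  rw [← integral_finsetSum _ (fun j _ => hi j)]
  apply integral_mono ((integrable_indicator_iff hT).mpr (hf.mono_set hTW))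
    (integrable_finsetSum _ (fun j _ => hi j))
  intro x
  show T.indicator f x ≤ ∑ j, (S j).indicator f x
  have hnn : ∀ j ∈ (Finset.univ : Finset ι), 0 ≤ (S j).indicator f x := fun j _ =>
    indicator_nonneg (fun x _ => h0 x) x
  by_cases hx : x ∈ T
  · obtain ⟨j, hj⟩ := mem_iUnion.mp (hTS hx)
    rw [indicator_of_mem hx]
    have := Finset.single_le_sum hnn (Finset.mem_univ j)
    rwa [indicator_of_mem hj] at this
  · rw [indicator_of_notMem hx]
    exact Finset.sum_nonneg hnn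

/-- Elementary bound of the exponential. -/
theorem exp_bd {x : ℝ} (hx0 : 0 ≤ x) (hx : x ≤ 1 / 2) : Real.exp x ≤ 1 + 2 * x := by
  have h := Real.exp_bound_div_one_sub_of_interval hx0 (by linarith : x < 1)
  refine h.trans ?_
  rw [div_le_iff₀ (by linarith)]
  nlinarith

/-- The recursion of numbers. -/
theorem numrec (z : ℕ → ℝ) (C : ℝ) (h0 : 0 ≤ z 0) (h : ∀ k, z (k + 1) ≤ z k / 2 + C) :
    ∀ k, z k ≤ z 0 + 2 * |C| := by
  intro k
  induction k with
  | zero => have := abs_nonneg C; linarith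
  | succ k ih =>
    have h1 := h k
    have h2 := le_abs_self C
    linarith

end RECaux

open RECaux in
theorem t_REC : M_REC := by
  intro hBEL hLAP hIVT
  intro E _ _ _ _ _ μ _ ι _ φ W hN hK hW hId h0W ξ hξ
  set K : Set E := poly φ with hKdef
  set N : ℕ := Module.finrank ℝ E with hNdef
  obtain ⟨hint, hpos, hscal, -, -, hKK, hadd⟩ := hLAP E μ K W hK hW
  obtain ⟨hintK, -⟩ := hLAP E μ K K hK hKK
  obtain ⟨-, -, -, hUs, -, -⟩ := hBEL E K W hK hW
  have hKW : K ⊆ W := by
    intro d hd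
    have := hadd 0 h0W d hd
    rwa [zero_add] at this
  have hWm : MeasurableSet W := hW.closed.measurableSet
  have hKm : MeasurableSet K := hK.closed.measurableSet
  set L : ℝ := lap μ K ξ with hL
  have hLpos : 0 < L := (hpos ξ hξ).1
  -- the excess
  have hX : ∀ ζ ∈ UU K, lap μ W ζ - lap μ K ζ = ∫ x in W \ K, Real.exp (-(ζ x)) ∂μ := by
    intro ζ hζ
    unfold lap
    rw [setIntegral_sdiff hKm ((hint ζ hζ).1) hKW]
  have hXnn : ∀ ζ ∈ UU K, 0 ≤ lap μ W ζ - lap μ K ζ := by
    intro ζ hζ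
    rw [hX ζ hζ]
    exact integral_nonneg fun x => (Real.exp_pos _).le
  -- the parameter
  set m : ℝ := (Fintype.card ι : ℝ) with hm
  have hm0 : 0 ≤ m := Nat.cast_nonneg _
  set ε : ℝ := 1 / (4 * m + 4) with hε
  have hεpos : 0 < ε := by positivity
  have hε1 : ε < 1 := by
    rw [hε, div_lt_one (by positivity)]; linarith
  -- the functionals
  have hj : ∀ j : ι, ∃ F : ℝ, ∀ t : ℝ, 0 < t →
      ∫ x in {x | x ∈ W ∧ φ j x < 0}, Real.exp (-((t * ε) • ξ) x) ∂μ ≤
        Real.exp (-(t * F)) * lap μ W (t • ξ) - lap μ K (t • ξ) ∨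
      ∫ x in {x | x ∈ W ∧ φ j x < 0}, Real.exp (-((t * ε) • ξ) x) ∂μ ≤ 0 := by
    intro j
    have hφj : ∀ d ∈ K, 0 ≤ φ j d := fun d hd => hd j
    by_cases hex : ∃ d ∈ K, 0 < φ j d
    · obtain ⟨M, hM0, hMU, hMl⟩ := hIVT E μ K hK ξ hξ ε (φ j) hεpos hε1 hφj hex
      set ζ : E →ₗ[ℝ] ℝ := ε • ξ + M • φ j with hζ
      refine ⟨hinf W ζ - hinf W ξ, fun t ht => Or.inl ?_⟩
      have htζ : t • ζ ∈ UU K := hUs ζ hMU t ht
      have htξ : t • ξ ∈ UU K := hUs ξ hξ t ht
      have hid := hId ζ hMU ξ hξ hMl t ht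
      -- lap W (t ζ)
      have h1 : Real.exp (-(t * (hinf W ζ - hinf W ξ))) * lap μ W (t • ξ) = lap μ W (t • ζ) := by
        have e1 : Real.exp (-(t * (hinf W ζ - hinf W ξ))) =
            (Real.exp (t * hinf W ζ))⁻¹ * Real.exp (t * hinf W ξ) := by
          rw [← Real.exp_neg, ← Real.exp_add]
          congr 1; ring
        rw [e1, mul_assoc, hid, ← mul_assoc, inv_mul_cancel₀ (Real.exp_pos _).ne', one_mul]
      have h2 : lap μ K (t • ζ) = lap μ K (t • ξ) := by
        rw [hscal ζ hMU t ht, hscal ξ hξ t ht, hMl]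
      rw [h1, ← h2, hX _ htζ]
      have hsub : {x | x ∈ W ∧ φ j x < 0} ⊆ W \ K := by
        rintro x ⟨hxW, hx⟩
        exact ⟨hxW, fun hxK => absurd (hφj x hxK) (not_le.mpr hx)⟩
      have hcont : Continuous (φ j) := (φ j).continuous_of_finiteDimensional
      have hSm : MeasurableSet {x | x ∈ W ∧ φ j x < 0} :=
        hWm.inter (isOpen_lt hcont continuous_const).measurableSet
      have hiζ : IntegrableOn (fun x => Real.exp (-((t • ζ) x))) (W \ K) μ :=
        ((hint _ htζ).1).mono_set sdiff_subset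
      have htε : (t * ε) • ξ ∈ UU K := hUs ξ hξ _ (mul_pos ht hεpos)
      calc ∫ x in {x | x ∈ W ∧ φ j x < 0}, Real.exp (-((t * ε) • ξ) x) ∂μ
          ≤ ∫ x in {x | x ∈ W ∧ φ j x < 0}, Real.exp (-((t • ζ) x)) ∂μ := by
            apply setIntegral_mono_on
              (((hint _ htε).1).mono_set (fun x hx => hx.1)) (hiζ.mono_set hsub) hSm
            rintro x ⟨hxW, hx⟩
            apply Real.exp_le_exp.mpr
            have e1 : (t • ζ) x = t * (ε * ξ x + M * φ j x) := by
              simp [hζ]; ring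
            have e2 : ((t * ε) • ξ) x = t * ε * ξ x := by
              rw [LinearMap.smul_apply, smul_eq_mul]
            rw [e2, e1]
            have : t * (M * φ j x) ≤ 0 :=
              mul_nonpos_of_nonneg_of_nonpos ht.le
                (mul_nonpos_of_nonneg_of_nonpos hM0 hx.le)
            nlinarith
        _ ≤ ∫ x in W \ K, Real.exp (-((t • ζ) x)) ∂μ :=
            setIntegral_mono_set hiζ (Eventually.of_forall fun x => (Real.exp_pos _).le)
              (LE.le.eventuallyLE hsub)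
    · refine ⟨0, fun t _ => Or.inr ?_⟩
      push Not at hex
      have hz : ∀ v, φ j v = 0 := zero_of_cone hK.int (φ j)
        (fun d hd => le_antisymm (hex d hd) (hφj d hd))
      have : {x | x ∈ W ∧ φ j x < 0} = ∅ := by
        ext x
        simp [hz x]
      rw [this]
      simp
  choose F hF using hj
  -- a common bound
  obtain ⟨B, hB⟩ : ∃ B : ℝ, 0 < B ∧ ∀ j, |F j| ≤ B := by
    refine ⟨1 + ∑ j, |F j|, by positivity, fun j => ?_⟩
    have := Finset.single_le_sum (fun i _ => abs_nonneg (F i)) (Finset.mem_univ j)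
    linarith
  obtain ⟨hBpos, hB⟩ := hB
  set t0 : ℝ := 1 / (2 * B) with ht0
  have ht0pos : 0 < t0 := by positivity
  -- X
  set X : ℝ → ℝ := fun t => lap μ W (t • ξ) - lap μ K (t • ξ) with hXdef
  have hXnn' : ∀ t, 0 < t → 0 ≤ X t := fun t ht => hXnn _ (hUs ξ hξ t ht)
  have hKt : ∀ t, 0 < t → lap μ K (t • ξ) = (t ^ N)⁻¹ * L := fun t ht => hscal ξ hξ t ht
  have hone : ∀ j t, 0 < t → t ≤ t0 →
      ∫ x in {x | x ∈ W ∧ φ j x < 0}, Real.exp (-((t * ε) • ξ) x) ∂μ ≤
        2 * X t + 2 * B * t * ((t ^ N)⁻¹ * L) := by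
    intro j t ht htt
    have hXt := hXnn' t ht
    have hL' : 0 < (t ^ N)⁻¹ * L := by positivity
    have hrest : 0 ≤ 2 * X t + 2 * B * t * ((t ^ N)⁻¹ * L) := by positivity
    rcases hF j t ht with h | h
    · refine h.trans ?_
      have htB : t * B ≤ 1 / 2 := by
        calc t * B ≤ t0 * B := mul_le_mul_of_nonneg_right htt hBpos.le
          _ = 1 / 2 := by rw [ht0]; field_simp
      have h1 : Real.exp (-(t * F j)) ≤ 1 + 2 * (t * B) := by
        refine le_trans (Real.exp_le_exp.mpr ?_) (exp_bd (by positivity) htB)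
        have := hB j
        have h2 := neg_abs_le (F j)
        nlinarith
      have e : lap μ W (t • ξ) = X t + (t ^ N)⁻¹ * L := by
        rw [← hKt t ht]; simp [hXdef]
      rw [e, hKt t ht]
      have h3 : Real.exp (-(t * F j)) * (X t + (t ^ N)⁻¹ * L) ≤
          (1 + 2 * (t * B)) * (X t + (t ^ N)⁻¹ * L) :=
        mul_le_mul_of_nonneg_right h1 (by positivity)
      have h4 : (1 + 2 * (t * B)) * X t ≤ 2 * X t := by
        apply mul_le_mul_of_nonneg_right _ hXt
        linarith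
      nlinarith
    · exact h.trans hrest
  have hrec : ∀ t, 0 < t → t ≤ t0 →
      X (ε * t) ≤ m * (2 * X t + 2 * B * t * ((t ^ N)⁻¹ * L)) := by
    intro t ht htt
    have hU : (ε * t) • ξ ∈ UU K := hUs ξ hξ _ (mul_pos hεpos ht)
    have e1 : X (ε * t) = ∫ x in W \ K, Real.exp (-(((ε * t) • ξ) x)) ∂μ := hX _ hU
    rw [e1]
    have hcov := cover μ (fun x => Real.exp (-(((ε * t) • ξ) x))) W (W \ K)
      (fun j => {x | x ∈ W ∧ φ j x < 0}) ((hint _ hU).1) (fun x => (Real.exp_pos _).le)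
      (hWm.diff hKm)
      (fun j => by
        have hcont : Continuous (φ j) := (φ j).continuous_of_finiteDimensional
        exact hWm.inter (isOpen_lt hcont continuous_const).measurableSet)
      (fun j x hx => hx.1)
      (by
        rintro x ⟨hxW, hxK⟩
        have : ¬ ∀ j, 0 ≤ φ j x := hxK
        push Not at this
        obtain ⟨j, hj⟩ := this
        exact mem_iUnion.mpr ⟨j, hxW, hj⟩)
    refine hcov.trans ?_
    have hsum : ∑ j : ι, ∫ x in {x | x ∈ W ∧ φ j x < 0}, Real.exp (-(((ε * t) • ξ) x)) ∂μ ≤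
        ∑ _j : ι, (2 * X t + 2 * B * t * ((t ^ N)⁻¹ * L)) := by
      apply Finset.sum_le_sum
      intro j _
      have := hone j t ht htt
      rw [mul_comm ε t]
      exact this
    refine hsum.trans (le_of_eq ?_)
    rw [Finset.sum_const, Finset.card_univ, nsmul_eq_mul]
  -- the sequence
  set T : ℕ → ℝ := fun k => ε ^ k * t0 with hT
  have hTpos : ∀ k, 0 < T k := fun k => by positivity
  have hTle : ∀ k, T k ≤ t0 := by
    intro k
    have : ε ^ k ≤ 1 := pow_le_one₀ hεpos.le hε1.le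
    calc T k = ε ^ k * t0 := rfl
      _ ≤ 1 * t0 := mul_le_mul_of_nonneg_right this ht0pos.le
      _ = t0 := one_mul _
  set C : ℝ := m * (2 * B * L) * ε ^ (N - 1) with hC
  have hstep : ∀ k, (T (k + 1)) ^ (N - 1) * X (T (k + 1)) ≤
      ((T k) ^ (N - 1) * X (T k)) / 2 + C := by
    intro k
    have hTk := hTpos k
    have e1 : T (k + 1) = ε * T k := by
      simp only [hT]; ring
    have hr := hrec (T k) hTk (hTle k)
    rw [e1, mul_pow]
    have hXk := hXnn' (T k) hTk
    have h1 : ε ^ (N - 1) * T k ^ (N - 1) * X (ε * T k) ≤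
        ε ^ (N - 1) * T k ^ (N - 1) *
          (m * (2 * X (T k) + 2 * B * T k * ((T k ^ N)⁻¹ * L))) :=
      mul_le_mul_of_nonneg_left hr (by positivity)
    have e2 : T k ^ (N - 1) * T k * (T k ^ N)⁻¹ = 1 := by
      rw [← pow_succ, Nat.sub_add_cancel (by omega)]
      exact mul_inv_cancel₀ (pow_pos hTk N).ne'
    have e3 : ε ^ (N - 1) * T k ^ (N - 1) *
          (m * (2 * X (T k) + 2 * B * T k * ((T k ^ N)⁻¹ * L))) =
        (2 * m * ε ^ (N - 1)) * (T k ^ (N - 1) * X (T k)) +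
          C * (T k ^ (N - 1) * T k * (T k ^ N)⁻¹) := by
      rw [hC]; ring
    rw [e3, e2, mul_one] at h1
    have h2 : 2 * m * ε ^ (N - 1) ≤ 1 / 2 := by
      have h3 : ε ^ (N - 1) ≤ ε := by
        calc ε ^ (N - 1) ≤ ε ^ 1 := pow_le_pow_of_le_one hεpos.le hε1.le (by omega)
          _ = ε := pow_one _
      have h4 : 2 * m * ε ≤ 1 / 2 := by
        rw [hε, mul_one_div, div_le_div_iff₀ (by positivity) (by norm_num)]
        linarith
      nlinarith
    have h5 : (2 * m * ε ^ (N - 1)) * (T k ^ (N - 1) * X (T k)) ≤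
        (1 / 2) * (T k ^ (N - 1) * X (T k)) :=
      mul_le_mul_of_nonneg_right h2 (by positivity)
    linarith
  refine ⟨T 0 ^ (N - 1) * X (T 0) + 2 * |C|, T, hTpos, ?_, ?_⟩
  · have h1 := (tendsto_pow_atTop_nhds_zero_of_lt_one hεpos.le hε1).mul_const t0
    rwa [zero_mul] at h1
  · intro k
    have hz0 : 0 ≤ T 0 ^ (N - 1) * X (T 0) :=
      mul_nonneg (pow_nonneg (hTpos 0).le _) (hXnn' _ (hTpos 0))
    exact numrec (fun k => T k ^ (N - 1) * X (T k)) C hz0 hstep k

end Pool.Agent.PRC
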