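import Pool.Agent.PRC.StE

/-!
# Module SCA: the Laplace transform near the apex
-/

set_option autoImplicit false

open MeasureTheory Set Filter Topology
open Pool.Agent.H30.Sccp
open scoped Pointwise

namespace Pool.Agent.PRC

namespace SCAaux

variable {E : Type} [NormedAddCommGroup E] [NormedSpace ℝ E] [FiniteDimensional ℝ E]
  [MeasurableSpace E] [BorelSpace E]

theorem star_mem {W : Set E} (hc : Convex ℝ W) (h0 : (0 : E) ∈ W) {z : E} {s r : ℝ} (hs : 0 ≤ s)
    (hsr : s ≤ r) (hz : r • z ∈ W) : s • z ∈ W := by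
  rcases eq_or_lt_of_le (hs.trans hsr) with h | h
  · have : s = 0 := le_antisymm (by rw [h]; exact hsr) hs
    rw [this, zero_smul]
    exact h0
  · have h1 := hc hz h0 (a := s / r) (b := 1 - s / r) (by positivity)
      (by rw [sub_nonneg, div_le_one h]; exact hsr) (by ring)
    rw [smul_zero, add_zero, smul_smul, div_mul_cancel₀ _ h.ne'] at h1
    exact h1

theorem mem_rec {W : Set E} (hcl : IsClosed W) (hc : Convex ℝ W) {z : E}
    (h : ∀ s : ℝ, 0 < s → s • z ∈ W) : z ∈ recCone W := by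
  intro x hx s hs
  rcases eq_or_lt_of_le hs with h0 | h0
  · rw [← h0, zero_smul, add_zero]
    exact hx
  · have h1 : Tendsto (fun ε : ℝ => (1 - ε) • x + s • z) (𝓝[>] 0) (𝓝 ((1 - (0 : ℝ)) • x + s • z)) := by
      refine Tendsto.mono_left ?_ nhdsWithin_le_nhds
      have hcont : Continuous fun ε : ℝ => (1 - ε) • x + s • z := by fun_prop
      exact hcont.tendsto 0
    rw [sub_zero, one_smul] at h1
    refine hcl.mem_of_tendsto h1 ?_
    filter_upwards [Ioo_mem_nhdsGT (zero_lt_one : (0 : ℝ) < 1)] with ε hε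
    have h2 := hc hx (h (s / ε) (div_pos h0 hε.1)) (a := 1 - ε) (b := ε) (by linarith [hε.2])
      hε.1.le (by ring)
    rw [smul_smul, mul_div_cancel₀ _ hε.1.ne'] at h2
    exact h2

theorem eventually_not {W : Set E} (hcl : IsClosed W) (hc : Convex ℝ W) (h0 : (0 : E) ∈ W) {z : E}
    (hz : z ∉ recCone W) : ∀ᶠ t : ℝ in 𝓝[>] 0, t⁻¹ • z ∉ W := by
  obtain ⟨s, hs, hsz⟩ : ∃ s : ℝ, 0 < s ∧ s • z ∉ W := by
    by_contra hcon
    push Not at hcon
    exact hz (mem_rec hcl hc hcon)
  filter_upwards [Ioo_mem_nhdsGT (inv_pos.2 hs)] with t ht hmem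
  refine hsz (star_mem hc h0 hs.le ?_ hmem)
  rw [← inv_inv s]
  exact inv_anti₀ ht.1 ht.2.le

theorem smul_lap (μ : Measure E) [μ.IsAddHaarMeasure] (W : Set E) (ξ : E →ₗ[ℝ] ℝ) {t : ℝ}
    (ht : 0 < t) : t ^ Module.finrank ℝ E * lap μ W (t • ξ) =
      ∫ x in t • W, Real.exp (-(ξ x)) ∂μ := by
  have h1 := Measure.setIntegral_comp_smul_of_pos μ (fun x => Real.exp (-(ξ x))) W ht
  have h2 : lap μ W (t • ξ) = ∫ x in W, Real.exp (-(ξ (t • x))) ∂μ := by
    unfold lap
    refine integral_congr_ae (Eventually.of_forall fun x => ?_)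
    simp
  rw [h2, h1, smul_eq_mul, ← mul_assoc, mul_inv_cancel₀ (pow_ne_zero _ ht.ne'), one_mul]

theorem zero_case (hL : S_LAP) (μ : Measure E) [μ.IsAddHaarMeasure] {K W : Set E}
    (hK : IsCone K) (hW : IsW K W) (h0 : (0 : E) ∈ W) {ξ : E →ₗ[ℝ] ℝ} (hξ : ξ ∈ UU K) :
    Tendsto (fun t : ℝ => t ^ Module.finrank ℝ E * lap μ W (t • ξ)) (𝓝[>] 0)
      (𝓝 (lap μ K ξ)) := by
  have hint := ((hL E μ K W hK hW).1 ξ hξ).1
  have hcont : Continuous fun x => Real.exp (-(ξ x)) :=
    Real.continuous_exp.comp (LinearMap.continuous_of_finiteDimensional ξ).neg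
  have hWm : MeasurableSet W := hW.closed.measurableSet
  have hKm : MeasurableSet K := hK.closed.measurableSet
  have hmeas : ∀ t : ℝ, 0 < t → MeasurableSet (t • W) := fun t ht =>
    (hW.closed.smul_of_ne_zero ht.ne').measurableSet
  have hlim : Tendsto (fun t : ℝ => ∫ x, (t • W).indicator (fun x => Real.exp (-(ξ x))) x ∂μ)
      (𝓝[>] 0) (𝓝 (∫ x, K.indicator (fun x => Real.exp (-(ξ x))) x ∂μ)) := by
    refine tendsto_integral_filter_of_dominated_convergence
      (W.indicator fun x => Real.exp (-(ξ x))) ?_ ?_ ?_ ?_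
    · filter_upwards [self_mem_nhdsWithin] with t ht
      exact (hcont.aestronglyMeasurable).indicator (hmeas t ht)
    · filter_upwards [Ioo_mem_nhdsGT (zero_lt_one : (0 : ℝ) < 1)] with t ht
      refine Eventually.of_forall fun x => ?_
      by_cases hx : x ∈ t • W
      · have hxW : x ∈ W := by
          obtain ⟨y, hy, rfl⟩ := hx
          have h1 : (1 : ℝ) • y ∈ W := by rwa [one_smul]
          exact star_mem hW.convex h0 ht.1.le ht.2.le h1
        rw [indicator_of_mem hx, indicator_of_mem hxW, Real.norm_of_nonneg (Real.exp_pos _).le]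
      · rw [indicator_of_notMem hx, norm_zero]
        exact indicator_nonneg (fun _ _ => (Real.exp_pos _).le) _
    · exact hint.integrable_indicator hWm
    · refine Eventually.of_forall fun x => ?_
      by_cases hx : x ∈ K
      · rw [indicator_of_mem hx]
        refine tendsto_const_nhds.congr' ?_
        filter_upwards [self_mem_nhdsWithin] with t ht
        have ht' : (0 : ℝ) < t := ht
        have h1 : t⁻¹ • x ∈ W := by
          have h2 : x ∈ recCone W := by rw [hW.reco]; exact hx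
          have h3 := h2 0 h0 t⁻¹ (inv_pos.2 ht').le
          rwa [zero_add] at h3
        rw [indicator_of_mem ((mem_smul_set_iff_inv_smul_mem₀ ht'.ne' _ _).2 h1)]
      · rw [indicator_of_notMem hx]
        refine tendsto_const_nhds.congr' ?_
        have h1 : x ∉ recCone W := by rw [hW.reco]; exact hx
        filter_upwards [eventually_not hW.closed hW.convex h0 h1, self_mem_nhdsWithin] with t h2 ht
        have ht' : (0 : ℝ) < t := ht
        rw [indicator_of_notMem fun h3 => h2 ((mem_smul_set_iff_inv_smul_mem₀ ht'.ne' _ _).1 h3)]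
  rw [integral_indicator hKm] at hlim
  refine hlim.congr' ?_
  filter_upwards [self_mem_nhdsWithin] with t ht
  rw [smul_lap μ W ξ ht, integral_indicator (hmeas t ht)]

end SCAaux

open SCAaux in
theorem t_SCA : M_SCA := by
  intro _ hL hT E _ _ _ _ _ μ _ K W hK hW ξ hξ
  obtain ⟨z, hz⟩ := hW.ne
  obtain ⟨h1, -, h3, -, -⟩ := hT E μ K W z hK hW
  have h0 : (0 : E) ∈ {x | x + z ∈ W} := by
    show (0 : E) + z ∈ W
    rwa [zero_add]
  have h4 := zero_case hL μ hK h1 h0 hξ
  have h5 : Tendsto (fun t : ℝ => Real.exp (-(t * ξ z))) (𝓝[>] 0) (𝓝 1) := by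
    refine Tendsto.mono_left ?_ nhdsWithin_le_nhds
    have hcont : Continuous fun t : ℝ => Real.exp (-(t * ξ z)) := by fun_prop
    have h6 := hcont.tendsto 0
    simpa using h6
  have h6 := h5.mul h4
  rw [one_mul] at h6
  refine h6.congr fun t => ?_
  rw [h3 (t • ξ)]
  have h7 : (t • ξ) z = t * ξ z := rfl
  rw [h7]
  have h8 : Real.exp (-(t * ξ z)) * Real.exp (t * ξ z) = 1 := by
    rw [← Real.exp_add, neg_add_cancel, Real.exp_zero]
  calc Real.exp (-(t * ξ z)) * (t ^ Module.finrank ℝ E * (Real.exp (t * ξ z) * lap μ W (t • ξ)))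
      = (Real.exp (-(t * ξ z)) * Real.exp (t * ξ z)) *
        (t ^ Module.finrank ℝ E * lap μ W (t • ξ)) := by ring
    _ = _ := by rw [h8, one_mul]

end Pool.Agent.PRC
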