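import Pool.Agent.PRC.StG

/-!
# Limits for small a (module SML of PRC, MP_5f8b0b_gt)

Everything is dominated by a polynomial in the norm times `exp (-(c / 2) ‖y‖)`.
-/

set_option autoImplicit false

open MeasureTheory Set Filter Topology

namespace Pool.Agent.PRC.SMLaux

variable {n : ℕ}

theorem mem_ae (C : Set (Fin n → ℝ)) :
    ∀ᵐ y ∂(volume.restrict (interior C)), y ∈ interior C :=
  ae_restrict_mem isOpen_interior.measurableSet

theorem eta_cont (η : (Fin n → ℝ) →ₗ[ℝ] ℝ) : Continuous (fun y => η y) :=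
  LinearMap.continuous_of_finiteDimensional η

/-- integrability of the dominating function -/
theorem dom_int (C : Set (Fin n → ℝ)) (h : S_EXN) (k : ℕ) (M c : ℝ) (hc : 0 < c) :
    Integrable (fun y : Fin n → ℝ => M * ((1 + ‖y‖) ^ k * Real.exp (-(c * ‖y‖))))
      (volume.restrict (interior C)) :=
  ((h n k c hc).const_mul M).restrict

/-- the basic estimate of the exponent -/
theorem expo {C : Set (Fin n → ℝ)} {g : (Fin n → ℝ) → ℝ} {η : (Fin n → ℝ) →ₗ[ℝ] ℝ} {c B : ℝ}
    (hη : ∀ y ∈ C, c * ‖y‖ ≤ η y) (hg : ∀ y, |g y| ≤ B * ‖y‖) {a : ℝ} (ha : 0 < a)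
    (haB : a * B ≤ c / 2) {y : Fin n → ℝ} (hy : y ∈ C) :
    -(η y) - a * g y ≤ -(c / 2 * ‖y‖) := by
  have h1 := hη y hy
  have h2 := hg y
  have h3 := neg_le_of_abs_le h2
  have h4 : a * (-(B * ‖y‖)) ≤ a * g y := mul_le_mul_of_nonneg_left h3 ha.le
  have h5 : (a * B) * ‖y‖ ≤ c / 2 * ‖y‖ := mul_le_mul_of_nonneg_right haB (norm_nonneg y)
  nlinarith

theorem abs_exp_sub_one (x : ℝ) : |Real.exp x - 1| ≤ |x| * Real.exp |x| := by
  have h1 : x + 1 ≤ Real.exp x := Real.add_one_le_exp x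
  rcases le_total 0 x with hx | hx
  · rw [abs_of_nonneg hx]
    have h2 : -x + 1 ≤ Real.exp (-x) := Real.add_one_le_exp (-x)
    have h3 : 0 ≤ Real.exp x - 1 := by linarith
    rw [abs_of_nonneg h3]
    have h4 : Real.exp x * Real.exp (-x) = 1 := by rw [← Real.exp_add]; simp
    have h5 : Real.exp x * (-x + 1) ≤ Real.exp x * Real.exp (-x) :=
      mul_le_mul_of_nonneg_left h2 (Real.exp_pos x).le
    nlinarith
  · rw [abs_of_nonpos hx]
    have h2 : Real.exp x ≤ 1 := Real.exp_le_one_iff.mpr hx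
    have h3 : Real.exp x - 1 ≤ 0 := by linarith
    rw [abs_of_nonpos h3]
    have h4 : 1 ≤ Real.exp (-x) := Real.one_le_exp (by linarith)
    have h5 : -x * 1 ≤ -x * Real.exp (-x) := mul_le_mul_of_nonneg_left h4 (by linarith)
    linarith

/-- derivative of the exponential function at zero, from the right -/
theorem deriv_exp (g : ℝ) :
    Tendsto (fun a : ℝ => (Real.exp (-(a * g)) - 1) / a) (𝓝[>] 0) (𝓝 (-g)) := by
  have h1 : HasDerivAt (fun a : ℝ => Real.exp (-(a * g))) (Real.exp (-(0 * g)) * (-(1 * g))) 0 :=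
    (((hasDerivAt_id (0 : ℝ)).mul_const g).neg).exp
  have h2 := h1.tendsto_slope_zero_right
  have h3 : Real.exp (-(0 * g)) * (-(1 * g)) = -g := by simp
  rw [h3] at h2
  refine h2.congr fun a => ?_
  simp only [zero_add, zero_mul, neg_zero, Real.exp_zero, smul_eq_mul]
  rw [div_eq_inv_mul]

/-- a tendsto helper for the exponent -/
theorem lim_exp (u v : ℝ) :
    Tendsto (fun a : ℝ => Real.exp (-u - a * v)) (𝓝[>] 0) (𝓝 (Real.exp (-u))) := by
  have h : Continuous (fun a : ℝ => Real.exp (-u - a * v)) := by fun_prop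
  have h1 := (h.tendsto 0).mono_left (nhdsWithin_le_nhds (s := Ioi (0 : ℝ)))
  simpa using h1

section main

variable {C : Set (Fin n → ℝ)} {g : (Fin n → ℝ) → ℝ} {η : (Fin n → ℝ) →ₗ[ℝ] ℝ} {c B a₀ : ℝ}

/-- part (1) -/
theorem part1 (hEXN : S_EXN) (hc : 0 < c) (hη : ∀ y ∈ C, c * ‖y‖ ≤ η y)
    (hg : ∀ y, |g y| ≤ B * ‖y‖) (ha₀ : 0 < a₀) (ha1 : a₀ ≤ 1)
    (haB : ∀ a : ℝ, 0 < a → a ≤ a₀ → a * B ≤ c / 2)
    (f : (Fin n → ℝ) → ℝ) (A : ℝ) (hf : ContinuousOn f (interior C))
    (hfg : ∀ y ∈ interior C, g y - A ≤ f y) :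
    Tendsto (fun a : ℝ => JJ C f a η) (𝓝[>] 0) (𝓝 (EU C (fun _ => 1) η)) := by
  have hev : ∀ᶠ a : ℝ in 𝓝[>] 0, a ∈ Ioc (0 : ℝ) a₀ := Ioc_mem_nhdsGT ha₀
  have hη' := eta_cont η
  unfold JJ EU
  refine tendsto_integral_filter_of_dominated_convergence
    (fun y => Real.exp |A| * ((1 + ‖y‖) ^ 0 * Real.exp (-(c / 2 * ‖y‖)))) ?_ ?_
    (dom_int C hEXN 0 _ (c / 2) (by positivity)) ?_
  · refine Eventually.of_forall fun a => ?_
    refine ContinuousOn.aestronglyMeasurable ?_ isOpen_interior.measurableSet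
    exact Real.continuous_exp.comp_continuousOn
      ((hη'.neg.continuousOn).sub (continuousOn_const.mul hf))
  · filter_upwards [hev] with a ha
    filter_upwards [mem_ae C] with y hy
    rw [Real.norm_eq_abs, abs_of_pos (Real.exp_pos _), pow_zero, one_mul, ← Real.exp_add]
    refine Real.exp_le_exp.mpr ?_
    have h1 := expo hη hg ha.1 (haB a ha.1 ha.2) (interior_subset hy)
    have h2 : a * (g y - A) ≤ a * f y := mul_le_mul_of_nonneg_left (hfg y hy) ha.1.le
    have h3 : a * A ≤ |A| := by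
      have h4 : a * A ≤ a * |A| := mul_le_mul_of_nonneg_left (le_abs_self A) ha.1.le
      have h5 : a * |A| ≤ 1 * |A| :=
        mul_le_mul_of_nonneg_right (ha.2.trans ha1) (abs_nonneg A)
      linarith
    nlinarith
  · filter_upwards with y
    rw [mul_one]
    exact lim_exp (η y) (f y)

/-- integrability for small `a` -/
theorem int_small (hEXN : S_EXN) (hc : 0 < c) (hη : ∀ y ∈ C, c * ‖y‖ ≤ η y)
    (hgc : Continuous g) (hg : ∀ y, |g y| ≤ B * ‖y‖)
    {a : ℝ} (ha : 0 < a) (haB : a * B ≤ c / 2) :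
    Integrable (fun y => Real.exp (-(η y) - a * g y)) (volume.restrict (interior C)) := by
  have hη' := eta_cont η
  refine (dom_int C hEXN 0 1 (c / 2) (by positivity)).mono' ?_ ?_
  · have : Continuous (fun y => Real.exp (-(η y) - a * g y)) := by fun_prop
    exact this.aestronglyMeasurable
  · filter_upwards [mem_ae C] with y hy
    rw [Real.norm_eq_abs, abs_of_pos (Real.exp_pos _), pow_zero, one_mul, one_mul]
    exact Real.exp_le_exp.mpr (expo hη hg ha haB (interior_subset hy))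

theorem int_zero (hEXN : S_EXN) (hc : 0 < c) (hη : ∀ y ∈ C, c * ‖y‖ ≤ η y) :
    Integrable (fun y => Real.exp (-(η y))) (volume.restrict (interior C)) := by
  have hη' := eta_cont η
  refine (dom_int C hEXN 0 1 c hc).mono' ?_ ?_
  · have : Continuous (fun y => Real.exp (-(η y))) := by fun_prop
    exact this.aestronglyMeasurable
  · filter_upwards [mem_ae C] with y hy
    rw [Real.norm_eq_abs, abs_of_pos (Real.exp_pos _), pow_zero, one_mul, one_mul]
    have := hη y (interior_subset hy)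
    exact Real.exp_le_exp.mpr (by linarith)

/-- part (2) -/
theorem part2 (hEXN : S_EXN) (hc : 0 < c) (hB : 0 ≤ B) (hη : ∀ y ∈ C, c * ‖y‖ ≤ η y)
    (hgc : Continuous g) (hg : ∀ y, |g y| ≤ B * ‖y‖) (ha₀ : 0 < a₀)
    (haB : ∀ a : ℝ, 0 < a → a ≤ a₀ → a * B ≤ c / 2) :
    Tendsto (fun a : ℝ => (JJ C g a η - EU C (fun _ => 1) η) / a) (𝓝[>] 0)
      (𝓝 (-(EU C g η))) := by
  have hev : ∀ᶠ a : ℝ in 𝓝[>] 0, a ∈ Ioc (0 : ℝ) a₀ := Ioc_mem_nhdsGT ha₀
  have hη' := eta_cont η
  have key : Tendsto (fun a : ℝ => ∫ y in interior C,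
      Real.exp (-(η y)) * ((Real.exp (-(a * g y)) - 1) / a)) (𝓝[>] 0)
      (𝓝 (∫ y in interior C, Real.exp (-(η y)) * (-(g y)))) := by
    refine tendsto_integral_filter_of_dominated_convergence
      (fun y => B * ((1 + ‖y‖) ^ 1 * Real.exp (-(c / 2 * ‖y‖)))) ?_ ?_
      (dom_int C hEXN 1 _ (c / 2) (by positivity)) ?_
    · refine Eventually.of_forall fun a => ?_
      have : Continuous (fun y => Real.exp (-(η y)) * ((Real.exp (-(a * g y)) - 1) / a)) := by
        fun_prop
      exact this.aestronglyMeasurable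
    · filter_upwards [hev] with a ha
      filter_upwards [mem_ae C] with y hy
      have hy' := interior_subset hy
      rw [Real.norm_eq_abs, abs_mul, abs_of_pos (Real.exp_pos _), abs_div, abs_of_pos ha.1]
      have h1 := abs_exp_sub_one (-(a * g y))
      rw [abs_neg, abs_mul, abs_of_pos ha.1] at h1
      have h2 : |Real.exp (-(a * g y)) - 1| / a ≤ |g y| * Real.exp (a * |g y|) := by
        rw [div_le_iff₀ ha.1]
        linarith
      have h3 : a * |g y| ≤ c / 2 * ‖y‖ := by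
        have h4 : a * |g y| ≤ a * (B * ‖y‖) := mul_le_mul_of_nonneg_left (hg y) ha.1.le
        have h5 : (a * B) * ‖y‖ ≤ c / 2 * ‖y‖ :=
          mul_le_mul_of_nonneg_right (haB a ha.1 ha.2) (norm_nonneg y)
        linarith
      have h6 : Real.exp (-(η y)) * Real.exp (a * |g y|) ≤ Real.exp (-(c / 2 * ‖y‖)) := by
        rw [← Real.exp_add]
        refine Real.exp_le_exp.mpr ?_
        have := hη y hy'
        linarith
      calc Real.exp (-(η y)) * (|Real.exp (-(a * g y)) - 1| / a)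
          ≤ Real.exp (-(η y)) * (|g y| * Real.exp (a * |g y|)) :=
            mul_le_mul_of_nonneg_left h2 (Real.exp_pos _).le
        _ = |g y| * (Real.exp (-(η y)) * Real.exp (a * |g y|)) := by ring
        _ ≤ (B * ‖y‖) * Real.exp (-(c / 2 * ‖y‖)) :=
            mul_le_mul (hg y) h6 (by positivity) (by positivity)
        _ ≤ (B * (1 + ‖y‖)) * Real.exp (-(c / 2 * ‖y‖)) := by
            refine mul_le_mul_of_nonneg_right ?_ (Real.exp_pos _).le
            exact mul_le_mul_of_nonneg_left (by linarith) hB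
        _ = B * ((1 + ‖y‖) ^ 1 * Real.exp (-(c / 2 * ‖y‖))) := by ring
    · filter_upwards with y
      exact (deriv_exp (g y)).const_mul _
  have e1 : -(EU C g η) = ∫ y in interior C, Real.exp (-(η y)) * (-(g y)) := by
    unfold EU
    rw [← integral_neg]
    refine integral_congr_ae (Eventually.of_forall fun y => ?_)
    simp
  rw [e1]
  refine key.congr' ?_
  filter_upwards [hev] with a ha
  unfold JJ EU
  have i1 := int_small (C := C) hEXN hc hη hgc hg ha.1 (haB a ha.1 ha.2)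
  have i2 : Integrable (fun y => Real.exp (-(η y)) * 1) (volume.restrict (interior C)) := by
    simpa using int_zero (C := C) hEXN hc hη
  rw [← integral_sub i1 i2, ← integral_div]
  refine integral_congr_ae (Eventually.of_forall fun y => ?_)
  have h : Real.exp (-(η y) - a * g y) = Real.exp (-(η y)) * Real.exp (-(a * g y)) := by
    rw [← Real.exp_add]; congr 1
  simp only [h]
  ring

/-- part (3) -/
theorem part3 (hEXN : S_EXN) (hc : 0 < c) (hη : ∀ y ∈ C, c * ‖y‖ ≤ η y)
    (hgc : Continuous g) (hg : ∀ y, |g y| ≤ B * ‖y‖) (ha₀ : 0 < a₀)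
    (haB : ∀ a : ℝ, 0 < a → a ≤ a₀ → a * B ≤ c / 2)
    (δ : (Fin n → ℝ) → ℝ) (M : ℝ) (hδ : AEStronglyMeasurable δ (volume.restrict (interior C)))
    (hM : ∀ y ∈ interior C, |δ y| ≤ M) :
    Tendsto (fun a : ℝ => QG C g δ a η) (𝓝[>] 0) (𝓝 (EU C δ η)) := by
  have hev : ∀ᶠ a : ℝ in 𝓝[>] 0, a ∈ Ioc (0 : ℝ) a₀ := Ioc_mem_nhdsGT ha₀
  have hη' := eta_cont η
  unfold QG EU
  refine tendsto_integral_filter_of_dominated_convergence
    (fun y => M * ((1 + ‖y‖) ^ 0 * Real.exp (-(c / 2 * ‖y‖)))) ?_ ?_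
    (dom_int C hEXN 0 _ (c / 2) (by positivity)) ?_
  · refine Eventually.of_forall fun a => ?_
    have : Continuous (fun y => Real.exp (-(η y) - a * g y)) := by fun_prop
    exact this.aestronglyMeasurable.mul hδ
  · filter_upwards [hev] with a ha
    filter_upwards [mem_ae C] with y hy
    rw [Real.norm_eq_abs, abs_mul, abs_of_pos (Real.exp_pos _), pow_zero, one_mul, mul_comm]
    have h1 := expo hη hg ha.1 (haB a ha.1 ha.2) (interior_subset hy)
    exact mul_le_mul (hM y hy) (Real.exp_le_exp.mpr h1) (Real.exp_pos _).le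
      ((abs_nonneg _).trans (hM y hy))
  · filter_upwards with y
    exact (lim_exp (η y) (g y)).mul_const _

/-- part (4), continuity -/
theorem part4 (hEXN : S_EXN) (hc : 0 < c) (hη : ∀ y ∈ C, c * ‖y‖ ≤ η y)
    (hgc : Continuous g) (hg : ∀ y, |g y| ≤ B * ‖y‖)
    (haB : ∀ a : ℝ, 0 < a → a ≤ a₀ → a * B ≤ c / 2) :
    ContinuousOn (fun a => JJ C g a η) (Ioc 0 a₀) := by
  have hη' := eta_cont η
  unfold JJ
  refine continuousOn_of_dominated
    (bound := fun y => 1 * ((1 + ‖y‖) ^ 0 * Real.exp (-(c / 2 * ‖y‖)))) ?_ ?_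
    (dom_int C hEXN 0 _ (c / 2) (by positivity)) ?_
  · intro a _
    have : Continuous (fun y => Real.exp (-(η y) - a * g y)) := by fun_prop
    exact this.aestronglyMeasurable
  · intro a ha
    filter_upwards [mem_ae C] with y hy
    rw [Real.norm_eq_abs, abs_of_pos (Real.exp_pos _), pow_zero, one_mul, one_mul]
    exact Real.exp_le_exp.mpr (expo hη hg ha.1 (haB a ha.1 ha.2) (interior_subset hy))
  · filter_upwards with y
    have : Continuous (fun a : ℝ => Real.exp (-(η y) - a * g y)) := by fun_prop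
    exact this.continuousOn

/-- part (4), monotonicity -/
theorem part5 (hEXN : S_EXN) (hc : 0 < c) (hη : ∀ y ∈ C, c * ‖y‖ ≤ η y)
    (hgc : Continuous g) (hg : ∀ y, |g y| ≤ B * ‖y‖)
    (haB : ∀ a : ℝ, 0 < a → a ≤ a₀ → a * B ≤ c / 2) (hneg : ∀ y ∈ C, g y ≤ 0) :
    MonotoneOn (fun a => JJ C g a η) (Ioc 0 a₀) ∧
      ∀ a ∈ Ioc (0 : ℝ) a₀, EU C (fun _ => 1) η ≤ JJ C g a η := by
  constructor
  · intro a ha b hb hab
    refine integral_mono_ae (int_small (C := C) hEXN hc hη hgc hg ha.1 (haB a ha.1 ha.2))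
      (int_small (C := C) hEXN hc hη hgc hg hb.1 (haB b hb.1 hb.2)) ?_
    filter_upwards [mem_ae C] with y hy
    refine Real.exp_le_exp.mpr ?_
    have h1 := hneg y (interior_subset hy)
    nlinarith
  · intro a ha
    have i2 : Integrable (fun y => Real.exp (-(η y)) * 1) (volume.restrict (interior C)) := by
      simpa using int_zero (C := C) hEXN hc hη
    refine integral_mono_ae i2
      (int_small (C := C) hEXN hc hη hgc hg ha.1 (haB a ha.1 ha.2)) ?_
    filter_upwards [mem_ae C] with y hy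
    rw [mul_one]
    refine Real.exp_le_exp.mpr ?_
    have h1 := hneg y (interior_subset hy)
    nlinarith [ha.1]

end main

end Pool.Agent.PRC.SMLaux

namespace Pool.Agent.PRC

open SMLaux

theorem t_SML : M_SML := by
  intro hGGB _ hUGC hEXN _ n C ι _ _ l hC η hηU
  obtain ⟨_, _, _, _, hgc, B, hB, hg⟩ := hGGB n ι l
  obtain ⟨c, hc, hη⟩ := (hUGC n C ι l hC).2 η hηU
  set a₀ : ℝ := min 1 (c / (2 * (B + 1))) with ha₀def
  have hB1 : 0 < B + 1 := by linarith
  have ha₀ : 0 < a₀ := lt_min one_pos (by positivity)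
  have ha1 : a₀ ≤ 1 := min_le_left _ _
  have haB : ∀ a : ℝ, 0 < a → a ≤ a₀ → a * B ≤ c / 2 := by
    intro a ha h
    have h1 : a ≤ c / (2 * (B + 1)) := h.trans (min_le_right _ _)
    rw [le_div_iff₀ (by positivity)] at h1
    nlinarith
  refine ⟨?_, ?_, ?_, ?_, a₀, ha₀, ?_, ?_⟩
  · filter_upwards [Ioc_mem_nhdsGT ha₀] with a ha
    refine ⟨ha.1, fun y hy hy0 => ?_⟩
    have h1 := expo hη hg ha.1 (haB a ha.1 ha.2) hy
    have h2 : 0 < c / 2 * ‖y‖ := mul_pos (by positivity) (norm_pos_iff.mpr hy0)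
    linarith
  · intro f A hf hfg
    exact part1 hEXN hc hη hg ha₀ ha1 haB f A hf hfg
  · exact part2 hEXN hc hB hη hgc hg ha₀ haB
  · intro δ M hδ hM
    exact part3 hEXN hc hη hgc hg ha₀ haB δ M hδ hM
  · exact part4 hEXN hc hη hgc hg haB
  · exact part5 hEXN hc hη hgc hg haB

end Pool.Agent.PRC
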