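import Pool.Agent.PRC.StF

/-!
# SPL: at an extreme ray only one functional is positive
-/

set_option autoImplicit false

open MeasureTheory Set Filter Topology
open Pool.Agent.H30.Sccp

namespace Pool.Agent.PRC

namespace SPLaux

section

variable {E : Type*} [NormedAddCommGroup E] [NormedSpace ℝ E]
  {ι : Type*} {n : ℕ}

theorem isClosed_poly [FiniteDimensional ℝ E] (φ : ι → (E →ₗ[ℝ] ℝ)) : IsClosed (poly φ) := by
  have h : poly φ = ⋂ i, {x | 0 ≤ φ i x} := by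
    ext x
    simp [poly]
  rw [h]
  exact isClosed_iInter fun i =>
    isClosed_le continuous_const (φ i).continuous_of_finiteDimensional

theorem convex_poly (φ : ι → (E →ₗ[ℝ] ℝ)) : Convex ℝ (poly φ) := by
  intro x hx y hy a b ha hb _ i
  rw [map_add, map_smul, map_smul, smul_eq_mul, smul_eq_mul]
  exact add_nonneg (mul_nonneg ha (hx i)) (mul_nonneg hb (hy i))

/-- the functional `φ i` on the second factor -/
noncomputable def ps (φ : ι → (E →ₗ[ℝ] ℝ)) (T : E ≃ₗ[ℝ] (ℝ × (Fin n → ℝ))) (i : ι) :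
    (Fin n → ℝ) →ₗ[ℝ] ℝ :=
  φ i ∘ₗ T.symm.toLinearMap ∘ₗ LinearMap.inr ℝ ℝ (Fin n → ℝ)

theorem phi_eq (φ : ι → (E →ₗ[ℝ] ℝ)) (T : E ≃ₗ[ℝ] (ℝ × (Fin n → ℝ))) {v : E} (hT : T v = (1, 0))
    (i : ι) (x : ℝ × (Fin n → ℝ)) : φ i (T.symm x) = x.1 * φ i v + ps φ T i x.2 := by
  have h1 : x = x.1 • ((1 : ℝ), (0 : Fin n → ℝ)) + ((0 : ℝ), x.2) :=
    Prod.ext (by simp) (by simp)
  have h2 : T.symm (1, 0) = v := by rw [← hT, T.symm_apply_apply]
  conv_lhs => rw [h1]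
  rw [map_add, map_smul, h2, map_add, map_smul, smul_eq_mul]
  rfl

/-- the functionals which vanish at `v` -/
noncomputable def mf (φ : ι → (E →ₗ[ℝ] ℝ)) (T : E ≃ₗ[ℝ] (ℝ × (Fin n → ℝ))) (v : E) :
    {i : ι // φ i v = 0} → ((Fin n → ℝ) →ₗ[ℝ] ℝ) := fun i => ps φ T i.1

/-- the functionals which are positive at `v`, normalised -/
noncomputable def lf (φ : ι → (E →ₗ[ℝ] ℝ)) (T : E ≃ₗ[ℝ] (ℝ × (Fin n → ℝ))) (v : E) :
    {i : ι // 0 < φ i v} → ((Fin n → ℝ) →ₗ[ℝ] ℝ) := fun i => -(φ i.1 v)⁻¹ • ps φ T i.1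

theorem mf_apply (φ : ι → (E →ₗ[ℝ] ℝ)) (T : E ≃ₗ[ℝ] (ℝ × (Fin n → ℝ))) {v : E} (hT : T v = (1, 0))
    (i : {i : ι // φ i v = 0}) (x : ℝ × (Fin n → ℝ)) : mf φ T v i x.2 = φ i.1 (T.symm x) := by
  rw [phi_eq φ T hT, i.2, mul_zero, zero_add]
  rfl

theorem lf_apply (φ : ι → (E →ₗ[ℝ] ℝ)) (T : E ≃ₗ[ℝ] (ℝ × (Fin n → ℝ))) {v : E} (hT : T v = (1, 0))
    (i : {i : ι // 0 < φ i v}) (x : ℝ × (Fin n → ℝ)) :
    lf φ T v i x.2 = x.1 - φ i.1 (T.symm x) / φ i.1 v := by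
  rw [phi_eq φ T hT]
  have h : φ i.1 v ≠ 0 := i.2.ne'
  show -(φ i.1 v)⁻¹ * ps φ T i.1 x.2 = _
  field_simp
  ring

theorem image_eq (hG : S_GGB) {ι : Type} [Finite ι] (φ : ι → (E →ₗ[ℝ] ℝ))
    (T : E ≃ₗ[ℝ] (ℝ × (Fin n → ℝ))) {v : E} (hT : T v = (1, 0)) (hv : v ∈ poly φ)
    [Nonempty {i : ι // 0 < φ i v}] :
    {y | T.symm y ∈ poly φ} = KC (poly (mf φ T v)) (gg (lf φ T v)) := by
  obtain ⟨h1, h2, -⟩ := hG n _ (lf φ T v)
  ext x
  constructor
  · intro hx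
    refine ⟨fun i => ?_, ?_⟩
    · rw [mf_apply φ T hT]
      exact hx i.1
    · obtain ⟨i, hi⟩ := h2 x.2
      rw [hi, lf_apply φ T hT]
      have := div_nonneg (hx i.1) i.2.le
      linarith
  · intro hx i
    rcases (hv i).eq_or_lt with h | h
    · have h3 := hx.1 ⟨i, h.symm⟩
      rwa [mf_apply φ T hT] at h3
    · have h3 := (h1 ⟨i, h⟩ x.2).trans hx.2
      rw [lf_apply φ T hT] at h3
      have h4 : 0 ≤ φ i (T.symm x) / φ i v := by
        have h5 : x.1 - φ i (T.symm x) / φ i v ≤ x.1 := h3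
        linarith
      by_contra h5
      push Not at h5
      exact absurd h4 (not_le.2 (div_neg_of_neg_of_pos h5 h))

theorem isCone_mf (φ : ι → (E →ₗ[ℝ] ℝ)) (T : E ≃ₗ[ℝ] (ℝ × (Fin n → ℝ))) {v : E} (hT : T v = (1, 0))
    (hK : IsCone (poly φ))
    (hext : ∀ y, (∀ i, φ i v = 0 → φ i y = 0) → ∃ c : ℝ, y = c • v) :
    IsCone (poly (mf φ T v)) := by
  refine ⟨isClosed_poly _, convex_poly _, fun i => (map_zero _).ge, fun t ht x hx i => ?_,
    fun y hy hy' => ?_, ?_⟩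
  · rw [map_smul, smul_eq_mul]
    exact mul_nonneg ht (hx i)
  · obtain ⟨c, hc⟩ := hext (T.symm (0, y)) fun i hi => by
      have h1 := hy ⟨i, hi⟩
      have h2 := hy' ⟨i, hi⟩
      rw [map_neg] at h2
      have h3 : mf φ T v ⟨i, hi⟩ y = 0 := by linarith
      rw [← mf_apply φ T hT ⟨i, hi⟩ (0, y)]
      exact h3
    have h4 := congrArg T hc
    rw [T.apply_symm_apply, map_smul, hT] at h4
    have h5 := congrArg Prod.snd h4
    simpa using h5
  · obtain ⟨x, hx⟩ := hK.int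
    have hc : Continuous fun y : Fin n → ℝ => T.symm ((T x).1, y) :=
      (LinearMap.continuous_of_finiteDimensional T.symm.toLinearMap).comp
        (continuous_const.prodMk continuous_id)
    have hop : IsOpen {y : Fin n → ℝ | T.symm ((T x).1, y) ∈ interior (poly φ)} :=
      isOpen_interior.preimage hc
    refine ⟨(T x).2, interior_maximal (fun y hy i => ?_) hop ?_⟩
    · have h1 := interior_subset hy i.1
      have h2 := mf_apply φ T hT i ((T x).1, y)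
      rw [← h2] at h1
      exact h1
    · show T.symm ((T x).1, (T x).2) ∈ interior (poly φ)
      rw [Prod.mk.eta, T.symm_apply_apply]
      exact hx

end

end SPLaux

open SPLaux

theorem t_SPL : M_SPL := by
  intro hG hSTB hLIN hCHT hVRT E _ _ _ _ _ μ _ ι _ φ W hN hK hIr hne hW hsc hId v hv hv0 hext i k
    hi hk
  obtain ⟨n, hn⟩ : ∃ n, Module.finrank ℝ E = n + 1 := ⟨Module.finrank ℝ E - 1, by omega⟩
  have hn1 : 1 ≤ n := by omega
  obtain ⟨T, hT⟩ := hCHT E n v hn hv0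
  have hSB := hSTB E μ ι φ W hN hK hIr hne hW hId
  choose A hA using hSB
  have : Nonempty {i : ι // 0 < φ i v} := ⟨⟨i, hi⟩⟩
  have : (volume : Measure (ℝ × (Fin n → ℝ))).IsAddHaarMeasure := by
    rw [Measure.volume_eq_prod]
    infer_instance
  obtain ⟨h1, h2, -⟩ := hG n _ (lf φ T v)
  have hcone := isCone_mf φ T hT hK hext
  obtain ⟨-, hW', hId', hsc'⟩ := hLIN E (ℝ × (Fin n → ℝ)) μ volume T (poly φ) W hK hW
  rw [image_eq hG φ T hT hv] at hW' hId'
  obtain ⟨B, hB⟩ : ∃ B : ℝ, B = ∑ j, |A j| + ∑ j, |A j / φ j v| := ⟨_, rfl⟩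
  have hB1 : ∀ j, A j ≤ B := fun j => by
    have e1 := Finset.single_le_sum (f := fun j => |A j|) (fun j _ => abs_nonneg _)
      (Finset.mem_univ j)
    have e2 : 0 ≤ ∑ j, |A j / φ j v| := Finset.sum_nonneg fun j _ => abs_nonneg _
    have e3 := le_abs_self (A j)
    linarith
  have hB2 : ∀ j, A j / φ j v ≤ B := fun j => by
    have e1 := Finset.single_le_sum (f := fun j => |A j / φ j v|) (fun j _ => abs_nonneg _)
      (Finset.mem_univ j)
    have e2 : 0 ≤ ∑ j, |A j| := Finset.sum_nonneg fun j _ => abs_nonneg _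
    have e3 := le_abs_self (A j / φ j v)
    linarith
  obtain ⟨i₀, h₀⟩ := hVRT n _ (mf φ T v) _ (lf φ T v) {y | T.symm y ∈ W} B hn1 hcone hW'
    (hId'.1 hId) (hsc' hsc) (fun x hx => ⟨fun j => by
      rw [mf_apply φ T hT]
      have e1 := hA j.1 _ hx
      have e2 := hB1 j.1
      linarith, by
      obtain ⟨j, hj⟩ := h2 x.2
      rw [hj, lf_apply φ T hT]
      have e1 := hA j.1 _ hx
      have e2 := hB2 j.1
      have e3 : -(A j.1 / φ j.1 v) ≤ φ j.1 (T.symm x) / φ j.1 v := by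
        rw [← neg_div]
        exact div_le_div_of_nonneg_right e1 j.2.le
      linarith⟩)
  have key : ∀ j, 0 < φ j v → j = i₀.1 := by
    intro j hj
    by_contra hne'
    obtain ⟨p, hp, hp'⟩ := hIr j
    have e1 := h₀ ⟨j, hj⟩ (T p).2 fun q => by
      rw [mf_apply φ T hT q (T p), T.symm_apply_apply]
      refine (hp' q.1 fun h => ?_).le
      rw [← h] at hj
      exact hj.ne' q.2
    rw [lf_apply φ T hT, lf_apply φ T hT, T.symm_apply_apply, hp, zero_div] at e1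
    have e2 := div_pos (hp' i₀.1 (Ne.symm hne')) i₀.2
    linarith
  rw [key i hi, key k hk]

end Pool.Agent.PRC
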