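import Pool.Agent.PRC.StE

/-!
# Module STB: bounded displacement
-/

set_option autoImplicit false

open MeasureTheory Set Filter Topology
open Pool.Agent.H30.Sccp
open scoped Pointwise

namespace Pool.Agent.PRC

namespace STBaux

variable {E : Type} [NormedAddCommGroup E] [NormedSpace ℝ E] [FiniteDimensional ℝ E]
  [MeasurableSpace E] [BorelSpace E]

/-- Translation and dilation of the part of the cone below a level. -/
theorem slab (μ : Measure E) [μ.IsAddHaarMeasure] {K : Set E}
    (hsm : ∀ t : ℝ, 0 ≤ t → ∀ x ∈ K, t • x ∈ K) (ξ ψ : E →ₗ[ℝ] ℝ) (x : E) (R t : ℝ) (ht : 0 < t)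
    (hx : ψ x = -R) (hKm : MeasurableSet K) :
    ∫ y in {y | y - x ∈ K ∧ ψ y < 0}, Real.exp (-((t • ξ) y)) ∂μ =
      Real.exp (-(t * ξ x)) * ((t ^ Module.finrank ℝ E)⁻¹ *
        ∫ z in K ∩ {z | ψ z < t * R}, Real.exp (-(ξ z)) ∂μ) := by
  have hψ : Continuous ψ := LinearMap.continuous_of_finiteDimensional ψ
  have hS : MeasurableSet (K ∩ {z | ψ z < R}) :=
    hKm.inter (isOpen_lt hψ continuous_const).measurableSet
  have hB : MeasurableSet {y | y - x ∈ K ∧ ψ y < 0} := by
    have h1 : MeasurableSet {y | y - x ∈ K} := (measurable_id.sub_const x) hKm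
    exact h1.inter (isOpen_lt hψ continuous_const).measurableSet
  have e1 : ∫ y in {y | y - x ∈ K ∧ ψ y < 0}, Real.exp (-((t • ξ) y)) ∂μ =
      ∫ z in K ∩ {z | ψ z < R}, Real.exp (-((t • ξ) (x + z))) ∂μ := by
    rw [← integral_indicator hB, ← integral_indicator hS,
      ← integral_add_left_eq_self (fun y => ({y | y - x ∈ K ∧ ψ y < 0}).indicator
        (fun y => Real.exp (-((t • ξ) y))) y) x]
    congr 1
    funext z
    by_cases hz : z ∈ K ∩ {z | ψ z < R}
    · have hz' : x + z ∈ {y | y - x ∈ K ∧ ψ y < 0} := by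
        refine ⟨?_, ?_⟩
        · rw [add_sub_cancel_left]
          exact hz.1
        · rw [map_add, hx]
          have : ψ z < R := hz.2
          linarith
      rw [indicator_of_mem hz, indicator_of_mem hz']
    · have hz' : x + z ∉ {y | y - x ∈ K ∧ ψ y < 0} := by
        rintro ⟨h1, h2⟩
        rw [add_sub_cancel_left] at h1
        rw [map_add, hx] at h2
        exact hz ⟨h1, by
          change ψ z < R
          linarith⟩
      rw [indicator_of_notMem hz, indicator_of_notMem hz']
  have e2 : ∫ z in K ∩ {z | ψ z < R}, Real.exp (-((t • ξ) (x + z))) ∂μ =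
      Real.exp (-(t * ξ x)) * ∫ z in K ∩ {z | ψ z < R}, Real.exp (-(ξ (t • z))) ∂μ := by
    rw [← integral_const_mul]
    congr 1
    funext z
    rw [← Real.exp_add, LinearMap.smul_apply, map_add, map_smul, smul_eq_mul, smul_eq_mul]
    congr 1
    ring
  have e3 : ∫ z in K ∩ {z | ψ z < R}, Real.exp (-(ξ (t • z))) ∂μ =
      (t ^ Module.finrank ℝ E)⁻¹ * ∫ z in t • (K ∩ {z | ψ z < R}), Real.exp (-(ξ z)) ∂μ := by
    have h := Measure.setIntegral_comp_smul_of_pos μ (fun z => Real.exp (-(ξ z)))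
      (K ∩ {z | ψ z < R}) ht
    rw [smul_eq_mul] at h
    exact h
  have e4 : t • (K ∩ {z | ψ z < R}) = K ∩ {z | ψ z < t * R} := by
    ext z
    rw [mem_smul_set_iff_inv_smul_mem₀ ht.ne']
    constructor
    · rintro ⟨h1, h2⟩
      refine ⟨?_, ?_⟩
      · have := hsm t ht.le _ h1
        rwa [smul_inv_smul₀ ht.ne'] at this
      · change ψ (t⁻¹ • z) < R at h2
        change ψ z < t * R
        rw [map_smul, smul_eq_mul, inv_mul_lt_iff₀ ht] at h2
        exact h2
    · rintro ⟨h1, h2⟩
      refine ⟨hsm _ (inv_nonneg.2 ht.le) _ h1, ?_⟩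
      change ψ (t⁻¹ • z) < R
      change ψ z < t * R at h2
      rw [map_smul, smul_eq_mul, inv_mul_lt_iff₀ ht]
      exact h2
  rw [e1, e2, e3, e4]

end STBaux

open STBaux in
theorem t_STB : M_STB := by
  intro hPOS hBEL hLAP hTRA hREC hLOB E _ _ _ _ _ μ _ ι _ φ W hN hK hIrr hφ hW hId j
  -- the case `0 ∈ W`
  have key : ∀ W : Set E, IsW (poly φ) W → Ident μ (poly φ) W → (0 : E) ∈ W →
      ∃ A : ℝ, ∀ x ∈ W, -A ≤ φ j x := by
    intro W hW hId h0
    obtain ⟨ξ, hξ⟩ := hPOS E (poly φ) hK
    obtain ⟨Z, t, ht, htl, hZ⟩ := hREC E μ ι φ W hN hK hW hId h0 ξ hξ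
    obtain ⟨p, hp1, hp2⟩ := hIrr j
    obtain ⟨c, hc, hc2⟩ := hLOB E μ ι φ j p hK hp1 hp2 (hφ j) ξ hξ
    obtain ⟨-, -, -, hB4, -, -⟩ := hBEL E (poly φ) W hK hW
    obtain ⟨hL1, -, -, -, -, -, hL7⟩ := hLAP E μ (poly φ) W hK hW
    have hKm : MeasurableSet (poly φ) := hK.closed.measurableSet
    have hKW : poly φ ⊆ W := by
      intro d hd
      have := hL7 0 h0 d hd
      rwa [zero_add] at this
    have hψ : Continuous (φ j) := LinearMap.continuous_of_finiteDimensional (φ j)
    refine ⟨max (Z / c) 0, fun x hx => ?_⟩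
    by_contra hlt
    push Not at hlt
    obtain ⟨R, hR⟩ : ∃ R, R = -(φ j x) := ⟨_, rfl⟩
    have hR1 : Z / c < R := by
      have := le_max_left (Z / c) 0
      linarith
    have hR0 : 0 < R := by
      have := le_max_right (Z / c) 0
      linarith
    have hx' : φ j x = -R := by rw [hR, neg_neg]
    -- the inequality for small `t`
    have hk : ∀ k, t k * R ≤ 1 → Real.exp (-(t k * ξ x)) * (c * R) ≤ Z := by
      intro k hkR
      have hT := ht k
      have hξt := hB4 ξ hξ (t k) hT
      have hint := (hL1 _ hξt).1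
      set B : Set E := {y | y - x ∈ poly φ ∧ φ j y < 0} with hBdef
      have hBm : MeasurableSet B := by
        have h1 : MeasurableSet {y | y - x ∈ poly φ} := (measurable_id.sub_const x) hKm
        exact h1.inter (isOpen_lt hψ continuous_const).measurableSet
      have hBW : B ⊆ W := by
        rintro y ⟨h1, -⟩
        have := hL7 x hx _ h1
        rwa [add_sub_cancel] at this
      have hdis : Disjoint (poly φ) B := by
        rw [Set.disjoint_left]
        rintro y h1 ⟨-, h2⟩
        exact absurd (h1 j) (not_le.2 h2)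
      have hsum : lap μ (poly φ) (t k • ξ) + ∫ y in B, Real.exp (-((t k • ξ) y)) ∂μ ≤
          lap μ W (t k • ξ) := by
        unfold lap
        rw [← setIntegral_union hdis hBm (hint.mono_set hKW) (hint.mono_set hBW)]
        apply setIntegral_mono_set hint
        · exact Eventually.of_forall fun y => (Real.exp_pos _).le
        · exact (union_subset hKW hBW).eventuallyLE
      have hslab := slab μ hK.smul ξ (φ j) x R (t k) hT hx' hKm
      rw [← hBdef] at hslab
      have hlow := hc2 (t k * R) (mul_pos hT hR0) hkR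
      have hZk := hZ k
      have h5 : ∫ y in B, Real.exp (-((t k • ξ) y)) ∂μ ≤
          lap μ W (t k • ξ) - lap μ (poly φ) (t k • ξ) := by linarith
      have hN1 : Module.finrank ℝ E = (Module.finrank ℝ E - 1) + 1 := by omega
      have h6 : (t k) ^ (Module.finrank ℝ E - 1) * ∫ y in B, Real.exp (-((t k • ξ) y)) ∂μ ≤ Z :=
        (mul_le_mul_of_nonneg_left h5 (pow_nonneg hT.le _)).trans hZk
      rw [hslab] at h6
      have h7 : (t k) ^ (Module.finrank ℝ E - 1) * (Real.exp (-(t k * ξ x)) *
          ((t k ^ Module.finrank ℝ E)⁻¹ * (c * (t k * R)))) =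
          Real.exp (-(t k * ξ x)) * (c * R) := by
        have h8 : (t k) ^ Module.finrank ℝ E = (t k) ^ (Module.finrank ℝ E - 1) * t k := by
          conv_lhs => rw [hN1, pow_succ]
        rw [h8]
        have h9 : (t k) ^ (Module.finrank ℝ E - 1) ≠ 0 := (pow_pos hT _).ne'
        field_simp
      rw [← h7]
      refine le_trans ?_ h6
      apply mul_le_mul_of_nonneg_left _ (pow_nonneg hT.le _)
      apply mul_le_mul_of_nonneg_left _ (Real.exp_pos _).le
      apply mul_le_mul_of_nonneg_left hlow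
      exact inv_nonneg.2 (pow_nonneg hT.le _)
    -- the limit
    have hlim : Tendsto (fun k => Real.exp (-(t k * ξ x)) * (c * R)) atTop (𝓝 (1 * (c * R))) := by
      apply Tendsto.mul_const
      have h1 : Tendsto (fun k => -(t k * ξ x)) atTop (𝓝 (-(0 * ξ x))) :=
        (htl.mul_const _).neg
      rw [zero_mul, neg_zero] at h1
      have h2 := (Real.continuous_exp.tendsto 0).comp h1
      rwa [Real.exp_zero] at h2
    have hev : ∀ᶠ k in atTop, t k * R ≤ 1 := by
      have h1 : Tendsto (fun k => t k * R) atTop (𝓝 (0 * R)) := htl.mul_const _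
      rw [zero_mul] at h1
      exact (h1.eventually (gt_mem_nhds one_pos)).mono fun k hk => hk.le
    have hle : 1 * (c * R) ≤ Z := le_of_tendsto hlim (hev.mono fun k h => hk k h)
    rw [one_mul] at hle
    rw [div_lt_iff₀ hc] at hR1
    linarith
  obtain ⟨z, hz⟩ := hW.ne
  obtain ⟨h1, -, -, h4, -⟩ := hTRA E μ (poly φ) W z hK hW
  obtain ⟨A, hA⟩ := key _ h1 (h4 hId) (by
    change (0 : E) + z ∈ W
    rwa [zero_add])
  refine ⟨A - φ j z, fun x hx => ?_⟩
  have h5 := hA (x - z) (by
    change x - z + z ∈ W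
    rwa [sub_add_cancel])
  rw [map_sub] at h5
  linarith

end Pool.Agent.PRC
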