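import Pool.Agent.PRC.StE

/-!
# TRA: translations
-/

set_option autoImplicit false

open MeasureTheory Set Filter Topology
open Pool.Agent.H30.Sccp

namespace Pool.Agent.PRC

namespace TRAaux

variable {E : Type} [NormedAddCommGroup E] [NormedSpace ℝ E]

theorem recCone_trans (W : Set E) (z : E) : recCone {x | x + z ∈ W} = recCone W := by
  ext d
  unfold recCone
  simp only [Set.mem_ofPred_eq]
  constructor
  · intro h x hx t ht
    have h1 := h (x - z) (by simpa using hx) t ht
    have e : x - z + t • d + z = x + t • d := by abel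
    rwa [e] at h1
  · intro h x hx t ht
    have h1 := h (x + z) hx t ht
    have e : x + z + t • d = x + t • d + z := by abel
    rwa [e] at h1

theorem isW_trans {K W : Set E} (h : IsW K W) (z : E) : IsW K {x | x + z ∈ W} where
  closed := h.closed.preimage (continuous_id.add continuous_const)
  convex := h.convex.translate_preimage_left z
  ne := by
    obtain ⟨w, hw⟩ := h.ne
    exact ⟨w - z, by simpa using hw⟩
  reco := by rw [recCone_trans, h.reco]

theorem lap_trans [FiniteDimensional ℝ E] [MeasurableSpace E] [BorelSpace E] (μ : Measure E)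
    [μ.IsAddHaarMeasure] (W : Set E) (z : E) (ξ : E →ₗ[ℝ] ℝ) :
    lap μ {x | x + z ∈ W} ξ = Real.exp (ξ z) * lap μ W ξ := by
  have h1 := (measurePreserving_add_right μ z).setIntegral_preimage_emb
    (measurableEmbedding_addRight z) (fun y => Real.exp (-(ξ y))) W
  unfold lap
  rw [← h1, ← integral_const_mul]
  refine integral_congr_ae (Eventually.of_forall fun x => ?_)
  simp only
  rw [← Real.exp_add, map_add]
  congr 1
  ring

end TRAaux

open TRAaux in
/-- **TRA**. -/
theorem t_TRA : M_TRA := by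
  intro hB hL E _ _ _ _ _ μ _ K W z hK hW
  have hW' := isW_trans hW z
  have h1 := (hL E μ K W hK hW).2.2.2.1
  have h2 := (hL E μ K {x | x + z ∈ W} hK hW').2.2.2.1
  have hh : ∀ ξ ∈ UU K, hinf {x | x + z ∈ W} ξ = hinf W ξ - ξ z := by
    intro ξ hξ
    obtain ⟨a1, a2⟩ := h1 ξ hξ
    obtain ⟨b1, b2⟩ := h2 ξ hξ
    apply le_antisymm
    · refine le_of_forall_pos_le_add fun ε hε => ?_
      obtain ⟨x, hx, hlt⟩ := a2 ε hε
      have h3 := b1 (x - z) (by simpa using hx)
      rw [map_sub] at h3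
      linarith
    · refine le_of_forall_pos_le_add fun ε hε => ?_
      obtain ⟨x, hx, hlt⟩ := b2 ε hε
      have h3 := a1 (x + z) hx
      rw [map_add] at h3
      linarith
  refine ⟨hW', hh, lap_trans μ W z, fun hI ξ₁ hξ₁ ξ₂ hξ₂ he t ht => ?_, fun hs => ?_⟩
  · have h3 := hI ξ₁ hξ₁ ξ₂ hξ₂ he t ht
    rw [hh ξ₂ hξ₂, hh ξ₁ hξ₁, lap_trans, lap_trans, LinearMap.smul_apply, LinearMap.smul_apply,
      smul_eq_mul, smul_eq_mul, ← mul_assoc, ← mul_assoc, ← Real.exp_add, ← Real.exp_add]
    have e1 : t * (hinf W ξ₂ - ξ₂ z) + t * ξ₂ z = t * hinf W ξ₂ := by ring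
    have e2 : t * (hinf W ξ₁ - ξ₁ z) + t * ξ₁ z = t * hinf W ξ₁ := by ring
    rw [e1, e2]
    exact h3
  · exact hs.preimage_add_left z

end Pool.Agent.PRC
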