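import Pool.Agent.PRC.StG

/-!
# Module UGC: uniform positivity on the cone
-/

set_option autoImplicit false

open MeasureTheory Set Filter Topology

namespace Pool.Agent.PRC

namespace UGCaux

theorem main {n : ℕ} {C : Set (Fin n → ℝ)} (hC : IsCone C) (h : (Fin n → ℝ) → ℝ)
    (hc : Continuous h) (hh : ∀ y (t : ℝ), 0 ≤ t → h (t • y) = t * h y)
    (hp : ∀ y ∈ C, y ≠ 0 → 0 < h y) : ∃ c : ℝ, 0 < c ∧ ∀ y ∈ C, c * ‖y‖ ≤ h y := by
  have hK : IsCompact (C ∩ Metric.sphere (0 : Fin n → ℝ) 1) :=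
    (isCompact_sphere (0 : Fin n → ℝ) 1).inter_left hC.closed
  have hn : ∀ y ∈ C, y ≠ 0 → (‖y‖⁻¹ • y) ∈ C ∩ Metric.sphere (0 : Fin n → ℝ) 1 := by
    intro y hy h0
    have h1 : 0 < ‖y‖ := norm_pos_iff.2 h0
    refine ⟨hC.smul _ (inv_nonneg.2 h1.le) y hy, ?_⟩
    rw [mem_sphere_zero_iff_norm, norm_smul, norm_inv, norm_norm, inv_mul_cancel₀ h1.ne']
  have h0 : h 0 = 0 := by
    have := hh 0 0 le_rfl
    rwa [smul_zero, zero_mul] at this
  rcases (C ∩ Metric.sphere (0 : Fin n → ℝ) 1).eq_empty_or_nonempty with he | hne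
  · refine ⟨1, one_pos, fun y hy => ?_⟩
    by_cases hy0 : y = 0
    · rw [hy0, h0, norm_zero, mul_zero]
    · have h1 := hn y hy hy0
      rw [he] at h1
      exact absurd h1 (by simp)
  · obtain ⟨y₀, hy₀, hmin⟩ := hK.exists_isMinOn hne hc.continuousOn
    have hy₀0 : y₀ ≠ 0 := by
      intro h1
      have h2 := mem_sphere_zero_iff_norm.1 hy₀.2
      rw [h1, norm_zero] at h2
      exact zero_ne_one h2
    refine ⟨h y₀, hp y₀ hy₀.1 hy₀0, fun y hy => ?_⟩
    by_cases hy0 : y = 0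
    · rw [hy0, h0, norm_zero, mul_zero]
    · have h1 : 0 < ‖y‖ := norm_pos_iff.2 hy0
      have h2 : h y₀ ≤ h (‖y‖⁻¹ • y) := hmin (hn y hy hy0)
      rw [hh y _ (inv_nonneg.2 h1.le)] at h2
      calc h y₀ * ‖y‖ ≤ (‖y‖⁻¹ * h y) * ‖y‖ := mul_le_mul_of_nonneg_right h2 h1.le
        _ = h y := by field_simp

end UGCaux

theorem t_UGC : M_UGC := by
  intro hGGB n C ι _ _ l hC
  obtain ⟨-, -, hg1, -, hg2, -⟩ := hGGB n ι l
  refine ⟨fun a η hU => ?_, fun η hη => ?_⟩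
  · refine UGCaux.main hC (fun y => η y + a * gg l y) ?_ ?_ hU.2
    · exact η.continuous_of_finiteDimensional.add (continuous_const.mul hg2)
    · intro y t ht
      show η (t • y) + a * gg l (t • y) = t * (η y + a * gg l y)
      rw [hg1 y t ht, map_smul, smul_eq_mul]
      ring
  · refine UGCaux.main hC (fun y => η y) η.continuous_of_finiteDimensional ?_ hη
    intro y t _
    show η (t • y) = t * η y
    rw [map_smul, smul_eq_mul]

end Pool.Agent.PRC
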