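import Pool.Agent.PRC.StI

/-!
# SCCP sets with polyhedral recession cone: module VRE

The volume functions of two functionals are related by an affine substitution.
-/

set_option autoImplicit false

open MeasureTheory Set Filter Topology
open Pool.Agent.H30.Sccp

namespace Pool.Agent.PRC

namespace VREaux

variable {n : ℕ} {U W : Set (Fin (n + 1) → ℝ)}

theorem normalize (hW : GoodU U W) {α : Fin (n + 1) → ℝ} (hα : α ∈ U) :
    ∃ (a : Fin n → ℝ) (k : ℝ), one_cons a ∈ U ∧ 0 < k ∧ α = fun i => k * one_cons a i := by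
  have h0 : 0 < α 0 := hW.pos α hα 0
  have e : (fun i => (α 0)⁻¹ * α i) = one_cons (fun i : Fin n => (α 0)⁻¹ * α i.succ) := by
    ext i
    refine Fin.cases ?_ (fun j => ?_) i
    · simp only [one_cons, Fin.cons_zero]
      exact inv_mul_cancel₀ h0.ne'
    · simp only [one_cons, Fin.cons_succ]
  refine ⟨fun i => (α 0)⁻¹ * α i.succ, α 0, ?_, h0, ?_⟩
  · rw [← e]
    exact hW.cone α hα _ (inv_pos.2 h0)
  · rw [← e]
    ext i
    rw [← mul_assoc, mul_inv_cancel₀ h0.ne', one_mul]

theorem core (hW : GoodU U W) (hC : CollinearU U W) {a b : Fin n → ℝ} (ha : one_cons a ∈ U)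
    (hb : one_cons b ∈ U) : ∃ E F : ℝ, 0 < E ∧
      ∀ t, V W (one_cons b) (E * t + F) = V W (one_cons a) t := by
  obtain ⟨E, F, hE, h⟩ := hW.lev_affine hC ha hb
  refine ⟨E, F, hE, fun t => ?_⟩
  rcases (V_nonneg W (one_cons a) t).lt_or_eq with ht | ht
  · have h1 : t = lev W a (V W (one_cons a) t) := hW.lev_unique ha ht rfl
    have h2 := h _ ht
    rw [← h1] at h2
    rw [← h2]
    exact hW.V_lev hb ht
  · rw [← ht]
    by_contra hne
    have hv : 0 < V W (one_cons b) (E * t + F) :=
      lt_of_le_of_ne (V_nonneg _ _ _) (Ne.symm hne)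
    have h1 : E * t + F = lev W b (V W (one_cons b) (E * t + F)) := hW.lev_unique hb hv rfl
    have h2 := h _ hv
    rw [← h1] at h2
    have h3 : E * t = E * lev W a (V W (one_cons b) (E * t + F)) := by linarith
    have h4 := mul_left_cancel₀ hE.ne' h3
    have h5 := hW.V_lev ha hv
    rw [← h4, ← ht] at h5
    linarith

end VREaux

open VREaux in
theorem t_VRE : S_VRE := by
  intro n U W hW hC α hα β hβ
  obtain ⟨a, k, ha, hk, hαe⟩ := normalize hW hα
  obtain ⟨b, l, hb, hl, hβe⟩ := normalize hW hβ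
  obtain ⟨E, F, hE, h⟩ := core hW hC ha hb
  refine ⟨l * E / k, l * F, div_pos (mul_pos hl hE) hk, fun t => ?_⟩
  have e1 : l * E / k * t + l * F = l * (E * (t / k) + F) := by
    field_simp
  have e2 : V W β (l * (E * (t / k) + F)) = V W (one_cons b) (E * (t / k) + F) := by
    rw [hβe]
    exact V_smul hl W (one_cons b) _
  have e3 : V W α t = V W (one_cons a) (t / k) := by
    have e4 : t = k * (t / k) := by field_simp
    conv_lhs => rw [e4, hαe]
    exact V_smul hk W (one_cons a) _
  rw [e1, e2, e3]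
  exact h _

end Pool.Agent.PRC
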