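import Pool.Agent.PRC.BRI

/-!
# SCCP sets with polyhedral recession cone (MP_5f8b0b_gt): the core theorem for sets
-/

set_option autoImplicit false

open MeasureTheory Set Filter Topology
open Pool.Agent.H30.Sccp

namespace Pool.Agent.PRC

theorem t_VRT (hRAYT : Pool.Agent.PCN.RAYT) (hGGB : S_GGB) (hCON : S_CON) (hPOS : S_POS)
    (hUGC : S_UGC) (hKCU : S_KCU) (hTRA : S_TRA) (hFAC : S_FAC) (hPAK : S_PAK) (hBLW : S_BLW) :
    S_VRT := by
  intro n κ _ m ι _ _ l W A hn hC hW hId hstr hlow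
  obtain ⟨hg1, hg2, hg3, hg4, hgc, B, hB0, hB⟩ := hGGB n ι l
  obtain ⟨hK, -, -⟩ := hKCU n (poly m) ι l hC
  haveI : (volume : Measure (ℝ × (Fin n → ℝ))).IsAddHaarMeasure := by
    rw [Measure.volume_eq_prod]
    infer_instance
  obtain ⟨y₀, hy1, hy2⟩ := hFAC n κ m ι l W A hC hW hId hlow
  obtain ⟨hW', -, -, hId', hstr'⟩ := hTRA (ℝ × (Fin n → ℝ)) volume (KC (poly m) (gg l)) W
    ((0, y₀) : ℝ × (Fin n → ℝ)) hK hW
  set W' : Set (ℝ × (Fin n → ℝ)) := {x | x + ((0, y₀) : ℝ × (Fin n → ℝ)) ∈ W} with hWd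
  have hlow' : ∀ x ∈ W', x.2 ∈ poly m ∧ gg l x.2 - (A + gg l (-y₀)) ≤ x.1 := by
    intro x hx
    have hx' : x + ((0, y₀) : ℝ × (Fin n → ℝ)) ∈ W := hx
    refine ⟨?_, ?_⟩
    · have := hy1 _ hx'
      simpa using this
    · have h1 := (hlow _ hx').2
      have h2 : gg l x.2 ≤ gg l (x.2 + y₀) + gg l (-y₀) := by
        have := hg4 (x.2 + y₀) (-y₀)
        rwa [add_neg_cancel_right] at this
      simp only [Prod.snd_add, Prod.fst_add, add_zero] at h1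
      linarith
  have hex' : ∀ y ∈ interior (poly m), ∃ s, (s, y) ∈ W' := by
    intro y hy
    obtain ⟨s, hs⟩ := hy2 (y + y₀) (by rwa [add_sub_cancel_right])
    refine ⟨s, ?_⟩
    change ((s, y) : ℝ × (Fin n → ℝ)) + (0, y₀) ∈ W
    simpa using hs
  have hGr := hPAK n (poly m) ι l W' _ hC hW' (hId' hId) (hstr' hstr) hlow' hex'
  have hbl := hBLW n (poly m) ι l W' _ hn hC hW' (hstr' hstr) hlow' hex'
  exact bridge hRAYT hGGB hCON hPOS hUGC n (poly m) ι l (fW W') hC hGr hbl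

end Pool.Agent.PRC
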