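import Pool.Agent.PRC.Main
import Pool.Agent.PRC.VRT
import Pool.Agent.PRC.BLW
import Pool.Agent.PRC.GGB
import Pool.Agent.PRC.CON1
import Pool.Agent.PRC.EXN
import Pool.Agent.PRC.UGC
import Pool.Agent.PRC.INT
import Pool.Agent.PRC.SML
import Pool.Agent.PRC.POS
import Pool.Agent.PRC.BEL
import Pool.Agent.PRC.LAP
import Pool.Agent.PRC.TRA
import Pool.Agent.PRC.LIN
import Pool.Agent.PRC.SCA
import Pool.Agent.PRC.IVT
import Pool.Agent.PRC.REC
import Pool.Agent.PRC.LOB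
import Pool.Agent.PRC.STB
import Pool.Agent.PRC.COO
import Pool.Agent.PRC.GDU
import Pool.Agent.PRC.VRE
import Pool.Agent.PRC.LRE
import Pool.Agent.PRC.IDA
import Pool.Agent.PRC.IDE
import Pool.Agent.PRC.KCU
import Pool.Agent.PRC.FUB
import Pool.Agent.PRC.FIB
import Pool.Agent.PRC.FA2
import Pool.Agent.PRC.FA3
import Pool.Agent.PRC.FAC
import Pool.Agent.PRC.PAK
import Pool.Agent.PRC.EXT
import Pool.Agent.PRC.CHT
import Pool.Agent.PRC.SPL
import Pool.Agent.PRC.SIM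
import Pool.Agent.PRC.IRR
import Pool.Agent.PRC.PTD
import Pool.Agent.PCN.RayThm

/-!
# SCCP sets with polyhedral recession cone (MP_5f8b0b_gt): the final chain

Part I (the analysis at one extreme ray, `Pool.Agent.PCN`) by helper87, part II (`Pool.Agent.PRC`) by helper88.
-/

set_option autoImplicit false

open MeasureTheory Set Filter Topology
open Pool.Agent.H30.Sccp

namespace Pool.Agent.PRC

theorem c_UGC : S_UGC := t_UGC t_GGB
theorem c_INT : S_INT := t_INT c_UGC t_EXN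
theorem c_SML : S_SML := t_SML t_GGB t_CON c_UGC t_EXN c_INT
theorem c_LAP : S_LAP := t_LAP t_BEL
theorem c_TRA : S_TRA := t_TRA t_BEL c_LAP
theorem c_SCA : S_SCA := t_SCA t_BEL c_LAP c_TRA
theorem c_IVT : S_IVT := t_IVT t_BEL c_LAP
theorem c_REC : S_REC := t_REC t_BEL c_LAP c_IVT
theorem c_LOB : S_LOB := t_LOB t_BEL c_LAP
theorem c_STB : S_STB := t_STB t_POS t_BEL c_LAP c_TRA c_REC c_LOB
theorem c_GDU : S_GDU := t_GDU t_POS t_BEL
theorem c_IDA : S_IDA := t_IDA t_COO c_GDU t_VRE t_LRE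
theorem c_IDE : S_IDE := t_IDE t_BEL c_LAP c_SCA c_IDA
theorem c_KCU : S_KCU := t_KCU t_GGB
theorem c_FIB : S_FIB := t_FIB t_GGB t_CON c_LAP c_KCU t_FUB
theorem c_FA2 : S_FA2 := t_FA2 t_GGB t_CON c_UGC t_EXN t_BEL c_INT c_SML c_FIB
theorem c_FA3 : S_FA3 := t_FA3 t_GGB c_UGC c_INT c_SML c_LAP c_SCA c_KCU c_FA2
theorem c_FAC : S_FAC := t_FAC t_GGB t_CON t_POS c_LAP c_KCU c_SML c_FIB c_FA2 c_FA3
theorem c_PAK : S_PAK := t_PAK t_GGB t_CON c_LAP c_KCU c_FIB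
theorem c_BLW : S_BLW := t_BLW t_GGB t_CON
theorem c_VRT : S_VRT :=
  t_VRT Pool.Agent.PCN.RAYT_thm t_GGB t_CON t_POS c_UGC c_KCU c_TRA c_FAC c_PAK c_BLW
theorem c_SPL : S_SPL := t_SPL t_GGB c_STB t_LIN t_CHT c_VRT
theorem c_SIM : S_SIM := t_SIM t_EXT c_SPL

/-- The classification of SCCP sets with polyhedral recession cone. -/
theorem final (n : ℕ) (hn : 1 ≤ n) (m : ℕ) (φ : Fin m → (Eu n →ₗ[ℝ] ℝ)) (Ω : Set (Eu n))
    (hclosed : IsClosed Ω) (hconv : StrictConvex ℝ Ω) (hne : Ω.Nonempty) (hun : Ω ≠ univ)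
    (hrec : recCone Ω = {d | ∀ j, 0 ≤ φ j d}) (hint : (interior (recCone Ω)).Nonempty) :
    SCCP n Ω ↔ ∃ (b : Module.Basis (Fin (n + 1)) ℝ (Eu n)) (o : Eu n) (c : ℝ), 0 < c ∧
      Ω = {x | (∀ i, 0 ≤ b.repr (x - o) i) ∧ c ≤ ∏ i, b.repr (x - o) i} :=
  main c_IDE t_IRR t_PTD c_SIM n hn m φ Ω hclosed hconv hne hun hrec hint

end Pool.Agent.PRC
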