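import Pool.Agent.PRC.StE
import Mathlib.LinearAlgebra.Transvection.Basic

/-!
# A lower bound of an integral over a layer of a polyhedral cone
-/

set_option autoImplicit false

open MeasureTheory Set Filter Topology
open Pool.Agent.H30.Sccp

namespace Pool.Agent.PRC

namespace LOBaux

variable {E : Type} [NormedAddCommGroup E] [NormedSpace ℝ E]

theorem add_mem {K : Set E} (h : IsCone K) {x y : E} (hx : x ∈ K) (hy : y ∈ K) : x + y ∈ K := by
  have h1 : (1 / 2 : ℝ) • x + (1 / 2 : ℝ) • y ∈ K :=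
    h.convex hx hy (by norm_num) (by norm_num) (by norm_num)
  have h2 := h.smul 2 (by norm_num) _ h1
  rwa [smul_add, smul_smul, smul_smul, show (2 : ℝ) * (1 / 2) = 1 by norm_num, one_smul,
    one_smul] at h2

theorem isW_self {K : Set E} (h : IsCone K) : IsW K K where
  closed := h.closed
  convex := h.convex
  ne := ⟨0, h.zero⟩
  reco := by
    ext d
    constructor
    · intro hd
      have h1 := hd 0 h.zero 1 zero_le_one
      rwa [zero_add, one_smul] at h1
    · intro hd x hx s hs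
      exact add_mem h hx (h.smul s hs d hd)

end LOBaux

open LOBaux in
theorem t_LOB : M_LOB := by
  intro _ hLAP E _ _ _ _ _ μ _ ι _ φ j p hK hpj hpi hj ξ hξ
  have hint : IntegrableOn (fun x => Real.exp (-(ξ x))) (poly φ) μ :=
    ((hLAP E μ (poly φ) (poly φ) hK (isW_self hK)).1 ξ hξ).1
  have hcont : ∀ η : E →ₗ[ℝ] ℝ, Continuous η := fun η => η.continuous_of_finiteDimensional
  -- the direction `u`
  obtain ⟨u, hu⟩ : ∃ u, φ j u = 1 := by
    obtain ⟨v, hv⟩ : ∃ v, φ j v ≠ 0 := by
      by_contra hcon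
      push Not at hcon
      exact hj (LinearMap.ext hcon)
    exact ⟨(φ j v)⁻¹ • v, by rw [map_smul, smul_eq_mul, inv_mul_cancel₀ hv]⟩
  -- the ball
  have hUo : IsOpen {z : E | ∀ i, i ≠ j → 0 < φ i z} := by
    have : {z : E | ∀ i, i ≠ j → 0 < φ i z} = ⋂ i : {i : ι // i ≠ j}, {z : E | 0 < φ i z} := by
      ext z
      simp only [mem_iInter, mem_ofPred_eq, Subtype.forall]
    rw [this]
    exact isOpen_iInter_of_finite fun i => isOpen_lt continuous_const (hcont _)
  obtain ⟨R, hR, hball⟩ := Metric.isOpen_iff.1 hUo p hpi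
  obtain ⟨ρ, hρ, rfl⟩ : ∃ ρ : ℝ, 0 < ρ ∧ R = 2 * ρ := ⟨R / 2, by linarith, by ring⟩
  obtain ⟨η, hη, hη1, hηu⟩ : ∃ η : ℝ, 0 < η ∧ η ≤ 1 ∧ η * ‖u‖ ≤ ρ := by
    refine ⟨min 1 (ρ / (‖u‖ + 1)), lt_min one_pos (by positivity), min_le_left _ _, ?_⟩
    calc min 1 (ρ / (‖u‖ + 1)) * ‖u‖ ≤ ρ / (‖u‖ + 1) * (‖u‖ + 1) :=
          mul_le_mul (min_le_right _ _) (by linarith) (norm_nonneg _) (by positivity)
      _ = ρ := div_mul_cancel₀ _ (by positivity)
  set B' : Set E := Metric.ball p ρ ∩ {z | 0 < φ j z ∧ φ j z < η} with hB'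
  have hB'o : IsOpen B' := Metric.isOpen_ball.inter
    ((isOpen_lt continuous_const (hcont _)).inter (isOpen_lt (hcont _) continuous_const))
  have hB'n : B'.Nonempty := by
    refine ⟨p + (η / 2) • u, ?_, ?_, ?_⟩
    · rw [Metric.mem_ball, dist_self_add_left, norm_smul, Real.norm_eq_abs, abs_of_pos (by linarith)]
      linarith
    · rw [map_add, map_smul, hpj, hu, smul_eq_mul]
      linarith
    · rw [map_add, map_smul, hpj, hu, smul_eq_mul]
      linarith
  have hμ0 : 0 < μ B' := hB'o.measure_pos μ hB'n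
  have hμf : μ B' < ⊤ := (measure_mono inter_subset_left).trans_lt measure_ball_lt_top
  -- the bound of `ξ` on the ball
  obtain ⟨A, hA⟩ := (isCompact_closedBall p (2 * ρ)).exists_bound_of_continuousOn
    (hcont ξ).continuousOn
  refine ⟨Real.exp (-A) * (μ B').toReal,
    mul_pos (Real.exp_pos _) (ENNReal.toReal_pos hμ0.ne' hμf.ne), fun r hr hr1 => ?_⟩
  set f : E →ₗ[ℝ] E := LinearMap.transvection (φ j) (-((1 - r) • u)) with hf
  have hfz : ∀ z, f z = z - ((1 - r) * φ j z) • u := by
    intro z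
    rw [hf]
    show z + φ j z • (-((1 - r) • u)) = _
    rw [smul_neg, smul_smul, ← sub_eq_add_neg, mul_comm]
  have hfj : ∀ z, φ j (f z) = r * φ j z := by
    intro z
    rw [hfz, map_sub, map_smul, hu, smul_eq_mul]
    ring
  have hdet : LinearMap.det f = r := by
    rw [hf, LinearMap.transvection.det, map_neg, map_smul, hu, smul_eq_mul]
    ring
  have hsurj : Function.Surjective f := by
    intro y
    refine ⟨y + ((1 - r) * (φ j y / r)) • u, ?_⟩
    rw [hfz, map_add, map_smul, hu, smul_eq_mul, mul_one]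
    have : (1 - r) * (φ j y + (1 - r) * (φ j y / r)) = (1 - r) * (φ j y / r) := by
      field_simp
      ring
    rw [this, add_sub_cancel_right]
  have himo : IsOpen (f '' B') := f.isOpenMap_of_finiteDimensional hsurj _ hB'o
  have hμim : (μ (f '' B')).toReal = r * (μ B').toReal := by
    rw [Measure.addHaar_image_linearMap, hdet, abs_of_pos hr, ENNReal.toReal_mul,
      ENNReal.toReal_ofReal hr.le]
  have hin : ∀ x ∈ f '' B', x ∈ Metric.ball p (2 * ρ) ∧ 0 < φ j x ∧ φ j x < r := by
    rintro _ ⟨z, ⟨hz1, hz2, hz3⟩, rfl⟩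
    refine ⟨?_, ?_, ?_⟩
    · rw [Metric.mem_ball] at hz1 ⊢
      have h1 : dist (f z) z ≤ ρ := by
        rw [hfz, dist_eq_norm, sub_sub_cancel_left, norm_neg, norm_smul, Real.norm_eq_abs,
          abs_of_nonneg (mul_nonneg (by linarith) hz2.le)]
        refine le_trans ?_ hηu
        refine mul_le_mul_of_nonneg_right ?_ (norm_nonneg _)
        nlinarith
      linarith [dist_triangle (f z) z p]
    · rw [hfj]; positivity
    · rw [hfj]; nlinarith
  have hsub : f '' B' ⊆ poly φ ∩ {x | φ j x < r} := by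
    intro x hx
    obtain ⟨h1, h2, h3⟩ := hin x hx
    refine ⟨fun i => ?_, h3⟩
    by_cases hij : i = j
    · rw [hij]; exact h2.le
    · exact (hball h1 i hij).le
  have hint' : IntegrableOn (fun x => Real.exp (-(ξ x))) (poly φ ∩ {x | φ j x < r}) μ :=
    hint.mono_set inter_subset_left
  have hfin : μ (f '' B') ≠ ⊤ := by
    rw [Measure.addHaar_image_linearMap]
    exact ENNReal.mul_ne_top ENNReal.ofReal_ne_top hμf.ne
  have h1 : Real.exp (-A) * (μ (f '' B')).toReal ≤ ∫ x in f '' B', Real.exp (-(ξ x)) ∂μ := by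
    refine setIntegral_ge_of_const_le_real himo.measurableSet hfin (fun x hx => ?_)
      (hint'.mono_set hsub)
    refine Real.exp_le_exp.2 (neg_le_neg ?_)
    have := hA x (Metric.ball_subset_closedBall (hin x hx).1)
    rw [Real.norm_eq_abs] at this
    exact (le_abs_self _).trans this
  have h2 : ∫ x in f '' B', Real.exp (-(ξ x)) ∂μ ≤
      ∫ x in poly φ ∩ {x | φ j x < r}, Real.exp (-(ξ x)) ∂μ :=
    setIntegral_mono_set hint' (Eventually.of_forall fun x => (Real.exp_pos _).le)
      hsub.eventuallyLE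
  refine le_trans (le_of_eq ?_) (h1.trans h2)
  rw [hμim]
  ring

end Pool.Agent.PRC
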