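import Pool.Agent.H30.Sccp.Affine
import Pool.Agent.PRC.Defs

/-!
# Caps of a closed convex set, functionals from a set `U` (after `Pool.Agent.H30.Sccp.Basic`, helper30)
-/

set_option autoImplicit false

open MeasureTheory MeasureTheory.Measure Set
open Pool.Agent.H30.Sccp

namespace Pool.Agent.PRC

variable {n : ℕ} {U W : Set (Fin (n + 1) → ℝ)} {α : Fin (n + 1) → ℝ}

/-- Closed convex sets `W` in coordinates, `U` is a set of functionals bounded below on `W`. -/
structure GoodU {n : ℕ} (U W : Set (Fin (n + 1) → ℝ)) : Prop where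
  closed : IsClosed W
  convex : Convex ℝ W
  nonempty : W.Nonempty
  Une : U.Nonempty
  up : ∀ x ∈ W, ∀ k : Fin (n + 1) → ℝ, (∀ i, 0 ≤ k i) → x + k ∈ W
  bdd : ∀ γ ∈ U, ∃ m : ℝ, ∀ x ∈ W, m ≤ ∑ i, γ i * x i
  pos : ∀ γ ∈ U, ∀ i, 0 < γ i
  cvx : Convex ℝ U
  cone : ∀ γ ∈ U, ∀ t : ℝ, 0 < t → (fun i => t * γ i) ∈ U
  opn : ∀ γ ∈ U, ∀ j, ∃ ε : ℝ, 0 < ε ∧ Function.update γ j (γ j + ε) ∈ U

lemma sum_update_add' (α : Fin (n + 1) → ℝ) (j : Fin (n + 1)) (x : Fin (n + 1) → ℝ) (ε : ℝ) :
    ∑ i, (Function.update α j (α j + ε)) i * x i = ∑ i, α i * x i + ε * x j := by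
  classical
  rw [← Finset.add_sum_erase Finset.univ (fun i => (Function.update α j (α j + ε)) i * x i)
      (Finset.mem_univ j), ← Finset.add_sum_erase Finset.univ (fun i => α i * x i)
      (Finset.mem_univ j)]
  have : ∑ i ∈ Finset.univ.erase j, (Function.update α j (α j + ε)) i * x i =
      ∑ i ∈ Finset.univ.erase j, α i * x i := by
    apply Finset.sum_congr rfl
    intro i hi
    rw [Function.update_of_ne (Finset.ne_of_mem_erase hi)]
  rw [this]
  simp only [Function.update_self]
  ring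

/-- Coordinates of points of caps are bounded below. -/
lemma GoodU.coord_lower (hW : GoodU U W) (hα : α ∈ U) (t : ℝ) :
    ∃ m : Fin (n + 1) → ℝ, ∀ x ∈ cap W α t, ∀ j, m j ≤ x j := by
  classical
  have h : ∀ j : Fin (n + 1), ∃ m : ℝ, ∀ x ∈ cap W α t, m ≤ x j := by
    intro j
    obtain ⟨ε, hε, hU⟩ := hW.opn α hα j
    obtain ⟨m, hm⟩ := hW.bdd _ hU
    refine ⟨(m - t) / ε, fun x hx => ?_⟩
    have h1 := hm x hx.1
    rw [sum_update_add'] at h1
    have h2 := hx.2
    rw [div_le_iff₀ hε]
    linarith [mul_comm ε (x j)]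
  choose m hm using h
  exact ⟨m, fun x hx j => hm j x hx⟩

lemma GoodU.coord_upper (hW : GoodU U W) (hα : α ∈ U) (t : ℝ) :
    ∃ R : ℝ, ∀ x ∈ cap W α t, ∀ j, |x j| ≤ R := by
  classical
  have hp := hW.pos α hα
  obtain ⟨m, hm⟩ := hW.coord_lower hα t
  -- lower bound by `-A`
  set A : ℝ := ∑ j, |m j| with hA
  have hlow : ∀ x ∈ cap W α t, ∀ j, -A ≤ x j := by
    intro x hx j
    have h1 := hm x hx j
    have h2 : |m j| ≤ A := Finset.single_le_sum (f := fun j => |m j|)
      (fun i _ => abs_nonneg _) (Finset.mem_univ j)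
    have h3 := neg_abs_le (m j)
    linarith
  have hA0 : 0 ≤ A := Finset.sum_nonneg (fun i _ => abs_nonneg _)
  set S : ℝ := ∑ i, α i with hS
  have hup : ∀ x ∈ cap W α t, ∀ j, α j * x j ≤ |t| + A * S := by
    intro x hx j
    have h2 := hx.2
    rw [← Finset.add_sum_erase Finset.univ (fun i => α i * x i) (Finset.mem_univ j)] at h2
    have h3 : -(A * S) ≤ ∑ i ∈ Finset.univ.erase j, α i * x i := by
      have h4 : ∑ i ∈ Finset.univ.erase j, α i * (-A) ≤ ∑ i ∈ Finset.univ.erase j, α i * x i :=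
        Finset.sum_le_sum (fun i _ => mul_le_mul_of_nonneg_left (hlow x hx i) (hp i).le)
      have h5 : ∑ i ∈ Finset.univ.erase j, α i ≤ S :=
        Finset.sum_le_sum_of_subset_of_nonneg (Finset.subset_univ _) (fun i _ _ => (hp i).le)
      rw [← Finset.sum_mul] at h4
      nlinarith
    have := le_abs_self t
    linarith
  refine ⟨A + ∑ j, (|t| + A * S) / α j, fun x hx j => ?_⟩
  have hS0 : 0 ≤ S := Finset.sum_nonneg (fun i _ => (hp i).le)
  have hnn : ∀ j, 0 ≤ (|t| + A * S) / α j := fun j =>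
    div_nonneg (by positivity) (hp j).le
  have h1 : x j ≤ (|t| + A * S) / α j := by
    rw [le_div_iff₀ (hp j)]
    have := hup x hx j
    linarith [mul_comm (α j) (x j)]
  have h2 : (|t| + A * S) / α j ≤ ∑ j, (|t| + A * S) / α j :=
    Finset.single_le_sum (f := fun j => (|t| + A * S) / α j) (fun i _ => hnn i)
      (Finset.mem_univ j)
  have h0 : 0 ≤ ∑ j, (|t| + A * S) / α j := Finset.sum_nonneg (fun i _ => hnn i)
  rw [abs_le]
  constructor
  · have := hlow x hx j
    linarith
  · linarith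

lemma GoodU.cap_bounded (hW : GoodU U W) (hα : α ∈ U) (t : ℝ) :
    Bornology.IsBounded (cap W α t) := by
  obtain ⟨R, hR⟩ := hW.coord_upper hα t
  rw [isBounded_iff_forall_norm_le]
  refine ⟨|R|, fun x hx => ?_⟩
  rw [pi_norm_le_iff_of_nonneg (abs_nonneg R)]
  intro i
  rw [Real.norm_eq_abs]
  exact (hR x hx i).trans (le_abs_self R)

lemma GoodU.cap_closed (hW : GoodU U W) (t : ℝ) : IsClosed (cap W α t) := by
  have : cap W α t = W ∩ {x | ∑ i, α i * x i ≤ t} := rfl
  rw [this]
  exact hW.closed.inter (isClosed_le (by fun_prop) continuous_const)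

lemma GoodU.cap_measurable (hW : GoodU U W) (t : ℝ) : MeasurableSet (cap W α t) :=
  (hW.cap_closed t).measurableSet

lemma GoodU.cap_lt_top (hW : GoodU U W) (hα : α ∈ U) (t : ℝ) :
    volume (cap W α t) < ⊤ :=
  (hW.cap_bounded hα t).measure_lt_top


lemma GoodU.V_mono (hW : GoodU U W) (hα : α ∈ U) {t t' : ℝ} (h : t ≤ t') :
    V W α t ≤ V W α t' :=
  measureReal_mono (cap_mono W α h) (hW.cap_lt_top hα t').ne




/-- If a point of `W` lies strictly below level `t` then the cap at level `t` has positive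
volume. -/
lemma GoodU.V_pos_of_mem (hW : GoodU U W) (hα : α ∈ U) {x : Fin (n + 1) → ℝ} (hx : x ∈ W)
    {t : ℝ} (ht : ∑ i, α i * x i < t) : 0 < V W α t := by
  classical
  have hp := hW.pos α hα
  set S : ℝ := ∑ i, α i with hS
  have hSpos : 0 < S := Finset.sum_pos (fun i _ => hp i) Finset.univ_nonempty
  set r : ℝ := (t - ∑ i, α i * x i) / S with hr
  have hrpos : 0 < r := div_pos (by linarith) hSpos
  have hsub : Set.pi Set.univ (fun i => Set.Ioo (x i) (x i + r)) ⊆ cap W α t := by
    intro z hz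
    rw [Set.mem_univ_pi] at hz
    constructor
    · have := hW.up x hx (fun i => z i - x i) (fun i => by linarith [(hz i).1])
      convert this using 1
      ext i; simp
    · have h1 : ∑ i, α i * z i ≤ ∑ i, α i * (x i + r) :=
        Finset.sum_le_sum (fun i _ => mul_le_mul_of_nonneg_left (hz i).2.le (hp i).le)
      have h2 : ∑ i, α i * (x i + r) = ∑ i, α i * x i + S * r := by
        rw [hS, Finset.sum_mul, ← Finset.sum_add_distrib]
        exact Finset.sum_congr rfl (fun i _ => by ring)
      have h3 : S * r = t - ∑ i, α i * x i := by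
        rw [hr]; field_simp
      linarith
  have hpos : 0 < volume (Set.pi Set.univ (fun i => Set.Ioo (x i) (x i + r))) := by
    apply IsOpen.measure_pos
    · exact isOpen_set_pi Set.finite_univ (fun i _ => isOpen_Ioo)
    · refine ⟨fun i => x i + r / 2, ?_⟩
      rw [Set.mem_univ_pi]
      intro i
      constructor <;> linarith
  rw [V, measureReal_def]
  exact ENNReal.toReal_pos ((hpos.trans_le (measure_mono hsub)).ne') (hW.cap_lt_top hα t).ne



lemma GoodU.V_strictMono (hW : GoodU U W) (hα : α ∈ U) {t t' : ℝ} (h : t < t')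
    (hpos : 0 < V W α t') : V W α t < V W α t' := by
  classical
  have hp := hW.pos α hα
  obtain ⟨x, hx, hxt⟩ := Good.exists_mem_lt_of_V_pos hp hpos
  set S : ℝ := ∑ i, α i with hS
  have hSpos : 0 < S := Finset.sum_pos (fun i _ => hp i) Finset.univ_nonempty
  -- a box inside `W` between the levels `max t (α x)` and `t'`
  set a : ℝ := max t (∑ i, α i * x i) with ha
  have hat : a < t' := max_lt h hxt
  set r : ℝ := (a - ∑ i, α i * x i) / S with hr
  have hr0 : 0 ≤ r := div_nonneg (by rw [ha]; linarith [le_max_right t (∑ i, α i * x i)]) hSpos.le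
  set q : ℝ := (t' - ∑ i, α i * x i) / S with hq
  have hrq : r < q := by
    rw [hr, hq]; exact div_lt_div_of_pos_right (by linarith) hSpos
  have hsub : Set.pi Set.univ (fun i => Set.Ioo (x i + r) (x i + q)) ⊆
      cap W α t' \ cap W α t := by
    intro z hz
    rw [Set.mem_univ_pi] at hz
    have h2 : ∀ r, ∑ i, α i * (x i + r) = ∑ i, α i * x i + S * r := by
      intro r
      rw [hS, Finset.sum_mul, ← Finset.sum_add_distrib]
      exact Finset.sum_congr rfl (fun i _ => by ring)
    have hlt1 : ∑ i, α i * (x i + r) < ∑ i, α i * z i :=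
      Finset.sum_lt_sum_of_nonempty Finset.univ_nonempty
        (fun i _ => mul_lt_mul_of_pos_left (hz i).1 (hp i))
    have hlt2 : ∑ i, α i * z i < ∑ i, α i * (x i + q) :=
      Finset.sum_lt_sum_of_nonempty Finset.univ_nonempty
        (fun i _ => mul_lt_mul_of_pos_left (hz i).2 (hp i))
    have h3 : S * r = a - ∑ i, α i * x i := by
      rw [hr]; field_simp
    have h4 : S * q = t' - ∑ i, α i * x i := by
      rw [hq]; field_simp
    have hta : t ≤ a := le_max_left _ _
    rw [h2] at hlt1 hlt2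
    refine ⟨⟨?_, by linarith⟩, ?_⟩
    · have := hW.up x hx (fun i => z i - x i) (fun i => by linarith [(hz i).1])
      convert this using 1
      ext i; simp
    · intro hz2
      have := hz2.2
      linarith
  have hposb : 0 < volume (Set.pi Set.univ (fun i => Set.Ioo (x i + r) (x i + q))) := by
    apply IsOpen.measure_pos
    · exact isOpen_set_pi Set.finite_univ (fun i _ => isOpen_Ioo)
    · refine ⟨fun i => x i + (r + q) / 2, ?_⟩
      rw [Set.mem_univ_pi]
      intro i
      constructor <;> linarith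
  have h1 : volume (cap W α t' \ cap W α t) = volume (cap W α t') - volume (cap W α t) :=
    measure_sdiff (cap_mono W α h.le) (hW.cap_measurable t).nullMeasurableSet
      (hW.cap_lt_top hα t).ne
  have h2 : 0 < volume (cap W α t' \ cap W α t) := hposb.trans_le (measure_mono hsub)
  rw [h1] at h2
  have h3 := tsub_pos_iff_lt.mp h2
  rw [V, V, measureReal_def, measureReal_def]
  exact (ENNReal.toReal_lt_toReal (hW.cap_lt_top hα t).ne (hW.cap_lt_top hα t').ne).mpr h3

end Pool.Agent.PRC
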