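import Pool.Agent.PRC.Lev1

/-!
# Fubini for caps (after `Pool.Agent.H30.Sccp.Ell`, helper30)
-/

set_option autoImplicit false

open MeasureTheory MeasureTheory.Measure Set
open Pool.Agent.H30.Sccp

namespace Pool.Agent.PRC

variable {n : ℕ} {U W : Set (Fin (n + 1) → ℝ)}

lemma GoodU.line_up (hW : GoodU U W) {y : Fin n → ℝ} {z z' : ℝ}
    (hz : (Fin.cons z y : Fin (n + 1) → ℝ) ∈ W) (h : z ≤ z') :
    (Fin.cons z' y : Fin (n + 1) → ℝ) ∈ W := by
  have := hW.up _ hz (Fin.cons (z' - z) 0) (by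
    intro i
    refine Fin.cases ?_ (fun j => ?_) i
    · simpa using h
    · simp)
  convert this using 1
  ext i
  refine Fin.cases ?_ (fun j => ?_) i
  · simp
  · simp

lemma GoodU.line_bdd (hW : GoodU U W) (y : Fin n → ℝ) :
    ∃ m : ℝ, ∀ z : ℝ, (Fin.cons z y : Fin (n + 1) → ℝ) ∈ W → m ≤ z := by
  obtain ⟨γ, hγ⟩ := hW.Une
  obtain ⟨m, hm⟩ := hW.bdd γ hγ
  have hp := hW.pos γ hγ 0
  refine ⟨(m - ∑ i : Fin n, γ i.succ * y i) / γ 0, fun z hz => ?_⟩
  have := hm _ hz
  rw [Fin.sum_univ_succ] at this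
  simp only [Fin.cons_zero, Fin.cons_succ] at this
  rw [div_le_iff₀ hp]
  linarith [mul_comm (γ 0) z]

lemma GoodU.ellM_lt_top (hW : GoodU U W) (y : Fin n → ℝ) (c : ℝ) : ellM W y c < ⊤ := by
  obtain ⟨m, hm⟩ := hW.line_bdd y
  have : {z : ℝ | z ≤ c ∧ (Fin.cons z y : Fin (n + 1) → ℝ) ∈ W} ⊆ Icc m c :=
    fun z hz => ⟨hm z hz.2, hz.1⟩
  exact (measure_mono this).trans_lt (by simp)


lemma GoodU.ell_mono (hW : GoodU U W) (y : Fin n → ℝ) {c c' : ℝ} (h : c ≤ c') :
    ell W y c ≤ ell W y c' := by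
  apply ENNReal.toReal_mono (hW.ellM_lt_top y c').ne
  exact measure_mono (fun z hz => ⟨hz.1.trans h, hz.2⟩)

lemma GoodU.ell_eq_zero (hW : GoodU U W) {y : Fin n → ℝ} {c : ℝ}
    (h : (Fin.cons c y : Fin (n + 1) → ℝ) ∉ W) : ell W y c = 0 := by
  have : {z : ℝ | z ≤ c ∧ (Fin.cons z y : Fin (n + 1) → ℝ) ∈ W} = ∅ := by
    ext z
    simp only [mem_ofPred_eq, mem_empty_iff_false, iff_false, not_and]
    intro hz hmem
    exact h (hW.line_up hmem hz)
  rw [ell, ellM, this]
  simp

/-- Increments of the length. -/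
lemma GoodU.ell_le_add (hW : GoodU U W) (y : Fin n → ℝ) {c c' : ℝ} (h : c ≤ c') :
    ell W y c' ≤ ell W y c + (c' - c) := by
  have hsub : {z : ℝ | z ≤ c' ∧ (Fin.cons z y : Fin (n + 1) → ℝ) ∈ W} ⊆
      {z : ℝ | z ≤ c ∧ (Fin.cons z y : Fin (n + 1) → ℝ) ∈ W} ∪ Ioc c c' := by
    intro z hz
    by_cases hzc : z ≤ c
    · exact Or.inl ⟨hzc, hz.2⟩
    · exact Or.inr ⟨not_le.mp hzc, hz.1⟩
  have h1 : ellM W y c' ≤ ellM W y c + ENNReal.ofReal (c' - c) := by
    refine (measure_mono hsub).trans ((measure_union_le _ _).trans ?_)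
    rw [Real.volume_Ioc]
    rfl
  have h2 := ENNReal.toReal_mono (ENNReal.add_lt_top.mpr
    ⟨hW.ellM_lt_top y c, ENNReal.ofReal_lt_top⟩).ne h1
  rwa [ENNReal.toReal_add (hW.ellM_lt_top y c).ne ENNReal.ofReal_ne_top,
    ENNReal.toReal_ofReal (by linarith)] at h2

lemma GoodU.ell_add_le (hW : GoodU U W) {y : Fin n → ℝ} {c c' : ℝ} (h : c ≤ c')
    (hc : (Fin.cons c y : Fin (n + 1) → ℝ) ∈ W) :
    ell W y c + (c' - c) ≤ ell W y c' := by
  have hsub : {z : ℝ | z ≤ c ∧ (Fin.cons z y : Fin (n + 1) → ℝ) ∈ W} ∪ Ioc c c' ⊆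
      {z : ℝ | z ≤ c' ∧ (Fin.cons z y : Fin (n + 1) → ℝ) ∈ W} := by
    rintro z (hz | hz)
    · exact ⟨hz.1.trans h, hz.2⟩
    · exact ⟨hz.2, hW.line_up hc hz.1.le⟩
  have hdisj : Disjoint {z : ℝ | z ≤ c ∧ (Fin.cons z y : Fin (n + 1) → ℝ) ∈ W} (Ioc c c') := by
    rw [Set.disjoint_left]
    intro z hz hz'
    exact absurd hz.1 (not_le.mpr hz'.1)
  have h1 : ellM W y c + ENNReal.ofReal (c' - c) ≤ ellM W y c' := by
    have := measure_mono (μ := (volume : Measure ℝ)) hsub
    rw [measure_union hdisj measurableSet_Ioc, Real.volume_Ioc] at this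
    exact this
  have h2 := ENNReal.toReal_mono (hW.ellM_lt_top y c').ne h1
  rwa [ENNReal.toReal_add (hW.ellM_lt_top y c).ne ENNReal.ofReal_ne_top,
    ENNReal.toReal_ofReal (by linarith)] at h2

open Classical in
/-- The subgradient inequality for the length function. -/
lemma GoodU.ell_subgrad (hW : GoodU U W) (y : Fin n → ℝ) (c c' : ℝ) :
    ell W y c + (if (Fin.cons c y : Fin (n + 1) → ℝ) ∈ W then (c' - c) else 0) ≤ ell W y c' := by
  split_ifs with hc
  · rcases le_total c c' with h | h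
    · exact hW.ell_add_le h hc
    · have := hW.ell_le_add y h
      linarith
  · rw [hW.ell_eq_zero hc]
    simpa using ell_nonneg W y c'

/-- Fubini for caps. -/
lemma GoodU.cap_lintegral (hW : GoodU U W) (a : Fin n → ℝ) (t : ℝ) :
    volume (cap W (one_cons a) t) = ∫⁻ y : Fin n → ℝ, ellM W y (t - ∑ i, a i * y i) := by
  let e := MeasurableEquiv.piFinSuccAbove (fun _ : Fin (n + 1) => ℝ) 0
  have he : MeasurePreserving e volume volume :=
    volume_preserving_piFinSuccAbove (fun _ : Fin (n + 1) => ℝ) 0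
  have hes : ∀ p : ℝ × (Fin n → ℝ), e.symm p = Fin.cons p.1 p.2 := by
    intro p
    simp only [e, MeasurableEquiv.piFinSuccAbove_symm_apply]
    ext i
    refine Fin.cases ?_ (fun j => ?_) i
    · simp [Fin.insertNthEquiv]
    · simp [Fin.insertNthEquiv]
  have h1 : volume (cap W (one_cons a) t) = volume (e.symm ⁻¹' (cap W (one_cons a) t)) :=
    (he.symm.measure_preimage_equiv _).symm
  have hmeas : MeasurableSet (e.symm ⁻¹' (cap W (one_cons a) t)) :=
    e.symm.measurable (hW.cap_measurable t)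
  rw [h1, Measure.volume_eq_prod, Measure.prod_apply_symm hmeas]
  apply lintegral_congr
  intro y
  rw [ellM]
  congr 1
  ext z
  simp only [mem_preimage, hes, cap, mem_ofPred_eq, sum_one_cons, Fin.cons_zero, Fin.cons_succ]
  constructor
  · rintro ⟨h1, h2⟩
    exact ⟨by linarith, h1⟩
  · rintro ⟨h1, h2⟩
    exact ⟨h2, by linarith⟩

lemma GoodU.ell_measurable (hW : GoodU U W) (a : Fin n → ℝ) (t : ℝ) :
    Measurable (fun y : Fin n → ℝ => ellM W y (t - ∑ i, a i * y i)) := by
  let e := MeasurableEquiv.piFinSuccAbove (fun _ : Fin (n + 1) => ℝ) 0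
  have hes : ∀ p : ℝ × (Fin n → ℝ), e.symm p = Fin.cons p.1 p.2 := by
    intro p
    simp only [e, MeasurableEquiv.piFinSuccAbove_symm_apply]
    ext i
    refine Fin.cases ?_ (fun j => ?_) i
    · simp [Fin.insertNthEquiv]
    · simp [Fin.insertNthEquiv]
  have hmeas : MeasurableSet (e.symm ⁻¹' (cap W (one_cons a) t)) :=
    e.symm.measurable (hW.cap_measurable t)
  have := measurable_measure_prodMk_right (μ := (volume : Measure ℝ)) hmeas
  convert this using 2 with y
  rw [ellM]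
  congr 1
  ext z
  simp only [mem_preimage, hes, cap, mem_ofPred_eq, sum_one_cons, Fin.cons_zero, Fin.cons_succ]
  constructor
  · rintro ⟨h1, h2⟩
    exact ⟨h2, by linarith⟩
  · rintro ⟨h1, h2⟩
    exact ⟨by linarith, h1⟩

lemma GoodU.ell_integrable (hW : GoodU U W) {a : Fin n → ℝ} (ha : one_cons a ∈ U) (t : ℝ) :
    Integrable (fun y : Fin n → ℝ => ell W y (t - ∑ i, a i * y i)) := by
  apply integrable_toReal_of_lintegral_ne_top
  · exact (hW.ell_measurable a t).aemeasurable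
  · rw [← hW.cap_lintegral a t]
    exact (hW.cap_lt_top ha t).ne

lemma GoodU.V_eq_integral (hW : GoodU U W) (a : Fin n → ℝ) (t : ℝ) :
    V W (one_cons a) t = ∫ y : Fin n → ℝ, ell W y (t - ∑ i, a i * y i) := by
  rw [V, measureReal_def, hW.cap_lintegral a t]
  symm
  apply integral_toReal
  · exact (hW.ell_measurable a t).aemeasurable
  · exact Filter.Eventually.of_forall (fun y => hW.ellM_lt_top y _)

lemma GoodU.shadow_closed (hW : GoodU U W) (a : Fin n → ℝ) (t : ℝ) :
    IsClosed (shadow W (one_cons a) t) := by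
  have : shadow W (one_cons a) t =
      (fun y : Fin n → ℝ => (Fin.cons (t - ∑ i : Fin n, a i * y i) y : Fin (n + 1) → ℝ)) ⁻¹' W := by
    ext y
    rw [mem_shadow_one_cons]
    rfl
  rw [this]
  apply hW.closed.preimage
  apply continuous_pi
  intro i
  refine Fin.cases ?_ (fun j => ?_) i
  · simp only [Fin.cons_zero]; fun_prop
  · simp only [Fin.cons_succ]; fun_prop

lemma GoodU.shadow_bounded (hW : GoodU U W) {a : Fin n → ℝ} (ha : one_cons a ∈ U) (t : ℝ) :
    Bornology.IsBounded (shadow W (one_cons a) t) := by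
  obtain ⟨R, hR⟩ := hW.coord_upper ha t
  rw [isBounded_iff_forall_norm_le]
  refine ⟨|R|, fun y hy => ?_⟩
  rw [pi_norm_le_iff_of_nonneg (abs_nonneg R)]
  intro i
  rw [Real.norm_eq_abs]
  rw [mem_shadow_one_cons] at hy
  have hmem : (Fin.cons (t - ∑ i : Fin n, a i * y i) y : Fin (n + 1) → ℝ) ∈
      cap W (one_cons a) t := by
    refine ⟨hy, ?_⟩
    rw [sum_one_cons]
    simp
  have := hR _ hmem i.succ
  simp only [Fin.cons_succ] at this
  exact this.trans (le_abs_self R)

lemma GoodU.shadow_lt_top (hW : GoodU U W) {a : Fin n → ℝ} (ha : one_cons a ∈ U) (t : ℝ) :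
    volume (shadow W (one_cons a) t) < ⊤ :=
  (hW.shadow_bounded ha t).measure_lt_top


/-- The subgradient inequality for the volume function. -/
lemma GoodU.V_subgrad (hW : GoodU U W) {a b : Fin n → ℝ} (ha : one_cons a ∈ U) (hb : one_cons b ∈ U)
    (t u : ℝ) :
    V W (one_cons a) t + ∫ y in shadow W (one_cons a) t,
      ((u - ∑ i, b i * y i) - (t - ∑ i, a i * y i)) ≤ V W (one_cons b) u := by
  classical
  have hS : MeasurableSet (shadow W (one_cons a) t) := (hW.shadow_closed a t).measurableSet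
  have hint : IntegrableOn (fun y : Fin n → ℝ =>
      ((u - ∑ i, b i * y i) - (t - ∑ i, a i * y i))) (shadow W (one_cons a) t) :=
    integrableOn_of_bounded (hW.shadow_bounded ha t) (hW.shadow_closed a t) (by fun_prop)
  rw [hW.V_eq_integral, hW.V_eq_integral, ← integral_indicator hS,
    ← integral_add (hW.ell_integrable ha t) ((integrable_indicator_iff hS).mpr hint)]
  apply integral_mono ((hW.ell_integrable ha t).add ((integrable_indicator_iff hS).mpr hint))
    (hW.ell_integrable hb u)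
  intro y
  have h1 := hW.ell_subgrad y (t - ∑ i, a i * y i) (u - ∑ i, b i * y i)
  have h2 : (shadow W (one_cons a) t).indicator (fun y : Fin n → ℝ =>
      ((u - ∑ i, b i * y i) - (t - ∑ i, a i * y i))) y =
      if (Fin.cons (t - ∑ i, a i * y i) y : Fin (n + 1) → ℝ) ∈ W then
        ((u - ∑ i, b i * y i) - (t - ∑ i, a i * y i)) else 0 := by
    rw [indicator_apply]
    simp only [mem_shadow_one_cons]
  change ell W y (t - ∑ i, a i * y i) + (shadow W (one_cons a) t).indicator _ y ≤ _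
  rw [h2]
  exact h1

end Pool.Agent.PRC
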