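import Pool.Agent.H30.Sccp.Transfer
import Pool.Agent.PRC.Lev3

/-!
# From the geometric statement to coordinates (after `Pool.Agent.H30.Sccp.Transfer`, helper30)
-/

set_option autoImplicit false

open MeasureTheory MeasureTheory.Measure Set Filter Topology
open Pool.Agent.H30.Sccp

namespace Pool.Agent.PRC

variable {n : ℕ} {U : Set (Fin (n + 1) → ℝ)}

lemma slice_boundedU (L : (Eu n) ≃ₗ[ℝ] (Fin (n + 1) → ℝ)) {Ω : Set (Eu n)} {α : Fin (n + 1) → ℝ}
    (hW : GoodU U (coordSet L Ω)) (hα : α ∈ U) (x : Eu n) :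
    Bornology.IsBounded (slice Ω (LinearMap.ker (func L α)) x) := by
  rw [slice_eq]
  have h1 := hW.cap_bounded hα (∑ i, α i * L x i)
  have hcomp : IsCompact (cap (coordSet L Ω) α (∑ i, α i * L x i)) :=
    Metric.isCompact_of_isClosed_isBounded (hW.cap_closed _) h1
  have h2 := (hcomp.image (cont_Lsymm L)).isBounded
  apply h2.subset
  intro y hy
  exact ⟨L y, ⟨hy.1, hy.2.le⟩, by simp⟩

lemma exists_interior_of_V_posU {W : Set (Fin (n + 1) → ℝ)} (hW : GoodU U W) {α : Fin (n + 1) → ℝ}
    (hα : α ∈ U) {t : ℝ} (h : 0 < V W α t) :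
    ∃ x ∈ interior W, ∑ i, α i * x i = t := by
  obtain ⟨x, hx, hxt⟩ := Good.exists_mem_lt_of_V_pos (hW.pos _ hα) h
  set S : ℝ := ∑ i, α i with hS
  have hSpos : 0 < S := Finset.sum_pos (fun i _ => hW.pos _ hα i) Finset.univ_nonempty
  set r : ℝ := (t - ∑ i, α i * x i) / S with hr
  have hrpos : 0 < r := div_pos (by linarith) hSpos
  refine ⟨fun i => x i + r, ?_, ?_⟩
  · rw [mem_interior]
    refine ⟨Set.pi Set.univ (fun i => Set.Ioi (x i)), ?_, ?_, ?_⟩
    · intro z hz
      rw [Set.mem_univ_pi] at hz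
      have := hW.up x hx (fun i => z i - x i) (fun i => by
        have := hz i; rw [mem_Ioi] at this; linarith)
      convert this using 1
      ext i; simp
    · exact isOpen_set_pi Set.finite_univ (fun i _ => isOpen_Ioi)
    · rw [Set.mem_univ_pi]
      intro i
      rw [mem_Ioi]
      linarith
  · have h2 : ∑ i, α i * (x i + r) = ∑ i, α i * x i + S * r := by
      rw [hS, Finset.sum_mul, ← Finset.sum_add_distrib]
      exact Finset.sum_congr rfl (fun i _ => by ring)
    have h3 : S * r = t - ∑ i, α i * x i := by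
      rw [hr]; field_simp
    rw [h2, h3]; ring

lemma shadow_posU {W : Set (Fin (n + 1) → ℝ)} (hW : GoodU U W) {a : Fin n → ℝ}
    (ha : one_cons a ∈ U) {t : ℝ} (h : 0 < V W (one_cons a) t) :
    volume (shadow W (one_cons a) t) ≠ 0 := by
  obtain ⟨x, hx, hxt⟩ := Good.exists_mem_lt_of_V_pos (hW.pos _ ha) h
  have hapos : ∀ i, 0 < a i := fun i => by simpa [one_cons] using hW.pos _ ha i.succ
  rw [sum_one_cons] at hxt
  set O : Set (Fin n → ℝ) := {y | (∀ i, x i.succ < y i) ∧ x 0 + ∑ i, a i * y i < t} with hO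
  have hUo : IsOpen O := by
    have : O = (Set.pi Set.univ (fun i : Fin n => Set.Ioi (x i.succ))) ∩
        {y | x 0 + ∑ i, a i * y i < t} := by
      ext y
      simp only [hO, mem_ofPred_eq, mem_inter_iff, Set.mem_univ_pi, mem_Ioi]
    rw [this]
    exact (isOpen_set_pi Set.finite_univ (fun i _ => isOpen_Ioi)).inter
      (isOpen_lt (by fun_prop) continuous_const)
  have hUne : O.Nonempty := by
    set S : ℝ := ∑ i, a i with hS
    have hS0 : 0 ≤ S := Finset.sum_nonneg (fun i _ => (hapos i).le)
    set r : ℝ := (t - (x 0 + ∑ i : Fin n, a i * x i.succ)) / (S + 1) with hr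
    have hr0 : 0 < r := div_pos (by linarith) (by linarith)
    refine ⟨fun i => x i.succ + r, fun i => by simp only; linarith, ?_⟩
    have h2 : ∑ i : Fin n, a i * (x i.succ + r) = ∑ i : Fin n, a i * x i.succ + S * r := by
      rw [hS, Finset.sum_mul, ← Finset.sum_add_distrib]
      exact Finset.sum_congr rfl (fun i _ => by ring)
    rw [h2]
    have h3 : (S + 1) * r = t - (x 0 + ∑ i : Fin n, a i * x i.succ) := by
      rw [hr]; field_simp
    nlinarith
  have hUsub : O ⊆ shadow W (one_cons a) t := by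
    rintro y ⟨h1, h2⟩
    rw [mem_shadow_one_cons]
    have := hW.up x hx (Fin.cons (t - ∑ i, a i * y i - x 0) (fun i => y i - x i.succ)) (by
      intro i
      refine Fin.cases ?_ (fun j => ?_) i
      · simp only [Fin.cons_zero]; linarith
      · simp only [Fin.cons_succ]; linarith [h1 j])
    convert this using 1
    ext i
    refine Fin.cases ?_ (fun j => ?_) i
    · simp
    · simp
  exact ((hUo.measure_pos volume hUne).trans_le (measure_mono hUsub)).ne'

theorem collinearU_of_sccp (hH : Stmts.Haus) (L : (Eu n) ≃ₗ[ℝ] (Fin (n + 1) → ℝ)) {Ω : Set (Eu n)}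
    (hW : GoodU U (coordSet L Ω)) (hS : SCCP n Ω) : CollinearU U (coordSet L Ω) := by
  intro a ha
  set α : Fin (n + 1) → ℝ := one_cons a with hα
  have hαpos : ∀ i, 0 < α i := hW.pos _ ha
  obtain ⟨p, d, hd, hline⟩ := hS (LinearMap.ker (func L α)) (finrank_ker_func L hαpos)
    (slice_boundedU L hW ha)
  -- the centroid of the section at level `t`
  have key : ∀ t, 0 < V (coordSet L Ω) α t → ∃ s : ℝ,
      (Fin.cons (t - ∑ i : Fin n, a i * (⨍ y in shadow (coordSet L Ω) α t, y) i)
        (⨍ y in shadow (coordSet L Ω) α t, y) : Fin (n + 1) → ℝ) = L p + s • L d := by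
    intro t ht
    obtain ⟨x, hx, hxt⟩ := exists_interior_of_V_posU hW ha ht
    have hne : (slice (interior Ω) (LinearMap.ker (func L α)) (L.symm x)).Nonempty := by
      refine ⟨L.symm x, ?_, by simp⟩
      rw [mem_interior] at hx ⊢
      obtain ⟨U, hU1, hU2, hU3⟩ := hx
      refine ⟨L ⁻¹' U, fun z hz => ?_, hU2.preimage (cont_L L), ?_⟩
      · have := hU1 hz
        rw [mem_coordSet_apply] at this
        exact this
      · simpa using hU3
    obtain ⟨s, hs⟩ := hline _ hne
    refine ⟨s, ?_⟩
    have h1 := hH n L (coordSet L Ω) α t (by simp [hα, one_cons])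
      (hW.shadow_closed a t).measurableSet (hW.shadow_bounded ha t) (shadow_posU hW ha ht)
    rw [slice_eq] at hs
    simp only [LinearEquiv.apply_symm_apply, hxt] at hs
    rw [h1] at hs
    have h2 := congrArg L hs
    rw [LinearEquiv.apply_symm_apply, map_add, map_smul] at h2
    rw [← h2]
    simp only [hα, one_cons, Fin.cons_zero, Fin.cons_succ, div_one]
  -- the functional is nonzero on `d`
  have hval : ∀ t, 0 < V (coordSet L Ω) α t → ∀ s : ℝ,
      (Fin.cons (t - ∑ i : Fin n, a i * (⨍ y in shadow (coordSet L Ω) α t, y) i)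
        (⨍ y in shadow (coordSet L Ω) α t, y) : Fin (n + 1) → ℝ) = L p + s • L d →
      t = ∑ i, α i * L p i + s * ∑ i, α i * L d i := by
    intro t ht s hs
    have h1 : ∑ i, α i * (Fin.cons (t - ∑ i : Fin n, a i *
        (⨍ y in shadow (coordSet L Ω) α t, y) i)
        (⨍ y in shadow (coordSet L Ω) α t, y) : Fin (n + 1) → ℝ) i = t := by
      rw [hα, sum_one_cons]
      simp
    rw [hs] at h1
    rw [← h1]
    simp only [Pi.add_apply, Pi.smul_apply, smul_eq_mul, mul_add, Finset.sum_add_distrib,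
      Finset.mul_sum]
    congr 1
    exact Finset.sum_congr rfl (fun i _ => by ring)
  have hdne : ∑ i, α i * L d i ≠ 0 := by
    intro hzero
    obtain ⟨t, ht⟩ := hW.V_unbounded ha 1
    have ht1 : 0 < V (coordSet L Ω) α t := by linarith
    have ht2 : 0 < V (coordSet L Ω) α (t + 1) :=
      ht1.trans_le (hW.V_mono ha (by linarith))
    obtain ⟨s1, hs1⟩ := key t ht1
    obtain ⟨s2, hs2⟩ := key (t + 1) ht2
    have e1 := hval t ht1 s1 hs1
    have e2 := hval (t + 1) ht2 s2 hs2
    rw [hzero] at e1 e2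
    linarith
  set D : ℝ := ∑ i, α i * L d i with hD
  set P : ℝ := ∑ i, α i * L p i with hP
  refine ⟨fun i => L p i.succ - P / D * L d i.succ, fun i => L d i.succ / D, fun t ht i => ?_⟩
  obtain ⟨s, hs⟩ := key t ht
  have e := hval t ht s hs
  have hs' : s = (t - P) / D := by rw [e]; field_simp; ring
  have hmi : (⨍ y in shadow (coordSet L Ω) α t, y) i = L p i.succ + s * L d i.succ := by
    have := congrFun hs i.succ
    simp only [Fin.cons_succ, Pi.add_apply, Pi.smul_apply, smul_eq_mul] at this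
    exact this
  have hvol0 : volume.real (shadow (coordSet L Ω) α t) ≠ 0 := by
    rw [measureReal_def]
    exact ENNReal.toReal_ne_zero.mpr ⟨shadow_posU hW ha ht, (hW.shadow_lt_top ha t).ne⟩
  have hint : IntegrableOn (fun y : Fin n → ℝ => y) (shadow (coordSet L Ω) α t) :=
    continuous_id.continuousOn.integrableOn_compact
      (Metric.isCompact_of_isClosed_isBounded (hW.shadow_closed a t) (hW.shadow_bounded ha t))
  have hcomp : ∫ y in shadow (coordSet L Ω) α t, y i =
      (∫ y in shadow (coordSet L Ω) α t, y) i := by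
    have := (ContinuousLinearMap.proj (R := ℝ) (φ := fun _ : Fin n => ℝ) i).integral_comp_comm hint
    simpa using this
  rw [setAverage_eq] at hmi
  simp only [Pi.smul_apply, smul_eq_mul] at hmi
  rw [← hcomp] at hmi
  change ∫ y in shadow (coordSet L Ω) α t, y i = _
  have h3 : ∫ y in shadow (coordSet L Ω) α t, y i =
      volume.real (shadow (coordSet L Ω) α t) * (L p i.succ + s * L d i.succ) := by
    rw [← hmi]
    field_simp
  rw [h3, hs']
  congr 1
  field_simp
  ring

end Pool.Agent.PRC
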