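import Pool.Agent.PRC.StE
import Pool.Agent.PRC.Lev4

/-!
# SCCP sets with polyhedral recession cone (MP_5f8b0b_gt): SCCP implies the analytic identity

`GoodU`, `CollinearU`, `GoodU.lev_affine` (after helper30's `Pool.Agent.H30.Sccp`) are in `Pool/Agent/PRC/Lev1.lean` - `Lev4.lean`;
`V`, `cap`, `shadow`, `coordSet`, `func`, `Eu` in `Pool/Agent/H30/Sccp`.
-/

set_option autoImplicit false

open MeasureTheory Set Filter Topology
open Pool.Agent.H30.Sccp

namespace Pool.Agent.PRC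

/-! ## SCCP implies `Ident` -/

/-- **COO**: coordinates in which the unit vectors are in `K`. `K` has interior, so it spans; `Module.Basis.ofSpan` (with `Module.Basis.ofSpan_subset`) gives a basis of vectors of `K`, reindex it by `Fin (n + 1)` (`finrank = n + 1`),
`L = b.equivFun`. -/
def S_COO : Prop := ∀ (n : ℕ) (K : Set (Eu n)), IsCone K →
  ∃ L : (Eu n) ≃ₗ[ℝ] (Fin (n + 1) → ℝ), ∀ i, L.symm (Pi.single i 1) ∈ K

/-- the functionals in the interior of the dual cone, in coordinates -/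
def UC {n : ℕ} (L : (Eu n) ≃ₗ[ℝ] (Fin (n + 1) → ℝ)) (K : Set (Eu n)) : Set (Fin (n + 1) → ℝ) :=
  {α | func L α ∈ UU K}

/-- **GDU**: `GoodU`. `up`: for `k ≥ 0` `L.symm k = Σ k_i L.symm e_i ∈ K`. `Une`: `S_POS`, `α_i = ξ (L.symm e_i)`. `bdd`: `S_BEL` (2). `pos`: `α_i = func L α (L.symm e_i)`, `L.symm e_i ≠ 0`. `cvx`, `cone`, `opn`: `S_BEL` (3)-(6), `func` is linear in `α`;
for `opn` the functional `x ↦ L x j`. -/
def S_GDU : Prop := ∀ (n : ℕ) (K Ω : Set (Eu n)) (L : (Eu n) ≃ₗ[ℝ] (Fin (n + 1) → ℝ)), IsCone K →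
  IsW K Ω → (∀ i, L.symm (Pi.single i 1) ∈ K) → GoodU (UC L K) (coordSet L Ω)

def M_GDU : Prop := S_POS → S_BEL → S_GDU

/-- **VRE**: the volume functions of two functionals are related by an affine substitution. For `α = α_0 one_cons a`, `β = β_0 one_cons b` (`one_cons a ∈ U` by `cone`), `GoodU.lev_affine`: `lev W b v = E' lev W a v + F'` for all `v > 0`; as in `Good.affEq` of
`Pool.Agent.H30.Sccp.Affine` (`GoodU.lev_unique`, `V_smul`) this gives the claim for all `t` with `V W α t > 0`. If `V W α t = 0` and `v = V W β (E t + F) > 0`, take `t'` with `V W α t' = v` (`GoodU.exists_level`), then `V W β (E t' + F) = v` as well and `t' = t` by strict monotonicity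
(`GoodU.V_strictMono`), contradiction. -/
def S_VRE : Prop := ∀ (n : ℕ) (U W : Set (Fin (n + 1) → ℝ)), GoodU U W → CollinearU U W →
  ∀ α ∈ U, ∀ β ∈ U, ∃ E F : ℝ, 0 < E ∧ ∀ t, V W β (E * t + F) = V W α t

/-- **LRE**: from volumes to Laplace transforms and infima. (1) Tonelli: `e^{-u} = ∫_{s > u} e^{-s} ds`, so `∫⁻_W ofReal e^{-t β x} dx = ∫⁻_s ofReal (e^{-s}) vol {x ∈ W : t β x ≤ s} ds` and `{x ∈ W : t β x ≤ s}` is `cap W β (s / t)`, of finite volume `V W β (s/t)`. Substitute `s = t (E r + F)`, `r = s'/(t E)`: both sides become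
`∫⁻_r ofReal(...)`: `∫_W e^{-t β x} = ∫ e^{-s} V_β(s/t) ds = ∫ e^{-s} V_α((s/t - F)/E) ds = e^{-tF} ∫ e^{-s'} V_α(s'/(tE)) ds' = e^{-tF} ∫_W e^{-t E α x}` (`s = s' + tF`). (2) `{t : V W α t > 0} = (inf α, ∞)`: `GoodU.V_pos_of_mem` and `Good.exists_mem_lt_of_V_pos`. -/
def S_LRE : Prop := ∀ (n : ℕ) (U W : Set (Fin (n + 1) → ℝ)), GoodU U W →
  ∀ α ∈ U, ∀ β ∈ U, ∀ E F : ℝ, 0 < E → (∀ t, V W β (E * t + F) = V W α t) →
  (∀ t : ℝ, 0 < t → ∫ x in W, Real.exp (-(t * ∑ i, β i * x i)) =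
    Real.exp (-(t * F)) * ∫ x in W, Real.exp (-(t * E * ∑ i, α i * x i))) ∧
  sInf ((fun x => ∑ i, β i * x i) '' W) = E * sInf ((fun x => ∑ i, α i * x i) '' W) + F

/-- **IDA**: SCCP implies the relation of the Laplace transforms. `L` from `S_COO`, `U = UC L K`, `GoodU` from `S_GDU`, `collinearU_of_sccp` (`Pool.Agent.PRC.Lev4`, with `haus` of `Pool.Agent.H30.Sccp.Haus`), `S_VRE`, `S_LRE`. For `ξ ∈ UU K` let `α_i = ξ (L.symm e_i)`: `ξ = func L α`;
the change of variables `y = L x` multiplies all integrals `∫_Ω F(L x) dx` by the same constant (`LinearMap` change of variables: `volume` on `Eu n` is a constant times the image of `volume` under `L.symm`; uniqueness of Haar measure as in `S_LIN`); `hinf Ω ξ = sInf` of the image in coordinates. -/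
def S_IDA : Prop := ∀ (n : ℕ) (K Ω : Set (Eu n)), IsCone K → IsW K Ω → SCCP n Ω →
  ∀ ξ₁ ∈ UU K, ∀ ξ₂ ∈ UU K, ∃ c F : ℝ, 0 < c ∧ hinf Ω ξ₂ = c * hinf Ω ξ₁ + F ∧
    ∀ t : ℝ, 0 < t → lap volume Ω (t • ξ₂) = Real.exp (-(t * F)) * lap volume Ω ((t * c) • ξ₁)

def M_IDA : Prop := S_COO → S_GDU → S_VRE → S_LRE → S_IDA

/-- **IDE**: SCCP implies `Ident`. With `c`, `F` of `S_IDA`, multiply by `t^N` and let `t → 0+` (`S_SCA`, for `ξ2` and for `c ξ1`): `L_K(ξ2) = L_K(c ξ1) = c^(-N) L_K(ξ1)`. So if `L_K(ξ1) = L_K(ξ2) > 0` then `c = 1`, `F = hinf ξ2 - hinf ξ1`. -/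
def S_IDE : Prop := ∀ (n : ℕ) (K Ω : Set (Eu n)), IsCone K → IsW K Ω → SCCP n Ω →
  Ident volume K Ω

def M_IDE : Prop := S_BEL → S_LAP → S_SCA → S_IDA → S_IDE

end Pool.Agent.PRC
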