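import Pool.Agent.PRC.StF
import Pool.Agent.PRC.StI
import Pool.Agent.H30.Sccp.Conv
import Pool.Agent.H30.Sccp.Haus

/-!
# Assembly of the main theorem (helper88)
-/

set_option autoImplicit false

open MeasureTheory Set Filter Topology
open Pool.Agent.H30.Sccp

namespace Pool.Agent.PRC

/-- the classification of SCCP sets with polyhedral recession cone -/
theorem main (hIDE : S_IDE) (hIRR : S_IRR) (hPTD : S_PTD) (hSIM : S_SIM) (n : ℕ) (hn : 1 ≤ n)
    (m : ℕ) (φ : Fin m → (Eu n →ₗ[ℝ] ℝ)) (Ω : Set (Eu n)) (hclosed : IsClosed Ω)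
    (hconv : StrictConvex ℝ Ω) (hne : Ω.Nonempty) (hun : Ω ≠ univ)
    (hrec : recCone Ω = {d | ∀ j, 0 ≤ φ j d}) (hint : (interior (recCone Ω)).Nonempty) :
    SCCP n Ω ↔ ∃ (b : Module.Basis (Fin (n + 1)) ℝ (Eu n)) (o : Eu n) (c : ℝ), 0 < c ∧
      Ω = {x | (∀ i, 0 ≤ b.repr (x - o) i) ∧ c ≤ ∏ i, b.repr (x - o) i} := by
  classical
  constructor
  · intro hS
    have hK : IsCone (recCone Ω) := hPTD n Ω hclosed hconv hne hun hint
    have hpoly : poly φ = recCone Ω := hrec.symm
    obtain ⟨J, hJ, hJirr, hJ0⟩ := hIRR (Eu n) (Fin m) φ (by rw [hpoly]; exact hK)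
    set ψ : J → (Eu n →ₗ[ℝ] ℝ) := fun j => φ j with hψ
    have hψK : poly ψ = recCone Ω := hJ.trans hpoly
    have hW : IsW (poly ψ) Ω := ⟨hclosed, hconv.convex, hne, hψK.symm⟩
    have hcone : IsCone (poly ψ) := by rw [hψK]; exact hK
    have hId : Ident volume (poly ψ) Ω := by
      rw [hψK]
      exact hIDE n (recCone Ω) Ω hK ⟨hclosed, hconv.convex, hne, rfl⟩ hS
    have hfin : 2 ≤ Module.finrank ℝ (Eu n) := by
      have : Module.finrank ℝ (Eu n) = n + 1 := by simp
      omega
    obtain ⟨T, hT⟩ := hSIM (Eu n) volume J ψ Ω hfin hcone hJirr (fun j => hJ0 j j.2) hW hconv hId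
    have hcard : Fintype.card J = n + 1 := by
      have h1 := T.finrank_eq
      have h2 : Module.finrank ℝ (Eu n) = n + 1 := by simp
      rw [h2, Module.finrank_fintype_fun_eq_card] at h1
      exact h1.symm
    let e : J ≃ Fin (n + 1) := Fintype.equivFinOfCardEq hcard
    let b : Module.Basis (Fin (n + 1)) ℝ (Eu n) := (Module.Basis.ofEquivFun T).reindex e
    have hb : ∀ x i, b.repr x i = φ (e.symm i) x := by
      intro x i
      rw [Module.Basis.repr_reindex]
      simp only [Finsupp.mapDomain_equiv_apply]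
      rw [← hT x (e.symm i)]
      rfl
    have hrec' : recCone Ω = {d | ∀ i, 0 ≤ b.repr d i} := by
      rw [← hψK]
      ext d
      constructor
      · intro h i
        rw [hb]
        exact h (e.symm i)
      · intro h j
        have := h (e j)
        rw [hb, Equiv.symm_apply_apply] at this
        exact this
    obtain ⟨o, c, hc, h⟩ := classify_of_sccp haus hn b.equivFun hclosed hconv hrec' hS
    exact ⟨b, o, c, hc, h⟩
  · rintro ⟨b, o, c, hc, rfl⟩
    exact conv haus n hn b o c hc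

end Pool.Agent.PRC
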