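import Pool.Agent.PRC.StF

/-!
# SIM: the cone is simplicial
-/

set_option autoImplicit false

open MeasureTheory Set Filter Topology

namespace Pool.Agent.PRC

theorem t_SIM : M_SIM := by
  intro hEXT hSPL E _ _ _ _ _ μ _ ι _ φ W hfin hcone hirr hne hW hsc hid
  classical
  choose v hv hpos hext using fun j => hEXT E ι φ j hcone (hne j)
  have hv0 : ∀ j, v j ≠ 0 := by
    intro j h
    have := hpos j
    rw [h, map_zero] at this
    exact lt_irrefl _ this
  have hzero : ∀ i j, i ≠ j → φ i (v j) = 0 := by
    intro i j hij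
    by_contra h
    have h1 : 0 < φ i (v j) := lt_of_le_of_ne (hv j i) (Ne.symm h)
    exact hij (hSPL E μ ι φ W hfin hcone hirr hne hW hsc hid (v j) (hv j) (hv0 j) (hext j) i j h1
      (hpos j))
  have hinj : Function.Injective (LinearMap.pi φ) := by
    rw [← LinearMap.ker_eq_bot, LinearMap.ker_eq_bot']
    intro x hx
    have hx' : ∀ i, φ i x = 0 := fun i => by
      have := congrFun hx i
      simpa using this
    refine hcone.pointed x (fun i => by rw [hx' i]) (fun i => ?_)
    rw [map_neg, hx' i, neg_zero]
  have hsurj : Function.Surjective (LinearMap.pi φ) := by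
    intro y
    refine ⟨∑ j, (y j / φ j (v j)) • v j, ?_⟩
    ext i
    rw [LinearMap.pi_apply, map_sum, Finset.sum_eq_single i]
    · rw [map_smul, smul_eq_mul]
      exact div_mul_cancel₀ _ (hpos i).ne'
    · intro j _ hji
      rw [map_smul, hzero i j hji.symm, smul_zero]
    · intro h
      exact absurd (Finset.mem_univ i) h
  exact ⟨LinearEquiv.ofBijective (LinearMap.pi φ) ⟨hinj, hsurj⟩, fun x i => rfl⟩

end Pool.Agent.PRC
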