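import Pool.Agent.PRC.StG

/-!
# SCCP sets with polyhedral recession cone (MP_5f8b0b_gt): statements about general sets

`E` is a finite-dimensional space with a Haar measure `μ`, `K` a closed convex cone with interior, without lines
(`IsCone K`), `W` a closed convex set with recession cone `K` (`IsW K W`), `lap μ S ξ = ∫_S e^{-ξ x} dμ`,
`hinf W ξ = inf_W ξ`, `UU K` the interior of the dual cone, `N = finrank ℝ E`.
-/

set_option autoImplicit false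

open MeasureTheory Set Filter Topology
open Pool.Agent.H30.Sccp

namespace Pool.Agent.PRC

/-! ## General facts -/

/-- **POS**: there is a functional which is positive on `K` except at `0`. `K ∩ sphere 0 1` is compact, its convex hull is compact (`IsCompact.convexHull`), contained in `K` and does not contain `0`: if `0 = Σ c_i x_i`
with `c_1 > 0` then `-x_1 = Σ_{i ≥ 2} (c_i/c_1) x_i ∈ K`, `x_1 = 0` (by induction; or: `0` is an extreme point of `K`). Strict separation of `0` from the hull (`geometric_hahn_banach_point_compact` or `..._closed`). -/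
def S_POS : Prop := ∀ (E : Type) [NormedAddCommGroup E] [NormedSpace ℝ E] [FiniteDimensional ℝ E]
  (K : Set E), IsCone K → (UU K).Nonempty

/-- **BEL**: (1) `c ‖d‖ ≤ ξ d` on `K` for `ξ ∈ UU K` (compactness of `K ∩ sphere 0 1`). (2) `c ‖x‖ - C ≤ ξ x` on `W`. Proof of (2): otherwise for `c` as in (1) there are `x_k ∈ W` with `ξ x_k < (c/2) ‖x_k‖ - k`, so `‖x_k‖ → ∞`
(`ξ x_k ≥ -‖ξ‖ ‖x_k‖`), a subsequence of `x_k / ‖x_k‖` converges to `u`, `‖u‖ = 1`, and `u` is a recession direction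
(as in `recession_limit` of `Pool.Agent.H30.Sccp.Transfer`), `u ∈ K`, `ξ u ≤ c/2`, contradiction. (3) `UU K` is closed under addition of functionals `e ≥ 0` on `K`, under multiplication with `t > 0`,
and open: for every `η` there is `ε > 0` with `ξ + s η ∈ UU K` for `|s| ≤ ε` (`|η d| ≤ ‖η‖ ‖d‖`). (4) convex. -/
def S_BEL : Prop := ∀ (E : Type) [NormedAddCommGroup E] [NormedSpace ℝ E] [FiniteDimensional ℝ E]
  (K W : Set E), IsCone K → IsW K W →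
  (∀ ξ ∈ UU K, ∃ c : ℝ, 0 < c ∧ ∀ d ∈ K, c * ‖d‖ ≤ ξ d) ∧
  (∀ ξ ∈ UU K, ∃ c C : ℝ, 0 < c ∧ ∀ x ∈ W, c * ‖x‖ - C ≤ ξ x) ∧
  (∀ ξ ∈ UU K, ∀ e : E →ₗ[ℝ] ℝ, (∀ d ∈ K, 0 ≤ e d) → ξ + e ∈ UU K) ∧
  (∀ ξ ∈ UU K, ∀ t : ℝ, 0 < t → t • ξ ∈ UU K) ∧
  (∀ ξ ∈ UU K, ∀ η : E →ₗ[ℝ] ℝ, ∃ ε : ℝ, 0 < ε ∧ ∀ s : ℝ, |s| ≤ ε → ξ + s • η ∈ UU K) ∧
  Convex ℝ (UU K)

/-- **LAP**: elementary facts on `lap`. (1) integrability on `W` of `e^{-ξ x}`, `ξ ∈ UU K` (dominated by `e^C e^{-c ‖x‖}`; this is integrable on `E`: bounded by a constant times `(1 + ‖x‖)^(-N-1)`, `integrable_one_add_norm`); also of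
`(1 + ‖x‖) e^{-ξ x}`. (2) `lap μ K ξ > 0`. (3) `lap μ K (t ξ) = t^(-N) lap μ K ξ`, `t > 0` (`K` is invariant under dilations, `Measure.setIntegral_comp_smul`). (4) `hinf`: `hinf W ξ ≤ ξ x` for `x ∈ W`; for all `ε > 0` there is `x ∈ W` with
`ξ x < hinf W ξ + ε`; `hinf W (t ξ) = t hinf W ξ`. (5) `K` itself is an `IsW K K` (so (1) applies to it), `x + K ⊆ W` for `x ∈ W`. -/
def S_LAP : Prop := ∀ (E : Type) [NormedAddCommGroup E] [NormedSpace ℝ E] [FiniteDimensional ℝ E]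
  [MeasurableSpace E] [BorelSpace E] (μ : Measure E) [μ.IsAddHaarMeasure] (K W : Set E),
  IsCone K → IsW K W →
  (∀ ξ ∈ UU K, IntegrableOn (fun x => Real.exp (-(ξ x))) W μ ∧
    IntegrableOn (fun x => (1 + ‖x‖) * Real.exp (-(ξ x))) W μ) ∧
  (∀ ξ ∈ UU K, 0 < lap μ K ξ ∧ 0 < lap μ W ξ) ∧
  (∀ ξ ∈ UU K, ∀ t : ℝ, 0 < t → lap μ K (t • ξ) = (t ^ Module.finrank ℝ E)⁻¹ * lap μ K ξ) ∧
  (∀ ξ ∈ UU K, (∀ x ∈ W, hinf W ξ ≤ ξ x) ∧ (∀ ε : ℝ, 0 < ε → ∃ x ∈ W, ξ x < hinf W ξ + ε)) ∧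
  (∀ ξ ∈ UU K, ∀ t : ℝ, 0 < t → hinf W (t • ξ) = t * hinf W ξ) ∧
  IsW K K ∧ (∀ x ∈ W, ∀ d ∈ K, x + d ∈ W)

def M_LAP : Prop := S_BEL → S_LAP

/-- **TRA**: translations. `W' = {x | x + z ∈ W}` is an `IsW K`, `hinf W' ξ = hinf W ξ - ξ z`, `lap μ W' ξ = e^{ξ z} lap μ W ξ`, hence `Ident` is inherited; strict convexity too. -/
def S_TRA : Prop := ∀ (E : Type) [NormedAddCommGroup E] [NormedSpace ℝ E] [FiniteDimensional ℝ E]
  [MeasurableSpace E] [BorelSpace E] (μ : Measure E) [μ.IsAddHaarMeasure] (K W : Set E) (z : E),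
  IsCone K → IsW K W → IsW K {x | x + z ∈ W} ∧
  (∀ ξ ∈ UU K, hinf {x | x + z ∈ W} ξ = hinf W ξ - ξ z) ∧
  (∀ ξ : E →ₗ[ℝ] ℝ, lap μ {x | x + z ∈ W} ξ = Real.exp (ξ z) * lap μ W ξ) ∧
  (Ident μ K W → Ident μ K {x | x + z ∈ W}) ∧
  (StrictConvex ℝ W → StrictConvex ℝ {x | x + z ∈ W})

def M_TRA : Prop := S_BEL → S_LAP → S_TRA

/-- **LIN**: linear isomorphisms. `T : E ≃ F`, `μ`, `ν` Haar measures: `{y | T.symm y ∈ W}` is an `IsW` for `{y | T.symm y ∈ K}`, `hinf` and `UU` are transported by `ξ ↦ ξ ∘ T`, `lap ν (image) ξ = c lap μ W (ξ ∘ T)` with the same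
constant `c > 0` for all sets and functionals (`ν` is `c` times the image of `μ`: uniqueness of Haar measure, `Measure.isAddHaarMeasure_eq_smul` or `addHaarMeasure_unique`; `T.toContinuousLinearEquiv`). Hence `Ident` is transported. -/
def S_LIN : Prop := ∀ (E F : Type) [NormedAddCommGroup E] [NormedSpace ℝ E] [FiniteDimensional ℝ E]
  [MeasurableSpace E] [BorelSpace E] [NormedAddCommGroup F] [NormedSpace ℝ F]
  [FiniteDimensional ℝ F] [MeasurableSpace F] [BorelSpace F] (μ : Measure E) [μ.IsAddHaarMeasure]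
  (ν : Measure F) [ν.IsAddHaarMeasure] (T : E ≃ₗ[ℝ] F) (K W : Set E),
  IsCone K → IsW K W →
  IsCone {y | T.symm y ∈ K} ∧ IsW {y | T.symm y ∈ K} {y | T.symm y ∈ W} ∧
  (Ident μ K W ↔ Ident ν {y | T.symm y ∈ K} {y | T.symm y ∈ W}) ∧
  (StrictConvex ℝ W → StrictConvex ℝ {y | T.symm y ∈ W})

/-- **SCA**: `t^N L_W(t ξ) → L_K(ξ)` for `t → 0+`. By `S_TRA` we may assume `0 ∈ W` (the factor `e^{t ξ z} → 1`). `t^N L_W(t ξ) = ∫_{t W} e^{-ξ z} dz`, i.e. `∫ 1_W(z/t) e^{-ξ z} dz`. `t W ⊆ W` for `t ≤ 1`: dominated by `1_W e^{-ξ z}`; `1_W(z/t) → 1_K(z)` off the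
boundary of `K` (a null set, `Convex.addHaar_frontier`): `K ⊆ t W`, as `0 ∈ W`; if `z ∉ K` then `z/t ∉ W` for some `t`, and then for all smaller ones (convexity, `0 ∈ W`): otherwise `s z ∈ W` for all `s > 0` and `z ∈ rec W` (closed convex, `0 ∈ W`). -/
def S_SCA : Prop := ∀ (E : Type) [NormedAddCommGroup E] [NormedSpace ℝ E] [FiniteDimensional ℝ E]
  [MeasurableSpace E] [BorelSpace E] (μ : Measure E) [μ.IsAddHaarMeasure] (K W : Set E),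
  IsCone K → IsW K W → ∀ ξ ∈ UU K,
  Tendsto (fun t : ℝ => t ^ Module.finrank ℝ E * lap μ W (t • ξ)) (𝓝[>] 0) (𝓝 (lap μ K ξ))

def M_SCA : Prop := S_BEL → S_LAP → S_TRA → S_SCA

/-! ## Bounded displacement -/

/-- **IVT**: let `ξ ∈ UU K`, `0 < ε < 1`, `e ≥ 0` on `K`, `e > 0` at some point of `int K`. There is `m ≥ 0` with `L_K(ε ξ + m e) = L_K(ξ)`: `m ↦ L_K(ε ξ + m e)` is continuous on `[0, ∞)` and tends to `0` (dominated by `e^{-ε ξ x}`; `e > 0` on `int K`, the boundary is a null set), at `m = 0` it is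
`ε^(-N) L_K(ξ) ≥ L_K(ξ)`. -/
def S_IVT : Prop := ∀ (E : Type) [NormedAddCommGroup E] [NormedSpace ℝ E] [FiniteDimensional ℝ E]
  [MeasurableSpace E] [BorelSpace E] (μ : Measure E) [μ.IsAddHaarMeasure] (K : Set E),
  IsCone K → ∀ ξ ∈ UU K, ∀ (ε : ℝ) (e : E →ₗ[ℝ] ℝ), 0 < ε → ε < 1 → (∀ d ∈ K, 0 ≤ e d) →
  (∃ d ∈ K, 0 < e d) → ∃ m : ℝ, 0 ≤ m ∧ ε • ξ + m • e ∈ UU K ∧ lap μ K (ε • ξ + m • e) = lap μ K ξ

def M_IVT : Prop := S_BEL → S_LAP → S_IVT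

/-- **REC**: the recursion. `0 ∈ W`, `X(t) = L_W(t ξ) - L_K(t ξ) = ∫_{W minus K} e^{-t ξ x}`. `K = poly φ`, `m` functionals. For `0 < ε < 1` let `M_j` be from `S_IVT` for `e = φ j` (if `φ j = 0` on `K` then, as `K` has interior, `φ j = 0`; omit it, or `M_j = 0` is not needed), `ξ_j = ε ξ + M_j φ j`. `W minus K ⊆ ⋃ {x ∈ W : φ j x < 0}`, where
`e^{-t ε ξ x} ≤ e^{-t ξ_j x}`, and `{x ∈ W : φ j x < 0} ⊆ W minus K`: `X(ε t) ≤ Σ_j (L_W(t ξ_j) - L_K(t ξ_j))`. `Ident` and `L_K(ξ_j) = L_K(ξ)`: `L_W(t ξ_j) = e^{-t F_j} L_W(t ξ)`, `F_j = h(ξ_j) - h(ξ)`, so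
`L_W(t ξ_j) - L_K(t ξ_j) = e^{-t F_j} X(t) + (e^{-t F_j} - 1) t^(-N) L_K(ξ) ≤ 2 X(t) + C t^(1-N)` for `0 < t ≤ t_0(ε)`. Result: `X(ε t) ≤ 2 m X(t) + C t^(1 - N)`. With `2 m ε^(N-1) ≤ 1/2` (`N ≥ 2`) `z(t) = t^(N-1) X(t)` satisfies
`z(ε t) ≤ z(t)/2 + C`, so `z(ε^k t_0) ≤ z(t_0) + 2 C` for all `k`. -/
def S_REC : Prop := ∀ (E : Type) [NormedAddCommGroup E] [NormedSpace ℝ E] [FiniteDimensional ℝ E]
  [MeasurableSpace E] [BorelSpace E] (μ : Measure E) [μ.IsAddHaarMeasure] (ι : Type) [Fintype ι]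
  (φ : ι → (E →ₗ[ℝ] ℝ)) (W : Set E), 2 ≤ Module.finrank ℝ E → IsCone (poly φ) →
  IsW (poly φ) W → Ident μ (poly φ) W → (0 : E) ∈ W → ∀ ξ ∈ UU (poly φ),
  ∃ (Z : ℝ) (t : ℕ → ℝ), (∀ k, 0 < t k) ∧ Tendsto t atTop (𝓝 0) ∧
    ∀ k, (t k) ^ (Module.finrank ℝ E - 1) * (lap μ W (t k • ξ) - lap μ (poly φ) (t k • ξ)) ≤ Z

def M_REC : Prop := S_BEL → S_LAP → S_IVT → S_REC

/-- **LOB**: a lower bound. Let `p` with `φ j p = 0`, `φ i p > 0` for `i ≠ j` and `φ j ≠ 0`. There is `c > 0` with `∫_{K ∩ {φ j < r}} e^{-ξ x} dμ ≥ c r` for `0 < r ≤ 1`. Proof: let `u` with `φ j u = 1`. There is a ball `B = B(p, 2 ρ)` (`ρ` small, `‖u‖` times ... ) on which `φ i > 0` for all `i ≠ j`; put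
`B' = {z ∈ B(p, ρ) : 0 < φ j z < η}` with `η ≤ 1`, `η ‖u‖ ≤ ρ`: open and nonempty (`p + s u`), `μ B' > 0`. The linear map `S_r z = z - (1 - r) φ_j(z) u` has determinant `r` (identity minus rank one, `LinearMap.det`; or: in a basis `u`, basis of `ker φ j`) and maps
`B'` into `B ∩ {0 < φ j < r η} ⊆ K ∩ {φ j < r}`; `μ(S_r B') = r μ(B')` (`Measure.addHaar_image_linearMap`), and `e^{-ξ x} ≥ e^{-‖ξ‖ (‖p‖ + 2ρ)}` there. -/
def S_LOB : Prop := ∀ (E : Type) [NormedAddCommGroup E] [NormedSpace ℝ E] [FiniteDimensional ℝ E]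
  [MeasurableSpace E] [BorelSpace E] (μ : Measure E) [μ.IsAddHaarMeasure] (ι : Type) [Finite ι]
  (φ : ι → (E →ₗ[ℝ] ℝ)) (j : ι) (p : E), IsCone (poly φ) → φ j p = 0 → (∀ i, i ≠ j → 0 < φ i p) →
  φ j ≠ 0 → ∀ ξ ∈ UU (poly φ), ∃ c : ℝ, 0 < c ∧ ∀ r : ℝ, 0 < r → r ≤ 1 →
    c * r ≤ ∫ x in poly φ ∩ {x | φ j x < r}, Real.exp (-(ξ x)) ∂μ

def M_LOB : Prop := S_BEL → S_LAP → S_LOB

/-- **STB**: bounded displacement. By `S_TRA` we may assume `0 ∈ W`. Let `Z`, `t` be from `S_REC` (`ξ ∈ UU K` from `S_POS`), `c` from `S_LOB`. If `x ∈ W`, `φ j x = -R < 0`: `x + K ⊆ W`, and `(x + K) ∩ {φ j < 0}` is disjoint from `K`, so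
`L_W(t ξ) - L_K(t ξ) ≥ ∫_{(x + K) ∩ {φ j < 0}} e^{-t ξ} = e^{-t ξ x} ∫_{K ∩ {φ j < R}} e^{-t ξ z} dz = e^{-t ξ x} t^(-N) ∫_{K ∩ {φ j < t R}} e^{-ξ z} dz ≥ e^{-t ξ x} t^(-N) c t R` for `t R ≤ 1`. So `Z ≥ e^{-t_k ξ x} c R` for large `k`, `k → ∞`: `R ≤ Z/c`.
(`φ j ≠ 0` since otherwise `Irred` is impossible for another index or, if `ι = {j}`, `K` is everything, but `K` has no lines and `N ≥ 2`.) -/
def S_STB : Prop := ∀ (E : Type) [NormedAddCommGroup E] [NormedSpace ℝ E] [FiniteDimensional ℝ E]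
  [MeasurableSpace E] [BorelSpace E] (μ : Measure E) [μ.IsAddHaarMeasure] (ι : Type) [Fintype ι]
  (φ : ι → (E →ₗ[ℝ] ℝ)) (W : Set E), 2 ≤ Module.finrank ℝ E → IsCone (poly φ) → Irred φ →
  (∀ j, φ j ≠ 0) → IsW (poly φ) W → Ident μ (poly φ) W → ∀ j, ∃ A : ℝ, ∀ x ∈ W, -A ≤ φ j x

def M_STB : Prop := S_POS → S_BEL → S_LAP → S_TRA → S_REC → S_LOB → S_STB

end Pool.Agent.PRC
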