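import Pool.Agent.PRC.StE

/-!
# SCCP sets with polyhedral recession cone (MP_5f8b0b_gt): sets over a cone, and the final combinatorics
-/

set_option autoImplicit false

open MeasureTheory Set Filter Topology
open Pool.Agent.H30.Sccp

namespace Pool.Agent.PRC

/-! ## Sets in `ℝ × ℝ^n` -/

/-- the functional `(s, y) ↦ a s + η y` -/
noncomputable def fn {n : ℕ} (a : ℝ) (η : (Fin n → ℝ) →ₗ[ℝ] ℝ) : (ℝ × (Fin n → ℝ)) →ₗ[ℝ] ℝ :=
  a • LinearMap.fst ℝ ℝ (Fin n → ℝ) + η ∘ₗ LinearMap.snd ℝ ℝ (Fin n → ℝ)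

/-- **KCU**: the cone over `C` and above the graph of `g`. (1) it is an `IsCone` (closed: `g` continuous; convex: `g` subadditive and homogeneous; pointed: `(s, y), (-s, -y)`: `y = 0`, `g 0 = 0 ≤ ±s`; interior: `(g y + 1, y)`, `y ∈ int C`). (2) `UU` of it is `UG`: `(a, η)` is positive at `(1, 0)` iff `a > 0`; for `y ≠ 0` test
`(g y, y)`; for `(s, y)` with `s ≥ g y`, `a s + η y ≥ a g y + η y`. (3) every functional is an `fn`. -/
def S_KCU : Prop := ∀ (n : ℕ) (C : Set (Fin n → ℝ)) (ι : Type) [Finite ι] [Nonempty ι]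
  (l : ι → ((Fin n → ℝ) →ₗ[ℝ] ℝ)), IsCone C → IsCone (KC C (gg l)) ∧
  (∀ (a : ℝ) (η : (Fin n → ℝ) →ₗ[ℝ] ℝ), fn a η ∈ UU (KC C (gg l)) ↔ UG C (gg l) a η) ∧
  (∀ ξ : (ℝ × (Fin n → ℝ)) →ₗ[ℝ] ℝ, ∃ a η, ξ = fn a η)

def M_KCU : Prop := S_GGB → S_KCU

/-- **FUB**: Fubini. If for a.e. `y` the fibre of `S` over `y` is `[f y, ∞)` up to a null set for `y ∈ O` and empty for `y ∉ O`, then for `a > 0` the integral of `e^{-a s - η y}` over `S` is `(1/a) ∫_O e^{-η y - a f y} dy`, for measurable `S`, `O` and if the left side is integrable. (`volume` on the product is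
`volume.prod volume`; `integral_prod_symm`, `∫_{s ≥ f} e^{-a s} ds = e^{-a f}/a`: `integral_exp_mul_Ioi` or similar.) -/
def S_FUB : Prop := ∀ (n : ℕ) (S : Set (ℝ × (Fin n → ℝ))) (O : Set (Fin n → ℝ))
  (f : (Fin n → ℝ) → ℝ) (a : ℝ) (η : (Fin n → ℝ) →ₗ[ℝ] ℝ), 0 < a → MeasurableSet S →
  MeasurableSet O →
  (∀ᵐ y : Fin n → ℝ, (y ∈ O → {s : ℝ | (s, y) ∈ S} =ᵐ[volume] Ici (f y)) ∧
    (y ∉ O → {s : ℝ | (s, y) ∈ S} = ∅)) →
  IntegrableOn (fun x => Real.exp (-(fn a η x))) S volume →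
  lap volume S (fn a η) = a⁻¹ * ∫ y in O, Real.exp (-(η y) - a * f y)

/-- the lower end of the fibre over `y` -/
noncomputable def fW {n : ℕ} (W : Set (ℝ × (Fin n → ℝ))) (y : Fin n → ℝ) : ℝ := sInf {s | (s, y) ∈ W}

/-- **FIB**: fibres of `W`. Let `K = KC C g`, `g x.2 - A ≤ x.1` on `W`, `PW = Prod.snd '' W`. (1) for `y ∈ PW` the fibre is `[fW W y, ∞)`: closed (`W` closed), upward closed (`(1, 0) ∈ K`), bounded below. (2) lower bound. (3) `PW` is convex (image under a linear map). (4) `PW + C ⊆ PW` (`(g d, d) ∈ K`); so `PW` has interior,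
and `volume.restrict PW = volume.restrict (interior PW)` (`Convex.addHaar_frontier`). (5) Laplace transform by `S_FUB` with `O = interior PW` (the fibres over the boundary of `PW` are negligible: it is a null set, for a.e. `y` either `y ∈ interior PW` or `y ∉ PW`), integrability by `S_LAP`, `S_KCU`. (6) the same for `K`, where the projection is `C` and
the fibre over `y ∈ C` is `[g y, ∞)`. (7) `fW W` is convex on `interior PW`, and `fW W (y + d) ≤ fW W y + g d` for `y ∈ PW`, `d ∈ C`. -/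
def S_FIB : Prop := ∀ (n : ℕ) (C : Set (Fin n → ℝ)) (ι : Type) [Finite ι] [Nonempty ι]
  (l : ι → ((Fin n → ℝ) →ₗ[ℝ] ℝ)) (W : Set (ℝ × (Fin n → ℝ))) (A : ℝ), IsCone C →
  IsW (KC C (gg l)) W → (∀ x ∈ W, gg l x.2 - A ≤ x.1) →
  (∀ y ∈ Prod.snd '' W, ∀ s, (s, y) ∈ W ↔ fW W y ≤ s) ∧
  (∀ y ∈ Prod.snd '' W, gg l y - A ≤ fW W y) ∧
  Convex ℝ (Prod.snd '' W) ∧
  (∀ y ∈ Prod.snd '' W, ∀ d ∈ C, y + d ∈ Prod.snd '' W ∧ fW W (y + d) ≤ fW W y + gg l d) ∧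
  (interior (Prod.snd '' W)).Nonempty ∧
  volume.restrict (interior (Prod.snd '' W)) = volume.restrict (Prod.snd '' W) ∧
  (∀ (a : ℝ) (η : (Fin n → ℝ) →ₗ[ℝ] ℝ), UG C (gg l) a η →
    lap volume W (fn a η) =
      a⁻¹ * ∫ y in interior (Prod.snd '' W), Real.exp (-(η y) - a * fW W y) ∧
    lap volume (KC C (gg l)) (fn a η) = LG C (gg l) a η) ∧
  ConvexOn ℝ (interior (Prod.snd '' W)) (fW W)

def M_FIB : Prop := S_GGB → S_CON → S_LAP → S_KCU → S_FUB → S_FIB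

/-- **FA2**: limits for `a → 0+`. `C = poly m`, `m j x.2 ≥ -A` and `g x.2 - A ≤ x.1` on `W`, `PW = Prod.snd '' W`. (1) `P = {y : ∀ j, -A' ≤ m j y}`, `A' = max A 0`, is an `IsW C`, it contains `PW`: `c ‖y‖ - C' ≤ η y` on `PW` by `S_BEL` (2). (2) `e^{-η y}` is integrable on `interior PW` (`S_EXN`), with positive integral. (3) `a L_W(a, η) = ∫_{int PW} e^{-η y - a fW y}` (`S_FIB`) tends
to `∫_{int PW} e^{-η y}`: `e^{-a fW y} ≤ e^{a (|A| + B ‖y‖)}`, dominated convergence for `a B ≤ c/2`. (4) `S_SML`. -/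
def S_FA2 : Prop := ∀ (n : ℕ) (κ : Type) [Finite κ] (m : κ → ((Fin n → ℝ) →ₗ[ℝ] ℝ)) (ι : Type)
  [Finite ι] [Nonempty ι] (l : ι → ((Fin n → ℝ) →ₗ[ℝ] ℝ)) (W : Set (ℝ × (Fin n → ℝ))) (A : ℝ),
  IsCone (poly m) → IsW (KC (poly m) (gg l)) W →
  (∀ x ∈ W, (∀ j, -A ≤ m j x.2) ∧ gg l x.2 - A ≤ x.1) → ∀ η ∈ UU (poly m),
  (∃ c C' : ℝ, 0 < c ∧ ∀ y ∈ Prod.snd '' W, c * ‖y‖ - C' ≤ η y) ∧
  IntegrableOn (fun y => Real.exp (-(η y))) (interior (Prod.snd '' W)) ∧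
  0 < ∫ y in interior (Prod.snd '' W), Real.exp (-(η y)) ∧
  Tendsto (fun a : ℝ => a * lap volume W (fn a η)) (𝓝[>] 0)
    (𝓝 (∫ y in interior (Prod.snd '' W), Real.exp (-(η y)))) ∧
  Tendsto (fun a : ℝ => a * lap volume (KC (poly m) (gg l)) (fn a η)) (𝓝[>] 0)
    (𝓝 (EU (poly m) (fun _ => 1) η))

def M_FA2 : Prop := S_GGB → S_CON → S_UGC → S_EXN → S_BEL → S_INT → S_SML → S_FIB → S_FA2

/-- **FA3**: `e^{h(a, η)} → ℓ/ℓ_W`, `ℓ = EU C 1 η`, `ℓ_W = ∫_{int PW} e^{-η y}`. Let `ξ0 = fn a0 η ∈ UU K` be fixed (`S_SML` (0), `S_KCU`), `ξ = fn a η`, `κ = (L_K(ξ0)/L_K(ξ))^(1/N)`, `N = n + 1` the dimension: `L_K(κ ξ0) = L_K(ξ)` (`S_LAP` (3)), and `κ → 0` as `L_K(a, η) → ∞` (`S_FA2`). `Ident` with `t = 1`: `e^{h(ξ)} L_W(ξ) = e^{κ h(ξ0)} L_W(κ ξ0)`;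
divide by `L_K(ξ) = κ^(-N) L_K(ξ0)`: the right side is `e^{κ h(ξ0)} κ^N L_W(κ ξ0)/L_K(ξ0) → 1` (`S_SCA`), the left side is `e^{h(ξ)} (a L_W(ξ))/(a L_K(ξ))`, and `a L_W → ℓ_W`, `a L_K → ℓ`. -/
def S_FA3 : Prop := ∀ (n : ℕ) (κ : Type) [Finite κ] (m : κ → ((Fin n → ℝ) →ₗ[ℝ] ℝ)) (ι : Type)
  [Finite ι] [Nonempty ι] (l : ι → ((Fin n → ℝ) →ₗ[ℝ] ℝ)) (W : Set (ℝ × (Fin n → ℝ))) (A : ℝ),
  IsCone (poly m) → IsW (KC (poly m) (gg l)) W → Ident volume (KC (poly m) (gg l)) W →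
  (∀ x ∈ W, (∀ j, -A ≤ m j x.2) ∧ gg l x.2 - A ≤ x.1) → ∀ η ∈ UU (poly m),
  Tendsto (fun a : ℝ => Real.exp (hinf W (fn a η))) (𝓝[>] 0)
    (𝓝 (EU (poly m) (fun _ => 1) η / ∫ y in interior (Prod.snd '' W), Real.exp (-(η y))))

def M_FA3 : Prop := S_GGB → S_UGC → S_INT → S_SML → S_LAP → S_SCA → S_KCU → S_FA2 → S_FA3

/-- **FAC**: the face limit. `K = KC C g`, `C = poly m`, `PW` the projection of `W`, `η ∈ UU C` (`S_POS`), `ℓ`, `ℓ_W` as in `S_FA3`. (b) for small `a > 0` choose `(s_a, y_a) ∈ W` with `a s_a + η y_a ≤ h(a, η) + a` (`S_LAP` (4)). `s_a ≥ g(y_a) - A ≥ -|A| - B ‖y_a‖` and `η y_a ≥ c ‖y_a‖ - C'`, so `(c - a B) ‖y_a‖ ≤ h + a + C' + a |A|`, and `h` is bounded above for small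
`a` (`e^h` converges): `y_a` is bounded; take `a_k → 0` with `y_{a_k} → y0`. `η y_a ≤ h + a + a (|A| + B ‖y_a‖)`: `e^{-η y0} ≥ lim e^{-h} = ℓ_W/ℓ`. (c) `y_a + C ⊆ PW` (`S_FIB`), so `y0 + C ⊆ closure PW`, `∫_{y0 + int C} e^{-η y} = e^{-η y0} ℓ ≥ ℓ_W = ∫_{int PW} e^{-η y}` and `y0 + int C ⊆ int (closure PW) = int PW`
(`Convex.interior_closure_eq_interior_of_nonempty_interior`): so `int PW` minus `(y0 + int C)` is a null set. If `x ∈ W`, `x.2 ∉ y0 + C` (closed), then near `x.2 ∈ PW` there are points of `int PW` (`PW` convex with interior) outside `y0 + C`, an open nonempty set, which has positive measure (the boundary of `y0 + C` is null), contradiction. -/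
def S_FAC : Prop := ∀ (n : ℕ) (κ : Type) [Finite κ] (m : κ → ((Fin n → ℝ) →ₗ[ℝ] ℝ)) (ι : Type)
  [Finite ι] [Nonempty ι] (l : ι → ((Fin n → ℝ) →ₗ[ℝ] ℝ)) (W : Set (ℝ × (Fin n → ℝ))) (A : ℝ),
  IsCone (poly m) → IsW (KC (poly m) (gg l)) W → Ident volume (KC (poly m) (gg l)) W →
  (∀ x ∈ W, (∀ j, -A ≤ m j x.2) ∧ gg l x.2 - A ≤ x.1) →
  ∃ y₀ : Fin n → ℝ, (∀ x ∈ W, x.2 - y₀ ∈ poly m) ∧
    ∀ y, y - y₀ ∈ interior (poly m) → ∃ s, (s, y) ∈ W

def M_FAC : Prop := S_GGB → S_CON → S_POS → S_LAP → S_KCU → S_SML → S_FIB → S_FA2 → S_FA3 → S_FAC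

/-- **PAK**: packaging. `f = fW W`. The hypotheses give `int C ⊆ PW ⊆ C`, so `interior PW = int C`. `conv`, `add`, `low` from `S_FIB`. `UG` is `UU` (`S_KCU`). `LG C f a η = lap W (fn a η)`, `LG C g a η = lap K (fn a η)` by `S_FIB`; `hG C f a η = hinf W (fn a η)`: `≥` clear; `≤`: for `(s, y) ∈ W` take `(s1, y1) ∈ W` with `y1 ∈ int C`, then
`(1 - ε)(s, y) + ε (s1, y1) ∈ W` is over `int C` for `0 < ε ≤ 1`, `ε → 0`. `t • fn a η = fn (t a) (t η)`. So `Ident` gives `IdentG`. `strict`: let `p` be a subgradient at `y`, `ξ = fn 1 (-p)`, `x0 = (f y, y) ∈ W`: `ξ x ≥ ξ x0` for all `x ∈ W` over `int C`, hence (approximation as above) for all `x ∈ W`. Let `d ∈ K`, `d ≠ 0`. `x0 + d ∈ W`,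
so `ξ d ≥ 0`. If `ξ d = 0` then `x0 + d/2 ∈ int W` (strict convexity), and `ξ` is minimal there on `W`, so `ξ = 0` (a nonzero linear functional has no local minimum), but `ξ (1, 0) = 1`. So `ξ ∈ UU K`, `UG C g 1 (-p)`. -/
def S_PAK : Prop := ∀ (n : ℕ) (C : Set (Fin n → ℝ)) (ι : Type) [Finite ι] [Nonempty ι]
  (l : ι → ((Fin n → ℝ) →ₗ[ℝ] ℝ)) (W : Set (ℝ × (Fin n → ℝ))) (A : ℝ), IsCone C →
  IsW (KC C (gg l)) W → Ident volume (KC C (gg l)) W → StrictConvex ℝ W →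
  (∀ x ∈ W, x.2 ∈ C ∧ gg l x.2 - A ≤ x.1) → (∀ y ∈ interior C, ∃ s, (s, y) ∈ W) →
  Gr C (gg l) (fW W)

def M_PAK : Prop := S_GGB → S_CON → S_LAP → S_KCU → S_FIB → S_PAK

/-- **BLW**: the boundary function tends to infinity at the apex. Otherwise there is `M` with `fW W (τ y) < M` for arbitrarily small `τ > 0`; `(M, τ y) ∈ W` (`W` is closed under addition of `(t, 0)`, `t ≥ 0`, and the fibre over `τ y` is not empty and bounded below), so `(M, 0) ∈ W` (closed), `(M + 2, 0) ∈ W`,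
and by strict convexity `(M + 1, 0)` is an interior point of `W`, so `0` is an interior point of the projection of `W`, which is contained in `C`: `0 ∈ int C`, contradiction (`S_CON` (7)). -/
def S_BLW : Prop := ∀ (n : ℕ) (C : Set (Fin n → ℝ)) (ι : Type) [Finite ι] [Nonempty ι]
  (l : ι → ((Fin n → ℝ) →ₗ[ℝ] ℝ)) (W : Set (ℝ × (Fin n → ℝ))) (A : ℝ), 1 ≤ n → IsCone C →
  IsW (KC C (gg l)) W → StrictConvex ℝ W →
  (∀ x ∈ W, x.2 ∈ C ∧ gg l x.2 - A ≤ x.1) → (∀ y ∈ interior C, ∃ s, (s, y) ∈ W) →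
  ∀ y ∈ interior C, Tendsto (fun τ : ℝ => fW W (τ • y)) (𝓝[>] 0) atTop

def M_BLW : Prop := S_GGB → S_CON → S_BLW

/-- **VRT**: combination of `S_FAC`, `S_TRA` (translation by `(0, y0)`), `S_PAK` and the core theorem `S_COR`. (For the translated set `{x : x + (0, y0) ∈ W}`: `g (y + y0) - A ≤ s` gives `g y - A' ≤ s` with `A' = A + g(-y0)`; `KC` is unchanged.) -/
def S_VRT : Prop := ∀ (n : ℕ) (κ : Type) [Finite κ] (m : κ → ((Fin n → ℝ) →ₗ[ℝ] ℝ)) (ι : Type)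
  [Finite ι] [Nonempty ι] (l : ι → ((Fin n → ℝ) →ₗ[ℝ] ℝ)) (W : Set (ℝ × (Fin n → ℝ))) (A : ℝ),
  1 ≤ n → IsCone (poly m) → IsW (KC (poly m) (gg l)) W → Ident volume (KC (poly m) (gg l)) W →
  StrictConvex ℝ W → (∀ x ∈ W, (∀ j, -A ≤ m j x.2) ∧ gg l x.2 - A ≤ x.1) →
  ∃ i₀, ∀ i, ∀ y ∈ poly m, l i y ≤ l i₀ y

def M_VRT : Prop := S_GGB → S_KCU → S_TRA → S_FAC → S_PAK → S_COR → S_VRT

/-! ## Combinatorics -/

/-- **EXT**: an extreme ray with `φ j v > 0`. Among the `v ∈ K` with `φ j v > 0` (there are such `v`: `φ j ≠ 0` and `K` has interior) choose one with the smallest number of `i` with `φ i v ≠ 0`. Let `φ i y = 0` whenever `φ i v = 0`, and suppose `y` is not a multiple of `v`. `y' = y - (φ j y/φ j v) v ≠ 0`, `φ j y' = 0`, `φ i y' = 0` whenever `φ i v = 0`.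
As `K` has no lines, `y'` or `-y'` is not in `K`; say (change the sign) `φ i y' < 0` for some `i`. `t = min {φ i v/(-φ i y') : φ i y' < 0} > 0` (such `i` have `φ i v > 0`); `v + t y' ∈ K`, `φ j (v + t y') = φ j v > 0`, and it has fewer nonzero values, contradiction. -/
def S_EXT : Prop := ∀ (E : Type) [NormedAddCommGroup E] [NormedSpace ℝ E] [FiniteDimensional ℝ E]
  (ι : Type) [Fintype ι] (φ : ι → (E →ₗ[ℝ] ℝ)) (j : ι), IsCone (poly φ) → φ j ≠ 0 →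
  ∃ v ∈ poly φ, 0 < φ j v ∧ ∀ y, (∀ i, φ i v = 0 → φ i y = 0) → ∃ c : ℝ, y = c • v

/-- **CHT**: coordinates with `T v = (1, 0)`. `E` has dimension `n + 1`; take a complement of the line of `v` (`Submodule.exists_isCompl`), of dimension `n`, and a basis of it. -/
def S_CHT : Prop := ∀ (E : Type) [NormedAddCommGroup E] [NormedSpace ℝ E] [FiniteDimensional ℝ E]
  (n : ℕ) (v : E), Module.finrank ℝ E = n + 1 → v ≠ 0 →
  ∃ T : E ≃ₗ[ℝ] (ℝ × (Fin n → ℝ)), T v = (1, 0)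

/-- **SPL**: at an extreme ray `v` there is only one `i` with `φ i v > 0`. `n = N - 1`; `T : E ≃ ℝ × ℝ^n` with `T v = (1, 0)` (`S_CHT`). `κ = {i : φ i v = 0}`, `ι' = {i : φ i v > 0}` (nonempty, otherwise `-v ∈ K`), `m i y = φ i (T.symm (0, y))`, `l i y = -φ i (T.symm (0, y))/φ i v`; the image of `K` is `KC (poly m) (gg l)`:
`φ i (T.symm (s, y)) = s φ i v + φ i (T.symm (0, y))`. `poly m` is an `IsCone`: pointed by the hypothesis on `v`; a point of `int K` has `φ i > 0` for all `i` (`φ i ≠ 0`), its `y`-part has `m i > 0`. The image of `W`: `S_LIN` (with `ν = volume`), `S_STB` gives the constant `A` (`φ i ≥ -A'` on `W`; `l i y - s = -φ i /φ i v`). `S_VRT`: `i0` with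
`l i ≤ l i0` on `poly m` for `i ∈ ι'`. Suppose `i ∈ ι'`, `i ≠ i0`. `Irred`: `p` with `φ i p = 0`, `φ k p > 0` for `k ≠ i`; `T p = (s, y)`, `y ∈ poly m`, `s = l i y`, and `φ i0 p > 0` means `s > l i0 y`: contradiction. -/
def S_SPL : Prop := ∀ (E : Type) [NormedAddCommGroup E] [NormedSpace ℝ E] [FiniteDimensional ℝ E]
  [MeasurableSpace E] [BorelSpace E] (μ : Measure E) [μ.IsAddHaarMeasure] (ι : Type) [Fintype ι]
  (φ : ι → (E →ₗ[ℝ] ℝ)) (W : Set E), 2 ≤ Module.finrank ℝ E → IsCone (poly φ) → Irred φ →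
  (∀ j, φ j ≠ 0) → IsW (poly φ) W → StrictConvex ℝ W → Ident μ (poly φ) W →
  ∀ v ∈ poly φ, v ≠ 0 → (∀ y, (∀ i, φ i v = 0 → φ i y = 0) → ∃ c : ℝ, y = c • v) →
  ∀ i k, 0 < φ i v → 0 < φ k v → i = k

def M_SPL : Prop := S_GGB → S_STB → S_LIN → S_CHT → S_VRT → S_SPL

/-- **SIM**: `K` is simplicial. For every `j` take `v_j` from `S_EXT`; by `S_SPL` `φ i v_j = 0` for `i ≠ j`. The map `x ↦ (φ i x)_i` is injective (`K` has no lines) and surjective (`v_j/φ_j(v_j) ↦ e_j`). -/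
def S_SIM : Prop := ∀ (E : Type) [NormedAddCommGroup E] [NormedSpace ℝ E] [FiniteDimensional ℝ E]
  [MeasurableSpace E] [BorelSpace E] (μ : Measure E) [μ.IsAddHaarMeasure] (ι : Type) [Fintype ι]
  (φ : ι → (E →ₗ[ℝ] ℝ)) (W : Set E), 2 ≤ Module.finrank ℝ E → IsCone (poly φ) → Irred φ →
  (∀ j, φ j ≠ 0) → IsW (poly φ) W → StrictConvex ℝ W → Ident μ (poly φ) W →
  ∃ T : E ≃ₗ[ℝ] (ι → ℝ), ∀ x i, T x i = φ i x

def M_SIM : Prop := S_EXT → S_SPL → S_SIM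

/-- **IRR**: an irredundant subfamily. Let `J` be a set of indices with `poly (φ restricted to J) = poly φ` and the smallest number of elements. `φ j ≠ 0` for `j ∈ J` (otherwise omit `j`). `Irred`: let `j ∈ J`; by minimality there is `q` with `φ i q ≥ 0` for `i ∈ J`, `i ≠ j`, and `φ j q < 0`. `k0 ∈ int K` has `φ i k0 > 0` for all
`i ∈ J`. The point `p` of the segment from `q` to `k0` with `φ j p = 0` has `φ i p > 0` for the other `i ∈ J`. -/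
def S_IRR : Prop := ∀ (E : Type) [NormedAddCommGroup E] [NormedSpace ℝ E] [FiniteDimensional ℝ E]
  (ι : Type) [Fintype ι] (φ : ι → (E →ₗ[ℝ] ℝ)), IsCone (poly φ) →
  ∃ J : Finset ι, poly (fun j : J => φ j) = poly φ ∧ Irred (fun j : J => φ j) ∧ ∀ j ∈ J, φ j ≠ 0

/-- **PTD**: the recession cone of a closed, strictly convex set `Ω`, not empty and not everything, is closed, convex and without lines: if `d` and `-d` are in it, `d ≠ 0`, take `x` in the frontier of `Ω` (nonempty: `Ω` is closed, neither empty nor everything, the space is connected); `x + d`, `x - d` are in `Ω`, so `x` is an interior point by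
strict convexity, contradiction. -/
def S_PTD : Prop := ∀ (n : ℕ) (Ω : Set (EuclideanSpace ℝ (Fin (n + 1)))), IsClosed Ω → StrictConvex ℝ Ω → Ω.Nonempty →
  Ω ≠ univ → (interior (recCone Ω)).Nonempty → IsCone (recCone Ω)

end Pool.Agent.PRC
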