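import Pool.Agent.PRC.Defs

/-!
# SCCP sets with polyhedral recession cone (MP_5f8b0b_gt): statements about graphs (core)

`S_X` is the statement of module `X`, file `Pool/Agent/PRC/X.lean`, `theorem t_X : M_X` where `M_X` lists the
statements which may be used as hypotheses, or `theorem t_X : S_X` if there is no `M_X`.

NOTATION. `C ⊆ ℝ^n` is a closed convex cone with interior, without lines (`IsCone C`), `g = gg l` the maximum of
finitely many functionals, `N = n + 1`. `(a, η)` stands for the functional `(s, y) ↦ a s + η y`.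
`UG C g a η`: it is in the interior of the dual of the cone `K = {y ∈ C, s ≥ g y}`. `f` is a function on `int C`
(its values elsewhere are irrelevant), `W = {y ∈ int C, s ≥ f y}`. `LG C f a η = (1/a) ∫_{int C} e^{-η y - a f y} dy` is
the Laplace transform of `W`, `LG C g a η` that of `K`. All integrals are over the open set `int C`.
-/

set_option autoImplicit false

open MeasureTheory Set Filter Topology

namespace Pool.Agent.PRC

/-! ## Basic facts -/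

/-- **GGB**, basic properties of `g = max_i l i` (finite nonempty family): `ciSup` over a finite type is attained
(`exists_eq_ciSup_of_finite`), `le_ciSup (Set.finite_range _).bddAbove`. Continuity: `l i` is continuous
(`LinearMap.continuous_of_finiteDimensional`), maximum of finitely many continuous functions (write it as
`Finset.univ.sup'`, or: `|g x - g y| ≤ max_i |l i (x - y)| ≤ B ‖x - y‖`). The last part from `|l i y| ≤ ‖l i‖ ‖y‖`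
(`LinearMap.toContinuousLinearMap`). -/
def S_GGB : Prop := ∀ (n : ℕ) (ι : Type) [Finite ι] [Nonempty ι] (l : ι → ((Fin n → ℝ) →ₗ[ℝ] ℝ)),
  (∀ i y, l i y ≤ gg l y) ∧ (∀ y, ∃ i, gg l y = l i y) ∧
  (∀ y (t : ℝ), 0 ≤ t → gg l (t • y) = t * gg l y) ∧
  (∀ x y, gg l (x + y) ≤ gg l x + gg l y) ∧ Continuous (gg l) ∧
  ∃ B : ℝ, 0 ≤ B ∧ ∀ y, |gg l y| ≤ B * ‖y‖

/-- **CON**, basic properties of a closed convex cone `C ⊆ ℝ^n` with interior: (1) the interior is a convex cone: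
`t • y ∈ int C` for `t > 0`; (2) `int C + C ⊆ int C`; (3) for `y ∈ int C` and every `z` there is `T` with
`t • y - z ∈ int C` for all `t ≥ T` (`y - z / t → y`, the interior is open); (4) the boundary is a null set
(`Convex.addHaar_frontier`), here: `volume.restrict (interior C) = volume.restrict C`; (5) `C` is the closure of the interior
(`Convex.closure_interior_eq_closure_of_nonempty_interior`); (6) `0` is not in the interior if `1 ≤ n` (otherwise `C` is everything, but `C` has no lines). -/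
def S_CON : Prop := ∀ (n : ℕ) (C : Set (Fin n → ℝ)), IsCone C →
  (∀ y ∈ interior C, ∀ t : ℝ, 0 < t → t • y ∈ interior C) ∧
  (∀ y ∈ interior C, ∀ d ∈ C, y + d ∈ interior C) ∧
  (∀ y ∈ interior C, ∀ z, ∃ T : ℝ, ∀ t : ℝ, T ≤ t → t • y - z ∈ interior C) ∧
  volume.restrict (interior C) = volume.restrict C ∧
  closure (interior C) = C ∧
  Convex ℝ (interior C) ∧
  (1 ≤ n → (0 : Fin n → ℝ) ∉ interior C)

/-- **EXN**: `(1 + ‖y‖)^k e^{-c ‖y‖}` is integrable on `ℝ^n`: it is at most a constant times `(1 + ‖y‖)^(-r)` with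
`r = n + 1` (`(1 + u)^(k + n + 1) e^{-c u}` is bounded), `integrable_one_add_norm`. -/
def S_EXN : Prop := ∀ (n k : ℕ) (c : ℝ), 0 < c →
  Integrable (fun y : Fin n → ℝ => (1 + ‖y‖) ^ k * Real.exp (-(c * ‖y‖)))

/-- **UGC**: uniform positivity. (1) if `(a, η)` is in `UG C g` then `c ‖y‖ ≤ η y + a g y` on `C` for some `c > 0`: minimum
of the continuous positive function on the compact set `C ∩ sphere 0 1` (if this is empty, `c = 1`; all `y ∈ C` are then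
`0`), homogeneity. (2) the same for `η` alone. -/
def S_UGC : Prop := ∀ (n : ℕ) (C : Set (Fin n → ℝ)) (ι : Type) [Finite ι] [Nonempty ι]
  (l : ι → ((Fin n → ℝ) →ₗ[ℝ] ℝ)), IsCone C →
  (∀ (a : ℝ) (η : (Fin n → ℝ) →ₗ[ℝ] ℝ), UG C (gg l) a η →
    ∃ c : ℝ, 0 < c ∧ ∀ y ∈ C, c * ‖y‖ ≤ η y + a * gg l y) ∧
  (∀ η ∈ UU C, ∃ c : ℝ, 0 < c ∧ ∀ y ∈ C, c * ‖y‖ ≤ η y)

def M_UGC : Prop := S_GGB → S_UGC

/-- **INT**: integrability. Let `f` be continuous on `int C` with `f ≥ g - A` there, `u` a.e. strongly measurable on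
`int C` with `|u y| ≤ B (1 + ‖y‖)^k` there, and `(a, η)` in `UG C g`. Then `e^{-η y - a f y} u(y)` is integrable on `int C`
(dominated by `B e^{aA} (1 + ‖y‖)^k e^{-c ‖y‖}`, `S_UGC`, `S_EXN`). (2) the same for `e^{-η y} u(y)`, `η ∈ UU C`.
(3) `0 < JJ C f a η`. (4) `0 < ∫_{int C} e^{-η y}`. (Positive function on a nonempty open set: `setIntegral_pos_iff_support_of_nonneg_ae` or
`Integrable` + `integral_pos_iff_support_of_nonneg`.) -/
def S_INT : Prop := ∀ (n : ℕ) (C : Set (Fin n → ℝ)) (ι : Type) [Finite ι] [Nonempty ι]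
  (l : ι → ((Fin n → ℝ) →ₗ[ℝ] ℝ)) (f : (Fin n → ℝ) → ℝ) (A : ℝ), IsCone C →
  ContinuousOn f (interior C) → (∀ y ∈ interior C, gg l y - A ≤ f y) →
  (∀ (u : (Fin n → ℝ) → ℝ) (B : ℝ) (k : ℕ), AEStronglyMeasurable u (volume.restrict (interior C)) →
    (∀ y ∈ interior C, |u y| ≤ B * (1 + ‖y‖) ^ k) →
    (∀ (a : ℝ) (η : (Fin n → ℝ) →ₗ[ℝ] ℝ), UG C (gg l) a η →
      IntegrableOn (fun y => Real.exp (-(η y) - a * f y) * u y) (interior C)) ∧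
    (∀ η ∈ UU C, IntegrableOn (fun y => Real.exp (-(η y)) * u y) (interior C))) ∧
  (∀ (a : ℝ) (η : (Fin n → ℝ) →ₗ[ℝ] ℝ), UG C (gg l) a η →
    IntegrableOn (fun y => Real.exp (-(η y) - a * f y)) (interior C) ∧ 0 < JJ C f a η) ∧
  (∀ η ∈ UU C, IntegrableOn (fun y => Real.exp (-(η y))) (interior C) ∧ 0 < EU C (fun _ => 1) η)

def M_INT : Prop := S_UGC → S_EXN → S_INT

/-- **SCL**, change of variables `y = z / t` (`Measure.setIntegral_comp_smul`, `finrank = n`, `t • int C = int C`).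
(1) for every function `F`: `∫_{int C} F(t y) dy = t^(-n) ∫_{int C} F(z) dz`. (2) `J(f, a, t η) = t^(-n) J(f(·/t), a, η)`.
(3) `L_K(t a, t η) = t^(-N) L_K(a, η)` for `g` positively homogeneous. (4) `L(f, t a, t η) = (t^N a)^(-1) ∫ e^{-η z - a (t f(z/t))} dz`.
All are identities of (possibly undefined) integrals. -/
def S_SCL : Prop := ∀ (n : ℕ) (C : Set (Fin n → ℝ)), IsCone C → ∀ t : ℝ, 0 < t →
  (∀ F : (Fin n → ℝ) → ℝ, ∫ y in interior C, F (t • y) = (t ^ n)⁻¹ * ∫ z in interior C, F z) ∧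
  (∀ (f : (Fin n → ℝ) → ℝ) (a : ℝ) (η : (Fin n → ℝ) →ₗ[ℝ] ℝ),
    JJ C f a (t • η) = (t ^ n)⁻¹ * JJ C (fun z => f (t⁻¹ • z)) a η) ∧
  (∀ (f : (Fin n → ℝ) → ℝ) (a : ℝ) (η : (Fin n → ℝ) →ₗ[ℝ] ℝ),
    LG C f (t * a) (t • η) = (t ^ (n + 1) * a)⁻¹ * JJ C (fun z => t * f (t⁻¹ • z)) a η) ∧
  (∀ (ι : Type) [Finite ι] [Nonempty ι] (l : ι → ((Fin n → ℝ) →ₗ[ℝ] ℝ)) (a : ℝ)
    (η : (Fin n → ℝ) →ₗ[ℝ] ℝ), LG C (gg l) (t * a) (t • η) = (t ^ (n + 1))⁻¹ * LG C (gg l) a η)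

def M_SCL : Prop := S_GGB → S_CON → S_SCL

/-- **RSC**: the set `D W`. `UG C g a η` implies `UG C g (a / 2^n) (2 η)` if `g ≤ 0` on `C`
(`2 η y + (a / 2^n) g y ≥ 2 (η y + a g y)`); `L(f, a / 2^n, 2 η) = L(rsc f, a, η)`, `J`-form: `J(f, a/2^n, 2 η) = 2^(-n) J(rsc f, a, η)`
(`S_SCL` with `t = 2`); `h` likewise (`y ↦ 2 y` maps `int C` onto itself: `η (2 y) + (a / 2^n) f y = η z + a rsc f z`, `z = 2 y`);
`rsc g = g / 2^(n+1)` for `g = gg l`; hence `LG C g (a / 2^n) (2 η) = (1/a) J(g, a / 2^(n+1), η)`;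
if `f ≥ g - A` on `int C`, `A ≥ 0`, `g ≤ 0` on `C` then `rsc f ≥ g - A`; continuity and convexity on `int C` are inherited. -/
def S_RSC : Prop := ∀ (n : ℕ) (C : Set (Fin n → ℝ)) (ι : Type) [Finite ι] [Nonempty ι]
  (l : ι → ((Fin n → ℝ) →ₗ[ℝ] ℝ)), IsCone C → (∀ y ∈ C, gg l y ≤ 0) →
  (∀ (a : ℝ) (η : (Fin n → ℝ) →ₗ[ℝ] ℝ), UG C (gg l) a η → UG C (gg l) (a / 2 ^ n) ((2 : ℝ) • η)) ∧
  (∀ (f : (Fin n → ℝ) → ℝ) (a : ℝ) (η : (Fin n → ℝ) →ₗ[ℝ] ℝ),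
    LG C f (a / 2 ^ n) ((2 : ℝ) • η) = LG C (rsc f) a η ∧
    hG C f (a / 2 ^ n) ((2 : ℝ) • η) = hG C (rsc f) a η) ∧
  (∀ y, rsc (gg l) y = gg l y / 2 ^ (n + 1)) ∧
  (∀ (a : ℝ) (η : (Fin n → ℝ) →ₗ[ℝ] ℝ),
    LG C (gg l) (a / 2 ^ n) ((2 : ℝ) • η) = a⁻¹ * JJ C (gg l) (a / 2 ^ (n + 1)) η) ∧
  (∀ (f : (Fin n → ℝ) → ℝ) (A : ℝ), 0 ≤ A → (∀ y ∈ interior C, gg l y - A ≤ f y) →
    ∀ y ∈ interior C, gg l y - A ≤ rsc f y) ∧
  (∀ f : (Fin n → ℝ) → ℝ, ContinuousOn f (interior C) → ContinuousOn (rsc f) (interior C))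

def M_RSC : Prop := S_GGB → S_CON → S_SCL → S_RSC

/-! ## First order at infinity -/

/-- **DEL**: existence of `δ`. Let `Δ = g - f` on `int C`. For `y ∈ int C`, `0 < t < t'`:
`f(t' y) ≤ f(t y) + (t' - t) g(y)` (`Gr.add` with `d = (t' - t) y`), so `t ↦ Δ(t y)` is monotone on `(0, ∞)`, and `≤ A`: the limit
`δ y` exists (`tendsto_atTop_ciSup` or similar; define `δ y` as this limit on `int C` and `0` elsewhere). `hom`: substitution.
Lower bound: fix `z ∈ int C`; for large `t` also `t y - z ∈ C` (`S_CON` (3)) and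
`f(t y) ≤ f z + g(t y - z) ≤ f z + g(t y) + g(-z)`, so `δ y ≥ -f z - g(-z)`. `meas`: limit of the sequence `Δ(k y)`,
continuous on `int C` (`aestronglyMeasurable_of_tendsto_ae`, `ConvexOn.continuousOn` on the open set `int C`; `y ↦ k • y` maps
`int C` to itself). `fin`: put `D i = sSup ((fun z => l i z - f z) '' int C)` (bounded above by `A`). If `y ∈ int C` and `l i y > l k y` for all `k` with
`l k ≠ l i`, then `δ y = D i`: `≤`: `g(t y) = l i (t y)`. `≥`: for `z ∈ int C` and large `t`: `t y - z ∈ C` and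
`l k (t y - z) < l i (t y - z)` for all `k` with `l k ≠ l i`, so `g(t y - z) = l i (t y) - l i z` and
`f(t y) ≤ f z + l i (t y) - l i z`. The set of `y` where `l i y = l k y` for some pair with `l i ≠ l k` is a finite union of
proper subspaces, a null set (`Measure.addHaar_submodule`). `S` = the image of `D`. -/
def S_DEL : Prop := ∀ (n : ℕ) (C : Set (Fin n → ℝ)) (ι : Type) [Finite ι] [Nonempty ι]
  (l : ι → ((Fin n → ℝ) →ₗ[ℝ] ℝ)) (f : (Fin n → ℝ) → ℝ), IsCone C → Gr C (gg l) f →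
  ∃ δ : (Fin n → ℝ) → ℝ, Del C (gg l) f δ

def M_DEL : Prop := S_GGB → S_CON → S_DEL

/-- **FOA**, first order asymptotics. By `S_SCL`, for `t > 0` and `g(z/t) t = g z`:
`t^n (L_f(t a, t η) - L_g(t a, t η)) = ∫_{int C} e^{-η z - a g z} r_t(z) dz`, `r_t(z) = (e^{t a Δ(z/t)} - 1) / (t a)`, `Δ = g - f ≤ A` (`A ≥ 0`).
Pointwise on `int C`: `Δ(z/t) → δ z` (`t → 0+`, `z/t = s z`, `s → ∞`), so `r_t(z) → δ z`. Upper bound: `r_t ≤ A e^{aA}` for `t ≤ 1`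
(`(e^x - 1)/x ≤ e^x`, monotone). Let `y0 ∈ int C`, `R_t = {z ∈ int C : z - t y0 ∈ C}`. On `R_t`:
`f(z/t) ≤ f(y0) + g(z/t - y0) ≤ f(y0) + g(z/t) + g(-y0)` — for this write `z/t = y0 + d`, `d ∈ C`, `Gr.add` — so `|r_t|` is bounded there by a constant, and every
`z ∈ int C` is in `R_t` for small `t`: by dominated convergence `∫ 1_{R_t} e^{..} r_t → ∫ e^{..} δ = Q`. Outside `R_t`:
`-1/(t a) ≤ r_t ≤ A e^{aA}`, and `∫_{int C minus R_t} e^{-η z - a g z} ≤ J - ∫_{int C} e^{-η(z + t y0) - a g(z + t y0)} dz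
≤ J (1 - e^{-t τ}) ≤ t τ J`, `J = JJ C g a η`, `τ = η y0 + a g y0 > 0` (`z ↦ z + t y0` maps `int C` into `R_t`, `g(z + t y0) ≤ g z + t g y0`). So for every
`ε > 0`, choosing `y0` with `τ J / a ≤ ε` (`y0` small multiple of a fixed point), `|∫ e^{..} r_t - Q| ≤ 2 ε` for small `t`. -/
def S_FOA : Prop := ∀ (n : ℕ) (C : Set (Fin n → ℝ)) (ι : Type) [Finite ι] [Nonempty ι]
  (l : ι → ((Fin n → ℝ) →ₗ[ℝ] ℝ)) (f δ : (Fin n → ℝ) → ℝ), IsCone C → Gr C (gg l) f →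
  Del C (gg l) f δ → ∀ (a : ℝ) (η : (Fin n → ℝ) →ₗ[ℝ] ℝ), UG C (gg l) a η →
  Tendsto (fun t : ℝ => t ^ n * (LG C f (t * a) (t • η) - LG C (gg l) (t * a) (t • η))) (𝓝[>] 0)
    (𝓝 (QG C (gg l) δ a η))

def M_FOA : Prop := S_GGB → S_CON → S_UGC → S_INT → S_SCL → S_FOA

/-- **HWR**: `h = γ ψ + w`. (a) Let `ξ1, ξ2` be in `UG`, `L = LG C g ξ1 = LG C g ξ2 > 0` (`S_INT` for `f = g`, `A = 0`), `F = h(ξ2) - h(ξ1)`.
`IdentG`: `e^{t F} L_f(t ξ2) = L_f(t ξ1)`. Multiply by `t^n`, `t^n L_g(t ξi) = L / t` (`S_SCL`): `(e^{tF} - 1)/t · L + e^{tF} q2(t) - q1(t) = 0`,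
`qi(t) = t^n (L_f - L_g)(t ξi) → Q(ξi)` (`S_FOA`): `F L + Q(ξ2) - Q(ξ1) = 0`, i.e. `F = w(ξ2) - w(ξ1)`. (b) `UG` is invariant under `ξ ↦ t ξ`, `t > 0`; `h(t ξ) = t h(ξ)`
(`Real.sInf_smul_of_nonneg`), `w(t ξ) = t w(ξ)` (`Q(tξ) = t^(-n) Q(ξ)` by `S_SCL` (1) and `Del.hom`, `L_g(tξ) = t^(-n-1) L_g(ξ)`), `ψ(t ξ) = t ψ(ξ)`.
(c) if no `(a, η)` is in `UG` any `γ` will do. Otherwise fix `ξ0`, `γ = (h - w)(ξ0) / ψ(ξ0)`; for `ξ` take `s = ψ(ξ)/ψ(ξ0)`; then `L_g(s ξ0) = L_g(ξ)` and by (a), (b)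
`(h - w)(ξ) = (h - w)(s ξ0) = s (h - w)(ξ0) = γ ψ(ξ)`. Second part: `IdentG` with `t = 1` and (a). -/
def S_HWR : Prop := ∀ (n : ℕ) (C : Set (Fin n → ℝ)) (ι : Type) [Finite ι] [Nonempty ι]
  (l : ι → ((Fin n → ℝ) →ₗ[ℝ] ℝ)) (f δ : (Fin n → ℝ) → ℝ), IsCone C → Gr C (gg l) f →
  Del C (gg l) f δ →
  (∃ γ : ℝ, HW C (gg l) f δ γ) ∧
  ∀ (a₁ a₂ : ℝ) (η₁ η₂ : (Fin n → ℝ) →ₗ[ℝ] ℝ), UG C (gg l) a₁ η₁ → UG C (gg l) a₂ η₂ →
    LG C (gg l) a₁ η₁ = LG C (gg l) a₂ η₂ →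
    Real.exp (wG C (gg l) δ a₂ η₂) * LG C f a₂ η₂ = Real.exp (wG C (gg l) δ a₁ η₁) * LG C f a₁ η₁

def M_HWR : Prop := S_GGB → S_CON → S_INT → S_SCL → S_FOA → S_HWR

/-! ## Small `a` -/

/-- **SML**: limits for `a → 0+`, `η ∈ UU C` fixed, all by dominated convergence (`c ‖y‖ ≤ η y`, `|g y| ≤ B ‖y‖`; for `a B ≤ c/2`
everything is dominated by a polynomial in `‖y‖` times `e^{-c ‖y‖ / 2}`). (0) `UG C g a η` for all small `a`. (1) `J_f(a) → ∫ e^{-η y}` for `f` continuous on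
`int C`, `f ≥ g - A`. (2) `(J_g(a) - ∫ e^{-η y}) / a → -∫ e^{-η y} g` (`|e^{-ag} - 1| ≤ a |g| e^{a |g|}`). (3) `Q(a) → ∫ e^{-η y} δ`
for bounded measurable `δ`. (4) `a ↦ J_g(a)` is continuous on `(0, a0]` for some `a0 > 0`, and for `g ≤ 0` on `C` it is monotone there and `≥ ∫ e^{-η y}`. -/
def S_SML : Prop := ∀ (n : ℕ) (C : Set (Fin n → ℝ)) (ι : Type) [Finite ι] [Nonempty ι]
  (l : ι → ((Fin n → ℝ) →ₗ[ℝ] ℝ)), IsCone C → ∀ η ∈ UU C,
  (∀ᶠ a : ℝ in 𝓝[>] 0, UG C (gg l) a η) ∧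
  (∀ (f : (Fin n → ℝ) → ℝ) (A : ℝ), ContinuousOn f (interior C) →
    (∀ y ∈ interior C, gg l y - A ≤ f y) →
    Tendsto (fun a : ℝ => JJ C f a η) (𝓝[>] 0) (𝓝 (EU C (fun _ => 1) η))) ∧
  Tendsto (fun a : ℝ => (JJ C (gg l) a η - EU C (fun _ => 1) η) / a) (𝓝[>] 0)
    (𝓝 (-(EU C (gg l) η))) ∧
  (∀ (δ : (Fin n → ℝ) → ℝ) (B : ℝ), AEStronglyMeasurable δ (volume.restrict (interior C)) →
    (∀ y ∈ interior C, |δ y| ≤ B) →
    Tendsto (fun a : ℝ => QG C (gg l) δ a η) (𝓝[>] 0) (𝓝 (EU C δ η))) ∧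
  ∃ a₀ : ℝ, 0 < a₀ ∧ ContinuousOn (fun a => JJ C (gg l) a η) (Ioc 0 a₀) ∧
    ((∀ y ∈ C, gg l y ≤ 0) → MonotoneOn (fun a => JJ C (gg l) a η) (Ioc 0 a₀) ∧
      ∀ a ∈ Ioc (0 : ℝ) a₀, EU C (fun _ => 1) η ≤ JJ C (gg l) a η)

def M_SML : Prop := S_GGB → S_CON → S_UGC → S_EXN → S_INT → S_SML

/-- **EQA**: the number `a'` with `L_g(a'/2^n, 2η) = L_g(a, η)`. By `S_RSC` the left side is `G(a') = J_g(a'/2^(n+1))/a'`, the right side is
`z = J_g(a)/a`. `G(a) ≤ z` by monotonicity, `G(a') ≥ ℓ/a' → ∞` for `a' → 0+` (`ℓ = EU C 1 η > 0`), `G` is continuous on `(0, a]`: intermediate value theorem.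
Then `a' = a J_g(a'/2^(n+1))/J_g(a) ≥ a ℓ/J_g(a)`, so `a - a' ≤ a (J_g(a) - ℓ)/ℓ ≤ B a²`, as `(J_g(a) - ℓ)/a` is bounded near `0` (`S_SML` (2)). -/
def S_EQA : Prop := ∀ (n : ℕ) (C : Set (Fin n → ℝ)) (ι : Type) [Finite ι] [Nonempty ι]
  (l : ι → ((Fin n → ℝ) →ₗ[ℝ] ℝ)), IsCone C → (∀ y ∈ C, gg l y ≤ 0) → ∀ η ∈ UU C,
  ∃ (B a₀ : ℝ) (α : ℝ → ℝ), 0 < a₀ ∧ ∀ a : ℝ, 0 < a → a < a₀ → 0 < α a ∧ α a ≤ a ∧
    a - α a ≤ B * a ^ 2 ∧ UG C (gg l) a η ∧ UG C (gg l) (α a / 2 ^ n) ((2 : ℝ) • η) ∧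
    LG C (gg l) (α a / 2 ^ n) ((2 : ℝ) • η) = LG C (gg l) a η

def M_EQA : Prop := S_GGB → S_CON → S_INT → S_RSC → S_SML → S_EQA

/-- **JDF**: if `0 ≤ a - α(a) ≤ B a²` then `(J_f(a) - J_f(α a))/a → 0` for `a → 0+`. Put `b = α a`, for small `a` `a/2 ≤ b ≤ a`. For all real `u ≥ -m`, `m ≥ 0`:
`|e^{-a u} - e^{-b u}| ≤ 2 (|B| + 1) a · min(1, a |u|) · e^{2 a m}` for small `a` (for `u ≥ 0`: `≤ (a - b) u e^{-b u}` and `b u e^{-b u} ≤ min (1, b u)`,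
`(a - b)/b ≤ 2 B a`; for `u < 0`: `|u| ≤ m`, `≤ (a - b) |u| e^{a m} ≤ B a (a |u|) e^{am}`, and `a |u| ≤ min(1, a |u|) e^{am}`, as `a|u| ≤ a m ≤ e^{a m}`).
With `u = f y`, `m = |A| + B' ‖y‖`, divide by `a`, dominated convergence (`min(1, a |f y|) → 0`; the dominating function is a constant times `e^{-c ‖y‖/2}`). -/
def S_JDF : Prop := ∀ (n : ℕ) (C : Set (Fin n → ℝ)) (ι : Type) [Finite ι] [Nonempty ι]
  (l : ι → ((Fin n → ℝ) →ₗ[ℝ] ℝ)) (f : (Fin n → ℝ) → ℝ) (A : ℝ), IsCone C →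
  ContinuousOn f (interior C) → (∀ y ∈ interior C, gg l y - A ≤ f y) → ∀ η ∈ UU C,
  ∀ (α : ℝ → ℝ) (B a₀ : ℝ), 0 < a₀ → (∀ a : ℝ, 0 < a → a < a₀ → α a ≤ a ∧ a - α a ≤ B * a ^ 2) →
  Tendsto (fun a : ℝ => (JJ C f a η - JJ C f (α a) η) / a) (𝓝[>] 0) (𝓝 0)

def M_JDF : Prop := S_GGB → S_CON → S_UGC → S_EXN → S_INT → S_JDF

/-- **LIM**: the limit. `N = n + 1`, `J = J_f`, `J_M = J_{rsc f}`, `ℓ = EU C 1 η`, `α` from `S_EQA`, `ξ1 = (a, η)`, `ξ2 = (α a / 2^n, 2η)`. `S_HWR`: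
`e^{w2} L_f(ξ2) = e^{w1} L_f(ξ1)`, i.e. (`S_RSC`) `J_M(α a) = (α a / a) e^{w1 - w2} J(a)`. (i) `α a / a = J_g(α a / 2^N)/J_g(a)`, so
`(1 - α a / a)/a = (J_g(a) - J_g(α a/2^N))/(a J_g(a)) → -(1 - 2^(-N)) EU C g η / ℓ` (`S_SML` (2) at `a` and at `α a / 2^N`, `α a / a → 1`).
(ii) `w1/a = -Q(a, η)/J_g(a) → -EU C δ η/ℓ`; `Q(ξ2) = 2^(-n) Q(α a/2^N, η)` (`S_SCL` (1), `Del.hom`), `L_g(ξ2) = J_g(α a/2^N)/α a`, so
`w2/a → -2^(-n) EU C δ η / ℓ`. (iii) `J(a) → ℓ`. Hence `(J(a) - J_M(α a))/a = J(a) (1 - (α a/a) e^{w1 - w2})/a → -(1 - 2^(-N)) EU C g η + (1 - 2^(-n)) EU C δ η`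
(`(1 - x e^{-v})/a = (1 - x)/a + x (1 - e^{-v})/a`). (iv) `(J_M(α a) - J_M(a))/a → 0` by `S_JDF` for `rsc f`. (`f ≥ g - A` from `Gr.low`, we may take `A ≥ 0`; `f` is
continuous on `int C` by `ConvexOn.continuousOn`.) -/
def S_LIM : Prop := ∀ (n : ℕ) (C : Set (Fin n → ℝ)) (ι : Type) [Finite ι] [Nonempty ι]
  (l : ι → ((Fin n → ℝ) →ₗ[ℝ] ℝ)) (f δ : (Fin n → ℝ) → ℝ), IsCone C → Gr C (gg l) f →
  Del C (gg l) f δ → (∀ y ∈ C, gg l y ≤ 0) → ∀ η ∈ UU C,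
  Tendsto (fun a : ℝ => (JJ C f a η - JJ C (rsc f) a η) / a) (𝓝[>] 0)
    (𝓝 (-((1 - (1 / 2) ^ (n + 1)) * EU C (gg l) η) + (1 - (1 / 2) ^ n) * EU C δ η))

def M_LIM : Prop := S_GGB → S_CON → S_INT → S_SCL → S_RSC → S_HWR → S_SML → S_EQA → S_JDF → S_LIM

/-! ## Order and uniqueness -/

/-- **SUB**: a convex function on the open convex set `int C` has a subgradient at every point of it. (Hahn-Banach: separate the open convex set
`{(y, s) : y ∈ int C, f y < s}` — it is open as `f` is continuous on `int C` — from the point `(y0, f y0)`, `geometric_hahn_banach_open_point`; the coefficient of `s` is not `0`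
since otherwise a functional on `ℝ^n` would be nonzero and maximal at the interior point `y0`.) -/
def S_SUB : Prop := ∀ (n : ℕ) (C : Set (Fin n → ℝ)) (f : (Fin n → ℝ) → ℝ),
  ConvexOn ℝ (interior C) f → ∀ y ∈ interior C, ∃ p : (Fin n → ℝ) →ₗ[ℝ] ℝ, SubG C f y p

/-- **ORD**: `γ ≥ 0` and `f ≤ rsc f` on `int C`. (a) `γ ≥ 0`: pick `η ∈ UU C` (there is one: see below), for small `a` `h(a, η) ≥ -a A` (as `η y + a f y ≥ η y + a g y - a A ≥ -a A`) and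
`w(a, η) = -a Q/J_g ≤ -a d ≤ 0` (`Q ≥ d J_g`), so `γ ψ(a, η) = h - w ≥ -a A`; and `a/ψ(a, η) = a^(1 - 1/N) J_g(a)^(1/N) → 0`, `n ≥ 1`. If
`UU C` were empty there would be nothing to prove: in fact for `y ∈ int C` a subgradient `p` (`S_SUB`) gives `UG C g 1 (-p)` (`Gr.strict`) and `-p ∈ UU C` because `g ≤ 0`.
(b) For `(a, η)` in `UG`: `ξ2 = (a/2^n, 2η)` is in `UG` (`S_RSC`); `L_g(ξ2) = J_g(a/2^N)/a ≤ J_g(a)/a = L_g(a, η)`, as `g ≤ 0` (monotonicity of the integral, both integrable by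
`S_INT`, since also `UG C g (a/2^N) η`), so `ψ(ξ2) ≥ ψ(a, η)`; `w(a, η) ≤ -a d` and `w(ξ2) = -Q(ξ2)/L_g(ξ2) ≥ -(a/2^n) D ≥ -a d` (`Q(ξ2) ≤ D J_g(ξ2)`, `L_g(ξ2) = (2^n/a) J_g(ξ2)`). So `h(ξ2) ≥ h(a, η)` by `HW`, `γ ≥ 0`.
(c) Let `y ∈ int C`, `p` a subgradient of `f` at `y` (`S_SUB`), `ξ = (1, -p)`, in `UG` by `Gr.strict`. `h(ξ) = f y - p y` (the infimum is attained at `y`). By (b)
`f y - p y ≤ h(1/2^n, -2p) ≤ -2 p(y/2) + f(y/2)/2^n = -p y + rsc f y` (the set is bounded below: `UG` and `f ≥ g - A`). -/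
def S_ORD : Prop := ∀ (n : ℕ) (C : Set (Fin n → ℝ)) (ι : Type) [Finite ι] [Nonempty ι]
  (l : ι → ((Fin n → ℝ) →ₗ[ℝ] ℝ)) (f δ : (Fin n → ℝ) → ℝ) (γ d D : ℝ), 1 ≤ n → IsCone C →
  Gr C (gg l) f → Del C (gg l) f δ → (∀ y ∈ C, gg l y ≤ 0) → HW C (gg l) f δ γ → 0 < d →
  D ≤ 2 ^ n * d → (∀ y ∈ interior C, d ≤ δ y ∧ δ y ≤ D) →
  0 ≤ γ ∧ ∀ y ∈ interior C, f y ≤ rsc f y

def M_ORD : Prop := S_GGB → S_CON → S_UGC → S_INT → S_SCL → S_RSC → S_SML → S_SUB → S_ORD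

/-- **MON**: monotone convergence. `f ≤ F` on `int C`, both continuous there, `f ≥ g - A`, and `(J_f(a) - J_F(a))/a → R(η)` for all `η ∈ UU C`. Then `e^{-η y}(F - f)` is integrable
and its integral is `R(η)`. Proof. The integrand of `(J_f(a) - J_F(a))/a` is `e^{-η y} k_a(y)`, `k_a = (e^{-a f} - e^{-a F})/a ≥ 0`, `k_a → F - f`. Fatou along `a = 1/k`
(`lintegral_liminf_le`): `∫⁻ e^{-η y}(F - f) ≤ R(η) < ∞`: integrable, for every `η ∈ UU C`. Domination: `k_a ≤ (F - f) e^{-a f} ≤ (F - f) e^{a |A|} e^{a B ‖y‖}`, and for small `a`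
`-η y + a B ‖y‖ ≤ -(η y)/2` on `C`; `η/2 ∈ UU C`: `e^{-η y/2}(F - f)` is integrable; dominated convergence. -/
def S_MON : Prop := ∀ (n : ℕ) (C : Set (Fin n → ℝ)) (ι : Type) [Finite ι] [Nonempty ι]
  (l : ι → ((Fin n → ℝ) →ₗ[ℝ] ℝ)) (f F : (Fin n → ℝ) → ℝ) (A : ℝ)
  (R : ((Fin n → ℝ) →ₗ[ℝ] ℝ) → ℝ), IsCone C →
  ContinuousOn f (interior C) → ContinuousOn F (interior C) →
  (∀ y ∈ interior C, gg l y - A ≤ f y) → (∀ y ∈ interior C, f y ≤ F y) →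
  (∀ η ∈ UU C, Tendsto (fun a : ℝ => (JJ C f a η - JJ C F a η) / a) (𝓝[>] 0) (𝓝 (R η))) →
  ∀ η ∈ UU C, IntegrableOn (fun y => Real.exp (-(η y)) * (F y - f y)) (interior C) ∧
    EU C (fun y => F y - f y) η = R η

def M_MON : Prop := S_GGB → S_CON → S_UGC → S_INT → S_SML → S_MON

/-- **UNQ**: uniqueness of Laplace transforms on a cone. If `UU C` is nonempty and `e^{-η y} u(y)` is integrable on `int C` with integral `0` for all `η ∈ UU C` then `u = 0` a.e. on `int C`.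
Proof. `UU C` is an open convex cone (`S_UGC`: `c ‖y‖ ≤ η y`), so it contains a basis `η_1, …, η_n` of the dual space (small perturbations `η + ε e_i*`), fix `η_0 ∈ UU C`. The measures
`ν± = e^{-η_0 y} u±(y) dy` on `int C` are finite, and `∫ e^{-Σ k_i η_i y} dν+ = ∫ e^{-Σ k_i η_i y} dν-` for all `k ∈ ℕ^n` (`η_0 + Σ k_i η_i ∈ UU C`).
Push forward under `Φ(y) = (e^{-η_1 y}, …, e^{-η_n y}) ∈ [0, 1]^n`, injective and continuous: the images have the same moments, by Stone-Weierstrass they coincide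
(`ext_of_forall_mem_subalgebra_integral_eq_of_polish` with the subalgebra generated by the coordinates on the compact cube, or polynomials are dense in `C([0,1]^n)`), so `ν+ = ν-` (`Φ` is a measurable
embedding of `int C`), `u+ = u-` a.e. (Alternatives: `Measure.ext_of_charFun` via analyticity, or one variable at a time.) -/
def S_UNQ : Prop := ∀ (n : ℕ) (C : Set (Fin n → ℝ)) (u : (Fin n → ℝ) → ℝ), IsCone C →
  (UU C).Nonempty →
  (∀ η ∈ UU C, IntegrableOn (fun y => Real.exp (-(η y)) * u y) (interior C) ∧ EU C u η = 0) →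
  ∀ᵐ y ∂(volume.restrict (interior C)), u y = 0

def M_UNQ : Prop := S_GGB → S_UGC → S_UNQ

/-! ## Conclusion of the core -/

/-- **DCO**: `δ` is constant. `q(y) = (F y - f y + κ g y)/λ` is continuous on the open convex set `int C` and equal to `δ` a.e., so it takes values in the finite set `S` a.e., hence everywhere on `int C`
(`S` is closed, a.e. implies dense: `Measure.IsOpenPosMeasure`, `ae_restrict`); a continuous function with values in a finite set is constant on a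
preconnected set (`IsPreconnected.constant_of_mapsTo` with the discrete topology on `S`, or: the image of a preconnected set is preconnected, an interval in a finite set is a point). -/
def S_DCO : Prop := ∀ (n : ℕ) (C : Set (Fin n → ℝ)) (ι : Type) [Finite ι] [Nonempty ι]
  (l : ι → ((Fin n → ℝ) →ₗ[ℝ] ℝ)) (f F δ : (Fin n → ℝ) → ℝ) (κ lam : ℝ) (S : Finset ℝ), IsCone C →
  ContinuousOn f (interior C) → ContinuousOn F (interior C) → 0 < lam →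
  (∀ᵐ y ∂(volume.restrict (interior C)), δ y ∈ S) →
  (∀ᵐ y ∂(volume.restrict (interior C)), F y - f y = -(κ * gg l y) + lam * δ y) →
  ∃ c : ℝ, (∀ y ∈ interior C, F y - f y = -(κ * gg l y) + lam * c) ∧
    ∀ᵐ y ∂(volume.restrict (interior C)), δ y = c

def M_DCO : Prop := S_GGB → S_CON → S_DCO

/-- **STR**: `ψ` is strictly concave between `(1, η1)` and `(1, η2)`, `η1 ≠ η2`. Let `ci = ψ(1, ηi) > 0`, `ζi = (1/ci) (1, ηi)`, `L_g(ζi) = 1` (`S_SCL`, `L_g > 0` by `S_INT`),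
`θ = c1/(c1 + c2)`; `θ ζ1 + (1 - θ) ζ2 = (2/(c1 + c2)) (1, (η1 + η2)/2)`. Strict convexity of `L_g(a, η) = ∫ e^{-η y - a g y}/a dy`: for fixed `y` the function
`(a, u) ↦ e^{-u - a g y}/a = exp(-u - a g y - log a)` is `exp` of a convex function, so convex, and strictly between `(a1, u1)` and `(a2, u2)` if `a1 ≠ a2` (`log` is strictly concave), or if `a1 = a2`, `u1 ≠ u2`;
if `c1 = c2` the two points have the same `a` and `u1 = u2` only on the hyperplane `(η1 - η2) y = 0`, a null set. So `L_g(θ ζ1 + (1 - θ) ζ2) < 1`, i.e. `ψ > 1` there, and `ψ` is homogeneous of degree one. -/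
def S_STR : Prop := ∀ (n : ℕ) (C : Set (Fin n → ℝ)) (ι : Type) [Finite ι] [Nonempty ι]
  (l : ι → ((Fin n → ℝ) →ₗ[ℝ] ℝ)), IsCone C →
  ∀ η₁ η₂ : (Fin n → ℝ) →ₗ[ℝ] ℝ, UG C (gg l) 1 η₁ → UG C (gg l) 1 η₂ → η₁ ≠ η₂ →
  UG C (gg l) 1 ((1 / 2 : ℝ) • (η₁ + η₂)) ∧
  (psi C (gg l) 1 η₁ + psi C (gg l) 1 η₂) / 2 < psi C (gg l) 1 ((1 / 2 : ℝ) • (η₁ + η₂))

def M_STR : Prop := S_GGB → S_CON → S_INT → S_SCL → S_STR

/-- **TIE**: no ties. Suppose `f y = rsc f y + κ g y - c'` on `int C`, `κ = 1 - 2^(-N) > 0`, `h(1, η) = γ ψ(1, η) + c''` for all `(1, η)` in `UG`, `γ ≥ 0`. Then there are no `y ∈ int C`, `i`, `k` with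
`l i y = l k y = g y`, `l i ≠ l k`. Proof. First `γ > 0`: suppose `γ = 0`, so `h(1, η) = c''` for all `(1, η)` in `UG`. For `y ∈ int C` let `p_y` be a subgradient of `f` at `y` (`S_SUB`); `(1, -p_y)` is in `UG` (`Gr.strict`) and
`h(1, -p_y) = f y - p_y y`, so `f y = c'' + p_y y`, and `f z ≥ f y + p_y (z - y) = c'' + p_y z` for all `z ∈ int C`, i.e. `p_z z ≥ p_y z`. Hence for `t > 0`: `f(t z) = c'' + t p_{tz} z ≤ c'' + t p_z z`
and `f(t z) ≥ c'' + t p_z z`, so `f(t z) = c'' + t p_z z`. `Gr.low`: `c'' + t p_z z ≥ t g z - A` for all `t > 0`, so `p_z z ≥ g z`. But `z ≠ 0` (`S_CON` (7)) and `UG C g 1 (-p_z)` give `p_z z < g z`.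
Subgradient computation (for every active `i`): for `z ∈ int C`, `f z = 2^(-n) f(z/2) + κ g z - c' ≥ 2^(-n) (f(y/2) + p0 (z - y)/2) + κ (g y + l i (z - y)) - c' = f y + (2^(-N) p0 + κ l i)(z - y)`.
Now let `i, k` be active at `y` with `l i ≠ l k`. `p1, p2` = the two subgradients, different; `ξj = (1, -pj)` in `UG`, `h(ξj) = f y - pj y`; `h` at the midpoint is `≤ f y - (p1 + p2) y/2` (value at `y`; bounded below), so by the formula
for `h`: `γ ψ(mid) ≤ γ (ψ(ξ1) + ψ(ξ2))/2`, contradiction to `S_STR`. -/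
def S_TIE : Prop := ∀ (n : ℕ) (C : Set (Fin n → ℝ)) (ι : Type) [Finite ι] [Nonempty ι]
  (l : ι → ((Fin n → ℝ) →ₗ[ℝ] ℝ)) (f : (Fin n → ℝ) → ℝ) (γ c' c'' : ℝ), 1 ≤ n → IsCone C →
  Gr C (gg l) f → 0 ≤ γ →
  (∀ y ∈ interior C, f y = rsc f y + (1 - (1 / 2) ^ (n + 1)) * gg l y - c') →
  (∀ η : (Fin n → ℝ) →ₗ[ℝ] ℝ, UG C (gg l) 1 η → hG C f 1 η = γ * psi C (gg l) 1 η + c'') →
  ∀ y ∈ interior C, ∀ i k, l i y = gg l y → l k y = gg l y → l i = l k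

def M_TIE : Prop := S_GGB → S_CON → S_SUB → S_STR → S_TIE

/-- **ONE**: if there are no ties then one functional is the largest on `C`. Fix `y0 ∈ int C` and `i0` active at `y0`. The sets `{g = l i0}` and `⋃_{l k ≠ l i0} {g = l k}` are closed, cover `int C` and do not meet in `int C`; `int C` is
preconnected (convex), the first contains `y0`: so `g = l i0` on `int C` (`isPreconnected_closed_iff`), and on `C = closure (int C)` by continuity. -/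
def S_ONE : Prop := ∀ (n : ℕ) (C : Set (Fin n → ℝ)) (ι : Type) [Finite ι] [Nonempty ι]
  (l : ι → ((Fin n → ℝ) →ₗ[ℝ] ℝ)), IsCone C →
  (∀ y ∈ interior C, ∀ i k, l i y = gg l y → l k y = gg l y → l i = l k) →
  ∃ i₀, ∀ i, ∀ y ∈ C, l i y ≤ l i₀ y

def M_ONE : Prop := S_GGB → S_CON → S_ONE

/-- **SHF**: shear and shift. Let `l0` be a functional and `c` a number, `l' i = l i - l0`, `f' = f - l0 + c`. Then `gg l' = gg l - l0`, `UG C (gg l') a η ↔ UG C (gg l) a (η - a l0)`, `LG C f' a η = e^{-a c} LG C f a (η - a l0)`,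
`LG C (gg l') a η = LG C (gg l) a (η - a l0)`, `hG C f' a η = hG C f a (η - a l0) + a c`: so `Gr C (gg l) f` implies `Gr C (gg l') f'`. -/
def S_SHF : Prop := ∀ (n : ℕ) (C : Set (Fin n → ℝ)) (ι : Type) [Finite ι] [Nonempty ι]
  (l : ι → ((Fin n → ℝ) →ₗ[ℝ] ℝ)) (f : (Fin n → ℝ) → ℝ) (l₀ : (Fin n → ℝ) →ₗ[ℝ] ℝ) (c : ℝ),
  IsCone C → Gr C (gg l) f → Gr C (gg fun i => l i - l₀) (fun y => f y - l₀ y + c)

def M_SHF : Prop := S_GGB → S_CON → S_UGC → S_SHF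

/-- **COR**, the core theorem: for a graph with the standing assumptions one functional is the largest on `C`. Assembly (helper88). By `S_SHF` we may assume `g ≤ 0` on `C`: `η ∈ UU C` (`S_POS`), `c ‖y‖ ≤ η y`, `g y ≤ B ‖y‖ ≤ (B/c) η y`, `l0 = (B/c) η`.
`δ` from `S_DEL` for `f`, bounded by `B`. Replace `f` by `f - c` (`S_SHF` with `l0 = 0`): `δ` is replaced by `δ + c`, choose `c` with `0 < -B + c` and `B + c ≤ 2^n (-B + c)`. `S_HWR`, `S_ORD`, `S_LIM`, `S_MON`, `S_UNQ` (for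
`u = rsc f - f + κ g - λ δ`, `κ = 1 - 2^(-N)`, `λ = 1 - 2^(-n)`), `S_DCO`: `δ = c0` a.e. and `rsc f - f = -κ g + λ c0` on `int C`. Then `w(a, η) = -a c0`, so `h(1, η) = γ ψ(1, η) - c0`, `S_TIE`, `S_ONE`. -/
def S_COR : Prop := ∀ (n : ℕ) (C : Set (Fin n → ℝ)) (ι : Type) [Finite ι] [Nonempty ι]
  (l : ι → ((Fin n → ℝ) →ₗ[ℝ] ℝ)) (f : (Fin n → ℝ) → ℝ), 1 ≤ n → IsCone C → Gr C (gg l) f →
  ∃ i₀, ∀ i, ∀ y ∈ C, l i y ≤ l i₀ y

end Pool.Agent.PRC
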